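import Pool.Agent.HopfSPC.Model
import Pool.Agent.HopfFin.Extend
import Pool.Agent.HopfFin.Lift
import Pool.Agent.HopfFin.Space

/-!
# A homeomorphism of `S¹ × S³` which is smooth over a circle agrees there with a diffeomorphism
-/

set_option autoImplicit false

open scoped ContDiff Topology Manifold
open Set Filter Metric

namespace Pool.Agent.HopfSPC

open Pool.Agent.HopfCov Pool.Agent.HopfCov.Smooth Pool.Agent.HopfFin

theorem fx_congr {f f' : V4 → V4} {x : V4}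
    (h : IsLocalDiffeomorphAt (𝓡 4) (𝓡 4) ∞ f x) (hff : f' =ᶠ[𝓝 x] f) :
    IsLocalDiffeomorphAt (𝓡 4) (𝓡 4) ∞ f' x := by
  obtain ⟨Φ, hx, hΦ⟩ := h
  obtain ⟨U, hU, hUo, hxU⟩ := _root_.eventually_nhds_iff.1 hff
  refine ⟨{ toPartialEquiv := (Φ.toOpenPartialHomeomorph.restrOpen U hUo).toPartialEquiv
            open_source := (Φ.toOpenPartialHomeomorph.restrOpen U hUo).open_source
            open_target := (Φ.toOpenPartialHomeomorph.restrOpen U hUo).open_target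
            contMDiffOn_toFun := Φ.contMDiffOn_toFun.mono ?_
            contMDiffOn_invFun := Φ.contMDiffOn_invFun.mono ?_ }, ?_, ?_⟩
  · intro y hy; exact hy.1
  · intro y hy; exact hy.1
  · exact ⟨hx, hxU⟩
  · intro y hy
    exact (hU y hy.2).trans (hΦ hy.1)

theorem fx_open {f : V4 → V4} {x : V4}
    (h : IsLocalDiffeomorphAt (𝓡 4) (𝓡 4) ∞ f x) :
    ∀ᶠ y in 𝓝 x, IsLocalDiffeomorphAt (𝓡 4) (𝓡 4) ∞ f y := by
  obtain ⟨Φ, hx, hΦ⟩ := h
  filter_upwards [Φ.open_source.mem_nhds hx] with y hy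
  exact ⟨Φ, hy, hΦ⟩

theorem fx_contDiffAt {H : E4 → E4} {Ψ : V4 → V4} (hH : ∀ x : V4, H x = Ψ x) {x : V4}
    (h : ContMDiffAt (𝓡 4) (𝓡 4) ∞ Ψ x) : ContDiffAt ℝ ∞ H (x : E4) := by
  have h1 : ContMDiffAt (𝓡 4) 𝓘(ℝ, E4) ∞ (fun y : V4 => (Ψ y : E4)) x :=
    (contMDiff_subtype_val (Ψ x)).comp x h
  have h2 : ContMDiffAt (𝓡 4) 𝓘(ℝ, E4) ∞ (fun y : V4 => H y) x := by
    have h3 : (fun y : V4 => H y) = fun y : V4 => (Ψ y : E4) := funext hH
    rw [h3]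
    exact h1
  exact (contMDiffAt_subtype_iff.1 h2).contDiffAt

theorem fx_inv {Ψ : V4 ≃ₜ V4} {x : V4}
    (h : IsLocalDiffeomorphAt (𝓡 4) (𝓡 4) ∞ Ψ x) :
    ContMDiffAt (𝓡 4) (𝓡 4) ∞ (Ψ⁻¹ : V4 ≃ₜ V4) (Ψ x) := by
  have h1 := h.localInverse_contMDiffAt
  refine h1.congr_of_eventuallyEq ?_
  filter_upwards [h.localInverse_open_source.mem_nhds h.localInverse_mem_source] with y hy
  have h2 := h.localInverse_right_inv hy
  show Ψ.symm y = _
  rw [Homeomorph.symm_apply_eq]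
  exact h2.symm

theorem fx_det {Ψ : V4 ≃ₜ V4} {H : E4 ≃ₜ E4} (hH : Extends H Ψ) {x : V4}
    (h : IsLocalDiffeomorphAt (𝓡 4) (𝓡 4) ∞ Ψ x) :
    ContDiffAt ℝ ∞ H (x : E4) ∧ (fderiv ℝ H (x : E4)).det ≠ 0 := by
  have hinv : ∀ y : V4, (H⁻¹ : E4 ≃ₜ E4) (y : E4) = ((Ψ⁻¹ : V4 ≃ₜ V4) y : E4) := hH.inv
  have hd : ContDiffAt ℝ ∞ H (x : E4) := fx_contDiffAt (Ψ := Ψ) hH h.contMDiffAt
  refine ⟨hd, fun h0 => ?_⟩
  have h1 : ContDiffAt ℝ ∞ (H⁻¹ : E4 ≃ₜ E4) (H (x : E4)) := by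
    have h2 := fx_contDiffAt (Ψ := (Ψ⁻¹ : V4 ≃ₜ V4)) (x := Ψ x) hinv (fx_inv h)
    rwa [← hH x] at h2
  have hcomp : HasFDerivAt (fun y => (H⁻¹ : E4 ≃ₜ E4) (H y))
      ((fderiv ℝ (H⁻¹ : E4 ≃ₜ E4) (H (x : E4))).comp (fderiv ℝ H (x : E4))) (x : E4) :=
    ((h1.differentiableAt (by simp)).hasFDerivAt).comp (x : E4)
      (hd.differentiableAt (by simp)).hasFDerivAt
  have hid : (fun y => (H⁻¹ : E4 ≃ₜ E4) (H y)) = fun y => y :=
    funext fun y => H.symm_apply_apply y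
  have hcomp' := hcomp.fderiv
  rw [hid] at hcomp'
  have hdd : (1 : ℝ) = (fderiv ℝ (H⁻¹ : E4 ≃ₜ E4) (H (x : E4))).det *
      (fderiv ℝ H (x : E4)).det := by
    rw [← det_comp_clm, ← hcomp', fderiv_fun_id]
    simp [ContinuousLinearMap.det]
  rw [h0, mul_zero] at hdd
  exact one_ne_zero hdd

theorem fx_reg {Ψ : V4 ≃ₜ V4} {H : E4 ≃ₜ E4} (hH : Extends H Ψ) {x : V4}
    (h : IsLocalDiffeomorphAt (𝓡 4) (𝓡 4) ∞ Ψ x) : Reg H (x : E4) := by
  have h1 : 𝓝 (x : E4) = map Subtype.val (𝓝 x) :=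
    (V4.isOpen.isOpenEmbedding_subtypeVal.map_nhds_eq x).symm
  unfold Reg
  rw [h1, eventually_map]
  exact (fx_open h).mono fun y hy => fx_det hH hy

/-- lifts of homeomorphisms of orbit spaces -/
theorem fx_lift {M X : Type} [TopologicalSpace M] [TopologicalSpace X]
    {g g' : V4 ≃ₜ V4} {p : V4 → M} {p' : V4 → X} (hc : IsCoveringMap p)
    (hc' : IsCoveringMap p') (hs' : Function.Surjective p')
    (hf : ∀ x y : V4, p x = p y ↔ ∃ n : ℤ, y = (g ^ n) x)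
    (hf' : ∀ x y : V4, p' x = p' y ↔ ∃ n : ℤ, y = (g' ^ n) x)
    (hfree' : ∀ (k : ℤ) (x : V4), (g' ^ k) x = x → k = 0) (F : M ≃ₜ X) :
    ∃ Ψ : V4 ≃ₜ V4, (∀ x, p' (Ψ x) = F (p x)) ∧ (Ψ * g * Ψ⁻¹ = g' ∨ Ψ * g * Ψ⁻¹ = g'⁻¹) := by
  have : LocallyCompactSpace V4 := V4.isOpen.isOpenEmbedding_subtypeVal.locallyCompactSpace
  have : LocallyPathConnectedSpace V4 := V4.isOpen.locallyPathConnectedSpace
  have : SimplyConnectedSpace V4 := specSimplyConnected E4 (by simp)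
  obtain ⟨x₀⟩ : Nonempty V4 := inferInstance
  obtain ⟨y₀, hy₀⟩ := hs' (F (p x₀))
  obtain ⟨Ψ, ⟨hΨ0, hΨ⟩, -⟩ := hc'.existsUnique_continuousMap_lifts
    (⟨fun x => F (p x), F.continuous.comp hc.continuous⟩ : C(V4, X)) x₀ y₀ hy₀
  obtain ⟨Φ, ⟨hΦ0, hΦ⟩, -⟩ := hc.existsUnique_continuousMap_lifts
    (⟨fun x => F.symm (p' x), F.symm.continuous.comp hc'.continuous⟩ : C(V4, M)) y₀ x₀
      (by
        change p x₀ = F.symm (p' y₀)
        rw [hy₀, F.symm_apply_apply])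
  have hΨ' : ∀ x, p' (Ψ x) = F (p x) := fun x => congrFun hΨ x
  have hΦ' : ∀ x, p (Φ x) = F.symm (p' x) := fun x => congrFun hΦ x
  have h1 : (fun x => Φ (Ψ x)) = fun x => x :=
    hc.eq_of_comp_eq (Φ.continuous.comp Ψ.continuous) continuous_id
      (by
        funext x
        change p (Φ (Ψ x)) = p x
        rw [hΦ', hΨ', F.symm_apply_apply]) x₀ (by
        rw [hΨ0, hΦ0])
  have h2 : (fun x => Ψ (Φ x)) = fun x => x :=
    hc'.eq_of_comp_eq (Ψ.continuous.comp Φ.continuous) continuous_id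
      (by
        funext x
        change p' (Ψ (Φ x)) = p' x
        rw [hΨ', hΦ', F.apply_symm_apply]) y₀ (by
        rw [hΦ0, hΨ0])
  let Ψh : V4 ≃ₜ V4 :=
    { toFun := Ψ
      invFun := Φ
      left_inv := fun x => congrFun h1 x
      right_inv := fun x => congrFun h2 x
      continuous_toFun := Ψ.continuous
      continuous_invFun := Φ.continuous }
  have key : ∃ n : ℤ, Ψh * g = g' ^ n * Ψh := by
    obtain ⟨n, hn⟩ := (hf' (Ψ x₀) (Ψ (g x₀))).1 (by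
      rw [hΨ', hΨ']
      congr 1
      exact (hf _ _).2 ⟨1, by rw [zpow_one]⟩)
    refine ⟨n, Homeomorph.ext fun x => ?_⟩
    have h3 : (fun x => Ψ (g x)) = fun x => (g' ^ n) (Ψ x) :=
      hc'.eq_of_comp_eq (Ψ.continuous.comp g.continuous) ((g' ^ n).continuous.comp Ψ.continuous)
        (by
          funext x
          change p' (Ψ (g x)) = p' ((g' ^ n) (Ψ x))
          rw [hΨ', ← (hf' (Ψ x) _).2 ⟨n, rfl⟩, hΨ']
          congr 1
          exact ((hf _ _).2 ⟨1, by rw [zpow_one]⟩).symm) x₀ hn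
    exact congrFun h3 x
  have key' : ∃ m : ℤ, Ψh⁻¹ * g' = g ^ m * Ψh⁻¹ := by
    obtain ⟨m, hm⟩ := (hf (Φ y₀) (Φ (g' y₀))).1 (by
      rw [hΦ', hΦ']
      congr 1
      exact (hf' _ _).2 ⟨1, by rw [zpow_one]⟩)
    refine ⟨m, Homeomorph.ext fun x => ?_⟩
    have h3 : (fun x => Φ (g' x)) = fun x => (g ^ m) (Φ x) :=
      hc.eq_of_comp_eq (Φ.continuous.comp g'.continuous) ((g ^ m).continuous.comp Φ.continuous)
        (by
          funext x
          change p (Φ (g' x)) = p ((g ^ m) (Φ x))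
          rw [hΦ', ← (hf (Φ x) _).2 ⟨m, rfl⟩, hΦ']
          congr 1
          exact ((hf' _ _).2 ⟨1, by rw [zpow_one]⟩).symm) y₀ hm
    exact congrFun h3 x
  obtain ⟨n, hn⟩ := key
  obtain ⟨m, hm⟩ := key'
  have hn' : Ψh * g * Ψh⁻¹ = g' ^ n := by rw [hn]; group
  have hm' : Ψh⁻¹ * g' * Ψh = g ^ m := by rw [hm]; group
  have hnm : n * m = 1 := by
    have h4 : g' = g' ^ (n * m) := by
      calc g' = Ψh * (Ψh⁻¹ * g' * Ψh) * Ψh⁻¹ := by group
        _ = Ψh * g ^ m * Ψh⁻¹ := by rw [hm']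
        _ = (Ψh * g * Ψh⁻¹) ^ m := by rw [conj_zpow]
        _ = (g' ^ n) ^ m := by rw [hn']
        _ = g' ^ (n * m) := by rw [zpow_mul]
    have h5 : g' ^ (n * m - 1) = 1 := by
      rw [zpow_sub, ← h4, zpow_one]; group
    have h6 := hfree' (n * m - 1) x₀ (by rw [h5]; rfl)
    omega
  refine ⟨Ψh, hΨ', ?_⟩
  rcases Int.mul_eq_one_iff_eq_one_or_neg_one.1 hnm with h | h
  · left; rw [hn', h.1, zpow_one]
  · right; rw [hn', h.1, zpow_neg, zpow_one]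

/-- the lift is a local diffeomorphism where the homeomorphism of the orbit spaces is one -/
theorem fx_loc {M : Type} [TopologicalSpace M] [ChartedSpace E4 M]
    {X : Type} [TopologicalSpace X] {E' H' : Type} [NormedAddCommGroup E'] [NormedSpace ℝ E']
    [TopologicalSpace H'] {I' : ModelWithCorners ℝ E' H'} [ChartedSpace H' X]
    {p : V4 → M} {q : V4 → X} (hp : IsLocalDiffeomorph (𝓡 4) (𝓡 4) ∞ p)
    (hq0 : IsLocalDiffeomorph (𝓡 4) I' ∞ q) {F : M ≃ₜ X} {Ψ : V4 ≃ₜ V4}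
    (hΨ : ∀ x, q (Ψ x) = F (p x)) {x : V4}
    (hF : IsLocalDiffeomorphAt (𝓡 4) I' ∞ F (p x)) :
    IsLocalDiffeomorphAt (𝓡 4) (𝓡 4) ∞ Ψ x := by
  have hq := hq0 (Ψ x)
  have hFp : IsLocalDiffeomorphAt (𝓡 4) I' ∞ (F ∘ p) x := (hp x).comp (K := I') (hg := hF)
  have hq2 : IsLocalDiffeomorphAt I' (𝓡 4) ∞ hq.localInverse (F (p x)) := by
    rw [← hΨ x]
    exact hq.localInverse_isLocalDiffeomorphAt
  have h7 : IsLocalDiffeomorphAt (𝓡 4) (𝓡 4) ∞ (hq.localInverse ∘ (F ∘ p)) x :=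
    hFp.comp (K := 𝓡 4) (hg := hq2)
  refine fx_congr h7 ?_
  have h8 := hq.localInverse_eventuallyEq_left
  have h9 : ∀ᶠ y in 𝓝 x, (hq.localInverse ∘ q) (Ψ y) = id (Ψ y) :=
    Ψ.continuous.continuousAt.eventually h8
  filter_upwards [h9] with y hy
  show Ψ y = hq.localInverse (F (p y))
  rw [← hΨ y]
  exact hy.symm


/-- the cone without the origin, as an open subset -/
def cone' (δ : ℝ) : Set E4 := {x | ‖HopfFin.pr x‖ < δ * x 0}

theorem cone'_sub (δ : ℝ) : cone' δ ⊆ Cone δ := fun x (hx : ‖HopfFin.pr x‖ < δ * x 0) =>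
  (show ‖HopfFin.pr x‖ ≤ δ * x 0 from hx.le)

theorem isOpen_cone' (δ : ℝ) : IsOpen (cone' δ) := by
  have h1 : Continuous (HopfFin.pr : E4 → E4) := by
    unfold HopfFin.pr
    fun_prop
  exact isOpen_lt h1.norm (continuous_const.mul (by fun_prop))

theorem smul_cone' {δ c : ℝ} (hc : 0 < c) {x : E4} (hx : x ∈ cone' δ) : c • x ∈ cone' δ := by
  show ‖HopfFin.pr (c • x)‖ < δ * (c • x) 0
  rw [pr_smul, norm_smul, Real.norm_eq_abs, abs_of_pos hc, PiLp.smul_apply, smul_eq_mul]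
  have h1 : ‖HopfFin.pr x‖ < δ * x 0 := hx
  nlinarith

theorem e0_cone' {δ t : ℝ} (hδ : 0 < δ) (ht : 0 < t) : t • e0 ∈ cone' δ := by
  show ‖HopfFin.pr (t • e0)‖ < δ * (t • e0) 0
  rw [pr_smul, pr_e0, smul_zero, norm_zero, PiLp.smul_apply, e0_apply_zero, smul_eq_mul, mul_one]
  positivity

theorem tau_pow_cone' {τ : V4 ≃ₜ V4} (hτ : ∀ x : V4, (τ x : E4) = (2⁻¹ : ℝ) • (x : E4)) {δ : ℝ}
    (n : ℤ) {x : V4} (hx : (x : E4) ∈ cone' δ) : (((τ ^ n) x : V4) : E4) ∈ cone' δ := by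
  have hτ' : ∀ x : V4, ((τ⁻¹ : V4 ≃ₜ V4) x : E4) = (2 : ℝ) • (x : E4) := by
    intro x
    have h1 := hτ ((τ⁻¹ : V4 ≃ₜ V4) x)
    have h2 : τ ((τ⁻¹ : V4 ≃ₜ V4) x) = x := τ.apply_symm_apply x
    rw [h2] at h1
    rw [h1, smul_smul]
    norm_num
  induction n using Int.induction_on generalizing x with
  | zero => simpa using hx
  | succ n ih =>
    rw [zpow_add_one]
    refine ih ?_
    show ((τ x : V4) : E4) ∈ cone' δ
    rw [hτ]
    exact smul_cone' (by norm_num) hx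
  | pred n ih =>
    rw [zpow_sub_one]
    refine ih ?_
    show (((τ⁻¹ : V4 ≃ₜ V4) x : V4) : E4) ∈ cone' δ
    rw [hτ']
    exact smul_cone' (by norm_num) hx

theorem e0_ne : (e0 : E4) ≠ 0 := by
  intro h
  have h1 := HopfFin.norm_e0
  rw [h, norm_zero] at h1
  exact zero_ne_one h1

theorem reg_inv {T : E4 ≃ₜ E4} {x : E4} (h : Reg T x) : Reg (T⁻¹ : E4 ≃ₜ E4) (T x) := by
  have h1 : ∀ᶠ y in 𝓝 x, Reg T y := h.eventually_nhds
  have h2 : ∀ᶠ y in 𝓝 (T x), Reg T ((T⁻¹ : E4 ≃ₜ E4) y) := by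
    have h3 : Tendsto (T⁻¹ : E4 ≃ₜ E4) (𝓝 (T x)) (𝓝 x) := by
      have h4 := (T⁻¹ : E4 ≃ₜ E4).continuous.tendsto (T x)
      rwa [inv_apply_self'] at h4
    exact h3.eventually h1
  filter_upwards [h2] with y hy
  have h3 : RG T ((T⁻¹ : E4 ≃ₜ E4) y) := hy.self_of_nhds
  exact h3.inv'

/-- A homeomorphism of orbit spaces of `τ` which is a local diffeomorphism over the circle of the ray
through `e0` agrees near the preimage of this circle with a diffeomorphism. -/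
theorem fix_orbit {N X : Mfd4} {τ : V4 ≃ₜ V4} (h5 : Extends tau τ)
    (h6 : ∀ x : V4, (τ x : E4) = (2⁻¹ : ℝ) • (x : E4)) {p : V4 → N.carrier} {p' : V4 → X.carrier}
    (hp : OrbitMap τ (M := N.carrier) p) (hp' : OrbitMap τ (M := X.carrier) p')
    (F : N.carrier ≃ₜ X.carrier)
    (hF : ∀ (n : N) (x : V4) (t : ℝ), 0 < t → (x : E4) = t • e0 → F n = p' x →
      IsLocalDiffeomorphAt (𝓡 4) (𝓡 4) ∞ F n) :
    ∃ D : N.carrier ≃ₜ X.carrier, (∀ x, IsLocalDiffeomorphAt (𝓡 4) (𝓡 4) ∞ D x) ∧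
      ∃ W : Set N.carrier, IsOpen W ∧
        (∀ (n : N) (x : V4) (t : ℝ), 0 < t → (x : E4) = t • e0 → F n = p' x → n ∈ W) ∧
        EqOn D F W := by
  have hctau : Contr (tau : E4 ≃ₜ E4) := Contr_tauL _
  have hfree := free_of_contr h5 hctau
  have hcp : IsCoveringMap p := isCoveringMap_of_orbits hp.loc.isLocalHomeomorph hp.surj hp.fib hfree
  have hcp' : IsCoveringMap p' :=
    isCoveringMap_of_orbits hp'.loc.isLocalHomeomorph hp'.surj hp'.fib hfree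
  obtain ⟨Ψ, k1, k2⟩ := fx_lift hcp hcp' hp'.surj hp.fib hp'.fib hfree F
  obtain ⟨J, j1, j2, j3⟩ := inversion_data
  have hJτ : J * τ * J⁻¹ = τ⁻¹ := inversion_conj (L := LinearIsometryEquiv.refl ℝ E4) j3
    (fun _ => rfl) h6
  have hJJ : ∀ x : V4, J (J x) = x := by
    intro x
    apply Subtype.ext
    have hx : ‖(x : E4)‖ ≠ 0 := norm_ne_zero_iff.2 (V4_ne x)
    rw [j3, j3, norm_smul, smul_smul, norm_inv, norm_pow, norm_norm]
    have : ((((‖(x : E4)‖ ^ 2)⁻¹ * ‖(x : E4)‖) ^ 2)⁻¹ * (‖(x : E4)‖ ^ 2)⁻¹) = 1 := by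
      field_simp
    rw [this, one_smul]
  -- the regularity of the lift
  have hreg : ∀ x : V4, (∃ t : ℝ, 0 < t ∧ ((Ψ x : V4) : E4) = t • e0) →
      IsLocalDiffeomorphAt (𝓡 4) (𝓡 4) ∞ Ψ x := by
    rintro x ⟨t, ht, hx⟩
    exact fx_loc hp.loc hp'.loc k1 (hF _ (Ψ x) t ht hx (k1 x).symm)
  -- the main step
  have main : ∀ (Θ K : V4 ≃ₜ V4) (T : E4 ≃ₜ E4), Extends T Θ → Ψ = K * Θ →
      (∀ x, IsLocalDiffeomorphAt (𝓡 4) (𝓡 4) ∞ K x) → (K * τ = τ * K ∨ K * τ = τ⁻¹ * K) →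
      (Θ * τ * Θ⁻¹ = τ ∨ Θ * τ * Θ⁻¹ = τ⁻¹) →
      (∀ (δ : ℝ) (x : V4), ((K x : V4) : E4) ∈ cone' δ → (x : E4) ∈ cone' δ) →
      (∀ (x : V4) (t : ℝ), 0 < t → ((Θ x : V4) : E4) = t • e0 →
        IsLocalDiffeomorphAt (𝓡 4) (𝓡 4) ∞ Θ x) →
      ∃ D : N.carrier ≃ₜ X.carrier, (∀ x, IsLocalDiffeomorphAt (𝓡 4) (𝓡 4) ∞ D x) ∧
        ∃ W : Set N.carrier, IsOpen W ∧
          (∀ (n : N) (x : V4) (t : ℝ), 0 < t → (x : E4) = t • e0 → F n = p' x → n ∈ W) ∧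
          EqOn D F W := by
    intro Θ K T hT hΨ hK hKτ hΘ hKc hr
    have hT0 : T 0 = 0 := hT.zero
    have hTG : Extends (T * tau * T⁻¹) (Θ * τ * Θ⁻¹) := (hT.mul h5).mul hT.inv
    have hc2 : Contr (T * tau * T⁻¹) := hctau.conj hT0
    have e1 : T * tau * T⁻¹ = tau := by
      rcases hΘ with h | h
      · rw [h] at hTG
        exact hTG.unique h5
      · exfalso
        rw [h] at hTG
        have e2 : T * tau * T⁻¹ = tau⁻¹ := hTG.unique h5.inv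
        rw [e2] at hc2
        exact hctau.not_inv hc2
    have hcomm : T * tau = tau * T := by
      conv_rhs => rw [← e1]
      rw [mul_assoc, inv_mul_cancel, mul_one]
    have hcomm' : T⁻¹ * tau = tau * T⁻¹ := by
      rw [inv_mul_eq_iff_eq_mul, ← mul_assoc, hcomm, mul_assoc, mul_inv_cancel, mul_one]
    have hRay : RegRay (T⁻¹ : E4 ≃ₜ E4) := by
      intro t ht
      have hne : t • (e0 : E4) ≠ 0 := smul_ne_zero ht.ne' e0_ne
      have e3 : (T⁻¹ : E4 ≃ₜ E4) (t • e0) = (((Θ⁻¹ : V4 ≃ₜ V4) ⟨t • e0, hne⟩ : V4) : E4) :=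
        hT.inv ⟨t • e0, hne⟩
      have e4 : Θ ((Θ⁻¹ : V4 ≃ₜ V4) ⟨t • e0, hne⟩) = ⟨t • e0, hne⟩ := Θ.apply_symm_apply _
      have e5 : Reg T ((T⁻¹ : E4 ≃ₜ E4) (t • e0)) := by
        rw [e3]
        refine fx_reg hT (hr _ t ht ?_)
        rw [e4]
      have e6 := reg_inv e5
      rwa [apply_inv_self'] at e6
    obtain ⟨ψ, hψ, δ, hδ, hag⟩ := extend_germ (T⁻¹ : E4 ≃ₜ E4) hRay
      ⟨1, one_pos, fun x _ => DFunLike.congr_fun hcomm' x⟩
      (fun s t _ _ hst => by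
        have h1 := (T⁻¹ : E4 ≃ₜ E4).injective hst
        have h2 : (s - t) • (e0 : E4) = 0 := by rw [sub_smul, h1, sub_self]
        rcases smul_eq_zero.1 h2 with h3 | h3
        · linarith
        · exact absurd h3 e0_ne)
    -- the diffeomorphism of the covering
    have hψi : Pz ψ⁻¹ := hψ.inv
    obtain ⟨χ, c1, -, c3⟩ := restr_gen ψ⁻¹ hψi.sm.1
    have hχl : ∀ x, IsLocalDiffeomorphAt (𝓡 4) (𝓡 4) ∞ χ x := by
      intro x
      obtain ⟨s, hs, hPD⟩ := hψi.sm.exists_sign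
      refine c3 s x ?_
      filter_upwards [isOpen_ne.mem_nhds (V4_ne x)] with y hy using hPD.2 y hy
    have hχτ : χ * τ = τ * χ := by
      ext1 x
      apply Subtype.ext
      show ((χ (τ x) : V4) : E4) = ((τ (χ x) : V4) : E4)
      rw [c1, h6, h6, c1]
      exact hψi.eqv x
    have hKχl : ∀ x, IsLocalDiffeomorphAt (𝓡 4) (𝓡 4) ∞ (K * χ : V4 ≃ₜ V4) x := fun x =>
      (hχl x).comp (K := 𝓡 4) (hg := hK (χ x))
    obtain ⟨D, d1, d2⟩ : ∃ D : N.carrier ≃ₜ X.carrier, (∀ x, D (p x) = p' ((K * χ) x)) ∧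
        ∀ x, IsLocalDiffeomorphAt (𝓡 4) (𝓡 4) ∞ (K * χ : V4 ≃ₜ V4) x →
          IsLocalDiffeomorphAt (𝓡 4) (𝓡 4) ∞ D (p x) := by
      rcases hKτ with h | h
      · exact descend_gen hp hp'.surj hp'.loc hp'.fib (K * χ) (by
          rw [mul_assoc, hχτ, ← mul_assoc, h, mul_assoc])
      · refine descend_gen (g' := τ⁻¹) hp hp'.surj hp'.loc ?_ (K * χ) (by
          rw [mul_assoc, hχτ, ← mul_assoc, h, mul_assoc])
        intro x y
        rw [hp'.fib]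
        constructor
        · rintro ⟨n, hn⟩
          exact ⟨-n, by rw [hn, inv_zpow, zpow_neg, inv_inv]⟩
        · rintro ⟨n, hn⟩
          exact ⟨-n, by rw [hn, inv_zpow, zpow_neg]⟩
    refine ⟨D, fun n => ?_, F ⁻¹' (p' '' {x : V4 | (x : E4) ∈ cone' δ}), ?_, ?_, ?_⟩
    · obtain ⟨x, rfl⟩ := hp.surj n
      exact d2 x (hKχl x)
    · exact (hp'.loc.isOpenMap _ ((isOpen_cone' δ).preimage continuous_subtype_val)).preimage
        F.continuous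
    · intro n x t ht hx hn
      refine ⟨x, ?_, hn.symm⟩
      show (x : E4) ∈ cone' δ
      rw [hx]
      exact e0_cone' hδ ht
    · rintro n ⟨y, hy, hyn⟩
      obtain ⟨x, rfl⟩ := hp.surj n
      rw [d1, ← k1 x]
      have e1 : ((Ψ x : V4) : E4) ∈ cone' δ := by
        obtain ⟨m, hm⟩ := (hp'.fib y (Ψ x)).1 (by rw [k1, hyn])
        rw [hm]
        exact tau_pow_cone' h6 m hy
      have e2 : ((Θ x : V4) : E4) ∈ cone' δ := by
        rw [hΨ] at e1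
        exact hKc δ (Θ x) e1
      have e3 : χ x = Θ x := by
        apply Subtype.ext
        rw [c1, ← hT x]
        have e4 : ψ (T x) = x := by
          rw [hag (T x) (cone'_sub δ (by rw [hT x]; exact e2))]
          exact inv_apply_self' _ _
        show (ψ⁻¹ : E4 ≃ₜ E4) (x : E4) = T x
        conv_lhs => rw [← e4]
        exact inv_apply_self' _ _
      rw [hΨ]
      show p' (K (χ x)) = p' (K (Θ x))
      rw [e3]
  by_cases hex : ∃ T : E4 ≃ₜ E4, Extends T Ψ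
  · obtain ⟨T, hT⟩ := hex
    refine main Ψ 1 T hT (one_mul Ψ).symm ?_ (Or.inl (by rw [one_mul, mul_one])) k2
      (fun δ x hx => hx) (fun x t ht hx => hreg x ⟨t, ht, hx⟩)
    intro x
    obtain ⟨τ1, t1, -, t3⟩ := restr_gen (1 : E4 ≃ₜ E4) rfl
    have h1 : τ1 = 1 := by
      ext1 y
      exact Subtype.ext (t1 y)
    rw [← h1]
    exact t3 1 x (Eventually.of_forall fun y => LD_id y)
  · obtain ⟨T, hT⟩ := specSwapMul J Ψ j2 hex
    refine main (J * Ψ) J T hT ?_ (fun x => j1 x) (Or.inr ?_) ?_ ?_ ?_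
    · ext1 x
      exact (hJJ (Ψ x)).symm
    · rw [← hJτ]
      group
    · have e5 : J * Ψ * τ * (J * Ψ)⁻¹ = J * (Ψ * τ * Ψ⁻¹) * J⁻¹ := by group
      rw [e5]
      rcases k2 with h | h
      · right
        rw [h, hJτ]
      · left
        rw [h]
        have e6 : J * τ⁻¹ * J⁻¹ = (J * τ * J⁻¹)⁻¹ := by group
        rw [e6, hJτ, inv_inv]
    · intro δ x hx
      have h1 : ‖(x : E4)‖ ≠ 0 := norm_ne_zero_iff.2 (V4_ne x)
      rw [j3] at hx
      have h2 : (x : E4) = (‖(x : E4)‖ ^ 2) • ((‖(x : E4)‖ ^ 2)⁻¹ • (x : E4)) := by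
        rw [smul_smul, mul_inv_cancel₀ (by positivity), one_smul]
      rw [h2]
      exact smul_cone' (by positivity) hx
    · intro x t ht hx
      have h1 : ‖((Ψ x : V4) : E4)‖ ≠ 0 := norm_ne_zero_iff.2 (V4_ne _)
      have e7 : (‖((Ψ x : V4) : E4)‖ ^ 2)⁻¹ • ((Ψ x : V4) : E4) = t • e0 := by
        rw [← j3 (Ψ x)]
        exact hx
      have e8 := hreg x ⟨‖((Ψ x : V4) : E4)‖ ^ 2 * t, by positivity, by
        rw [mul_smul, ← e7, smul_smul, mul_inv_cancel₀ (by positivity), one_smul]⟩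
      exact e8.comp (K := 𝓡 4) (hg := j1 (Ψ x))

end Pool.Agent.HopfSPC
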