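import Pool.Agent.HopfSPC.Replace
import Pool.Agent.HopfSPC.Fix

/-!
# Assembly
-/

set_option autoImplicit false

open scoped ContDiff Topology Manifold
open Set Filter Metric

namespace Pool.Agent.HopfSPC

open Pool.Agent.HopfCov Pool.Agent.HopfCov.Smooth Pool.Agent.HopfFin

section General

variable {E₁ H₁ E₂ H₂ : Type} [NormedAddCommGroup E₁] [NormedSpace ℝ E₁] [TopologicalSpace H₁]
  [NormedAddCommGroup E₂] [NormedSpace ℝ E₂] [TopologicalSpace H₂]
  {I : ModelWithCorners ℝ E₁ H₁} {J : ModelWithCorners ℝ E₂ H₂}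
  {M N : Type} [TopologicalSpace M] [ChartedSpace H₁ M] [TopologicalSpace N] [ChartedSpace H₂ N]

theorem lda_congr {f f' : M → N} {x : M}
    (h : IsLocalDiffeomorphAt I J ∞ f x) (hff : f' =ᶠ[𝓝 x] f) :
    IsLocalDiffeomorphAt I J ∞ f' x := by
  obtain ⟨Φ, hx, hΦ⟩ := h
  obtain ⟨U, hU, hUo, hxU⟩ := _root_.eventually_nhds_iff.1 hff
  refine ⟨{ toPartialEquiv := (Φ.toOpenPartialHomeomorph.restrOpen U hUo).toPartialEquiv
            open_source := (Φ.toOpenPartialHomeomorph.restrOpen U hUo).open_source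
            open_target := (Φ.toOpenPartialHomeomorph.restrOpen U hUo).open_target
            contMDiffOn_toFun := Φ.contMDiffOn_toFun.mono ?_
            contMDiffOn_invFun := Φ.contMDiffOn_invFun.mono ?_ }, ?_, ?_⟩
  · intro y hy; exact hy.1
  · intro y hy; exact hy.1
  · exact ⟨hx, hxU⟩
  · intro y hy
    exact (hU y hy.2).trans (hΦ hy.1)

theorem lda_symm (F : M ≃ₜ N) {x : M} (h : IsLocalDiffeomorphAt I J ∞ F x) :
    IsLocalDiffeomorphAt J I ∞ F.symm (F x) := by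
  refine lda_congr h.localInverse_isLocalDiffeomorphAt ?_
  filter_upwards [h.localInverse_open_source.mem_nhds h.localInverse_mem_source] with y hy
  have h2 := h.localInverse_right_inv hy
  rw [Homeomorph.symm_apply_eq]
  exact h2.symm

theorem lda_symm' (k : OpenPartialHomeomorph M N) {x : M} (hx : x ∈ k.source)
    (h : IsLocalDiffeomorphAt I J ∞ k x) : IsLocalDiffeomorphAt J I ∞ k.symm (k x) := by
  refine lda_congr h.localInverse_isLocalDiffeomorphAt ?_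
  have h1 : h.localInverse (k x) = x := h.localInverse_left_inv h.localInverse_mem_target
  have h2 : ContinuousAt h.localInverse (k x) := h.localInverse_contMDiffAt.continuousAt
  have h3 : ∀ᶠ y in 𝓝 (k x), h.localInverse y ∈ k.source :=
    h2.eventually (by rw [h1]; exact k.open_source.mem_nhds hx)
  filter_upwards [h.localInverse_open_source.mem_nhds h.localInverse_mem_source, h3] with y hy hy'
  have h4 := h.localInverse_right_inv hy
  conv_lhs => rw [← h4]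
  exact k.left_inv hy'

end General

theorem homeo_of_diffeo {M N : Mfd4} {g : M → N} (h : IsDiffeo g) :
    ∃ G : M.carrier ≃ₜ N.carrier, ∀ x, G x = g x := by
  have hc : Continuous g := h.2.contMDiff.continuous
  exact ⟨(Equiv.ofBijective g h.1).toHomeomorphOfContinuousOpen hc h.2.isOpenMap, fun x => rfl⟩

theorem diffeo_of_homeo {M N : Mfd4} (G : M.carrier ≃ₜ N.carrier)
    (h : ∀ x, IsLocalDiffeomorphAt (𝓡 4) (𝓡 4) ∞ G x) : IsDiffeo (M := M) (N := N) G :=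
  ⟨G.bijective, h⟩

/-- `S¹ × S³` as a manifold modelled on `ℝ⁴` -/
theorem exists_X : ∃ (X : Mfd4) (τ : V4 ≃ₜ V4) (p : V4 → X.carrier) (i : X.carrier ≃ₜ CS3),
    Extends tau τ ∧ (∀ x : V4, (τ x : E4) = (2⁻¹ : ℝ) • (x : E4)) ∧
    OrbitMap τ (M := X.carrier) p ∧
    (∀ x, IsLocalDiffeomorphAt (𝓡 4) ((𝓡 1).prod (𝓡 3)) ∞ i x) ∧
    ∀ x : V4, (((i (p x)).2 : sphere (0 : E4) 1) : E4) = ‖(x : E4)‖⁻¹ • (x : E4) := by
  obtain ⟨τ, h5, h6⟩ := exists_tau
  obtain ⟨q₀, c1, c2, c3, c4⟩ := modelDir τ h6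
  obtain ⟨C, hman, hp⟩ := exists_structure_gen (one_mul 1) (p := q₀) h5 PD_tau
    c1 c2.isLocalHomeomorph c3
  let X : Mfd4 := ⟨Circle × sphere (0 : E4) 1, inferInstance, C, hman⟩
  have hp' : OrbitMap τ (M := X.carrier) q₀ := hp
  obtain ⟨F, F1, F2⟩ := descend_gen hp' c1 c2 c3 1 (by rw [one_mul, mul_one])
  refine ⟨X, τ, q₀, F, h5, h6, hp', fun x => ?_, fun x => ?_⟩
  · obtain ⟨y, rfl⟩ := hp'.surj x
    refine F2 y ?_
    obtain ⟨τ1, t1, -, t3⟩ := restr_gen (1 : E4 ≃ₜ E4) rfl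
    have h1 : τ1 = 1 := by
      ext1 y
      exact Subtype.ext (t1 y)
    rw [← h1]
    exact t3 1 y (Eventually.of_forall fun y => LD_id y)
  · rw [F1 x]
    exact c4 x

/-- everything about the model which is used below -/
structure Mod (X : Mfd4) (τ : V4 ≃ₜ V4) (p : V4 → X.carrier) (i : X.carrier ≃ₜ CS3) : Prop where
  ext : Extends tau τ
  half : ∀ x : V4, (τ x : E4) = (2⁻¹ : ℝ) • (x : E4)
  orb : OrbitMap τ (M := X.carrier) p
  loc : ∀ x, IsLocalDiffeomorphAt (𝓡 4) ((𝓡 1).prod (𝓡 3)) ∞ i x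
  dir : ∀ x : V4, (((i (p x)).2 : sphere (0 : E4) 1) : E4) = ‖(x : E4)‖⁻¹ • (x : E4)

variable {X : Mfd4} {τ : V4 ≃ₜ V4} {p : V4 → X.carrier} {i : X.carrier ≃ₜ CS3}

/-- the circle over `e0` -/
def circ (i : X.carrier ≃ₜ CS3) : Set X := {x | (i x).2 = b3}

theorem Mod.compact (_ : Mod X τ p i) : CompactSpace X.carrier := i.symm.compactSpace

theorem Mod.t2 (_ : Mod X τ p i) : T2Space X.carrier := i.isEmbedding.t2Space

/-- a point over the circle comes from the ray -/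
theorem Mod.ray (h : Mod X τ p i) {x : V4} (hx : p x ∈ circ i) :
    ∃ t : ℝ, 0 < t ∧ (x : E4) = t • e0 := by
  have h1 := h.dir x
  have h2 : (i (p x)).2 = b3 := hx
  rw [h2] at h1
  have hn : 0 < ‖(x : E4)‖ := norm_pos_iff.2 (V4_ne x)
  refine ⟨‖(x : E4)‖, hn, ?_⟩
  have h3 : (e0 : E4) = ‖(x : E4)‖⁻¹ • (x : E4) := h1
  rw [h3, smul_smul, mul_inv_cancel₀ hn.ne', one_smul]

theorem Mod.ray' (h : Mod X τ p i) {x : V4} {t : ℝ} (ht : 0 < t) (hx : (x : E4) = t • e0) :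
    p x ∈ circ i := by
  show (i (p x)).2 = b3
  apply Subtype.ext
  rw [h.dir, hx, norm_smul, HopfFin.norm_e0, mul_one, Real.norm_eq_abs, abs_of_pos ht, smul_smul,
    inv_mul_cancel₀ ht.ne', one_smul]
  rfl

/-- the partial diffeomorphism between `S¹ × S³` and `S⁴` -/
noncomputable def kX (i : X.carrier ≃ₜ CS3) : OpenPartialHomeomorph X Sphere4 :=
  i.toOpenPartialHomeomorph.trans kk

theorem kX_source (i : X.carrier ≃ₜ CS3) : (kX i).sourceᶜ = circ i := by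
  ext x
  have h1 : x ∈ (kX i).source ↔ (i x).2 ≠ b3 := ⟨fun hx => hx.2, fun hx => ⟨mem_univ _, hx⟩⟩
  rw [mem_compl_iff, h1, not_not]
  rfl

theorem kX_target (i : X.carrier ≃ₜ CS3) : (kX i).targetᶜ = Sphere2 := by
  ext x
  have h1 : x ∈ (kX i).target ↔ ¬ InS2 x := ⟨fun hx => hx.1, fun hx => ⟨hx, mem_univ _⟩⟩
  rw [mem_compl_iff, h1, not_not]
  rfl

theorem kX_lda (h : Mod X τ p i) (x : X) (hx : x ∈ (kX i).source) :
    LocalDiffeoAt (M := X) (X := Sphere4) (kX i) x := by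
  have h1 : i x ∈ kk.source := hx.2
  exact (h.loc x).comp (K := 𝓡 4) (hg := kk_lda h1)

/-- `fix_orbit` for a standard manifold -/
theorem fix_std (hX : Mod X τ p i) {N : Mfd4} (hN : DiffeoS1S3 N) (F : N ≃ₜ X)
    (hF : SmoothOver F (circ i)) : ∃ D, Straightens F (circ i) D := by
  obtain ⟨δ⟩ := hN
  let Δ : N.carrier ≃ₜ CS3 := δ.toHomeomorph
  have hΔ : ∀ x, IsLocalDiffeomorphAt (𝓡 4) ((𝓡 1).prod (𝓡 3)) ∞ Δ x := δ.isLocalDiffeomorph
  let q : V4 → N.carrier := fun x => Δ.symm (i (p x))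
  have hq : OrbitMap τ (M := N.carrier) q := by
    refine ⟨fun n => ?_, fun x => ?_, fun x y => ?_⟩
    · obtain ⟨x, hx⟩ := hX.orb.surj (i.symm (Δ n))
      refine ⟨x, ?_⟩
      show Δ.symm (i (p x)) = n
      rw [hx, i.apply_symm_apply, Δ.symm_apply_apply]
    · have h1 : IsLocalDiffeomorphAt (𝓡 4) ((𝓡 1).prod (𝓡 3)) ∞ (fun x => i (p x)) x :=
        (hX.orb.loc x).comp (K := (𝓡 1).prod (𝓡 3)) (hg := hX.loc (p x))
      have h2 : IsLocalDiffeomorphAt ((𝓡 1).prod (𝓡 3)) (𝓡 4) ∞ Δ.symm (i (p x)) := by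
        have h3 := lda_symm Δ (hΔ (Δ.symm (i (p x))))
        rwa [Δ.apply_symm_apply] at h3
      exact h1.comp (K := 𝓡 4) (hg := h2)
    · show Δ.symm (i (p x)) = Δ.symm (i (p y)) ↔ _
      rw [Δ.symm.injective.eq_iff, i.injective.eq_iff, hX.orb.fib]
  obtain ⟨D, hD, W, hW, hW1, hW2⟩ := fix_orbit (N := N) (X := X) hX.ext hX.half hq hX.orb F
    (fun n x t ht hx hn => hF n (by rw [hn]; exact hX.ray' ht hx))
  refine ⟨D, diffeo_of_homeo D hD, W, hW, fun n hn => ?_, hW2⟩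
  obtain ⟨x, hx⟩ := hX.orb.surj (F n)
  have h1 : p x ∈ circ i := by
    rw [hx]
    exact hn
  obtain ⟨t, ht, hxt⟩ := hX.ray h1
  exact hW1 n x t ht hxt hx.symm

/-- uniqueness in the class implies that all homeomorphisms to `S⁴` which are smooth over `S²`
agree there with diffeomorphisms -/
theorem su_of_unique (hU : UniqueNearCircle) {S : Mfd4} (f : S ≃ₜ Sphere4)
    (hf : SmoothOver f Sphere2) : ∃ g, Straightens f Sphere2 g := by
  obtain ⟨X, τ, p, i, a1, a2, a3, a4, a5⟩ := exists_X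
  have hX : Mod X τ p i := ⟨a1, a2, a3, a4, a5⟩
  have hc : CompactSpace X.carrier := hX.compact
  have ht : T2Space X.carrier := hX.t2
  have hc4 : CompactSpace Sphere4.carrier := inferInstanceAs (CompactSpace (sphere (0 : E5) 1))
  have ht4 : T2Space Sphere4.carrier := inferInstanceAs (T2Space (sphere (0 : E5) 1))
  have h1 := replace (A := Sphere4) (B := X) (kX i).symm (fun x hx => ?_)
    (fun W hW hk => nhds_compl (kX i).symm W hW hk) (fun W hW hk => nhds_compl (kX i) W hW hk) f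
    (by
      show SmoothOver f (kX i).targetᶜ
      rw [kX_target]
      exact hf)
  · obtain ⟨N, f', hf', hN⟩ := h1
    have hf2 : SmoothOver f' (circ i) := by
      rw [← kX_source]
      exact hf'
    have hNS : DiffeoS1S3 N := by
      refine hU N ⟨f'.trans i, b3, fun x hx => ?_⟩
      exact (hf2 x hx).comp (K := (𝓡 1).prod (𝓡 3)) (hg := a4 (f' x))
    obtain ⟨D, hD⟩ := fix_std hX hNS f' hf2
    obtain ⟨g, hg⟩ := hN ⟨D, by
      show Straightens f' (kX i).sourceᶜ D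
      rw [kX_source]
      exact hD⟩
    refine ⟨g, ?_⟩
    rw [← kX_target i]
    exact hg
  · have h2 : (kX i).symm x ∈ (kX i).source := (kX i).map_target hx
    have h3 := lda_symm' (kX i) h2 (kX_lda hX _ h2)
    rwa [(kX i).right_inv hx] at h3

theorem smoothUnknotting_of_su (h : ∀ (S : Mfd4) (f : S ≃ₜ Sphere4), SmoothOver f Sphere2 →
    ∃ g, Straightens f Sphere2 g) : SmoothUnknotting := fun f hf => h Sphere4 f hf

/-- a manifold of the class has a homeomorphism to `X` which is smooth over the circle of `e0` -/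
theorem exists_rot (hX : Mod X τ p i) {M : Mfd4} (hM : NearCircle M) :
    ∃ h : M ≃ₜ X, SmoothOver h (circ i) := by
  obtain ⟨h0, v, hv⟩ := hM
  let h1 : M.carrier ≃ₜ CS3 := h0
  let v1 : sphere (0 : E4) 1 := v
  have hv1 : ∀ x, (h1 x).2 = v1 → IsLocalDiffeomorphAt (𝓡 4) ((𝓡 1).prod (𝓡 3)) ∞ h1 x := hv
  obtain ⟨L, hL⟩ := exists_isom (v1 : E4) (norm_sph v1)
  have hP := isom_pz L
  obtain ⟨χ, c1, -, c3⟩ := restr_gen (linH L) hP.sm.1
  have hχl : ∀ x, IsLocalDiffeomorphAt (𝓡 4) (𝓡 4) ∞ χ x := by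
    intro x
    obtain ⟨s, hs, hPD⟩ := hP.sm.exists_sign
    refine c3 s x ?_
    filter_upwards [isOpen_ne.mem_nhds (V4_ne x)] with y hy using hPD.2 y hy
  have hχτ : χ * τ = τ * χ := by
    ext1 x
    apply Subtype.ext
    show ((χ (τ x) : V4) : E4) = ((τ (χ x) : V4) : E4)
    rw [c1, hX.half, hX.half, c1]
    exact hP.eqv x
  obtain ⟨R, r1, r2⟩ := descend_gen hX.orb hX.orb.surj hX.orb.loc hX.orb.fib χ hχτ
  refine ⟨(h1.trans i.symm).trans R, fun m hm => ?_⟩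
  obtain ⟨x, hx⟩ := hX.orb.surj (i.symm (h1 m))
  have e1 : R (i.symm (h1 m)) = p (χ x) := by rw [← hx, r1]
  have e2 : p (χ x) ∈ circ i := by
    rw [← e1]
    exact hm
  have e3 : (h1 m).2 = v1 := by
    obtain ⟨t, ht, hxt⟩ := hX.ray e2
    have e4 : (h1 m).2 = (i (p x)).2 := by rw [hx, i.apply_symm_apply]
    rw [e4]
    apply Subtype.ext
    rw [hX.dir]
    have hn : ‖(x : E4)‖ ≠ 0 := norm_ne_zero_iff.2 (V4_ne x)
    have e5 : L (x : E4) = t • e0 := by
      rw [← hxt, c1]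
      rfl
    have e6 : (x : E4) = t • (v1 : E4) := by
      apply L.injective
      rw [e5, L.map_smul, hL]
    rw [e6, norm_smul, norm_sph v1, mul_one, Real.norm_eq_abs, abs_of_pos ht, smul_smul,
      inv_mul_cancel₀ ht.ne', one_smul]
  have e7 : IsLocalDiffeomorphAt ((𝓡 1).prod (𝓡 3)) (𝓡 4) ∞ i.symm (h1 m) := by
    have h3 := lda_symm i (hX.loc (i.symm (h1 m)))
    rwa [i.apply_symm_apply] at h3
  have e8 : IsLocalDiffeomorphAt (𝓡 4) (𝓡 4) ∞ R (i.symm (h1 m)) := by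
    rw [← hx]
    exact r2 x (hχl x)
  exact ((hv1 m e3).comp (K := 𝓡 4) (hg := e7)).comp (K := 𝓡 4) (hg := e8)

theorem unique_of_su (h : ∀ (S : Mfd4) (f : S ≃ₜ Sphere4), SmoothOver f Sphere2 →
    ∃ g, Straightens f Sphere2 g) : UniqueNearCircle := by
  intro M hM
  obtain ⟨X, τ, p, i, a1, a2, a3, a4, a5⟩ := exists_X
  have hX : Mod X τ p i := ⟨a1, a2, a3, a4, a5⟩
  have hc : CompactSpace X.carrier := hX.compact
  have ht : T2Space X.carrier := hX.t2
  have hc4 : CompactSpace Sphere4.carrier := inferInstanceAs (CompactSpace (sphere (0 : E5) 1))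
  have ht4 : T2Space Sphere4.carrier := inferInstanceAs (T2Space (sphere (0 : E5) 1))
  obtain ⟨h0, hh0⟩ := exists_rot hX hM
  obtain ⟨N, f, hf, hN⟩ := replace (A := X) (B := Sphere4) (kX i) (kX_lda hX)
    (fun W hW hk => nhds_compl (kX i) W hW hk) (fun W hW hk => nhds_compl (kX i).symm W hW hk) h0
    (by
      rw [kX_source]
      exact hh0)
  obtain ⟨g, hg⟩ := h N f (by
    rw [← kX_target i]
    exact hf)
  obtain ⟨D, hD, -⟩ := hN ⟨g, by
    rw [kX_target]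
    exact hg⟩
  obtain ⟨G, hG⟩ := homeo_of_diffeo hD
  have hDi : IsLocalDiffeomorph (𝓡 4) ((𝓡 1).prod (𝓡 3)) ∞ (fun x : M.carrier => i (D x)) :=
    fun x => (hD.2 x).comp (K := (𝓡 1).prod (𝓡 3)) (hg := hX.loc (D x))
  exact ⟨IsLocalDiffeomorph.diffeomorphOfBijective hDi (i.bijective.comp hD.1)⟩

theorem su_of_two (h1 : SmoothPoincare) (h2 : SmoothUnknotting) (S : Mfd4) (f : S ≃ₜ Sphere4)
    (hf : SmoothOver f Sphere2) : ∃ g, Straightens f Sphere2 g := by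
  obtain ⟨φ, hφ⟩ := h1 S ⟨f⟩
  obtain ⟨Φ, hΦ⟩ := homeo_of_diffeo hφ
  have hΦl : ∀ x, IsLocalDiffeomorphAt (𝓡 4) (𝓡 4) ∞ Φ x := fun x => by
    have h3 := hφ.2 x
    have h4 : (Φ : S.carrier → Sphere4.carrier) = φ := funext hΦ
    rw [h4]
    exact h3
  obtain ⟨g, hg1, W, hW, hW1, hW2⟩ := h2 (Φ.symm.trans f) (fun y hy => by
    have h3 : IsLocalDiffeomorphAt (𝓡 4) (𝓡 4) ∞ Φ.symm y := by
      have h4 := lda_symm Φ (hΦl (Φ.symm y))
      rwa [Φ.apply_symm_apply] at h4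
    exact h3.comp (K := 𝓡 4) (hg := hf (Φ.symm y) hy))
  refine ⟨fun x => g (Φ x), ⟨hg1.1.comp Φ.bijective, fun x => ?_⟩, Φ ⁻¹' W,
    hW.preimage Φ.continuous, fun x hx => hW1 ?_, fun x hx => ?_⟩
  · exact (hΦl x).comp (K := 𝓡 4) (hg := hg1.2 (Φ x))
  · show f (Φ.symm (Φ x)) ∈ Sphere2
    rw [Φ.symm_apply_apply]
    exact hx
  · show g (Φ x) = f x
    rw [hW2 hx]
    show f (Φ.symm (Φ x)) = f x
    rw [Φ.symm_apply_apply]

end Pool.Agent.HopfSPC
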