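import Pool.Agent.HopfSPC.Model5
import Pool.Agent.HopfSPC.Replace

/-!
# Uniqueness near the section of the twisted product and `RP² ⊂ RP⁴`
-/

set_option autoImplicit false
set_option linter.unusedSectionVars false

open scoped ContDiff Topology Manifold
open Set Filter Metric

namespace Pool.Agent.HopfCov.Smooth

open Pool.Agent.HopfCov hiding pr
open Pool.Agent.HopfFin

variable {M N P X : Mfd4}

/-- a diffeomorphism is a homeomorphism -/
theorem homeo_of_isDiffeo {g : M → N} (hg : IsDiffeo g) : ∃ E : M ≃ₜ N, ∀ x, E x = g x := by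
  obtain ⟨hb, hl⟩ := hg
  have hc : Continuous g := continuous_iff_continuousAt.2 fun x =>
    (show LocalDiffeoAt g x from hl x).cont
  have ho : IsOpenMap g := fun U hU => isOpen_image hU fun x _ => hl x
  exact ⟨(Equiv.ofBijective g hb).toHomeomorphOfContinuousOpen hc ho, fun x => rfl⟩

/-- two orbit spaces of the same homeomorphism -/
theorem orbit_unique {p : Punctured → M} {p' : Punctured → N} {G : Homeo4} (h : Orbit M p G)
    (h' : Orbit N p' G) : ∃ E : M → N, IsDiffeo E := by
  have hne : (univ : Set Punctured).Nonempty :=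
    ⟨(⟨EuclideanSpace.single 0 1, show (EuclideanSpace.single 0 1 : E4) ≠ 0 by simp⟩ : V4),
      mem_univ _⟩
  obtain ⟨k, hs, ht, hk1, hk2⟩ := desc p p' univ isOpen_univ hne (fun x _ => h.loc x)
    (fun x _ => h'.loc x) (fun x _ y _ => (h.fib x y).trans (h'.fib x y).symm)
  rw [image_univ_of_surjective h.surj] at hs
  rw [image_univ_of_surjective h'.surj] at ht
  refine ⟨k, ⟨?_, ?_⟩, fun x => hk2 x (by rw [hs]; exact mem_univ x)⟩
  · intro x y hxy
    exact k.injOn (by rw [hs]; exact mem_univ x) (by rw [hs]; exact mem_univ y) hxy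
  · intro y
    exact ⟨k.symm y, k.right_inv (by rw [ht]; exact mem_univ y)⟩

/-- the class is closed under diffeomorphisms -/
theorem Orbit.of_diffeo {p : Punctured → X} {G : Homeo4} (h : Orbit X p G) {D : M → X}
    (hD : IsDiffeo D) : ∃ p' : Punctured → M, Orbit M p' G := by
  obtain ⟨E, hE⟩ := homeo_of_isDiffeo hD
  have hc := h.compact
  have ht := h.hausdorff
  have hEl : ∀ x, LocalDiffeoAt E x := fun x => by
    have h1 : (E : M → X) = D := funext hE
    rw [h1]
    exact hD.2 x
  have hEs : ∀ y, LocalDiffeoAt E.symm y := fun y => by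
    have := ld_symm' E (hEl (E.symm y))
    rwa [E.apply_symm_apply] at this
  refine ⟨fun y => E.symm (p y), E.symm.compactSpace, E.symm.t2Space, E.symm.surjective.comp h.surj,
    fun y => LocalDiffeoAt.comp' (M := Punctured) (N := X) (P := M) (hEs _) (h.loc y),
    fun x y => ?_, h.mem, h.trap⟩
  rw [← h.fib]
  exact E.symm.injective.eq_iff

theorem smoothOver_trans (E : M ≃ₜ N) (hE : ∀ x, LocalDiffeoAt E x) (F : N ≃ₜ P) {A : Set P}
    (hF : SmoothOver F A) : SmoothOver (E.trans F) A := fun x hx =>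
  LocalDiffeoAt.comp' (M := M) (N := N) (P := P) (f := E) (hF (E x) hx) (hE x)

/-- straightening of a composition with a diffeomorphism -/
theorem straightens_comp (f : M ≃ₜ P) {A : Set P} (E : M ≃ₜ N) (hE : ∀ x, LocalDiffeoAt E x)
    {g : N → P} (h : Straightens (E.symm.trans f) A g) : Straightens f A (fun x => g (E x)) := by
  obtain ⟨⟨hb, hl⟩, W, hW, h1, h2⟩ := h
  refine ⟨⟨hb.comp E.bijective, fun x =>
    LocalDiffeoAt.comp' (M := M) (N := N) (P := P) (f := E) (hl (E x)) (hE x)⟩, E ⁻¹' W,
    hW.preimage E.continuous, fun x hx => h1 ?_, fun x hx => ?_⟩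
  · show f (E.symm (E x)) ∈ A
    rwa [E.symm_apply_apply]
  · show g (E x) = f x
    rw [h2 hx]
    show f (E.symm (E x)) = f x
    rw [E.symm_apply_apply]

/-- the common form of the two statements on `RP² ⊂ RP⁴` -/
def ProjectiveStraight : Prop :=
  ∀ (P : Mfd4) (q : Sphere4 → P), Projective P q → ∀ (N : Mfd4) (f : N ≃ₜ P),
    SmoothOver f (q '' Sphere2) → ∃ g, Straightens f (q '' Sphere2) g

theorem projective_iff : ProjectiveStraight ↔ ProjectiveUnique ∧ ProjectiveUnknotting := by
  constructor
  · intro h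
    refine ⟨fun P q hq N f hf => ?_, fun P q hq f hf => h P q hq P f hf⟩
    obtain ⟨g, hg, -⟩ := h P q hq N f hf
    exact ⟨g, hg⟩
  · rintro ⟨h1, h2⟩ P q hq N f hf
    obtain ⟨e, he⟩ := h1 P q hq N f hf
    obtain ⟨E, hE⟩ := homeo_of_isDiffeo he
    have hEl : ∀ x, LocalDiffeoAt E x := fun x => by
      have h3 : (E : N → P) = e := funext hE
      rw [h3]
      exact he.2 x
    have hEs : ∀ y, LocalDiffeoAt E.symm y := fun y => by
      have := ld_symm' E (hEl (E.symm y))
      rwa [E.apply_symm_apply] at this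
    obtain ⟨g, hg⟩ := h2 P q hq (E.symm.trans f) (smoothOver_trans E.symm hEs f hf)
    exact ⟨_, straightens_comp f E hEl hg⟩

/-- the twisted half -/
theorem nearSection_iff_straight : UniqueNearSection ↔ ProjectiveStraight := by
  constructor
  · intro h P q hq N f hf
    obtain ⟨X, hX⟩ := exists_twisted
    obtain ⟨p, hp⟩ := twistedProduct_iff.2 hX
    obtain ⟨k, hks, hkt, hkl, hk1, hk2⟩ := exists_modelT hp hq
    have hksl : ∀ y ∈ k.target, LocalDiffeoAt (M := P) (X := X) k.symm y := by
      intro y hy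
      have := ld_symm k (k.map_target hy) (hkl _ (k.map_target hy))
      rwa [k.right_inv hy] at this
    obtain ⟨M, F, hF1, hF2⟩ := replace (A := P) (B := X) k.symm hksl hk2 hk1 f
      (by
        show SmoothOver f k.targetᶜ
        rw [hkt]
        exact hf)
    have hF1' : SmoothOver F (sectionSet p) := by
      rw [← hks]
      exact hF1
    have hM : NearSection M := ⟨X, p, F, hp, fun x y hxy hy => hF1' x ⟨y, hy, hxy.symm⟩⟩
    obtain ⟨p', hp'⟩ := h M hM
    obtain ⟨e, he⟩ := orbit_unique hp' hp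
    obtain ⟨E, hE⟩ := homeo_of_isDiffeo he
    have hEl : ∀ x, LocalDiffeoAt E x := fun x => by
      have h3 : (E : M → X) = e := funext hE
      rw [h3]
      exact he.2 x
    have hEs : ∀ y, LocalDiffeoAt E.symm y := fun y => by
      have := ld_symm' E (hEl (E.symm y))
      rwa [E.apply_symm_apply] at this
    obtain ⟨D, hD⟩ := fix_section hp (E.symm.trans F) (smoothOver_trans E.symm hEs F hF1')
    have h4 := straightens_comp F E hEl hD
    obtain ⟨g, hg⟩ := hF2 ⟨_, by
      show Straightens F k.sourceᶜ _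
      rw [hks]
      exact h4⟩
    refine ⟨g, ?_⟩
    rw [← hkt]
    exact hg
  · rintro h M ⟨X, p, F, hp, hF⟩
    obtain ⟨P, q, hq⟩ := exists_projective
    obtain ⟨k, hks, hkt, hkl, hk1, hk2⟩ := exists_modelT hp hq
    have hF' : SmoothOver F k.sourceᶜ := by
      rw [hks]
      rintro x ⟨y, hy, hyx⟩
      exact hF x y hyx.symm hy
    obtain ⟨N, f, hf1, hf2⟩ := replace k hkl hk1 hk2 F hF'
    rw [hkt] at hf1 hf2
    obtain ⟨D, hD, -⟩ := hf2 (h P q hq N f hf1)
    exact hp.of_diffeo hD

/-- uniqueness of the smooth structure near the section is equivalent to the two statements on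
`RP² ⊂ RP⁴` -/
theorem nearSection_iff : UniqueNearSection ↔ ProjectiveUnique ∧ ProjectiveUnknotting :=
  nearSection_iff_straight.trans projective_iff

end Pool.Agent.HopfCov.Smooth
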