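import Pool.Agent.HopfCov.Radial
import Pool.Agent.HopfRem.Transport

/-!
# SPC-2a: a topological germ extends to a homeomorphism of `ℝ⁴`

Kister's argument for one embedding `φ` with `φ 0 = 0`: for every `R > 0` there is a homeomorphism
`Θ` which is the identity on `φ (D R)` and with `D (R + 1) ⊆ Θ (φ (D (R + 1)))`.
-/

set_option autoImplicit false
set_option linter.unusedSectionVars false

open scoped ContDiff Topology
open Set Filter Metric Topology

namespace Pool.Agent.HopfCov.Smooth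

open Pool.Agent.HopfCov

/-- the piecewise linear function with slopes `l` and `m` and fixed point `B` -/
private noncomputable def kink (B l m : ℝ) (u : ℝ) : ℝ := B + l * min (u - B) 0 + m * max (u - B) 0

private theorem kink_left {B l m u : ℝ} (h : u ≤ B) : kink B l m u = B + l * (u - B) := by
  rw [kink, min_eq_left (by linarith), max_eq_right (by linarith)]
  ring

private theorem kink_right {B l m u : ℝ} (h : B ≤ u) : kink B l m u = B + m * (u - B) := by
  rw [kink, min_eq_right (by linarith), max_eq_left (by linarith)]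
  ring

private theorem kink_mono {B l m : ℝ} (hl : 0 < l) (hm : 0 < m) : StrictMono (kink B l m) := by
  intro u v huv
  rcases le_total v B with hv | hv
  · rw [kink_left (huv.le.trans hv), kink_left hv]
    nlinarith
  · rcases le_total u B with hu | hu
    · rw [kink_left hu, kink_right hv]
      have h1 : l * (u - B) ≤ 0 := mul_nonpos_of_nonneg_of_nonpos hl.le (by linarith)
      have h2 : 0 ≤ m * (v - B) := mul_nonneg hm.le (by linarith)
      rcases hu.lt_or_eq with hu' | hu'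
      · have h3 : l * (u - B) < 0 := mul_neg_of_pos_of_neg hl (by linarith)
        linarith
      · have h3 : 0 < m * (v - B) := mul_pos hm (by linarith)
        linarith
    · rw [kink_right hu, kink_right hv]
      nlinarith

private theorem kink_surj {B l m : ℝ} (hl : 0 < l) (hm : 0 < m) :
    Function.Surjective (kink B l m) := by
  intro w
  rcases le_total w B with hw | hw
  · refine ⟨B + (w - B) / l, ?_⟩
    have h1 : (w - B) / l ≤ 0 := div_nonpos_of_nonpos_of_nonneg (by linarith) hl.le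
    rw [kink_left (by linarith)]
    field_simp
    ring
  · refine ⟨B + (w - B) / m, ?_⟩
    have h1 : 0 ≤ (w - B) / m := div_nonneg (by linarith) hm.le
    rw [kink_right (by linarith)]
    field_simp
    ring

/-- the order isomorphism -/
private noncomputable def kinkIso (B l m : ℝ) (hl : 0 < l) (hm : 0 < m) : ℝ ≃o ℝ :=
  (kink_mono hl hm).orderIsoOfSurjective (kink B l m) (kink_surj hl hm)

private theorem kinkIso_apply {B l m : ℝ} (hl : 0 < l) (hm : 0 < m) (u : ℝ) :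
    kinkIso B l m hl hm u = kink B l m u := rfl

private theorem norm_rad_le {e : ℝ ≃o ℝ} {a d : ℝ} (hd : 0 < d)
    (h : e (Real.log a) ≤ Real.log d) {x : E4} (hx : ‖x‖ ≤ a) : ‖(rad e : E4 ≃ₜ E4) x‖ ≤ d := by
  by_cases h0 : x = 0
  · rw [h0, rad_apply, radFun_zero, norm_zero]
    exact hd.le
  · have hp : 0 < ‖x‖ := norm_pos_iff.2 h0
    rw [rad_apply, norm_radFun _ h0, ← Real.le_log_iff_exp_le hd]
    exact (e.monotone (Real.log_le_log hp hx)).trans h

private theorem rad_fix {e : ℝ ≃o ℝ} {x : E4} (h : x ≠ 0 → e (Real.log ‖x‖) = Real.log ‖x‖) :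
    (rad e : E4 ≃ₜ E4) x = x := by
  by_cases h0 : x = 0
  · rw [h0, rad_apply, radFun_zero]
  · rw [rad_apply, radFun_ne _ h0, h h0, sub_self, Real.exp_zero, one_smul]

/-- a radial homeomorphism which squeezes a ball and is the identity off a larger ball -/
private theorem rad_in {a b d : ℝ} (ha : 0 < a) (hab : a < b) (hd : 0 < d) :
    ∃ σ : E4 ≃ₜ E4, (∀ x, b ≤ ‖x‖ → σ x = x) ∧ ∀ x, ‖x‖ ≤ a → ‖σ x‖ ≤ d := by
  have hb : 0 < b := ha.trans hab
  have hlog : Real.log a < Real.log b := Real.log_lt_log ha hab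
  set l : ℝ := max 1 ((Real.log b - Real.log d) / (Real.log b - Real.log a)) with hl
  have hl0 : 0 < l := lt_of_lt_of_le one_pos (le_max_left _ _)
  refine ⟨rad (kinkIso (Real.log b) l 1 hl0 one_pos), fun x hx => ?_, fun x hx => ?_⟩
  · refine rad_fix fun h0 => ?_
    rw [kinkIso_apply, kink_right (Real.log_le_log hb hx)]
    ring
  · refine norm_rad_le hd ?_ hx
    rw [kinkIso_apply, kink_left hlog.le]
    have h1 : (Real.log b - Real.log d) / (Real.log b - Real.log a) ≤ l := le_max_right _ _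
    rw [div_le_iff₀ (by linarith)] at h1
    nlinarith

/-- a radial homeomorphism which is the identity on a ball and squeezes a large ball into the ball
with the double radius -/
private theorem rad_out {a b : ℝ} (ha : 0 < a) (hab : a < b) :
    ∃ t : E4 ≃ₜ E4, (∀ x, ‖x‖ ≤ a → t x = x) ∧ ∀ x, ‖x‖ ≤ b → ‖t x‖ ≤ 2 * a := by
  have hb : 0 < b := ha.trans hab
  have hlog : Real.log a < Real.log b := Real.log_lt_log ha hab
  have h2 : 0 < Real.log 2 := Real.log_pos one_lt_two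
  have hm0 : 0 < Real.log 2 / (Real.log b - Real.log a) := div_pos h2 (by linarith)
  refine ⟨rad (kinkIso (Real.log a) 1 (Real.log 2 / (Real.log b - Real.log a)) one_pos hm0),
    fun x hx => ?_, fun x hx => ?_⟩
  · refine rad_fix fun h0 => ?_
    rw [kinkIso_apply, kink_left (Real.log_le_log (norm_pos_iff.2 h0) hx)]
    ring
  · refine norm_rad_le (by linarith) ?_ hx
    rw [kinkIso_apply, kink_right hlog.le, div_mul_cancel₀ _ (by linarith),
      Real.log_mul two_ne_zero ha.ne']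
    linarith

/-- the inductive step -/
private theorem step_exists {φ : E4 → E4} (hφ : IsOpenEmbedding φ) (h0 : φ 0 = 0) {R : ℝ}
    (hR : 0 < R) : ∃ ψ : E4 → E4, IsOpenEmbedding ψ ∧ (∀ x, ‖x‖ ≤ R → ψ x = φ x) ∧
      ∀ y, ‖y‖ ≤ R + 1 → ∃ x, ‖x‖ ≤ R + 1 ∧ ψ x = y := by
  -- the small radii
  obtain ⟨ε, hε, hεφ⟩ : ∃ ε : ℝ, 0 < ε ∧ ∀ y : E4, ‖y‖ ≤ 2 * ε → ∃ x, ‖x‖ ≤ R + 1 ∧ φ x = y := by
    have h1 : φ '' ball 0 (R + 1) ∈ 𝓝 (0 : E4) := by
      exact (hφ.isOpenMap _ isOpen_ball).mem_nhds ⟨0, mem_ball_self (by linarith), h0⟩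
    obtain ⟨r, hr, hrs⟩ := Metric.mem_nhds_iff.1 h1
    refine ⟨r / 4, by linarith, fun y hy => ?_⟩
    have h2 : y ∈ ball (0 : E4) r := by
      rw [mem_ball_zero_iff]
      linarith
    obtain ⟨x, hx, hxy⟩ := hrs h2
    rw [mem_ball_zero_iff] at hx
    exact ⟨x, hx.le, hxy⟩
  obtain ⟨δ, hδ, hδφ⟩ : ∃ δ : ℝ, 0 < δ ∧ ∀ x : E4, ‖x‖ ≤ δ → ‖φ x‖ ≤ ε := by
    have h1 : φ ⁻¹' ball 0 ε ∈ 𝓝 (0 : E4) := by
      refine hφ.continuous.continuousAt.preimage_mem_nhds ?_
      rw [h0]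
      exact ball_mem_nhds _ hε
    obtain ⟨r, hr, hrs⟩ := Metric.mem_nhds_iff.1 h1
    refine ⟨r / 2, by linarith, fun x hx => ?_⟩
    have h2 : x ∈ ball (0 : E4) r := by
      rw [mem_ball_zero_iff]
      linarith
    have h3 := hrs h2
    rw [mem_preimage, mem_ball_zero_iff] at h3
    exact h3.le
  -- the large radius
  obtain ⟨ρ, hρε, hρR, hρφ⟩ : ∃ ρ : ℝ, ε < ρ ∧ R + 1 ≤ ρ ∧ ∀ x, ‖x‖ ≤ R + 1 → ‖φ x‖ ≤ ρ := by
    have h1 : IsCompact (φ '' closedBall 0 (R + 1)) :=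
      (isCompact_closedBall 0 (R + 1)).image hφ.continuous
    obtain ⟨C, hC⟩ := h1.isBounded.exists_norm_le
    refine ⟨max C (max (R + 1) (ε + 1)), ?_, ?_, fun x hx => ?_⟩
    · exact lt_of_lt_of_le (by linarith) ((le_max_right _ _).trans (le_max_right _ _))
    · exact (le_max_left _ _).trans (le_max_right _ _)
    · refine (hC _ ⟨x, ?_, rfl⟩).trans (le_max_left _ _)
      rwa [mem_closedBall_zero_iff]
  obtain ⟨σ, hσ1, hσ2⟩ := rad_in hR (show R < R + 1 by linarith) hδ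
  obtain ⟨t, ht1, ht2⟩ := rad_out hε hρε
  have hσ3 : ∀ x, ‖x‖ ≤ R + 1 → ‖σ x‖ ≤ R + 1 := by
    intro x hx
    by_contra hcon
    push Not at hcon
    have h1 : σ (σ x) = σ x := hσ1 _ hcon.le
    have h2 : σ x = x := σ.injective h1
    rw [h2] at hcon
    linarith
  have hσ4 : ∀ x, ‖x‖ ≤ R + 1 → ‖σ.symm x‖ ≤ R + 1 := by
    intro x hx
    by_contra hcon
    push Not at hcon
    have h1 : σ (σ.symm x) = σ.symm x := hσ1 _ hcon.le
    rw [σ.apply_symm_apply] at h1
    rw [← h1] at hcon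
    linarith
  obtain ⟨s, hs1, hs2⟩ := exists_transport hφ σ (isCompact_closedBall (0 : E4) (R + 1)) (by
    intro x hx
    rw [mem_closedBall_zero_iff] at hx
    push Not at hx
    exact hσ1 x hx.le)
  -- `s` maps the large ball to itself
  have hs3 : ∀ y, ‖y‖ ≤ ρ → ‖s y‖ ≤ ρ := by
    intro y hy
    by_cases h : y ∈ φ '' closedBall 0 (R + 1)
    · obtain ⟨w, hw, rfl⟩ := h
      rw [mem_closedBall_zero_iff] at hw
      rw [hs1]
      exact hρφ _ (hσ3 w hw)
    · rw [hs2 y h]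
      exact hy
  refine ⟨fun x => s.symm (t.symm (s (φ x))), ?_, fun x hx => ?_, fun y hy => ?_⟩
  · exact s.symm.isOpenEmbedding.comp (t.symm.isOpenEmbedding.comp (s.isOpenEmbedding.comp hφ))
  · show s.symm (t.symm (s (φ x))) = φ x
    have h1 : ‖s (φ x)‖ ≤ ε := by
      rw [hs1]
      exact hδφ _ (hσ2 x hx)
    have h2 : t.symm (s (φ x)) = s (φ x) := by
      rw [t.symm_apply_eq]
      exact (ht1 _ h1).symm
    rw [h2, s.symm_apply_apply]
  · have h1 : ‖t (s y)‖ ≤ 2 * ε := ht2 _ (hs3 y (hy.trans hρR))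
    obtain ⟨w, hw, hwy⟩ := hεφ _ h1
    refine ⟨σ.symm w, hσ4 w hw, ?_⟩
    show s.symm (t.symm (s (φ (σ.symm w)))) = y
    rw [hs1, σ.apply_symm_apply, hwy, t.symm_apply_apply, s.symm_apply_apply]

/-- embeddings fixing the origin -/
private def Emb : Type := {φ : E4 → E4 // IsOpenEmbedding φ ∧ φ 0 = 0}

private theorem next_exists (n : ℕ) (φ : Emb) : ∃ ψ : Emb,
    (∀ x, ‖x‖ ≤ (n : ℝ) + 1 → ψ.1 x = φ.1 x) ∧
      ∀ y, ‖y‖ ≤ (n : ℝ) + 2 → ∃ x, ‖x‖ ≤ (n : ℝ) + 2 ∧ ψ.1 x = y := by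
  have hR : (0 : ℝ) < (n : ℝ) + 1 := by positivity
  obtain ⟨ψ, h1, h2, h3⟩ := step_exists φ.2.1 φ.2.2 hR
  have h4 : (n : ℝ) + 1 + 1 = (n : ℝ) + 2 := by ring
  rw [h4] at h3
  refine ⟨⟨ψ, h1, ?_⟩, h2, h3⟩
  rw [h2 0 (by rw [norm_zero]; exact hR.le)]
  exact φ.2.2

/-- the sequence of embeddings -/
private noncomputable def seq (φ : Emb) : ℕ → Emb
  | 0 => φ
  | n + 1 => (next_exists n (seq φ n)).choose

private theorem seq_eq (φ : Emb) (n : ℕ) {x : E4} (hx : ‖x‖ ≤ (n : ℝ) + 1) :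
    (seq φ (n + 1)).1 x = (seq φ n).1 x := (next_exists n (seq φ n)).choose_spec.1 x hx

private theorem seq_surj (φ : Emb) (n : ℕ) {y : E4} (hy : ‖y‖ ≤ (n : ℝ) + 2) :
    ∃ x, ‖x‖ ≤ (n : ℝ) + 2 ∧ (seq φ (n + 1)).1 x = y :=
  (next_exists n (seq φ n)).choose_spec.2 y hy

private theorem seq_add (φ : Emb) (n k : ℕ) {x : E4} (hx : ‖x‖ ≤ (n : ℝ) + 1) :
    (seq φ (n + k)).1 x = (seq φ n).1 x := by
  induction k with
  | zero => rfl
  | succ k ih =>
    rw [← add_assoc, seq_eq, ih]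
    have : (n : ℝ) ≤ ((n + k : ℕ) : ℝ) := by exact_mod_cast Nat.le_add_right n k
    linarith

private noncomputable def lim (φ : Emb) (x : E4) : E4 := (seq φ ⌈‖x‖⌉₊).1 x

private theorem lim_eq (φ : Emb) (n : ℕ) {x : E4} (hx : ‖x‖ ≤ (n : ℝ) + 1) :
    lim φ x = (seq φ n).1 x := by
  have hx' : ‖x‖ ≤ (⌈‖x‖⌉₊ : ℝ) + 1 := (Nat.le_ceil _).trans (by linarith)
  have h1 := seq_add φ n ⌈‖x‖⌉₊ hx
  have h2 := seq_add φ ⌈‖x‖⌉₊ n hx'
  rw [add_comm] at h2
  rw [lim, ← h2, h1]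

private theorem lim_near (φ : Emb) (x : E4) : ∃ n : ℕ, ‖x‖ ≤ (n : ℝ) + 1 ∧
    ∀ᶠ y in 𝓝 x, lim φ y = (seq φ n).1 y := by
  refine ⟨⌈‖x‖⌉₊, (Nat.le_ceil _).trans (by linarith), ?_⟩
  have h1 : ∀ᶠ y in 𝓝 x, ‖y‖ < (⌈‖x‖⌉₊ : ℝ) + 1 := by
    refine continuous_norm.continuousAt.eventually_lt continuousAt_const ?_
    exact lt_of_le_of_lt (Nat.le_ceil _) (lt_add_one _)
  filter_upwards [h1] with y hy
  exact lim_eq φ _ hy.le

private theorem lim_cont (φ : Emb) : Continuous (lim φ) := by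
  rw [continuous_iff_continuousAt]
  intro x
  obtain ⟨n, _, hn⟩ := lim_near φ x
  exact ((seq φ n).2.1.continuous.continuousAt).congr (hn.mono fun y hy => hy.symm)

private theorem lim_open (φ : Emb) : IsOpenMap (lim φ) := by
  rw [isOpenMap_iff_nhds_le]
  intro x
  obtain ⟨n, _, hn⟩ := lim_near φ x
  have h1 : lim φ x = (seq φ n).1 x := hn.self_of_nhds
  rw [h1, Filter.map_congr hn]
  exact (seq φ n).2.1.isOpenMap.nhds_le x

private theorem lim_bij (φ : Emb) : Function.Bijective (lim φ) := by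
  constructor
  · intro x y hxy
    obtain ⟨n, hn⟩ := exists_nat_ge (max ‖x‖ ‖y‖)
    have hx : ‖x‖ ≤ (n : ℝ) + 1 := ((le_max_left _ _).trans hn).trans (by linarith)
    have hy : ‖y‖ ≤ (n : ℝ) + 1 := ((le_max_right _ _).trans hn).trans (by linarith)
    rw [lim_eq φ n hx, lim_eq φ n hy] at hxy
    exact (seq φ n).2.1.injective hxy
  · intro y
    obtain ⟨n, hn⟩ := exists_nat_ge ‖y‖
    obtain ⟨x, hx, hxy⟩ := seq_surj φ n (y := y) (hn.trans (by linarith))
    refine ⟨x, ?_⟩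
    rw [lim_eq φ (n + 1) (by push_cast; linarith)]
    exact hxy

/-- a topological germ extends to a homeomorphism -/
theorem kister (φ : E4 → E4) (hφ : Topology.IsOpenEmbedding φ) :
    ∃ H : E4 ≃ₜ E4, ∀ᶠ x in 𝓝 (0 : E4), H x = φ x := by
  have h1 : IsOpenEmbedding (fun x => φ x - φ 0) :=
    (Homeomorph.subRight (φ 0)).isOpenEmbedding.comp hφ
  let ψ : Emb := ⟨fun x => φ x - φ 0, h1, sub_self _⟩
  have h2 : IsHomeomorph (lim ψ) := ⟨lim_cont ψ, lim_open ψ, lim_bij ψ⟩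
  refine ⟨h2.homeomorph.trans (Homeomorph.addRight (φ 0)), ?_⟩
  filter_upwards [closedBall_mem_nhds (0 : E4) one_pos] with x hx
  rw [mem_closedBall_zero_iff] at hx
  show lim ψ x + φ 0 = φ x
  have h3 : lim ψ x = φ x - φ 0 := by
    rw [lim_eq ψ 0 (by simpa using hx)]
    rfl
  rw [h3, sub_add_cancel]

end Pool.Agent.HopfCov.Smooth
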