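import Pool.Agent.HopfSPC.Glue
import Pool.Agent.HopfSPC.Kister

/-!
# SPC-2b: a homeomorphism to `S⁴` which is a local diffeomorphism over a cap which contains the standard 2-sphere

`ι` is the stereographic projection, `κ = ι⁻¹ : E4 → S⁴`, `c` a chart of `M` at `y = f⁻¹ (κ 0)`,
`U : E4 → ball (c y) r` the standard diffeomorphism. By `kister` there is a homeomorphism `H` of `E4`
with `H = ι ∘ f ∘ c⁻¹ ∘ U` near `0`. The homeomorphism `κ ∘ (l⁻¹ • H⁻¹) ∘ κ⁻¹` extends to the one
point compactification `S⁴`; after `f` it is `κ ∘ (l⁻¹ • U⁻¹) ∘ c` over the cap if `l` is small.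
-/

set_option autoImplicit false
set_option linter.unusedSectionVars false

open scoped ContDiff Topology Manifold
open Set Filter Metric

namespace Pool.Agent.HopfCov.Smooth

private theorem ld_of {M N : Type} [TopologicalSpace M] [ChartedSpace E4 M] [TopologicalSpace N]
    [ChartedSpace E4 N] (e : OpenPartialHomeomorph M N)
    (h1 : ContMDiffOn (𝓡 4) (𝓡 4) ∞ e e.source) (h2 : ContMDiffOn (𝓡 4) (𝓡 4) ∞ e.symm e.target)
    {x : M} (hx : x ∈ e.source) : IsLocalDiffeomorphAt (𝓡 4) (𝓡 4) ∞ e x :=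
  ⟨⟨e.toPartialEquiv, e.open_source, e.open_target, h1, h2⟩, hx, fun _ _ => rfl⟩

/-- the unit sphere -/
private abbrev SS : Type := sphere (0 : E5) 1

private instance fact5 : Fact (Module.finrank ℝ E5 = 4 + 1) := ⟨finrank_euclideanSpace_fin⟩

/-- the base point -/
private noncomputable def qq : SS := ⟨EuclideanSpace.single 0 1, by simp⟩

/-- the stereographic projection -/
private noncomputable def io : OpenPartialHomeomorph SS E4 := stereographic' 4 (-qq)

private theorem io_source : io.source = {-qq}ᶜ := stereographic'_source _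

private theorem io_target : io.target = univ := stereographic'_target _

private theorem ka_emb : Topology.IsOpenEmbedding (io.symm : E4 → SS) :=
  io.symm.isOpenEmbedding io_target

private theorem ka_range : range (io.symm : E4 → SS) = {-qq}ᶜ := by
  rw [← io_source, ← image_univ, ← io_target]
  exact io.symm.image_source_eq_target

private theorem io_ka (z : E4) : io (io.symm z) = z :=
  io.right_inv (by rw [io_target]; exact mem_univ _)

/-- `S⁴` is the one point compactification -/
private noncomputable def Ph : OnePoint E4 ≃ₜ SS :=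
  OnePoint.equivOfIsEmbeddingOfRangeEq (-qq) (io.symm : E4 → SS) ka_emb.isEmbedding ka_range

private theorem Ph_coe (z : E4) : Ph (z : OnePoint E4) = io.symm z := rfl

private theorem Ph_inf : Ph (OnePoint.infty : OnePoint E4) = -qq := rfl

/-- the extension of a homeomorphism of `E4` -/
private noncomputable def ext (G : E4 ≃ₜ E4) : SS ≃ₜ SS :=
  Ph.symm.trans (G.onePointCongr.trans Ph)

private theorem ext_ka (G : E4 ≃ₜ E4) (z : E4) : ext G (io.symm z) = io.symm (G z) := by
  show Ph (G.onePointCongr (Ph.symm (io.symm z))) = _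
  rw [← Ph_coe, Ph.symm_apply_apply]
  rfl

private theorem ext_inf (G : E4 ≃ₜ E4) : ext G (-qq) = -qq := by
  show Ph (G.onePointCongr (Ph.symm (-qq))) = _
  rw [← Ph_inf, Ph.symm_apply_apply]
  rfl

/-- a large cap around `qq`, it contains the 2-sphere -/
private def S2 : Set SS := {p | -(1 / 2) ≤ p.1 0}

private theorem S2_closed : IsClosed S2 := by
  have h : ∀ i : Fin 5, Continuous fun p : SS => p.1 i := fun i =>
    (EuclideanSpace.proj i : E5 →L[ℝ] ℝ).continuous.comp continuous_subtype_val
  exact isClosed_le continuous_const (h 0)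

private theorem not_mem_S2 : -qq ∉ S2 := by
  intro h
  have h0 : -(1 / 2) ≤ (-qq : SS).1 0 := h
  have h1 : (-qq : SS).1 0 = -1 := by
    show (-(EuclideanSpace.single (0 : Fin 5) (1 : ℝ)) : E5) 0 = -1
    simp
  rw [h1] at h0
  norm_num at h0

private theorem S2_bound : ∃ C : ℝ, 1 ≤ C ∧ ∀ p ∈ S2, ‖io p‖ ≤ C := by
  have h1 : S2 ⊆ io.source := by
    intro p hp
    rw [io_source]
    rintro rfl
    exact not_mem_S2 hp
  have h2 : IsCompact (io '' S2) :=
    S2_closed.isCompact.image_of_continuousOn (io.continuousOn.mono h1)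
  obtain ⟨C, hC⟩ := h2.isBounded.exists_norm_le
  exact ⟨max C 1, le_max_right _ _, fun p hp => (hC _ ⟨p, hp, rfl⟩).trans (le_max_left _ _)⟩

private theorem ka_ld (z : E4) : IsLocalDiffeomorphAt (𝓡 4) (𝓡 4) ∞ (io.symm : E4 → SS) z := by
  refine ld_of io.symm ?_ ?_ (by rw [OpenPartialHomeomorph.symm_source, io_target]; exact mem_univ _)
  · exact contMDiffOn_chart_symm (I := 𝓡 4) (n := ∞) (H := E4) (M := SS) (x := qq)
  · exact contMDiffOn_chart (I := 𝓡 4) (n := ∞) (H := E4) (M := SS) (x := qq)

private theorem smul_ld {l : ℝ} (hl : l ≠ 0) (z : E4) :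
    IsLocalDiffeomorphAt (𝓡 4) (𝓡 4) ∞ (fun w : E4 => l • w) z := by
  refine ld_of (Homeomorph.smulOfNeZero l hl : E4 ≃ₜ E4).toOpenPartialHomeomorph ?_ ?_ (mem_univ _)
  · exact (contDiff_const_smul l).contMDiff.contMDiffOn
  · exact (contDiff_const_smul l⁻¹).contMDiff.contMDiffOn

private theorem univ_ld (c : E4) {r : ℝ} (hr : 0 < r) {z : E4} (hz : z ∈ ball c r) :
    IsLocalDiffeomorphAt (𝓡 4) (𝓡 4) ∞ (OpenPartialHomeomorph.univBall c r).symm z := by
  refine ld_of (OpenPartialHomeomorph.univBall c r).symm ?_ ?_ ?_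
  · rw [OpenPartialHomeomorph.symm_source, OpenPartialHomeomorph.univBall_target c hr]
    exact OpenPartialHomeomorph.contDiffOn_univBall_symm.contMDiffOn
  · exact OpenPartialHomeomorph.contDiff_univBall.contMDiff.contMDiffOn
  · rw [OpenPartialHomeomorph.symm_source, OpenPartialHomeomorph.univBall_target c hr]
    exact hz

private theorem core {M : Mfd4} (F : M ≃ₜ SS) : ∃ F' : M ≃ₜ SS, ∀ x, F' x ∈ S2 →
    IsLocalDiffeomorphAt (𝓡 4) (𝓡 4) ∞ F' x := by
  set y : M := F.symm (io.symm 0) with hy
  set c := chartAt E4 y with hc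
  set e : OpenPartialHomeomorph E4 E4 := c.symm.trans (F.toOpenPartialHomeomorph.trans io) with he
  have hes : ∀ z, z ∈ e.source ↔ z ∈ c.target ∧ F (c.symm z) ∈ io.source := by
    intro z
    rw [he, OpenPartialHomeomorph.trans_source, OpenPartialHomeomorph.trans_source]
    exact ⟨fun h => ⟨h.1, h.2.2⟩, fun h => ⟨h.1, mem_univ _, h.2⟩⟩
  have hec : ∀ z, e z = io (F (c.symm z)) := fun z => rfl
  have hys : y ∈ c.source := mem_chart_source E4 y
  have hz0 : c y ∈ e.source := by
    rw [hes]
    refine ⟨c.map_source hys, ?_⟩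
    rw [c.left_inv hys, hy, F.apply_symm_apply]
    exact io.symm.map_source (by rw [OpenPartialHomeomorph.symm_source, io_target]; exact mem_univ _)
  obtain ⟨r, hr, hrs⟩ := Metric.isOpen_iff.1 e.open_source _ hz0
  set U := OpenPartialHomeomorph.univBall (c y) r with hU
  have hUs : U.source = univ := OpenPartialHomeomorph.univBall_source _ _
  have hUt : U.target = ball (c y) r := OpenPartialHomeomorph.univBall_target _ hr
  have hUb : ∀ w, U w ∈ ball (c y) r := by
    intro w
    rw [← hUt]
    exact U.map_source (by rw [hUs]; exact mem_univ _)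
  have hUU : ∀ w, U.symm (U w) = w := fun w => U.left_inv (by rw [hUs]; exact mem_univ _)
  have hφ : Topology.IsOpenEmbedding (fun w => e (U w)) := by
    have h1 : (U.trans e).source = univ := by
      rw [OpenPartialHomeomorph.trans_source, hUs, univ_inter, eq_univ_iff_forall]
      intro w
      exact hrs (hUb w)
    exact (U.trans e).isOpenEmbedding h1
  obtain ⟨H, hH⟩ := kister _ hφ
  obtain ⟨r0, hr0, hH0⟩ := Metric.eventually_nhds_iff_ball.1 hH
  obtain ⟨C, hC1, hC⟩ := S2_bound
  have hl : 0 < r0 / (2 * C) := by positivity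
  set l : ℝ := r0 / (2 * C) with hldef
  set G : E4 ≃ₜ E4 := H.symm.trans (Homeomorph.smulOfNeZero l⁻¹ (inv_ne_zero hl.ne')) with hG
  have hGa : ∀ z, G z = l⁻¹ • H.symm z := fun z => rfl
  refine ⟨F.trans (ext G), fun x hx => ?_⟩
  have hF' : ∀ x', (F.trans (ext G)) x' = ext G (F x') := fun x' => rfl
  -- the point `x` is near `y`
  have hFx : F x ∈ io.source := by
    rw [io_source]
    intro h
    rw [mem_singleton_iff] at h
    rw [hF', h, ext_inf] at hx
    exact not_mem_S2 hx
  set v := io (F x) with hv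
  have hFv : F x = io.symm v := (io.left_inv hFx).symm
  have hx1 : (F.trans (ext G)) x = io.symm (G v) := by
    rw [hF', hFv, ext_ka]
  have hn : ‖H.symm v‖ < r0 := by
    have h1 : ‖G v‖ ≤ C := by
      have h2 := hC _ hx
      rwa [hx1, io_ka] at h2
    have h3 : H.symm v = l • G v := by
      rw [hGa, smul_smul, mul_inv_cancel₀ hl.ne', one_smul]
    rw [h3, norm_smul, Real.norm_eq_abs, abs_of_pos hl]
    have h4 : l * ‖G v‖ ≤ l * C := mul_le_mul_of_nonneg_left h1 hl.le
    have h5 : l * C = r0 / 2 := by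
      rw [hldef]
      field_simp
    linarith
  set w := H.symm v with hw
  have hvw : v = e (U w) := by
    rw [← hH0 w (by rwa [mem_ball_zero_iff]), hw, H.apply_symm_apply]
  have hUw : U w ∈ e.source := hrs (hUb w)
  have hxU : x = c.symm (U w) := by
    have h1 := ((hes _).1 hUw).2
    have h2 : io.symm v = F (c.symm (U w)) := by
      rw [hvw, hec]
      exact io.left_inv h1
    rw [← hFv] at h2
    exact F.injective h2
  have hxs : x ∈ c.source := by
    rw [hxU]
    exact c.map_target ((hes _).1 hUw).1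
  have hcx : c x = U w := by
    rw [hxU]
    exact c.right_inv ((hes _).1 hUw).1
  -- the formula near `x`
  have hev : ∀ᶠ x' in 𝓝 x, (F.trans (ext G)) x' = io.symm (l⁻¹ • U.symm (c x')) := by
    have h1 : ∀ᶠ x' in 𝓝 x, x' ∈ c.source := c.open_source.mem_nhds hxs
    have h2 : ContinuousAt c x := c.continuousAt hxs
    have h3 : ∀ᶠ x' in 𝓝 x, c x' ∈ ball (c y) r := by
      refine h2.eventually ?_
      rw [hcx]
      exact isOpen_ball.mem_nhds (hUb w)
    have h4 : ∀ᶠ x' in 𝓝 x, ‖U.symm (c x')‖ < r0 := by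
      have h5 : ContinuousAt U.symm (c x) := by
        refine U.symm.continuousAt ?_
        rw [OpenPartialHomeomorph.symm_source, hUt, hcx]
        exact hUb w
      have h6 : ContinuousAt (fun x' => U.symm (c x')) x := ContinuousAt.comp h5 h2
      refine h6.norm.eventually_lt continuousAt_const ?_
      rw [hcx, hUU]
      exact hn
    filter_upwards [h1, h3, h4] with x' k1 k3 k4
    have k5 : U (U.symm (c x')) = c x' := U.right_inv (by rw [hUt]; exact k3)
    have k6 : H (U.symm (c x')) = io (F x') := by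
      rw [hH0 _ (by rwa [mem_ball_zero_iff]), k5, hec, c.left_inv k1]
    have k7 : F x' ∈ io.source := by
      have := ((hes _).1 (hrs k3)).2
      rwa [c.left_inv k1] at this
    rw [hF', ← io.left_inv k7, ext_ka, ← k6, hGa, H.symm_apply_apply]
  have hld : IsLocalDiffeomorphAt (𝓡 4) (𝓡 4) ∞ (fun x' : M => io.symm (l⁻¹ • U.symm (c x'))) x := by
    have h1 : IsLocalDiffeomorphAt (𝓡 4) (𝓡 4) ∞ c x :=
      ld_of c contMDiffOn_chart contMDiffOn_chart_symm hxs
    have h2 : IsLocalDiffeomorphAt (𝓡 4) (𝓡 4) ∞ U.symm (c x) := by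
      refine univ_ld (c y) hr ?_
      rw [hcx]
      exact hUb w
    have h3 := IsLocalDiffeomorphAt.comp (K := 𝓡 4) (P := E4) h1 h2
    have h4 := IsLocalDiffeomorphAt.comp (K := 𝓡 4) (P := E4) h3 (smul_ld (inv_ne_zero hl.ne') _)
    exact IsLocalDiffeomorphAt.comp (K := 𝓡 4) (P := SS) h4 (ka_ld _)
  exact LocalDiffeoAt.congr' (M := M) (N := Sphere4) hld hev

/-- the stronger form: smooth over a large cap -/
theorem exists_smoothOver_cap {M : Mfd4} (f : M ≃ₜ Sphere4) :
    ∃ f' : M ≃ₜ Sphere4, SmoothOver f' {x | -(1 / 2) ≤ coord x 0} := by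
  obtain ⟨F', hF'⟩ := core (M := M) f
  exact ⟨F', fun x hx => hF' x hx⟩

theorem exists_smoothOver {M : Mfd4} (f : M ≃ₜ Sphere4) :
    ∃ f' : M ≃ₜ Sphere4, SmoothOver f' Sphere2 := by
  obtain ⟨f', hf'⟩ := exists_smoothOver_cap f
  refine ⟨f', fun x hx => hf' x ?_⟩
  have h : coord (f' x) 0 = 0 := hx.1
  show -(1 / 2) ≤ coord (f' x) 0
  rw [h]
  norm_num

end Pool.Agent.HopfCov.Smooth
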