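import Pool.Agent.HopfSPC.Final

/-!
# The correspondence between manifolds which differ by a replacement
-/

set_option autoImplicit false
set_option linter.unusedSectionVars false

open scoped ContDiff Topology Manifold
open Set Filter Metric

namespace Pool.Agent.HopfCov.Smooth

/-- the complements of `h⁻¹ (k.sourceᶜ)` and `f⁻¹ (k.targetᶜ)` are diffeomorphic by `f⁻¹ k h` -/
def Compl {A B M N : Mfd4} (k : OpenPartialHomeomorph A B) (h : M ≃ₜ A) (f : N ≃ₜ B) : Prop :=
  ∀ x, h x ∈ k.source → LocalDiffeoAt (M := M) (X := N) (fun z => f.symm (k (h z))) x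

theorem Compl.symm {A B M N : Mfd4} {k : OpenPartialHomeomorph A B} {h : M ≃ₜ A} {f : N ≃ₜ B}
    (hc : Compl k h f) : Compl k.symm f h := by
  intro y hy
  have hy' : f y ∈ k.target := hy
  set φ : OpenPartialHomeomorph M N :=
    h.toOpenPartialHomeomorph.trans (k.trans f.symm.toOpenPartialHomeomorph) with hφ
  have hφs : ∀ n, h n ∈ k.source → n ∈ φ.source := by
    intro n hn
    rw [hφ, OpenPartialHomeomorph.trans_source, OpenPartialHomeomorph.trans_source]
    exact ⟨mem_univ _, hn, mem_univ _⟩
  set x : M := h.symm (k.symm (f y)) with hx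
  have hxs : h x ∈ k.source := by
    rw [hx, h.apply_symm_apply]
    exact k.map_target hy'
  have h1 : LocalDiffeoAt φ x := hc x hxs
  have h2 := ld_symm φ (hφs _ hxs) h1
  have h3 : φ x = y := by
    show f.symm (k (h x)) = y
    rw [hx, h.apply_symm_apply, k.right_inv hy', f.symm_apply_apply]
  rw [h3] at h2
  exact h2

/-- the pieces which are glued in `replace` -/
private noncomputable def crE {A B M : Mfd4} (k : OpenPartialHomeomorph A B) (h : M ≃ₜ A)
    (W₀ : Set B) (hW : IsOpen W₀) : ∀ i : Bool, OpenPartialHomeomorph B (cond i B M : Mfd4)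
  | true => OpenPartialHomeomorph.ofSet W₀ hW
  | false => k.symm.trans h.symm.toOpenPartialHomeomorph

/-- the glued manifold -/
private theorem cr_glue {A B M : Mfd4} (k : OpenPartialHomeomorph A B)
    (hk : ∀ x ∈ k.source, LocalDiffeoAt (M := A) (X := B) k x)
    (hks : ∀ y ∈ k.target, LocalDiffeoAt (M := B) (X := A) k.symm y) (h : M ≃ₜ A) (R : Set A)
    (hR : ∀ a ∈ R, LocalDiffeoAt h (h.symm a)) (W₀ : Set B) (hWo : IsOpen W₀)
    (h1 : k.targetᶜ ⊆ W₀) (h2 : ∀ y ∈ W₀, y ∈ k.target → k.symm y ∈ R) :
    ∃ (N : Mfd4) (f : N ≃ₜ B), (∀ x, f x ∈ W₀ → LocalDiffeoAt f x) ∧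
      (∀ x, f x ∈ k.target →
        LocalDiffeoAt (M := N) (X := M) (fun z => h.symm (k.symm (f z))) x) := by
  have hsT : ∀ y, y ∈ (crE k h W₀ hWo true).source ↔ y ∈ W₀ := fun y => Iff.rfl
  have hsF : ∀ y, y ∈ (crE k h W₀ hWo false).source ↔ y ∈ k.target := by
    intro y
    show y ∈ (k.symm.trans h.symm.toOpenPartialHomeomorph).source ↔ _
    rw [OpenPartialHomeomorph.trans_source]
    exact ⟨fun hy => hy.1, fun hy => ⟨hy, mem_univ _⟩⟩
  obtain ⟨N, f, hf⟩ := glue (Y := B) (fun i => (cond i B M : Mfd4)) (crE k h W₀ hWo)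
    (by
      intro y
      by_cases hy : y ∈ k.target
      · exact ⟨false, (hsF y).2 hy⟩
      · exact ⟨true, h1 hy⟩)
    (by
      intro i j y hi hj
      cases i <;> cases j
      · -- false, false
        have hy : y ∈ k.target := (hsF y).1 hi
        refine (ld_id (M := M) (h.symm (k.symm y))).congr' ?_
        have hev : ∀ᶠ z in 𝓝 (h.symm (k.symm y)), h z ∈ k.source := by
          refine h.continuous.continuousAt.eventually ?_
          rw [h.apply_symm_apply]
          exact k.open_source.mem_nhds (k.map_target hy)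
        filter_upwards [hev] with z hz
        show h.symm (k.symm (k (h z))) = z
        rw [k.left_inv hz, h.symm_apply_apply]
      · -- false, true
        have hy : y ∈ k.target := (hsF y).1 hi
        have hyR : k.symm y ∈ R := h2 y hj hy
        show LocalDiffeoAt (M := M) (X := B) (fun z => k (h z)) (h.symm (k.symm y))
        refine LocalDiffeoAt.comp' (M := M) (N := A) (P := B) ?_ (hR _ hyR)
        rw [h.apply_symm_apply]
        exact hk _ (k.map_target hy)
      · -- true, false
        have hy : y ∈ k.target := (hsF y).1 hj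
        have hyR : k.symm y ∈ R := h2 y hi hy
        show LocalDiffeoAt (M := B) (X := M) (fun z => h.symm (k.symm z)) y
        refine LocalDiffeoAt.comp' (M := B) (N := A) (P := M) ?_ (hks _ hy)
        have := ld_symm' h (hR _ hyR)
        rwa [h.apply_symm_apply] at this
      · -- true, true
        exact ld_id (M := B) y)
  exact ⟨N, f, fun x hx => hf true x hx, fun x hx => hf false x ((hsF _).2 hx)⟩

/-- existence of the replacement -/
theorem exists_compl {A B : Mfd4} (k : OpenPartialHomeomorph A B)
    (hk : ∀ x ∈ k.source, LocalDiffeoAt (M := A) (X := B) k x)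
    (hAB : ∀ W : Set A, IsOpen W → k.sourceᶜ ⊆ W → IsOpen (k.targetᶜ ∪ k '' (W ∩ k.source)))
    {M : Mfd4} (h : M ≃ₜ A) (hh : SmoothOver h k.sourceᶜ) :
    ∃ (N : Mfd4) (f : N ≃ₜ B), SmoothOver f k.targetᶜ ∧ Compl k h f := by
  set R : Set A := {a | LocalDiffeoAt h (h.symm a)} with hR
  have hRo : IsOpen R := (isOpen_ld (h : M → A)).preimage h.symm.continuous
  have hCR : k.sourceᶜ ⊆ R := by
    intro a ha
    show LocalDiffeoAt h (h.symm a)
    exact hh _ (by rwa [h.apply_symm_apply])
  have hks : ∀ y ∈ k.target, LocalDiffeoAt (M := B) (X := A) k.symm y := by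
    intro y hy
    have := ld_symm k (k.map_target hy) (hk _ (k.map_target hy))
    rwa [k.right_inv hy] at this
  obtain ⟨N, f, hf1, hf2⟩ := cr_glue k hk hks h R (fun a ha => ha)
    (k.targetᶜ ∪ k '' (R ∩ k.source)) (hAB R hRo hCR) subset_union_left
    (by
      rintro y (hy | ⟨r, ⟨hr, hr'⟩, rfl⟩) hyt
      · exact absurd hyt hy
      · rwa [k.left_inv hr'])
  exact ⟨N, f, fun x hx => hf1 x (Or.inl hx), Compl.symm (k := k.symm) (h := f) (f := h) hf2⟩

/-- transfer of diffeomorphisms -/
theorem Compl.straight {A B : Mfd4} {k : OpenPartialHomeomorph A B}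
    (hk : ∀ x ∈ k.source, LocalDiffeoAt (M := A) (X := B) k x)
    (hBA : ∀ W : Set B, IsOpen W → k.targetᶜ ⊆ W → IsOpen (k.sourceᶜ ∪ k.symm '' (W ∩ k.target)))
    {M N : Mfd4} {h : M ≃ₜ A} {f : N ≃ₜ B} (hc : Compl k h f) (hh : SmoothOver h k.sourceᶜ) :
    (∃ g, Straightens f k.targetᶜ g) → ∃ D, Straightens h k.sourceᶜ D := by
  classical
  have hks : ∀ y ∈ k.target, LocalDiffeoAt (M := B) (X := A) k.symm y := by
    intro y hy
    have := ld_symm k (k.map_target hy) (hk _ (k.map_target hy))
    rwa [k.right_inv hy] at this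
  rintro ⟨g, ⟨hgb, hgl⟩, W, hWo, hfW, hgW⟩
  -- `g` maps `f⁻¹ (target)` onto `target`
  have hgt : ∀ x, g x ∈ k.target ↔ f x ∈ k.target := by
    intro x
    constructor
    · intro hx
      by_contra hfx
      rw [hgW (hfW hfx)] at hx
      exact hfx hx
    · intro hx
      by_contra hgx
      have h1 : f.symm (g x) ∈ W := hfW (by show f (f.symm (g x)) ∈ k.targetᶜ
                                            rw [f.apply_symm_apply]; exact hgx)
      have h2 : g (f.symm (g x)) = g x := by rw [hgW h1, f.apply_symm_apply]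
      have h3 := hgb.1 h2
      rw [← h3, f.apply_symm_apply] at hx
      exact hgx hx
  have hgc : Continuous g := hgl.contMDiff.continuous
  -- the map
  set D : M → A := fun x => if h x ∈ k.source then k.symm (g (f.symm (k (h x)))) else h x with hD
  have hDs : ∀ x, h x ∈ k.source → D x = k.symm (g (f.symm (k (h x)))) := fun x hx => if_pos hx
  have hDn : ∀ x, h x ∉ k.source → D x = h x := fun x hx => if_neg hx
  have hmid : ∀ x, h x ∈ k.source → g (f.symm (k (h x))) ∈ k.target := by
    intro x hx
    rw [hgt, f.apply_symm_apply]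
    exact k.map_source hx
  have hDmem : ∀ x, D x ∈ k.source ↔ h x ∈ k.source := by
    intro x
    by_cases hx : h x ∈ k.source
    · rw [hDs x hx]
      exact iff_of_true (k.map_target (hmid x hx)) hx
    · rw [hDn x hx]
  -- `D = h` near the preimage of `k.sourceᶜ`
  set W' : Set M := h ⁻¹' (k.sourceᶜ ∪ k.symm '' (f '' W ∩ k.target)) with hW'
  have hfWo : IsOpen (f '' W) := f.isOpenMap W hWo
  have hW'o : IsOpen W' := by
    refine (hBA _ hfWo ?_).preimage h.continuous
    intro y hy
    exact ⟨f.symm y, hfW (by show f (f.symm y) ∈ k.targetᶜ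
                             rw [f.apply_symm_apply]; exact hy), f.apply_symm_apply y⟩
  have hDW : EqOn D h W' := by
    intro z hz
    by_cases hzs : h z ∈ k.source
    · rcases hz with hz | ⟨b, ⟨⟨w, hw, hwb⟩, hbt⟩, hb⟩
      · exact absurd hzs hz
      · subst hwb
        have h1 : k (h z) = f w := by
          rw [← hb]
          exact k.right_inv hbt
        rw [hDs z hzs, h1, f.symm_apply_apply, hgW hw]
        exact hb
    · exact hDn z hzs
  refine ⟨D, ⟨⟨?_, ?_⟩, ?_⟩, W', hW'o, fun z hz => Or.inl hz, hDW⟩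
  · -- injective
    intro x y hxy
    by_cases hx : h x ∈ k.source
    · have hy : h y ∈ k.source := (hDmem y).1 (hxy ▸ (hDmem x).2 hx)
      rw [hDs x hx, hDs y hy] at hxy
      have h1 := k.symm.injOn (hmid x hx) (hmid y hy) hxy
      have h2 := k.injOn hx hy (f.symm.injective (hgb.1 h1))
      exact h.injective h2
    · have hy : h y ∉ k.source := fun hy => hx ((hDmem x).1 (hxy.symm ▸ (hDmem y).2 hy))
      rw [hDn x hx, hDn y hy] at hxy
      exact h.injective hxy
  · -- surjective
    intro a
    by_cases ha : a ∈ k.source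
    · obtain ⟨n, hn⟩ := hgb.2 (k a)
      have hfn : f n ∈ k.target := by
        rw [← hgt, hn]
        exact k.map_source ha
      refine ⟨h.symm (k.symm (f n)), ?_⟩
      have h1 : h (h.symm (k.symm (f n))) ∈ k.source := by
        rw [h.apply_symm_apply]
        exact k.map_target hfn
      rw [hDs _ h1, h.apply_symm_apply, k.right_inv hfn, f.symm_apply_apply, hn, k.left_inv ha]
    · refine ⟨h.symm a, ?_⟩
      rw [hDn _ (by rwa [h.apply_symm_apply]), h.apply_symm_apply]
  · -- local diffeomorphism
    intro x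
    show LocalDiffeoAt D x
    by_cases hx : h x ∈ k.source
    · -- the inverse of `z ↦ h.symm (k.symm (f z))`
      set φ : OpenPartialHomeomorph N M :=
        f.toOpenPartialHomeomorph.trans (k.symm.trans h.symm.toOpenPartialHomeomorph) with hφ
      have hφs : ∀ n, f n ∈ k.target → n ∈ φ.source := by
        intro n hn
        rw [hφ, OpenPartialHomeomorph.trans_source, OpenPartialHomeomorph.trans_source]
        exact ⟨mem_univ _, hn, mem_univ _⟩
      have hn : f (f.symm (k (h x))) ∈ k.target := by
        rw [f.apply_symm_apply]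
        exact k.map_source hx
      have h2 : LocalDiffeoAt (M := M) (X := N) (fun z => φ.symm z) x := hc x hx
      have h4 : φ.symm x = f.symm (k (h x)) := rfl
      have h5 : LocalDiffeoAt (M := M) (X := B) (fun z => g (φ.symm z)) x :=
        LocalDiffeoAt.comp' (M := M) (N := N) (P := B) (hgl _) h2
      have h6 : LocalDiffeoAt (M := M) (X := A) (fun z => k.symm (g (φ.symm z))) x :=
        LocalDiffeoAt.comp' (M := M) (N := B) (P := A) (f := fun z => g (φ.symm z))
          (hks _ (by rw [h4]; exact hmid x hx)) h5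
      refine h6.congr' ?_
      filter_upwards [(k.open_source.preimage h.continuous).mem_nhds hx] with z hz
      exact hDs z hz
    · refine (hh x hx).congr' ?_
      filter_upwards [hW'o.mem_nhds (Or.inl hx)] with z hz
      exact hDW hz

end Pool.Agent.HopfCov.Smooth
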