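import Pool.Agent.HopfSPC.Glue

/-!
# Partial diffeomorphisms between orbit spaces

Two local diffeomorphisms `p`, `Q` with the same fibres on an open set `U` induce a partial
diffeomorphism `p (U) → Q (U)`. Condition (nbh) for compact Hausdorff spaces.
-/

set_option autoImplicit false
set_option linter.unusedSectionVars false

open scoped ContDiff Topology Manifold
open Set Filter Metric

namespace Pool.Agent.HopfCov.Smooth

variable {M N P V X : Mfd4}

theorem LocalDiffeoAt.cont {f : M → N} {x : M} (h : LocalDiffeoAt f x) : ContinuousAt f x :=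
  (IsLocalDiffeomorphAt.contMDiffAt h).continuousAt

/-- the image of a neighbourhood is a neighbourhood -/
theorem LocalDiffeoAt.map_nhds {f : M → N} {x : M} (h : LocalDiffeoAt f x) :
    Filter.map f (𝓝 x) = 𝓝 (f x) := by
  obtain ⟨Φ, hx, he⟩ := h
  have h1 : Filter.map Φ.toOpenPartialHomeomorph (𝓝 x) = 𝓝 (Φ.toOpenPartialHomeomorph x) :=
    Φ.toOpenPartialHomeomorph.map_nhds_eq hx
  have h2 : f =ᶠ[𝓝 x] Φ.toOpenPartialHomeomorph := by
    filter_upwards [Φ.open_source.mem_nhds hx] with y hy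
    exact he hy
  rw [Filter.map_congr h2, h1, h2.self_of_nhds]

theorem isOpen_image {f : M → N} {U : Set M} (hU : IsOpen U) (h : ∀ x ∈ U, LocalDiffeoAt f x) :
    IsOpen (f '' U) := by
  rw [isOpen_iff_mem_nhds]
  rintro _ ⟨x, hx, rfl⟩
  rw [← (h x hx).map_nhds]
  exact image_mem_map (hU.mem_nhds hx)

/-- if `g ∘ f` is a local diffeomorphism at `x` and `f` is one, then `g` is one at `f x` -/
theorem LocalDiffeoAt.of_comp {f : M → N} {g : N → P} {x : M} (hf : LocalDiffeoAt f x)
    {F : M → P} (hF : LocalDiffeoAt F x) (h : ∀ᶠ y in 𝓝 x, g (f y) = F y) :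
    LocalDiffeoAt g (f x) := by
  obtain ⟨Φ, hx, he⟩ := hf
  have hfx : f x = Φ x := he hx
  have h1 : LocalDiffeoAt (M := N) (X := M) Φ.symm (f x) := by
    refine ⟨Φ.symm, ?_, fun _ _ => rfl⟩
    rw [hfx]
    exact Φ.map_source' hx
  have h2 : Φ.symm (f x) = x := by
    rw [hfx]
    exact Φ.left_inv' hx
  have h3 : LocalDiffeoAt (M := N) (X := P) (fun z => F (Φ.symm z)) (f x) := by
    refine LocalDiffeoAt.comp' (M := N) (N := M) (P := P) ?_ h1
    rwa [h2]
  refine h3.congr' ?_
  have h4 : ∀ᶠ z in 𝓝 (f x), g (f (Φ.symm z)) = F (Φ.symm z) := by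
    have h5 : Tendsto Φ.symm (𝓝 (f x)) (𝓝 x) := by
      have := h1.cont.tendsto
      rwa [h2] at this
    exact h5.eventually h
  have h6 : ∀ᶠ z in 𝓝 (f x), z ∈ Φ.target := by
    rw [hfx]
    exact Φ.open_target.mem_nhds (Φ.map_source' hx)
  filter_upwards [h4, h6] with z hz hz'
  have h7 : f (Φ.symm z) = z := (he (Φ.map_target' hz')).trans (Φ.right_inv' hz')
  rw [← hz, h7]

/-- the partial diffeomorphism induced by two local diffeomorphisms with the same fibres -/
theorem desc (p : V → X) (Q : V → P) (U : Set V) (hU : IsOpen U) (hne : U.Nonempty)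
    (hp : ∀ x ∈ U, LocalDiffeoAt p x) (hQ : ∀ x ∈ U, LocalDiffeoAt Q x)
    (hfib : ∀ x ∈ U, ∀ y ∈ U, p x = p y ↔ Q x = Q y) :
    ∃ k : OpenPartialHomeomorph X P, k.source = p '' U ∧ k.target = Q '' U ∧
      (∀ x ∈ U, k (p x) = Q x) ∧ ∀ z ∈ k.source, LocalDiffeoAt k z := by
  classical
  obtain ⟨v₀, hv₀⟩ := hne
  obtain ⟨a, ha⟩ : ∃ a : X → P, ∀ x ∈ U, a (p x) = Q x := by
    refine ⟨fun z => if h : ∃ x ∈ U, p x = z then Q h.choose else Q v₀, fun x hx => ?_⟩
    have h : ∃ y ∈ U, p y = p x := ⟨x, hx, rfl⟩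
    show (if h : ∃ y ∈ U, p y = p x then Q h.choose else Q v₀) = Q x
    rw [dif_pos h]
    exact (hfib _ h.choose_spec.1 _ hx).1 h.choose_spec.2
  obtain ⟨b, hb⟩ : ∃ b : P → X, ∀ x ∈ U, b (Q x) = p x := by
    refine ⟨fun z => if h : ∃ x ∈ U, Q x = z then p h.choose else p v₀, fun x hx => ?_⟩
    have h : ∃ y ∈ U, Q y = Q x := ⟨x, hx, rfl⟩
    show (if h : ∃ y ∈ U, Q y = Q x then p h.choose else p v₀) = p x
    rw [dif_pos h]
    exact (hfib _ h.choose_spec.1 _ hx).2 h.choose_spec.2
  have haL : ∀ z ∈ p '' U, LocalDiffeoAt a z := by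
    rintro _ ⟨x, hx, rfl⟩
    refine LocalDiffeoAt.of_comp (hp x hx) (hQ x hx) ?_
    filter_upwards [hU.mem_nhds hx] with y hy
    exact ha y hy
  have hbL : ∀ z ∈ Q '' U, LocalDiffeoAt b z := by
    rintro _ ⟨x, hx, rfl⟩
    refine LocalDiffeoAt.of_comp (hQ x hx) (hp x hx) ?_
    filter_upwards [hU.mem_nhds hx] with y hy
    exact hb y hy
  let k : OpenPartialHomeomorph X P :=
    { toFun := a
      invFun := b
      source := p '' U
      target := Q '' U
      map_source' := by
        rintro _ ⟨x, hx, rfl⟩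
        exact ⟨x, hx, (ha x hx).symm⟩
      map_target' := by
        rintro _ ⟨x, hx, rfl⟩
        exact ⟨x, hx, (hb x hx).symm⟩
      left_inv' := by
        rintro _ ⟨x, hx, rfl⟩
        rw [ha x hx, hb x hx]
      right_inv' := by
        rintro _ ⟨x, hx, rfl⟩
        rw [hb x hx, ha x hx]
      open_source := isOpen_image hU hp
      open_target := isOpen_image hU hQ
      continuousOn_toFun := fun z hz => (haL z hz).cont.continuousWithinAt
      continuousOn_invFun := fun z hz => (hbL z hz).cont.continuousWithinAt }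
  exact ⟨k, rfl, rfl, ha, haL⟩

/-- neighbourhoods of the complements of source and target correspond to each other if the spaces are
compact and Hausdorff -/
theorem nbh_of_compact {A B : Type} [TopologicalSpace A] [TopologicalSpace B] [CompactSpace A]
    [T2Space B] (k : OpenPartialHomeomorph A B) (W : Set A) (hW : IsOpen W)
    (hs : k.sourceᶜ ⊆ W) : IsOpen (k.targetᶜ ∪ k '' (W ∩ k.source)) := by
  have h1 : IsCompact Wᶜ := hW.isClosed_compl.isCompact
  have hsub : Wᶜ ⊆ k.source := by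
    intro x hx
    by_contra h
    exact hx (hs h)
  have h2 : IsCompact (k '' Wᶜ) := h1.image_of_continuousOn (k.continuousOn.mono hsub)
  have h3 : k.targetᶜ ∪ k '' (W ∩ k.source) = (k '' Wᶜ)ᶜ := by
    ext y
    constructor
    · rintro (hy | ⟨x, ⟨hx, hx'⟩, rfl⟩)
      · rintro ⟨x, hx, rfl⟩
        exact hy (k.map_source (hsub hx))
      · rintro ⟨x', hx'', he⟩
        have := k.injOn (hsub hx'') hx' he
        rw [this] at hx''
        exact hx'' hx
    · intro hy
      by_cases hyt : y ∈ k.target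
      · right
        refine ⟨k.symm y, ⟨?_, k.map_target hyt⟩, k.right_inv hyt⟩
        by_contra hc
        exact hy ⟨k.symm y, hc, k.right_inv hyt⟩
      · exact Or.inl hyt
  rw [h3]
  exact h2.isClosed.isOpen_compl

end Pool.Agent.HopfCov.Smooth
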