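import Pool.Agent.HopfSPC.Surg2

/-!
# The class of the manifolds which are smooth near a fibre: uniqueness implies the smooth Poincaré
conjecture
-/

set_option autoImplicit false

open scoped ContDiff Topology Manifold
open Set Filter Metric

namespace Pool.Agent.HopfSPC

open Pool.Agent.HopfCov Pool.Agent.HopfCov.Smooth Pool.Agent.HopfFin

theorem smoothPoincare_of_fibre
    (hU : ∀ (M : Mfd4) (h : M ≃ₜ Circle × S3) (z : Circle),
      (∀ x, (h x).1 = z → IsLocalDiffeomorphAt (𝓡 4) model13 ∞ h x) → DiffeoS1S3 M) :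
    ∀ S : Mfd4, Nonempty (S ≃ₜ Sphere4) → Diffeomorphic S Sphere4 := by
  rintro S ⟨f0⟩
  obtain ⟨f, hf⟩ := exists_smoothOver_cap f0
  have hf2 : SmoothOver f Sphere2 := fun x hx => hf x (by
    have h : coord (f x) 0 = 0 := hx.1
    show -(1 / 2) ≤ coord (f x) 0
    rw [h]
    norm_num)
  obtain ⟨M, h, hs⟩ := surgery_thm.2.1 S f hf2
  have hM : DiffeoS1S3 M := by
    refine hU M h 1 fun x hx => ?_
    by_cases hb : (h x).2 = b3
    · exact hs.circle x hb
    · have h1 := hs.compl x hb
      set φ : M.carrier → S.carrier := fun z => f.symm (toS (h z)) with hφ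
      have e1 : ∀ z, f (φ z) = toS (h z) := fun z => f.apply_symm_apply _
      have h2 : LocalDiffeoAt f (φ x) := by
        refine hf _ ?_
        show -(1 / 2) ≤ coord (f (φ x)) 0
        rw [e1]
        have e2 : coord (toS (h x)) 0 = √((1 - ((h x).2 : E4) 0) / 2) * ((h x).1 : ℂ).re := by
          show (toS (h x) : E5) 0 = _
          rw [toS_val hb]
          simp [vec5]
        have e3 : ((h x).1 : ℂ).re = 1 := by
          have : (h x).1 = (1 : Circle) := hx
          rw [this]
          simp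
        rw [e2, e3, mul_one]
        have := Real.sqrt_nonneg ((1 - ((h x).2 : E4) 0) / 2)
        linarith
      have h3 : IsLocalDiffeomorphAt (𝓡 4) (𝓡 4) ∞ (fun z => f (φ z)) x :=
        h1.comp (K := 𝓡 4) (hg := h2)
      have hk : h x ∈ kk.source := hb
      have h4 : IsLocalDiffeomorphAt (𝓡 4) ((𝓡 1).prod (𝓡 3)) ∞ kk.symm (f (φ x)) := by
        rw [e1]
        exact lda_symm' kk hk (kk_lda hk)
      have h5 := h3.comp (K := (𝓡 1).prod (𝓡 3)) (hg := h4)
      refine lda_congr h5 ?_
      have h6 : ∀ᶠ z in 𝓝 x, h z ∈ kk.source :=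
        h.continuous.continuousAt.eventually (kk.open_source.mem_nhds hk)
      filter_upwards [h6] with z hz
      show h z = kk.symm (f (φ z))
      rw [e1]
      exact (kk.left_inv hz).symm
  obtain ⟨g, hg, -⟩ := (surgery_thm.2.2 M S h f hs).1 hM
  exact ⟨g, hg⟩

end Pool.Agent.HopfSPC
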