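import Pool.Agent.HopfSPC.Assemble

/-!
# The orbit space of `x ↦ x / 2` is `S¹ × S³`

As `HopfFin/ModelDir.lean`, with the formula for the first coordinate (spheres with centre `0` are mapped
to the fibres `z × S³`).
-/

set_option autoImplicit false

open scoped ContDiff Topology Manifold
open Set Filter Metric

namespace Pool.Agent.HopfSPC.Fib

open Pool.Agent.HopfCov

section Angle

attribute [local instance] finrank_real_complex_fact'

/-- a local section of the exponential map of the circle -/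
private noncomputable def ang (z₀ z : Circle) : ℝ :=
  Complex.arg (z₀ : ℂ) + Complex.arg ((z / z₀ : Circle) : ℂ)

private lemma exp_ang (z₀ z : Circle) : Circle.exp (ang z₀ z) = z := by
  unfold ang
  rw [Circle.exp_add, Circle.exp_arg, Circle.exp_arg]
  exact mul_div_cancel z₀ z

private lemma contMDiffAt_ang (z₀ : Circle) :
    ContMDiffAt (𝓡 1) 𝓘(ℝ, ℝ) ∞ (ang z₀) z₀ := by
  have h1 : ContMDiff (𝓡 1) (𝓡 1) ∞ (fun z : Circle => z / z₀) := by
    exact contMDiff_id.div contMDiff_const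
  have h2 : ContMDiff (𝓡 1) 𝓘(ℝ, ℂ) ∞ (fun z : Circle => (z : ℂ)) :=
    contMDiff_coe_sphere (E := ℂ)
  have h3 : ContDiffAt ℝ ∞ Complex.arg (1 : ℂ) := by
    have h4 : ContDiffAt ℝ ∞ Complex.log (1 : ℂ) :=
      (Complex.contDiffAt_log Complex.one_mem_slitPlane).restrict_scalars ℝ
    have h5 : Complex.arg = fun z : ℂ => (Complex.imCLM : ℂ →L[ℝ] ℝ) (Complex.log z) := by
      funext z
      simp [Complex.log_im]
    rw [h5]
    exact Complex.imCLM.contDiff.contDiffAt.comp _ h4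
  have h6 : ContMDiffAt (𝓡 1) 𝓘(ℝ, ℂ) ∞ (fun z : Circle => ((z / z₀ : Circle) : ℂ)) z₀ :=
    (h2.comp h1) z₀
  have h7 : ContMDiffAt (𝓡 1) 𝓘(ℝ, ℝ) ∞
      (fun z : Circle => Complex.arg ((z / z₀ : Circle) : ℂ)) z₀ := by
    have h8 : ContDiffAt ℝ ∞ Complex.arg (((z₀ / z₀ : Circle) : ℂ)) := by
      rw [div_self']
      exact h3
    exact ContMDiffAt.comp z₀ (h8.contMDiffAt) h6
  exact contMDiffAt_const.add h7

end Angle

/-- the factor `log 2 / (2 π)` -/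
private noncomputable def fac : ℝ := Real.log 2 / (2 * Real.pi)

private lemma fac_pos : 0 < fac := by
  unfold fac
  have := Real.log_pos (by norm_num : (1 : ℝ) < 2)
  have := Real.pi_pos
  positivity

/-- `S¹ × S³` -/
private abbrev CS3 : Type := Circle × sphere (0 : E4) 1

private lemma norm_ne {x : E4} (hx : x ≠ 0) : ‖x‖ ≠ 0 := norm_ne_zero_iff.2 hx

private lemma V4_ne (x : V4) : (x : E4) ≠ 0 := x.2

/-- the direction -/
private noncomputable def dir (x : V4) : sphere (0 : E4) 1 :=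
  ⟨‖(x : E4)‖⁻¹ • (x : E4), by
    rw [mem_sphere_zero_iff_norm, norm_smul, norm_inv, norm_norm]
    exact inv_mul_cancel₀ (norm_ne (V4_ne x))⟩

/-- the projection onto `S¹ × S³` -/
private noncomputable def qq (x : V4) : CS3 :=
  (Circle.exp (Real.log ‖(x : E4)‖ / fac), dir x)

private lemma sph_ne (u : sphere (0 : E4) 1) : (u : E4) ≠ 0 := by
  have h := u.2
  rw [mem_sphere_zero_iff_norm] at h
  intro h0
  rw [h0, norm_zero] at h
  exact zero_ne_one h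

/-- local sections of the projection -/
private noncomputable def sec (z₀ : Circle) (y : CS3) : V4 :=
  ⟨Real.exp (ang z₀ y.1 * fac) • (y.2 : E4),
    smul_ne_zero (Real.exp_pos _).ne' (sph_ne y.2)⟩

private lemma qq_sec (z₀ : Circle) (y : CS3) : qq (sec z₀ y) = y := by
  have hu : ‖(y.2 : E4)‖ = 1 := by
    have h := y.2.2
    rwa [mem_sphere_zero_iff_norm] at h
  have hn : ‖((sec z₀ y : V4) : E4)‖ = Real.exp (ang z₀ y.1 * fac) := by
    change ‖Real.exp (ang z₀ y.1 * fac) • (y.2 : E4)‖ = _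
    rw [norm_smul, hu, mul_one, Real.norm_eq_abs, abs_of_pos (Real.exp_pos _)]
  refine Prod.ext ?_ ?_
  · change Circle.exp (Real.log ‖((sec z₀ y : V4) : E4)‖ / fac) = y.1
    rw [hn, Real.log_exp, mul_div_cancel_right₀ _ fac_pos.ne', exp_ang]
  · apply Subtype.ext
    change ‖((sec z₀ y : V4) : E4)‖⁻¹ • (Real.exp (ang z₀ y.1 * fac) • (y.2 : E4)) = (y.2 : E4)
    rw [hn, smul_smul, inv_mul_cancel₀ (Real.exp_pos _).ne', one_smul]

private lemma contMDiff_val : ContMDiff (𝓡 4) 𝓘(ℝ, E4) ∞ (fun x : V4 => (x : E4)) :=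
  contMDiff_subtype_val

private lemma contMDiff_dir : ContMDiff (𝓡 4) (𝓡 3) ∞ dir := by
  have h1 : ContMDiff (𝓡 4) 𝓘(ℝ, E4) ∞ (fun x : V4 => ‖(x : E4)‖⁻¹ • (x : E4)) := by
    intro x
    have h2 : ContDiffAt ℝ ∞ (fun y : E4 => ‖y‖⁻¹ • y) (x : E4) :=
      ((contDiffAt_norm ℝ (V4_ne x)).inv (norm_ne (V4_ne x))).smul contDiffAt_id
    exact ContMDiffAt.comp (g := fun y : E4 => ‖y‖⁻¹ • y) (f := fun x : V4 => (x : E4)) x
      h2.contMDiffAt (contMDiff_val x)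
  have := Fact.mk (@finrank_euclideanSpace_fin ℝ _ (3 + 1))
  exact ContMDiff.codRestrict_sphere (n := 3) h1 _

private lemma contMDiff_qq : ContMDiff (𝓡 4) ((𝓡 1).prod (𝓡 3)) ∞ qq := by
  have h1 : ContMDiff (𝓡 4) 𝓘(ℝ, ℝ) ∞ (fun x : V4 => Real.log ‖(x : E4)‖ / fac) := by
    intro x
    have h2 : ContDiffAt ℝ ∞ (fun y : E4 => Real.log ‖y‖ / fac) (x : E4) :=
      ((contDiffAt_norm ℝ (V4_ne x)).log (norm_ne (V4_ne x))).div_const fac
    exact ContMDiffAt.comp (g := fun y : E4 => Real.log ‖y‖ / fac) (f := fun x : V4 => (x : E4)) x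
      h2.contMDiffAt (contMDiff_val x)
  exact (contMDiff_circleExp.comp h1).prodMk contMDiff_dir

private lemma contMDiffAt_sec (y : CS3) :
    ContMDiffAt ((𝓡 1).prod (𝓡 3)) (𝓡 4) ∞ (sec y.1) y := by
  have := Fact.mk (@finrank_euclideanSpace_fin ℝ _ (3 + 1))
  rw [← ContMDiffAt.subtypeVal_comp_iff]
  have h1 : ContMDiffAt ((𝓡 1).prod (𝓡 3)) 𝓘(ℝ, ℝ) ∞ (fun w : CS3 => ang y.1 w.1) y :=
    ContMDiffAt.comp (g := ang y.1) (f := fun w : CS3 => w.1) y (contMDiffAt_ang y.1)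
      contMDiffAt_fst
  have h2 : ContMDiffAt ((𝓡 1).prod (𝓡 3)) 𝓘(ℝ, ℝ) ∞
      (fun w : CS3 => Real.exp (ang y.1 w.1 * fac)) y := by
    have h3 : ContDiff ℝ ∞ (fun t : ℝ => Real.exp (t * fac)) :=
      Real.contDiff_exp.comp (contDiff_id.mul contDiff_const)
    exact ContMDiffAt.comp (g := fun t : ℝ => Real.exp (t * fac))
      (f := fun w : CS3 => ang y.1 w.1) y (h3.contMDiff _) h1
  have h4 : ContMDiffAt ((𝓡 1).prod (𝓡 3)) 𝓘(ℝ, E4) ∞ (fun w : CS3 => (w.2 : E4)) y := by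
    have h5 : ContMDiff (𝓡 3) 𝓘(ℝ, E4) ∞ (fun u : sphere (0 : E4) 1 => (u : E4)) :=
      contMDiff_coe_sphere (n := 3)
    exact ContMDiffAt.comp (g := fun u : sphere (0 : E4) 1 => (u : E4)) (f := fun w : CS3 => w.2)
      y (h5 _) contMDiffAt_snd
  exact h2.smul h4

theorem coe_pow {τ : V4 ≃ₜ V4} (hτ : ∀ x : V4, (τ x : E4) = (2⁻¹ : ℝ) • (x : E4))
    (n : ℤ) (x : V4) : (((τ ^ n) x : V4) : E4) = ((2⁻¹ : ℝ) ^ n) • (x : E4) := by
  have h1 : ∀ (m : ℕ) (x : V4), (((τ ^ m) x : V4) : E4) = ((2⁻¹ : ℝ) ^ m) • (x : E4) := by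
    intro m
    induction m with
    | zero =>
      intro x
      rw [pow_zero, pow_zero, one_smul]
      rfl
    | succ m ih =>
      intro x
      rw [pow_succ']
      change ((τ ((τ ^ m) x) : V4) : E4) = _
      rw [hτ, ih, smul_smul, pow_succ']
  rcases n with m | m
  · rw [Int.ofNat_eq_natCast, zpow_natCast, zpow_natCast]
    exact h1 m x
  · have h2 := h1 (m + 1) ((τ ^ (Int.negSucc m)) x)
    rw [zpow_negSucc] at h2 ⊢
    have h3 : (τ ^ (m + 1)) (((τ ^ (m + 1))⁻¹ : V4 ≃ₜ V4) x) = x :=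
      (τ ^ (m + 1)).apply_symm_apply x
    rw [h3] at h2
    rw [h2, smul_smul, zpow_negSucc, inv_mul_cancel₀ (by positivity), one_smul]

private lemma qq_eq_iff {τ : V4 ≃ₜ V4} (hτ : ∀ x : V4, (τ x : E4) = (2⁻¹ : ℝ) • (x : E4))
    (x y : V4) : qq x = qq y ↔ ∃ n : ℤ, y = (τ ^ n) x := by
  have hx := norm_ne (V4_ne x)
  have hy := norm_ne (V4_ne y)
  have hx0 : 0 < ‖(x : E4)‖ := norm_pos_iff.2 (V4_ne x)
  have hy0 : 0 < ‖(y : E4)‖ := norm_pos_iff.2 (V4_ne y)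
  have hpi := Real.pi_pos
  have hlog := Real.log_pos (by norm_num : (1 : ℝ) < 2)
  have hfac : 2 * Real.pi * fac = Real.log 2 := by
    unfold fac
    field_simp
  constructor
  · intro h
    have h1 : Circle.exp (Real.log ‖(x : E4)‖ / fac) = Circle.exp (Real.log ‖(y : E4)‖ / fac) :=
      congrArg Prod.fst h
    have h2 : ‖(x : E4)‖⁻¹ • (x : E4) = ‖(y : E4)‖⁻¹ • (y : E4) :=
      congrArg (fun w : CS3 => (w.2 : E4)) h
    obtain ⟨m, hm⟩ := Circle.exp_eq_exp.1 h1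
    refine ⟨m, Subtype.ext ?_⟩
    rw [coe_pow hτ]
    have h3 : Real.log ‖(x : E4)‖ = Real.log ‖(y : E4)‖ + m * Real.log 2 := by
      rw [← hfac]
      have := fac_pos
      field_simp at hm
      linarith
    have h4 : ‖(x : E4)‖ = ‖(y : E4)‖ * (2 : ℝ) ^ m := by
      have h5 : Real.log (‖(y : E4)‖ * (2 : ℝ) ^ m) = Real.log ‖(y : E4)‖ + m * Real.log 2 := by
        rw [Real.log_mul hy (by positivity), Real.log_zpow]
      rw [← h5] at h3
      exact Real.log_injOn_pos (Set.mem_Ioi.2 hx0) (Set.mem_Ioi.2 (by positivity)) h3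
    have h6 : (y : E4) = (‖(y : E4)‖ * ‖(x : E4)‖⁻¹) • (x : E4) := by
      rw [mul_smul, h2, smul_smul, mul_inv_cancel₀ hy, one_smul]
    rw [h6, h4, inv_zpow, mul_inv, ← mul_assoc, mul_inv_cancel₀ hy, one_mul]
  · rintro ⟨n, rfl⟩
    have h1 : ‖(((τ ^ n) x : V4) : E4)‖ = (2⁻¹ : ℝ) ^ n * ‖(x : E4)‖ := by
      rw [coe_pow hτ, norm_smul, Real.norm_eq_abs, abs_of_pos (by positivity)]
    refine Prod.ext ?_ ?_
    · change Circle.exp (Real.log ‖(x : E4)‖ / fac) =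
        Circle.exp (Real.log ‖(((τ ^ n) x : V4) : E4)‖ / fac)
      rw [Circle.exp_eq_exp]
      refine ⟨n, ?_⟩
      rw [h1, Real.log_mul (by positivity) hx, Real.log_zpow, Real.log_inv, ← hfac]
      have := fac_pos
      field_simp
      ring
    · apply Subtype.ext
      change ‖(x : E4)‖⁻¹ • (x : E4) =
        ‖(((τ ^ n) x : V4) : E4)‖⁻¹ • (((τ ^ n) x : V4) : E4)
      rw [h1, coe_pow hτ, smul_smul, mul_inv, mul_right_comm,
        inv_mul_cancel₀ (by positivity), one_mul]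

/-! ### the projection is a local diffeomorphism -/

private lemma exists_sec {τ : V4 ≃ₜ V4} (hτ : ∀ x : V4, (τ x : E4) = (2⁻¹ : ℝ) • (x : E4))
    (x : V4) : ∃ s : CS3 → V4, ContMDiffAt ((𝓡 1).prod (𝓡 3)) (𝓡 4) ∞ s (qq x) ∧
      s (qq x) = x ∧ ∀ y, qq (s y) = y := by
  obtain ⟨n, hn⟩ := (qq_eq_iff hτ (sec (qq x).1 (qq x)) x).1 (qq_sec _ _)
  refine ⟨fun y => (τ ^ n) (sec (qq x).1 y), ?_, hn.symm, fun y => ?_⟩
  · rw [← ContMDiffAt.subtypeVal_comp_iff]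
    have h1 : ContMDiffAt ((𝓡 1).prod (𝓡 3)) 𝓘(ℝ, E4) ∞
        (fun y : CS3 => ((sec (qq x).1 y : V4) : E4)) (qq x) :=
      ContMDiffAt.comp (g := fun z : V4 => (z : E4)) (f := sec (qq x).1) (qq x)
        (contMDiff_val _) (contMDiffAt_sec (qq x))
    have h2 : (Subtype.val ∘ fun y : CS3 => (τ ^ n) (sec (qq x).1 y)) =
        fun y : CS3 => ((2⁻¹ : ℝ) ^ n) • ((sec (qq x).1 y : V4) : E4) := by
      funext y
      exact coe_pow hτ n _
    rw [h2]
    have h3 : ContMDiffAt ((𝓡 1).prod (𝓡 3)) 𝓘(ℝ, ℝ) ∞ (fun _ : CS3 => ((2⁻¹ : ℝ) ^ n)) (qq x) :=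
      contMDiffAt_const
    exact h3.smul h1
  · rw [← (qq_eq_iff hτ (sec (qq x).1 y) ((τ ^ n) (sec (qq x).1 y))).2 ⟨n, rfl⟩, qq_sec]

private lemma qq_inj {τ : V4 ≃ₜ V4} (hτ : ∀ x : V4, (τ x : E4) = (2⁻¹ : ℝ) • (x : E4))
    {r : ℝ} {z w : V4} (hz : 3 / 4 * r < ‖(z : E4)‖ ∧ ‖(z : E4)‖ < 5 / 4 * r)
    (hw : 3 / 4 * r < ‖(w : E4)‖ ∧ ‖(w : E4)‖ < 5 / 4 * r) (h : qq z = qq w) : z = w := by
  obtain ⟨n, hn⟩ := (qq_eq_iff hτ z w).1 h
  have h1 : ‖(w : E4)‖ = (2⁻¹ : ℝ) ^ n * ‖(z : E4)‖ := by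
    rw [hn, coe_pow hτ, norm_smul, Real.norm_eq_abs, abs_of_pos (by positivity)]
  have hz0 : 0 < ‖(z : E4)‖ := norm_pos_iff.2 (V4_ne z)
  have hr : 0 < r := by linarith [hz.2]
  have h2 : n = 0 := by
    by_contra hne
    rcases lt_or_gt_of_ne hne with hlt | hgt
    · have h3 : (2 : ℝ) ≤ (2⁻¹ : ℝ) ^ n := by
        rw [inv_zpow', show (2 : ℝ) = (2 : ℝ) ^ (1 : ℤ) by norm_num, ← zpow_mul, one_mul]
        exact zpow_le_zpow_right₀ (by norm_num) (by omega)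
      nlinarith
    · have h3 : (2⁻¹ : ℝ) ^ n ≤ 2⁻¹ := by
        have h4 : (2⁻¹ : ℝ) ^ n ≤ (2⁻¹ : ℝ) ^ (1 : ℤ) :=
          zpow_le_zpow_right_of_le_one₀ (by norm_num) (by norm_num) (by omega)
        simpa using h4
      nlinarith
  rw [h2] at hn
  rw [hn]
  rfl

private lemma qq_localHomeo {τ : V4 ≃ₜ V4}
    (hτ : ∀ x : V4, (τ x : E4) = (2⁻¹ : ℝ) • (x : E4)) : IsLocalHomeomorph qq := by
  have hcont : Continuous qq := contMDiff_qq.continuous
  have hopen : IsOpenMap qq := by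
    rw [isOpenMap_iff_nhds_le]
    intro x O hO
    obtain ⟨s, s1, s2, s3⟩ := exists_sec hτ x
    have h1 : Tendsto s (𝓝 (qq x)) (𝓝 x) := by
      have := s1.continuousAt.tendsto
      rwa [s2] at this
    filter_upwards [h1 hO] with y hy
    have h2 : qq (s y) ∈ O := hy
    rwa [s3] at h2
  rw [isLocalHomeomorph_iff_isOpenEmbedding_restrict]
  intro x
  have hx0 : 0 < ‖(x : E4)‖ := norm_pos_iff.2 (V4_ne x)
  have hc : Continuous fun z : V4 => ‖(z : E4)‖ := continuous_norm.comp continuous_subtype_val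
  set U : Set V4 := {z : V4 | 3 / 4 * ‖(x : E4)‖ < ‖(z : E4)‖ ∧ ‖(z : E4)‖ < 5 / 4 * ‖(x : E4)‖}
    with hU
  have hUo : IsOpen U :=
    (isOpen_lt continuous_const hc).inter (isOpen_lt hc continuous_const)
  refine ⟨U, hUo.mem_nhds ⟨by linarith, by linarith⟩, ?_⟩
  refine Topology.IsOpenEmbedding.of_continuous_injective_isOpenMap
    (hcont.comp continuous_subtype_val) ?_ (hopen.domRestrict hUo)
  rintro ⟨z, hz⟩ ⟨w, hw⟩ h
  exact Subtype.ext (qq_inj hτ hz hw h)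

/-- the projection of the punctured space onto `S¹ × S³`; it maps rays to circles -/
theorem modelDir2 (τ : V4 ≃ₜ V4) (hτ : ∀ x : V4, (τ x : E4) = (2⁻¹ : ℝ) • (x : E4)) :
    ∃ q₀ : V4 → Circle × sphere (0 : E4) 1, Function.Surjective q₀ ∧
      IsLocalDiffeomorph (𝓡 4) ((𝓡 1).prod (𝓡 3)) ∞ q₀ ∧
      (∀ x y, q₀ x = q₀ y ↔ ∃ n : ℤ, y = (τ ^ n) x) ∧
      (∀ x : V4, (((q₀ x).2 : sphere (0 : E4) 1) : E4) = ‖(x : E4)‖⁻¹ • (x : E4)) ∧
      ∀ x : V4, (q₀ x).1 = Circle.exp (Real.log ‖(x : E4)‖ / (Real.log 2 / (2 * Real.pi))) := by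
  refine ⟨qq, fun y => ⟨sec 1 y, qq_sec 1 y⟩, fun x => ?_, qq_eq_iff hτ, fun x => rfl, fun x => rfl⟩
  obtain ⟨e, he, hef⟩ := qq_localHomeo hτ x
  have hfe : ∀ z, e z = qq z := fun z => by rw [hef]
  refine ⟨{ toPartialEquiv := e.toPartialEquiv
            open_source := e.open_source
            open_target := e.open_target
            contMDiffOn_toFun := ?_
            contMDiffOn_invFun := ?_ }, he, fun z _ => (hfe z).symm⟩
  · exact (contMDiff_qq.contMDiffOn (s := e.source)).congr fun z _ => hfe z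
  · intro y hy
    obtain ⟨z, hz, rfl⟩ : ∃ z ∈ e.source, e z = y := ⟨e.symm y, e.map_target hy, e.right_inv hy⟩
    obtain ⟨s, s1, s2, s3⟩ := exists_sec hτ z
    rw [← hfe z] at s1 s2
    refine ContMDiffAt.contMDiffWithinAt (s1.congr_of_eventuallyEq ?_)
    have h1 : ∀ᶠ y in 𝓝 (e z), s y ∈ e.source :=
      s1.continuousAt.eventually (by rw [s2]; exact e.open_source.mem_nhds hz)
    filter_upwards [h1, e.open_target.mem_nhds hy] with y hy1 hy2
    show e.symm y = s y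
    have h2 : e (s y) = y := by rw [hfe, s3]
    conv_lhs => rw [← h2]
    exact e.left_inv hy1

end Pool.Agent.HopfSPC.Fib
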