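import Pool.Agent.HopfSPC.NullLag
import Pool.Agent.HopfFin.Statement

/-!
# A homeomorphism of `ℝ⁴` with compact support preserves the orientation at its regular points
-/

set_option autoImplicit false
set_option linter.unusedSectionVars false

open scoped ContDiff Topology NNReal Manifold
open Set Filter Metric MeasureTheory

namespace Pool.Agent.HopfSPC

open Pool.Agent.HopfCov

/-! ### the weight -/

/-- the weight on the line -/
noncomputable def bet (r u : ℝ) : ℝ := max 0 (r - |u|)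

/-- its primitive -/
noncomputable def kap (r u : ℝ) : ℝ := ∫ v in (0 : ℝ)..u, bet r v

theorem continuous_bet (r : ℝ) : Continuous (bet r) := by
  unfold bet
  fun_prop

theorem bet_nonneg (r u : ℝ) : 0 ≤ bet r u := le_max_left _ _

theorem bet_le {r : ℝ} (hr : 0 ≤ r) (u : ℝ) : bet r u ≤ r :=
  max_le hr (by linarith [abs_nonneg u])

theorem bet_zero {r u : ℝ} (h : r ≤ |u|) : bet r u = 0 := max_eq_left (by linarith)

theorem hasDerivAt_kap (r u : ℝ) : HasDerivAt (kap r) (bet r u) u :=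
  intervalIntegral.integral_hasDerivAt_right ((continuous_bet r).intervalIntegrable 0 u)
    (continuous_bet r).stronglyMeasurable.stronglyMeasurableAtFilter
    (continuous_bet r).continuousAt

theorem contDiff_kap (r : ℝ) : ContDiff ℝ 1 (kap r) := by
  rw [contDiff_one_iff_deriv]
  refine ⟨fun u => (hasDerivAt_kap r u).differentiableAt, ?_⟩
  have : deriv (kap r) = bet r := funext fun u => (hasDerivAt_kap r u).deriv
  rw [this]
  exact continuous_bet r

/-- the map with the product of the weights as Jacobian determinant -/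
noncomputable def wmap (r : ℝ) (y₀ y : E4) : E4 := WithLp.toLp 2 fun i => kap r (y i - y₀ i)

theorem contDiff_wmap (r : ℝ) (y₀ : E4) : ContDiff ℝ 1 (wmap r y₀) := by
  rw [contDiff_euclidean]
  intro i
  have h1 : ContDiff ℝ 1 fun y : E4 => y i - y₀ i :=
    ((EuclideanSpace.proj (𝕜 := ℝ) i : E4 →L[ℝ] ℝ).contDiff).sub contDiff_const
  exact (contDiff_kap r).comp h1

theorem fderiv_wmap (r : ℝ) (y₀ y v : E4) (i : Fin 4) :
    fderiv ℝ (wmap r y₀) y v i = bet r (y i - y₀ i) * v i := by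
  have hA : HasFDerivAt (wmap r y₀) (fderiv ℝ (wmap r y₀) y) y :=
    ((contDiff_wmap r y₀).differentiable (by simp) y).hasFDerivAt
  have h1 : HasFDerivAt (fun z : E4 => wmap r y₀ z i)
      ((EuclideanSpace.proj (𝕜 := ℝ) i : E4 →L[ℝ] ℝ).comp (fderiv ℝ (wmap r y₀) y)) y :=
    (EuclideanSpace.proj (𝕜 := ℝ) i : E4 →L[ℝ] ℝ).hasFDerivAt.comp y hA
  have h2 : HasFDerivAt (fun z : E4 => kap r (z i - y₀ i))
      (bet r (y i - y₀ i) • (EuclideanSpace.proj (𝕜 := ℝ) i : E4 →L[ℝ] ℝ)) y := by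
    have h3 : HasFDerivAt (fun z : E4 => z i - y₀ i)
        (EuclideanSpace.proj (𝕜 := ℝ) i : E4 →L[ℝ] ℝ) y :=
      ((EuclideanSpace.proj (𝕜 := ℝ) i : E4 →L[ℝ] ℝ).hasFDerivAt).sub_const _
    exact (hasDerivAt_kap r (y i - y₀ i)).comp_hasFDerivAt y h3
  have h4 := congrArg (fun L : E4 →L[ℝ] ℝ => L v) (h1.unique h2)
  exact h4

theorem det_wmap (r : ℝ) (y₀ y : E4) :
    (fderiv ℝ (wmap r y₀) y).det = ∏ i, bet r (y i - y₀ i) := by
  show LinearMap.det ((fderiv ℝ (wmap r y₀) y : E4 →L[ℝ] E4) : E4 →ₗ[ℝ] E4) = _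
  rw [← LinearMap.det_toMatrix (EuclideanSpace.basisFun (Fin 4) ℝ).toBasis, ← Matrix.det_diagonal]
  congr 1
  ext i j
  rw [LinearMap.toMatrix_apply]
  have h1 : (EuclideanSpace.basisFun (Fin 4) ℝ).toBasis.repr
      ((fderiv ℝ (wmap r y₀) y : E4 →L[ℝ] E4)
        ((EuclideanSpace.basisFun (Fin 4) ℝ).toBasis j)) i =
      fderiv ℝ (wmap r y₀) y (EuclideanSpace.single j 1) i := by
    simp
  have h2 : (EuclideanSpace.basisFun (Fin 4) ℝ).toBasis.repr
      (((fderiv ℝ (wmap r y₀) y : E4 →L[ℝ] E4) : E4 →ₗ[ℝ] E4)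
        ((EuclideanSpace.basisFun (Fin 4) ℝ).toBasis j)) i =
      fderiv ℝ (wmap r y₀) y (EuclideanSpace.single j 1) i := h1
  rw [h2, fderiv_wmap]
  by_cases hij : i = j
  · subst hij
    simp
  · rw [Matrix.diagonal_apply_ne _ hij]
    simp [hij]

theorem norm_fderiv_wmap {r : ℝ} (hr : 0 ≤ r) (y₀ y : E4) : ‖fderiv ℝ (wmap r y₀) y‖ ≤ r := by
  refine ContinuousLinearMap.opNorm_le_bound _ hr fun v => ?_
  have h1 : ‖fderiv ℝ (wmap r y₀) y v‖ ^ 2 ≤ (r * ‖v‖) ^ 2 := by
    rw [EuclideanSpace.norm_sq_eq, mul_pow, EuclideanSpace.norm_sq_eq, Finset.mul_sum]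
    refine Finset.sum_le_sum fun i _ => ?_
    rw [fderiv_wmap, norm_mul, mul_pow, Real.norm_eq_abs, abs_of_nonneg (bet_nonneg _ _)]
    have h2 := bet_nonneg r (y i - y₀ i)
    have h3 := bet_le hr (y i - y₀ i)
    gcongr
  exact (pow_le_pow_iff_left₀ (norm_nonneg _) (by positivity) two_ne_zero).1 h1

/-! ### smooth approximation -/

theorem exists_approx {h : E4 → E4} (hc : Continuous h) {S : Set E4} (hS : IsClosed S)
    (hs : ∀ x ∈ S, ∀ᶠ y in 𝓝 x, ContDiffAt ℝ 1 h y) {ε : ℝ} (hε : 0 < ε) :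
    ∃ f : E4 → E4, ContDiff ℝ 1 f ∧ (∀ x ∈ S, f x = h x) ∧ ∀ x, ‖f x - h x‖ < ε := by
  obtain ⟨g, hg⟩ := exists_contMDiffMap_forall_mem_convex_of_local (I := 𝓘(ℝ, E4)) (M := E4)
    (F := E4) (n := 1) (t := fun x => ball (h x) ε ∩ {v | x ∈ S → v = h x})
    (by
      intro x
      refine (convex_ball _ _).inter ?_
      by_cases hx : x ∈ S
      · have : {v : E4 | x ∈ S → v = h x} = {h x} := by
          ext v
          exact ⟨fun hv => hv hx, fun hv _ => hv⟩
        rw [this]
        exact convex_singleton _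
      · have : {v : E4 | x ∈ S → v = h x} = univ := by
          ext v
          exact ⟨fun _ => mem_univ _, fun _ hx' => absurd hx' hx⟩
        rw [this]
        exact convex_univ)
    (by
      intro x
      by_cases hx : x ∈ S
      · obtain ⟨U, hU, hUo, hxU⟩ := _root_.mem_nhds_iff.1 (hs x hx)
        refine ⟨U, hUo.mem_nhds hxU, h, ?_, fun y _ => ⟨mem_ball_self hε, fun _ => rfl⟩⟩
        rw [contMDiffOn_iff_contDiffOn]
        intro y hy
        have hy' : ContDiffAt ℝ 1 h y := hU hy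
        exact hy'.contDiffWithinAt
      · refine ⟨Sᶜ ∩ h ⁻¹' ball (h x) ε, Filter.inter_mem (hS.isOpen_compl.mem_nhds hx)
          (hc.continuousAt.preimage_mem_nhds (ball_mem_nhds _ hε)), fun _ => h x,
          contMDiffOn_const, ?_⟩
        rintro y ⟨hy1, hy2⟩
        refine ⟨?_, fun hy => absurd hy hy1⟩
        rw [mem_ball, dist_comm]
        exact hy2)
  refine ⟨g, g.contMDiff.contDiff, fun x hx => (hg x).2 hx, fun x => ?_⟩
  have := (hg x).1
  rwa [mem_ball, dist_eq_norm] at this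

/-- **A homeomorphism of `ℝ⁴` with compact support preserves the orientation at its regular
points.** -/
theorem orient {h : E4 ≃ₜ E4} {R : ℝ} (hR : ∀ x, R ≤ ‖x‖ → h x = x) {x₀ : E4} (hx : RG h x₀) :
    LD 1 h x₀ := by
  refine ⟨hx.1, ?_⟩
  rw [one_mul]
  by_contra hcon
  have hneg : (fderiv ℝ h x₀).det < 0 := lt_of_le_of_ne (not_lt.1 hcon) hx.2
  -- a larger radius
  set R₁ : ℝ := max R (‖x₀‖ + 1) with hR₁
  have hR' : ∀ x, R₁ ≤ ‖x‖ → h x = x := fun x hx' => hR x ((le_max_left _ _).trans hx')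
  have hx₀ : ‖x₀‖ < R₁ := lt_of_lt_of_le (by linarith) (le_max_right R _)
  set y₀ := h x₀ with hy₀
  have hy₀R : ‖y₀‖ < R₁ := by
    by_contra hc
    have h1 := hR' y₀ (not_lt.1 hc)
    have h2 : y₀ = x₀ := h.injective h1
    rw [h2] at hc
    exact hc hx₀
  -- the ball around `x₀`
  have hev : ∀ᶠ x in 𝓝 x₀, ContDiffAt ℝ 1 h x ∧ (fderiv ℝ h x).det < 0 := by
    have h1 : ∀ᶠ x in 𝓝 x₀, ContDiffAt ℝ 1 h x :=
      (hx.1.of_le (m := 1) (by simp)).eventually (by simp)
    have hc : ContinuousAt (fderiv ℝ h) x₀ := hx.1.continuousAt_fderiv (by simp)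
    have hd : ContinuousAt (fun y => (fderiv ℝ h y).det) x₀ :=
      ContinuousLinearMap.continuous_det.continuousAt.comp hc
    exact h1.and (hd.eventually (isOpen_Iio.mem_nhds hneg))
  obtain ⟨ρ₂, hρ₂, hball⟩ := Metric.eventually_nhds_iff_ball.1 hev
  set ρ := ρ₂ / 2 with hρ
  have hρ0 : 0 < ρ := by positivity
  have hsub : closedBall x₀ ρ ⊆ ball x₀ ρ₂ := closedBall_subset_ball (by linarith)
  -- the ball around `y₀`
  have hW : h '' ball x₀ ρ ∩ ball 0 R₁ ∈ 𝓝 y₀ := by
    refine Filter.inter_mem ((h.isOpenMap _ isOpen_ball).mem_nhds ⟨x₀, mem_ball_self hρ0, rfl⟩)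
      (isOpen_ball.mem_nhds (by rwa [mem_ball_zero_iff]))
  obtain ⟨δ, hδ, hδs⟩ := Metric.mem_nhds_iff.1 hW
  -- the approximation
  obtain ⟨f, hf, hfS, hfε⟩ := exists_approx h.continuous
    (S := closedBall x₀ ρ ∪ {x | R₁ + 1 ≤ ‖x‖})
    (isClosed_closedBall.union (isClosed_le continuous_const continuous_norm))
    (by
      rintro x (hx' | hx')
      · filter_upwards [isOpen_ball.mem_nhds (hsub hx')] with y hy
        exact (hball y hy).1
      · have h1 : ∀ᶠ y : E4 in 𝓝 x, R₁ < ‖y‖ := by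
          refine (isOpen_lt continuous_const continuous_norm).mem_nhds ?_
          have : R₁ + 1 ≤ ‖x‖ := hx'
          show R₁ < ‖x‖
          linarith
        filter_upwards [h1.eventually_nhds] with y hy
        have h2 : (h : E4 → E4) =ᶠ[𝓝 y] id := by
          filter_upwards [hy] with z hz
          exact hR' z hz.le
        exact contDiffAt_id.congr_of_eventuallyEq h2)
    (show 0 < δ / 4 by positivity)
  set r := δ / 4 with hr
  have hr0 : 0 < r := by positivity
  have hf1 : ContDiff ℝ 1 f := hf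
  -- the derivative of `f` is bounded
  obtain ⟨K₁, hK₁⟩ : ∃ K₁ : ℝ, ∀ x, ‖fderiv ℝ f x‖ ≤ K₁ := by
    obtain ⟨C, hC⟩ := (isCompact_closedBall (0 : E4) (R₁ + 1)).exists_bound_of_continuousOn
      (hf1.continuous_fderiv (by simp)).continuousOn
    refine ⟨max C 1, fun x => ?_⟩
    by_cases hx' : ‖x‖ ≤ R₁ + 1
    · exact (hC x (by rwa [mem_closedBall_zero_iff])).trans (le_max_left _ _)
    · have h1 : f =ᶠ[𝓝 x] id := by
        filter_upwards [(isOpen_lt continuous_const continuous_norm).mem_nhds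
          (not_le.1 hx')] with z hz
        have hz' : R₁ + 1 < ‖z‖ := hz
        rw [hfS z (Or.inr hz'.le)]
        exact hR' z (by linarith)
      rw [h1.fderiv_eq, fderiv_id]
      exact ContinuousLinearMap.norm_id_le.trans (le_max_right _ _)
  -- the two maps
  have hg₀ := contDiff_wmap r y₀
  have hg₁ : ContDiff ℝ 1 (wmap r y₀ ∘ f) := hg₀.comp hf1
  have hd₁ : ∀ x, fderiv ℝ (wmap r y₀ ∘ f) x =
      (fderiv ℝ (wmap r y₀) (f x)).comp (fderiv ℝ f x) := fun x =>
    fderiv_comp x (hg₀.differentiable (by simp) _) (hf1.differentiable (by simp) _)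
  have key := null_lagrangian (g₀ := wmap r y₀) (g₁ := wmap r y₀ ∘ f) (R := R₁ + 1)
    (K := r * max K₁ 1) hg₀ hg₁
    (fun x => (norm_fderiv_wmap hr0.le y₀ x).trans (by
      have := le_max_right K₁ 1
      nlinarith))
    (fun x => by
      rw [hd₁]
      refine (ContinuousLinearMap.opNorm_comp_le _ _).trans ?_
      have h1 := norm_fderiv_wmap hr0.le y₀ (f x)
      have h2 := (hK₁ x).trans (le_max_left K₁ 1)
      gcongr)
    (fun x hx' => by
      have h1 : f x = x := by
        rw [hfS x (Or.inr hx'.le)]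
        exact hR' x (by linarith)
      show wmap r y₀ x = wmap r y₀ (f x)
      rw [h1])
  -- the right-hand side is not positive
  have hbox : ∀ y : E4, (∏ i, bet r (y i - y₀ i)) ≠ 0 → y ∈ ball y₀ (2 * r) := by
    intro y hy
    rw [Finset.prod_ne_zero_iff] at hy
    have h1 : ∀ i, |y i - y₀ i| < r := by
      intro i
      by_contra hc
      exact hy i (Finset.mem_univ _) (bet_zero (not_lt.1 hc))
    rw [mem_ball, dist_eq_norm]
    have h2 : ‖y - y₀‖ ^ 2 < (2 * r) ^ 2 := by
      rw [EuclideanSpace.norm_sq_eq, Fin.sum_univ_four]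
      have h3 : ∀ i : Fin 4, ‖(y - y₀) i‖ ^ 2 < r ^ 2 := by
        intro i
        have h4 : ‖(y - y₀) i‖ < r := h1 i
        gcongr
      have := h3 0
      have := h3 1
      have := h3 2
      have := h3 3
      nlinarith
    exact lt_of_pow_lt_pow_left₀ 2 (by positivity) h2
  have hle : ∫ x in closedBall (0 : E4) (R₁ + 1), (fderiv ℝ (wmap r y₀ ∘ f) x).det ≤ 0 := by
    refine setIntegral_nonpos isClosed_closedBall.measurableSet fun x _ => ?_
    rw [hd₁, det_comp_clm, det_wmap]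
    by_cases hφ : (∏ i, bet r (f x i - y₀ i)) = 0
    · rw [hφ, zero_mul]
    · have h1 := hbox _ hφ
      have h2 : h x ∈ ball y₀ δ := by
        have h3 := hfε x
        rw [mem_ball, dist_eq_norm] at h1 ⊢
        calc ‖h x - y₀‖ = ‖(f x - y₀) - (f x - h x)‖ := by congr 1; abel
          _ ≤ ‖f x - y₀‖ + ‖f x - h x‖ := norm_sub_le _ _
          _ < 2 * r + r := by linarith
          _ ≤ δ := by rw [hr]; linarith
      obtain ⟨x', hx', hxx⟩ := (hδs h2).1
      have h3 : x' = x := h.injective hxx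
      rw [h3] at hx'
      have h4 : f =ᶠ[𝓝 x] h := by
        filter_upwards [isOpen_ball.mem_nhds hx'] with z hz
        exact hfS z (Or.inl (ball_subset_closedBall hz))
      rw [h4.fderiv_eq]
      have h5 := (hball x (hsub (ball_subset_closedBall hx'))).2
      have h6 : 0 ≤ ∏ i, bet r (f x i - y₀ i) := Finset.prod_nonneg fun i _ => bet_nonneg _ _
      exact mul_nonpos_of_nonneg_of_nonpos h6 h5.le
  rw [← key] at hle
  -- the left-hand side is positive
  have hcont : Continuous fun y : E4 => ∏ i, bet r (y i - y₀ i) := by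
    refine continuous_finsetProd _ fun i _ => (continuous_bet r).comp ?_
    exact ((EuclideanSpace.proj (𝕜 := ℝ) i : E4 →L[ℝ] ℝ).continuous).sub continuous_const
  have hpos : 0 < ∫ x in closedBall (0 : E4) (R₁ + 1), ∏ i, bet r (x i - y₀ i) := by
    rw [setIntegral_pos_iff_support_of_nonneg_ae
      (Eventually.of_forall fun x => Finset.prod_nonneg fun i _ => bet_nonneg _ _)
      (hcont.continuousOn.integrableOn_compact (isCompact_closedBall _ _))]
    have hopen : IsOpen (Function.support (fun y : E4 => ∏ i, bet r (y i - y₀ i)) ∩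
        ball (0 : E4) (R₁ + 1)) :=
      (isOpen_ne_fun hcont continuous_const).inter isOpen_ball
    refine lt_of_lt_of_le (hopen.measure_pos volume ⟨y₀, ?_, ?_⟩)
      (measure_mono (inter_subset_inter_right _ ball_subset_closedBall))
    · show (∏ i, bet r (y₀ i - y₀ i)) ≠ 0
      rw [Finset.prod_ne_zero_iff]
      intro i _
      rw [sub_self]
      have : bet r 0 = r := by
        unfold bet
        rw [abs_zero, sub_zero]
        exact max_eq_right hr0.le
      rw [this]
      exact hr0.ne'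
    · rw [mem_ball_zero_iff]
      linarith
  have heq : ∫ x in closedBall (0 : E4) (R₁ + 1), (fderiv ℝ (wmap r y₀) x).det =
      ∫ x in closedBall (0 : E4) (R₁ + 1), ∏ i, bet r (x i - y₀ i) :=
    integral_congr_ae (Eventually.of_forall fun x => det_wmap r y₀ x)
  rw [heq] at hle
  exact absurd hpos (not_lt.2 hle)

end Pool.Agent.HopfSPC
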