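import Pool.Agent.HopfSPC.ModelF
import Pool.Agent.HopfSPC.ModelFib
import Pool.Agent.HopfSPC.Orient

/-!
# The class of the manifolds which are smooth near a fibre: the smooth Poincaré conjecture implies
uniqueness
-/

set_option autoImplicit false
set_option linter.unusedSectionVars false

open scoped ContDiff Topology Manifold
open Set Filter Metric Topology

namespace Pool.Agent.HopfCov.Smooth

open Pool.Agent.HopfCov hiding pr
open Pool.Agent.HopfSPC

theorem specOrient : SpecOrient := fun _ _ hR _ hx => orient hR hx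

/-- a fundamental domain -/
theorem shell_of {X : Mfd4} {p : Punctured → X} (hs : Function.Surjective p)
    (hl : ∀ x, LocalDiffeoAt p x) (N : ℤ → Punctured → Punctured)
    (hN : ∀ n x, nrm (val (N n x)) = (2 : ℝ) ^ n * nrm (val x)) (h0 : ∀ x, N 0 x = x)
    (hfib : ∀ x y, p x = p y ↔ ∃ n : ℤ, y = N n x) : Shell p := by
  have hpos : ∀ x : Punctured, 0 < nrm (val x) := fun x => norm_pos_iff.2 (val_ne x)
  refine ⟨hl, fun z => ?_, fun x y hx hx' hy hy' hxy => ?_⟩
  · obtain ⟨x, rfl⟩ := hs z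
    obtain ⟨n, hn⟩ := exists_mem_Ioc_zpow (hpos x) one_lt_two
    refine ⟨N (-(n + 1)) x, ((hfib _ _).2 ⟨_, rfl⟩).symm, ?_, ?_⟩
    · rw [hN, zpow_neg, lt_inv_mul_iff₀ (by positivity)]
      have h1 := hn.1
      rw [zpow_add₀ two_ne_zero, zpow_one]
      linarith
    · rw [hN, zpow_neg, inv_mul_le_iff₀ (by positivity), mul_one]
      exact hn.2
  · obtain ⟨n, hn⟩ := (hfib x y).1 hxy
    have h1 := hN n x
    rw [← hn] at h1
    have h2 : n = 0 := by
      by_contra hne
      rcases lt_or_gt_of_ne hne with hlt | hgt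
      · have h3 : (2 : ℝ) ^ n ≤ (2 : ℝ) ^ (-1 : ℤ) :=
          zpow_le_zpow_right₀ one_lt_two.le (by omega)
        rw [zpow_neg_one] at h3
        have h4 := hpos x
        nlinarith
      · have h3 : (2 : ℝ) ^ (1 : ℤ) ≤ (2 : ℝ) ^ n :=
          zpow_le_zpow_right₀ one_lt_two.le (by omega)
        rw [zpow_one] at h3
        have h4 := hpos x
        nlinarith
    rw [hn, h2, h0]

theorem norm_zpow_rho (n : ℤ) (x : E4) : ‖(rho ^ n).fn x‖ = (2 : ℝ) ^ (-n) * ‖x‖ := by
  have h1 : ∀ y : E4, ‖rho.fn y‖ = (2 : ℝ)⁻¹ * ‖y‖ := fun y => by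
    show ‖halfReflection y‖ = _
    rw [norm_half]
    ring
  have h2 : ∀ (m : ℕ) (y : E4), ‖(rho ^ m).fn y‖ = ((2 : ℝ) ^ m)⁻¹ * ‖y‖ := by
    intro m
    induction m with
    | zero =>
      intro y
      rw [pow_zero, pow_zero, fn_one, inv_one, one_mul]
    | succ m ih =>
      intro y
      rw [pow_succ, fn_mul, ih, h1, pow_succ]
      field_simp
  rcases n with m | m
  · rw [Int.ofNat_eq_natCast, zpow_natCast, zpow_neg, zpow_natCast]
    exact h2 m x
  · rw [zpow_negSucc, Int.neg_negSucc]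
    have h3 := h2 (m + 1) (((rho ^ (m + 1))⁻¹).fn x)
    rw [fn_fn_inv] at h3
    rw [h3, zpow_natCast, ← mul_assoc, mul_inv_cancel₀ (by positivity), one_mul]

/-- the twisted product -/
theorem Orbit.shell {X : Mfd4} {p : Punctured → X} (h : Orbit X p rho) : Shell p := by
  have hne : ∀ (n : ℤ) (x : Punctured), (rho ^ (-n)).fn (val x) ≠ 0 := by
    intro n x h0
    have h1 := norm_zpow_rho (-n) (val x)
    rw [h0, norm_zero] at h1
    have h2 : 0 < ‖val x‖ := norm_pos_iff.2 (val_ne x)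
    have h3 : 0 < (2 : ℝ) ^ (- -n) * ‖val x‖ := by positivity
    linarith
  refine shell_of h.surj (fun x => h.loc x) (fun n x => (⟨(rho ^ (-n)).fn (val x), hne n x⟩ : V4))
    (fun n x => ?_) (fun x => ?_) (fun x y => ?_)
  · show ‖(rho ^ (-n)).fn (val x)‖ = _
    rw [norm_zpow_rho, neg_neg]
    rfl
  · apply Subtype.ext
    show (rho ^ (-0 : ℤ)).fn (val x) = val x
    rw [neg_zero, zpow_zero, fn_one]
  · rw [h.fib]
    constructor
    · rintro ⟨n, hn⟩
      refine ⟨-n, Subtype.ext ?_⟩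
      show val y = (rho ^ (- -n)).fn (val x)
      rw [neg_neg]
      exact hn
    · rintro ⟨n, hn⟩
      exact ⟨-n, by rw [hn]; rfl⟩

/-- uniqueness in the fibre class, twisted product -/
theorem twisted_of_smoothPoincare (hSP : SmoothPoincare) {X : Mfd4} {p : Punctured → X}
    (hp : Orbit X p rho) (M : Mfd4) (h : M ≃ₜ X)
    (hh : SmoothOver h (p '' {y | nrm (val y) = 1})) : TwistedProduct M := by
  obtain ⟨D, hD, -⟩ := straight_fibre specOrient hSP hp.compact hp.hausdorff hp.shell h hh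
  exact hp.of_diffeo hD

/-! ### `S¹ × S³` -/

/-- the model with a formula for the first coordinate -/
theorem exists_X2 : ∃ (X : Mfd4) (τ : V4 ≃ₜ V4) (p : V4 → X.carrier) (i : X.carrier ≃ₜ CS3),
    Mod X τ p i ∧ ∀ x : V4, (i (p x)).1 =
      Circle.exp (Real.log ‖(x : E4)‖ / (Real.log 2 / (2 * Real.pi))) := by
  obtain ⟨τ, h5, h6⟩ := exists_tau
  obtain ⟨q₀, c1, c2, c3, c4, c5⟩ := Fib.modelDir2 τ h6
  obtain ⟨C, hman, hp⟩ := exists_structure_gen (one_mul 1) (p := q₀) h5 PD_tau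
    c1 c2.isLocalHomeomorph c3
  let X : Mfd4 := ⟨Circle × sphere (0 : E4) 1, inferInstance, C, hman⟩
  have hp' : OrbitMap τ (M := X.carrier) q₀ := hp
  obtain ⟨F, F1, F2⟩ := descend_gen hp' c1 c2 c3 1 (by rw [one_mul, mul_one])
  refine ⟨X, τ, q₀, F, ⟨h5, h6, hp', fun x => ?_, fun x => ?_⟩, fun x => ?_⟩
  · obtain ⟨y, rfl⟩ := hp'.surj x
    refine F2 y ?_
    obtain ⟨τ1, t1, -, t3⟩ := restr_gen (1 : E4 ≃ₜ E4) rfl
    have h1 : τ1 = 1 := by
      ext1 y
      exact Subtype.ext (t1 y)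
    rw [← h1]
    exact t3 1 y (Eventually.of_forall fun y => LD_id y)
  · rw [F1 x]
    exact c4 x
  · rw [F1 x]
    exact c5 x

/-- multiplication by a positive number -/
noncomputable def scl (r : ℝ) (hr : 0 < r) (x : Punctured) : Punctured :=
  (⟨r • val x, smul_ne_zero hr.ne' (val_ne x)⟩ : V4)

theorem val_scl (r : ℝ) (hr : 0 < r) (x : Punctured) : val (scl r hr x) = r • val x := rfl

theorem scl_scl {r s : ℝ} (hr : 0 < r) (hs : 0 < s) (h : r * s = 1) (x : Punctured) :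
    scl r hr (scl s hs x) = x := by
  apply Subtype.ext
  show r • s • val x = val x
  rw [smul_smul, h, one_smul]

theorem contMDiff_scl (r : ℝ) (hr : 0 < r) : ContMDiff (𝓡 4) (𝓡 4) ∞ (scl r hr) := by
  intro x
  have h1 : ContMDiffAt (𝓡 4) 𝓘(ℝ, E4) ∞ (fun x : Punctured => val x) x := contMDiff_val4 x
  have h2 : ContDiff ℝ ∞ fun v : E4 => r • v := contDiff_id.const_smul r
  have h0 : ContMDiffAt (𝓡 4) 𝓘(ℝ, E4) ∞ (fun x : Punctured => r • val x) x :=
    ContMDiffAt.comp (g := fun v : E4 => r • v) (f := fun x : Punctured => val x) x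
      (h2.contMDiff _) h1
  have h3 : ContMDiffAt (𝓡 4) (𝓡 4) ∞ (fun x : Punctured => (show V4 from scl r hr x)) x := by
    rw [← ContMDiffAt.subtypeVal_comp_iff]
    exact h0
  exact h3

theorem lda_scl (r : ℝ) (hr : 0 < r) (x : Punctured) : LocalDiffeoAt (scl r hr) x := by
  have hs : 0 < r⁻¹ := inv_pos.2 hr
  refine ld_of_inverse (f := scl r hr) (g := scl r⁻¹ hs)
    (Eventually.of_forall fun y => contMDiff_scl r hr y)
    (Eventually.of_forall fun y => contMDiff_scl r⁻¹ hs y)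
    (Eventually.of_forall fun y => scl_scl hs hr (inv_mul_cancel₀ hr.ne') y)
    (Eventually.of_forall fun y => scl_scl hr hs (mul_inv_cancel₀ hr.ne') y)

variable {X : Mfd4} {τ : V4 ≃ₜ V4} {p : V4 → X.carrier} {i : X.carrier ≃ₜ CS3}

theorem _root_.Pool.Agent.HopfSPC.Mod.shell (h : Mod X τ p i) (r : ℝ) (hr : 0 < r) :
    Shell (X := X) (fun x => p (scl r hr x)) := by
  have hs : 0 < r⁻¹ := inv_pos.2 hr
  have h2 : ∀ n : ℤ, 0 < (2 : ℝ) ^ n := fun n => by positivity
  refine shell_of (fun z => ?_) (fun x => ?_) (fun n x => scl ((2 : ℝ) ^ n) (h2 n) x)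
    (fun n x => ?_) (fun x => ?_) (fun x y => ?_)
  · obtain ⟨y, hy⟩ := h.orb.surj z
    refine ⟨scl r⁻¹ hs y, ?_⟩
    show p (scl r hr (scl r⁻¹ hs y)) = z
    rw [scl_scl hr hs (mul_inv_cancel₀ hr.ne'), hy]
  · exact LocalDiffeoAt.comp' (M := Punctured) (N := Punctured) (P := X) (f := scl r hr)
      (g := p) (h.orb.loc _) (lda_scl r hr x)
  · show ‖(2 : ℝ) ^ n • val x‖ = (2 : ℝ) ^ n * ‖val x‖
    rw [norm_smul, Real.norm_eq_abs, abs_of_pos (h2 n)]
  · apply Subtype.ext
    show ((2 : ℝ) ^ (0 : ℤ)) • val x = val x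
    rw [zpow_zero, one_smul]
  · have hf := h.orb.fib (scl r hr x) (scl r hr y)
    show p (scl r hr x) = p (scl r hr y) ↔ _
    rw [hf]
    constructor
    · rintro ⟨n, hn⟩
      refine ⟨-n, Subtype.ext ?_⟩
      have e1 : r • val y = ((2⁻¹ : ℝ) ^ n) • (r • val x) := by
        have e2 := congrArg (fun w : V4 => (w : E4)) hn
        have e3 := Fib.coe_pow h.half n (scl r hr x)
        exact e2.trans e3
      show val y = (2 : ℝ) ^ (-n) • val x
      have e4 : r⁻¹ • (r • val y) = r⁻¹ • (((2⁻¹ : ℝ) ^ n) • (r • val x)) := by rw [e1]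
      rw [smul_smul, inv_mul_cancel₀ hr.ne', one_smul, smul_smul, smul_smul] at e4
      rw [e4]
      congr 1
      rw [inv_zpow, zpow_neg]
      field_simp
    · rintro ⟨n, hn⟩
      refine ⟨-n, Subtype.ext ?_⟩
      have e3 := Fib.coe_pow h.half (-n) (scl r hr x)
      show r • val y = _
      refine Eq.trans ?_ e3.symm
      have e5 : val y = (2 : ℝ) ^ n • val x := by
        rw [hn]
        rfl
      show r • val y = ((2⁻¹ : ℝ) ^ (-n)) • (r • val x)
      rw [e5, smul_smul, smul_smul]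
      congr 1
      rw [inv_zpow, zpow_neg, inv_inv]
      ring

/-- uniqueness in the fibre class, product -/
theorem product_of_smoothPoincare (hSP : SmoothPoincare) (M : Mfd4) (h : M ≃ₜ Circle × S3)
    (z : Circle) (hh : ∀ x, (h x).1 = z → IsLocalDiffeomorphAt (𝓡 4) model13 ∞ h x) :
    DiffeoS1S3 M := by
  obtain ⟨X, τ, p, i, hX, hfst⟩ := exists_X2
  have hlog := Real.log_pos (by norm_num : (1 : ℝ) < 2)
  have hpi := Real.pi_pos
  set fac : ℝ := Real.log 2 / (2 * Real.pi) with hfac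
  have hfac0 : 0 < fac := by positivity
  set r : ℝ := Real.exp (Complex.arg (z : ℂ) * fac) with hr
  have hr0 : 0 < r := Real.exp_pos _
  have hrz : Circle.exp (Real.log r / fac) = z := by
    rw [hr, Real.log_exp, mul_div_cancel_right₀ _ hfac0.ne', Circle.exp_arg]
  let h0 : M.carrier ≃ₜ CS3 := h
  have hh0 : ∀ x, (h0 x).1 = z → IsLocalDiffeomorphAt (𝓡 4) ((𝓡 1).prod (𝓡 3)) ∞ h0 x := hh
  have hov : SmoothOver (M := M) (N := X) (h0.trans i.symm)
      (fibreSet (X := X) (fun x => p (scl r hr0 x))) := by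
    rintro x ⟨y, hy, hyx⟩
    let w : V4 := scl r hr0 y
    have hyx' : p w = i.symm (h0 x) := hyx
    have e1 : h0 x = i (p w) := by
      rw [hyx']
      exact (i.apply_symm_apply _).symm
    have e2 : (h0 x).1 = z := by
      rw [e1, hfst]
      have e3 : ‖(w : E4)‖ = r := by
        show ‖r • val y‖ = r
        rw [norm_smul, Real.norm_eq_abs, abs_of_pos hr0]
        have e4 : ‖val y‖ = 1 := hy
        rw [e4, mul_one]
      rw [e3]
      exact hrz
    have e7 : IsLocalDiffeomorphAt ((𝓡 1).prod (𝓡 3)) (𝓡 4) ∞ i.symm (h0 x) := by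
      have h3 := lda_symm i (hX.loc (i.symm (h0 x)))
      rwa [i.apply_symm_apply] at h3
    exact (hh0 x e2).comp (K := 𝓡 4) (hg := e7)
  obtain ⟨D, hD, -⟩ := straight_fibre specOrient hSP hX.compact hX.t2 (hX.shell r hr0)
    (h0.trans i.symm) hov
  have hDi : IsLocalDiffeomorph (𝓡 4) ((𝓡 1).prod (𝓡 3)) ∞ (fun x : M.carrier => i (D x)) :=
    fun x => (hD.2 x).comp (K := (𝓡 1).prod (𝓡 3)) (hg := hX.loc (D x))
  exact ⟨IsLocalDiffeomorph.diffeomorphOfBijective hDi (i.bijective.comp hD.1)⟩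

end Pool.Agent.HopfCov.Smooth
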