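import Pool.Agent.HopfSPC.Fibre
import Pool.Agent.HopfSPC.FibreD

/-!
# The classes of the manifolds which are smooth over a fibre
-/

set_option autoImplicit false

open scoped ContDiff Topology Manifold
open Set Filter Metric

namespace Pool.Agent.HopfCov.Smooth

open Pool.Agent.HopfSPC

/-- the smooth Poincaré conjecture is uniqueness in the class of the manifolds with a homeomorphism
to `S¹ × S³` which is smooth over a fibre -/
theorem fibre_product : (∀ (M : Mfd4) (h : M ≃ₜ Circle × S3) (z : Circle),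
      (∀ x, (h x).1 = z → IsLocalDiffeomorphAt (𝓡 4) model13 ∞ h x) → DiffeoS1S3 M) ↔
    ∀ S : Mfd4, Nonempty (S ≃ₜ Sphere4) → Diffeomorphic S Sphere4 :=
  ⟨smoothPoincare_of_fibre, fun h M h0 z hz => product_of_smoothPoincare h M h0 z hz⟩

theorem fibre_twisted (hP : ∀ S : Mfd4, Nonempty (S ≃ₜ Sphere4) → Diffeomorphic S Sphere4)
    {X : Mfd4} {p : Punctured → X} (hX : Orbit X p rho) (M : Mfd4) (h : M ≃ₜ X)
    (hh : SmoothOver h (p '' {y | nrm (val y) = 1})) : TwistedProduct M :=
  twisted_of_smoothPoincare hP hX M h hh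

end Pool.Agent.HopfCov.Smooth
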