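import Pool.Agent.HopfSPC.Assemble
import Pool.Agent.HopfSPC.Boost

/-!
# Uniqueness for `S¹ × S³` is the smooth Poincaré conjecture together with smooth unknotting
-/

set_option autoImplicit false

open scoped ContDiff Topology Manifold
open Set Filter Metric

namespace Pool.Agent.HopfSPC

open Pool.Agent.HopfCov Pool.Agent.HopfCov.Smooth Pool.Agent.HopfFin

theorem smoothPoincare_of_su (h : ∀ (S : Mfd4) (f : S ≃ₜ Sphere4), SmoothOver f Sphere2 →
    ∃ g, Straightens f Sphere2 g) : SmoothPoincare := by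
  rintro M ⟨f⟩
  obtain ⟨f', hf'⟩ := exists_smoothOver f
  obtain ⟨g, hg⟩ := h M f' hf'
  exact ⟨g, hg.1⟩

/-- **Uniqueness for `S¹ × S³` is the smooth Poincaré conjecture together with smooth
unknotting.** -/
theorem unique_iff : UniqueNearCircle ↔ SmoothPoincare ∧ SmoothUnknotting := by
  constructor
  · intro h
    have h1 : ∀ (S : Mfd4) (f : S ≃ₜ Sphere4), SmoothOver f Sphere2 →
      ∃ g, Straightens f Sphere2 g := fun S f hf => su_of_unique h f hf
    exact ⟨smoothPoincare_of_su h1, smoothUnknotting_of_su h1⟩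
  · rintro ⟨h1, h2⟩
    exact unique_of_su (su_of_two h1 h2)

end Pool.Agent.HopfSPC
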