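import Pool.Agent.HopfSPC.Desc
import Pool.Agent.HopfTw.Extend
import Pool.Agent.HopfTw.Lift
import Pool.Agent.HopfFin.Norm

/-!
# Homeomorphisms of an orbit space which are smooth over the ray

`X` is the orbit space of `x ↦ r x / 2`, `r` the identity or the reflection in the last coordinate. A
homeomorphism `F` of `X` which is a local diffeomorphism over the image of the ray `ℝ₊ e0` agrees near
the preimage of this circle with a diffeomorphism of `X`.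
-/

set_option autoImplicit false
set_option linter.unusedSectionVars false

open scoped ContDiff Topology Manifold
open Set Filter Metric

namespace Pool.Agent.HopfTw

open Pool.Agent.HopfCov hiding pr
open Pool.Agent.HopfFin
open Pool.Agent.HopfCov.Smooth

private theorem fx_congr {f f' : V4 → V4} {x : V4}
    (h : IsLocalDiffeomorphAt (𝓡 4) (𝓡 4) ∞ f x) (hff : f' =ᶠ[𝓝 x] f) :
    IsLocalDiffeomorphAt (𝓡 4) (𝓡 4) ∞ f' x := by
  obtain ⟨Φ, hx, hΦ⟩ := h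
  obtain ⟨U, hU, hUo, hxU⟩ := _root_.eventually_nhds_iff.1 hff
  refine ⟨{ toPartialEquiv := (Φ.toOpenPartialHomeomorph.restrOpen U hUo).toPartialEquiv
            open_source := (Φ.toOpenPartialHomeomorph.restrOpen U hUo).open_source
            open_target := (Φ.toOpenPartialHomeomorph.restrOpen U hUo).open_target
            contMDiffOn_toFun := Φ.contMDiffOn_toFun.mono ?_
            contMDiffOn_invFun := Φ.contMDiffOn_invFun.mono ?_ }, ?_, ?_⟩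
  · intro y hy; exact hy.1
  · intro y hy; exact hy.1
  · exact ⟨hx, hxU⟩
  · intro y hy
    exact (hU y hy.2).trans (hΦ hy.1)

private theorem fx_open {f : V4 → V4} {x : V4}
    (h : IsLocalDiffeomorphAt (𝓡 4) (𝓡 4) ∞ f x) :
    ∀ᶠ y in 𝓝 x, IsLocalDiffeomorphAt (𝓡 4) (𝓡 4) ∞ f y := by
  obtain ⟨Φ, hx, hΦ⟩ := h
  filter_upwards [Φ.open_source.mem_nhds hx] with y hy
  exact ⟨Φ, hy, hΦ⟩

private theorem fx_contDiffAt {H : E4 → E4} {Ψ : V4 → V4} (hH : ∀ x : V4, H x = Ψ x) {x : V4}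
    (h : ContMDiffAt (𝓡 4) (𝓡 4) ∞ Ψ x) : ContDiffAt ℝ ∞ H (x : E4) := by
  have h1 : ContMDiffAt (𝓡 4) 𝓘(ℝ, E4) ∞ (fun y : V4 => (Ψ y : E4)) x :=
    (contMDiff_subtype_val (Ψ x)).comp x h
  have h2 : ContMDiffAt (𝓡 4) 𝓘(ℝ, E4) ∞ (fun y : V4 => H y) x := by
    have h3 : (fun y : V4 => H y) = fun y : V4 => (Ψ y : E4) := funext hH
    rw [h3]
    exact h1
  exact (contMDiffAt_subtype_iff.1 h2).contDiffAt

private theorem fx_inv {Ψ : V4 ≃ₜ V4} {x : V4}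
    (h : IsLocalDiffeomorphAt (𝓡 4) (𝓡 4) ∞ Ψ x) :
    ContMDiffAt (𝓡 4) (𝓡 4) ∞ (Ψ⁻¹ : V4 ≃ₜ V4) (Ψ x) := by
  have h1 := h.localInverse_contMDiffAt
  refine h1.congr_of_eventuallyEq ?_
  filter_upwards [h.localInverse_open_source.mem_nhds h.localInverse_mem_source] with y hy
  have h2 := h.localInverse_right_inv hy
  show Ψ.symm y = _
  rw [Homeomorph.symm_apply_eq]
  exact h2.symm

private theorem fx_det {Ψ : V4 ≃ₜ V4} {H : E4 ≃ₜ E4} (hH : Extends H Ψ) {x : V4}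
    (h : IsLocalDiffeomorphAt (𝓡 4) (𝓡 4) ∞ Ψ x) :
    ContDiffAt ℝ ∞ H (x : E4) ∧ (fderiv ℝ H (x : E4)).det ≠ 0 := by
  have hinv : ∀ y : V4, (H⁻¹ : E4 ≃ₜ E4) (y : E4) = ((Ψ⁻¹ : V4 ≃ₜ V4) y : E4) := hH.inv
  have hd : ContDiffAt ℝ ∞ H (x : E4) := fx_contDiffAt (Ψ := Ψ) hH h.contMDiffAt
  refine ⟨hd, fun h0 => ?_⟩
  have h1 : ContDiffAt ℝ ∞ (H⁻¹ : E4 ≃ₜ E4) (H (x : E4)) := by
    have h2 := fx_contDiffAt (Ψ := (Ψ⁻¹ : V4 ≃ₜ V4)) (x := Ψ x) hinv (fx_inv h)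
    rwa [← hH x] at h2
  have hcomp : HasFDerivAt (fun y => (H⁻¹ : E4 ≃ₜ E4) (H y))
      ((fderiv ℝ (H⁻¹ : E4 ≃ₜ E4) (H (x : E4))).comp (fderiv ℝ H (x : E4))) (x : E4) :=
    ((h1.differentiableAt (by simp)).hasFDerivAt).comp (x : E4)
      (hd.differentiableAt (by simp)).hasFDerivAt
  have hid : (fun y => (H⁻¹ : E4 ≃ₜ E4) (H y)) = fun y => y :=
    funext fun y => H.symm_apply_apply y
  have hcomp' := hcomp.fderiv
  rw [hid] at hcomp'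
  have hdd : (1 : ℝ) = (fderiv ℝ (H⁻¹ : E4 ≃ₜ E4) (H (x : E4))).det *
      (fderiv ℝ H (x : E4)).det := by
    rw [← det_comp_clm, ← hcomp', fderiv_fun_id]
    simp [ContinuousLinearMap.det]
  rw [h0, mul_zero] at hdd
  exact one_ne_zero hdd

private theorem fx_reg {Ψ : V4 ≃ₜ V4} {H : E4 ≃ₜ E4} (hH : Extends H Ψ) {x : V4}
    (h : IsLocalDiffeomorphAt (𝓡 4) (𝓡 4) ∞ Ψ x) : Reg H (x : E4) := by
  have h1 : 𝓝 (x : E4) = map Subtype.val (𝓝 x) :=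
    (V4.isOpen.isOpenEmbedding_subtypeVal.map_nhds_eq x).symm
  unfold Reg
  rw [h1, eventually_map]
  exact (fx_open h).mono fun y hy => fx_det hH hy

/-- lifts of homeomorphisms of orbit spaces -/
private theorem fx_lift {M X : Type} [TopologicalSpace M] [TopologicalSpace X]
    {g g' : V4 ≃ₜ V4} {p : V4 → M} {p' : V4 → X} (hc : IsCoveringMap p)
    (hc' : IsCoveringMap p') (hs' : Function.Surjective p')
    (hf : ∀ x y : V4, p x = p y ↔ ∃ n : ℤ, y = (g ^ n) x)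
    (hf' : ∀ x y : V4, p' x = p' y ↔ ∃ n : ℤ, y = (g' ^ n) x)
    (hfree' : ∀ (k : ℤ) (x : V4), (g' ^ k) x = x → k = 0) (F : M ≃ₜ X) :
    ∃ Ψ : V4 ≃ₜ V4, (∀ x, p' (Ψ x) = F (p x)) ∧ (Ψ * g * Ψ⁻¹ = g' ∨ Ψ * g * Ψ⁻¹ = g'⁻¹) := by
  have : LocallyCompactSpace V4 := V4.isOpen.isOpenEmbedding_subtypeVal.locallyCompactSpace
  have : LocallyPathConnectedSpace V4 := V4.isOpen.locallyPathConnectedSpace
  have : SimplyConnectedSpace V4 := specSimplyConnected E4 (by simp)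
  obtain ⟨x₀⟩ : Nonempty V4 := inferInstance
  obtain ⟨y₀, hy₀⟩ := hs' (F (p x₀))
  obtain ⟨Ψ, ⟨hΨ0, hΨ⟩, -⟩ := hc'.existsUnique_continuousMap_lifts
    (⟨fun x => F (p x), F.continuous.comp hc.continuous⟩ : C(V4, X)) x₀ y₀ hy₀
  obtain ⟨Φ, ⟨hΦ0, hΦ⟩, -⟩ := hc.existsUnique_continuousMap_lifts
    (⟨fun x => F.symm (p' x), F.symm.continuous.comp hc'.continuous⟩ : C(V4, M)) y₀ x₀
      (by
        change p x₀ = F.symm (p' y₀)
        rw [hy₀, F.symm_apply_apply])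
  have hΨ' : ∀ x, p' (Ψ x) = F (p x) := fun x => congrFun hΨ x
  have hΦ' : ∀ x, p (Φ x) = F.symm (p' x) := fun x => congrFun hΦ x
  have h1 : (fun x => Φ (Ψ x)) = fun x => x :=
    hc.eq_of_comp_eq (Φ.continuous.comp Ψ.continuous) continuous_id
      (by
        funext x
        change p (Φ (Ψ x)) = p x
        rw [hΦ', hΨ', F.symm_apply_apply]) x₀ (by
        rw [hΨ0, hΦ0])
  have h2 : (fun x => Ψ (Φ x)) = fun x => x :=
    hc'.eq_of_comp_eq (Ψ.continuous.comp Φ.continuous) continuous_id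
      (by
        funext x
        change p' (Ψ (Φ x)) = p' x
        rw [hΨ', hΦ', F.apply_symm_apply]) y₀ (by
        rw [hΦ0, hΨ0])
  let Ψh : V4 ≃ₜ V4 :=
    { toFun := Ψ
      invFun := Φ
      left_inv := fun x => congrFun h1 x
      right_inv := fun x => congrFun h2 x
      continuous_toFun := Ψ.continuous
      continuous_invFun := Φ.continuous }
  have key : ∃ n : ℤ, Ψh * g = g' ^ n * Ψh := by
    obtain ⟨n, hn⟩ := (hf' (Ψ x₀) (Ψ (g x₀))).1 (by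
      rw [hΨ', hΨ']
      congr 1
      exact (hf _ _).2 ⟨1, by rw [zpow_one]⟩)
    refine ⟨n, Homeomorph.ext fun x => ?_⟩
    have h3 : (fun x => Ψ (g x)) = fun x => (g' ^ n) (Ψ x) :=
      hc'.eq_of_comp_eq (Ψ.continuous.comp g.continuous) ((g' ^ n).continuous.comp Ψ.continuous)
        (by
          funext x
          change p' (Ψ (g x)) = p' ((g' ^ n) (Ψ x))
          rw [hΨ', ← (hf' (Ψ x) _).2 ⟨n, rfl⟩, hΨ']
          congr 1
          exact ((hf _ _).2 ⟨1, by rw [zpow_one]⟩).symm) x₀ hn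
    exact congrFun h3 x
  have key' : ∃ m : ℤ, Ψh⁻¹ * g' = g ^ m * Ψh⁻¹ := by
    obtain ⟨m, hm⟩ := (hf (Φ y₀) (Φ (g' y₀))).1 (by
      rw [hΦ', hΦ']
      congr 1
      exact (hf' _ _).2 ⟨1, by rw [zpow_one]⟩)
    refine ⟨m, Homeomorph.ext fun x => ?_⟩
    have h3 : (fun x => Φ (g' x)) = fun x => (g ^ m) (Φ x) :=
      hc.eq_of_comp_eq (Φ.continuous.comp g'.continuous) ((g ^ m).continuous.comp Φ.continuous)
        (by
          funext x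
          change p (Φ (g' x)) = p ((g ^ m) (Φ x))
          rw [hΦ', ← (hf (Φ x) _).2 ⟨m, rfl⟩, hΦ']
          congr 1
          exact ((hf' _ _).2 ⟨1, by rw [zpow_one]⟩).symm) y₀ hm
    exact congrFun h3 x
  obtain ⟨n, hn⟩ := key
  obtain ⟨m, hm⟩ := key'
  have hn' : Ψh * g * Ψh⁻¹ = g' ^ n := by rw [hn]; group
  have hm' : Ψh⁻¹ * g' * Ψh = g ^ m := by rw [hm]; group
  have hnm : n * m = 1 := by
    have h4 : g' = g' ^ (n * m) := by
      calc g' = Ψh * (Ψh⁻¹ * g' * Ψh) * Ψh⁻¹ := by group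
        _ = Ψh * g ^ m * Ψh⁻¹ := by rw [hm']
        _ = (Ψh * g * Ψh⁻¹) ^ m := by rw [conj_zpow]
        _ = (g' ^ n) ^ m := by rw [hn']
        _ = g' ^ (n * m) := by rw [zpow_mul]
    have h5 : g' ^ (n * m - 1) = 1 := by
      rw [zpow_sub, ← h4, zpow_one]; group
    have h6 := hfree' (n * m - 1) x₀ (by rw [h5]; rfl)
    omega
  refine ⟨Ψh, hΨ', ?_⟩
  rcases Int.mul_eq_one_iff_eq_one_or_neg_one.1 hnm with h | h
  · left; rw [hn', h.1, zpow_one]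
  · right; rw [hn', h.1, zpow_neg, zpow_one]

/-- the lift is a local diffeomorphism where the homeomorphism of the orbit spaces is one -/
private theorem fx_loc {M : Type} [TopologicalSpace M] [ChartedSpace E4 M]
    {X : Type} [TopologicalSpace X] {E' H' : Type} [NormedAddCommGroup E'] [NormedSpace ℝ E']
    [TopologicalSpace H'] {I' : ModelWithCorners ℝ E' H'} [ChartedSpace H' X]
    {p : V4 → M} {q : V4 → X} (hp : IsLocalDiffeomorph (𝓡 4) (𝓡 4) ∞ p)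
    (hq0 : IsLocalDiffeomorph (𝓡 4) I' ∞ q) {F : M ≃ₜ X} {Ψ : V4 ≃ₜ V4}
    (hΨ : ∀ x, q (Ψ x) = F (p x)) {x : V4}
    (hF : IsLocalDiffeomorphAt (𝓡 4) I' ∞ F (p x)) :
    IsLocalDiffeomorphAt (𝓡 4) (𝓡 4) ∞ Ψ x := by
  have hq := hq0 (Ψ x)
  have hFp : IsLocalDiffeomorphAt (𝓡 4) I' ∞ (F ∘ p) x := (hp x).comp (K := I') (hg := hF)
  have hq2 : IsLocalDiffeomorphAt I' (𝓡 4) ∞ hq.localInverse (F (p x)) := by
    rw [← hΨ x]
    exact hq.localInverse_isLocalDiffeomorphAt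
  have h7 : IsLocalDiffeomorphAt (𝓡 4) (𝓡 4) ∞ (hq.localInverse ∘ (F ∘ p)) x :=
    hFp.comp (K := 𝓡 4) (hg := hq2)
  refine fx_congr h7 ?_
  have h8 := hq.localInverse_eventuallyEq_left
  have h9 : ∀ᶠ y in 𝓝 x, (hq.localInverse ∘ q) (Ψ y) = id (Ψ y) :=
    Ψ.continuous.continuousAt.eventually h8
  filter_upwards [h9] with y hy
  show Ψ y = hq.localInverse (F (p y))
  rw [← hΨ y]
  exact hy.symm


private theorem fx_e0 : (e0 : E4) ≠ 0 := by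
  intro h
  have h1 := norm_e0
  rw [h, norm_zero] at h1
  exact zero_ne_one h1

private theorem fx_zpow {r : E4 ≃ₗᵢ[ℝ] E4} (hr : Rf r) (n : ℤ) :
    ∀ t : ℝ, 0 < t → ∃ s : ℝ, 0 < s ∧ ((tauL r) ^ n : E4 ≃ₜ E4) (t • e0) = s • e0 := by
  have h1 : ∀ t : ℝ, tauL r (t • e0) = (2⁻¹ * t) • e0 := by
    intro t
    rw [tauL_apply, map_smul, hr.fix0, smul_smul]
  have h2 : ∀ t : ℝ, ((tauL r)⁻¹ : E4 ≃ₜ E4) (t • e0) = (2 * t) • e0 := by
    intro t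
    apply (tauL r).injective
    rw [apply_inv_self', h1, ← mul_assoc]
    norm_num
  induction n using Int.induction_on with
  | zero => exact fun t ht => ⟨t, ht, rfl⟩
  | succ n ih =>
    intro t ht
    obtain ⟨s, hs, h⟩ := ih (2⁻¹ * t) (by positivity)
    refine ⟨s, hs, ?_⟩
    rw [zpow_add_one, mul_apply', h1, h]
  | pred n ih =>
    intro t ht
    obtain ⟨s, hs, h⟩ := ih (2 * t) (by positivity)
    refine ⟨s, hs, ?_⟩
    rw [zpow_sub_one, mul_apply', h2, h]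

/-- the lift of a homeomorphism, up to the inversion -/
private theorem fx_main {r : E4 ≃ₗᵢ[ℝ] E4} (hr : Rf r) {X : Mfd4} {q : V4 → X.carrier}
    {τ : V4 ≃ₜ V4} (hτ : Extends (tauL r) τ) (hq : OrbitMap τ q) (F : X.carrier ≃ₜ X.carrier)
    (hF : ∀ (x : X) (y : V4) (t : ℝ), 0 < t → (y : E4) = t • e0 → F x = q y →
      LocalDiffeoAt (M := X) (X := X) F x) :
    ∃ (Ψ A : V4 ≃ₜ V4) (T : E4 ≃ₜ E4), (∀ x, q (Ψ x) = F (q x)) ∧
      IsLocalDiffeomorph (𝓡 4) (𝓡 4) ∞ A ∧ (A⁻¹ * τ = τ * A⁻¹ ∨ A⁻¹ * τ = τ⁻¹ * A⁻¹) ∧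
      (∀ (y : V4) (t : ℝ), 0 < t → (y : E4) = t • e0 → ∃ s : ℝ, 0 < s ∧ ((A y : V4) : E4) = s • e0) ∧
      Extends T (A * Ψ) ∧ T * tauL r = tauL r * T ∧
      ∀ t : ℝ, 0 < t → Reg T ((T⁻¹ : E4 ≃ₜ E4) (t • e0)) := by
  have hctau : Contr (tauL r) := Contr_tauL r
  have hfree := free_of_contr hτ hctau
  have hcq : IsCoveringMap q :=
    isCoveringMap_of_orbits hq.loc.isLocalHomeomorph hq.surj hq.fib hfree
  obtain ⟨Ψ, k1, k2⟩ := fx_lift hcq hcq hq.surj hq.fib hq.fib hfree F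
  have hreg : ∀ (x : V4) (t : ℝ), 0 < t → ((Ψ x : V4) : E4) = t • e0 →
      IsLocalDiffeomorphAt (𝓡 4) (𝓡 4) ∞ Ψ x := by
    intro x t ht hx
    exact fx_loc hq.loc hq.loc k1 (hF (q x) (Ψ x) t ht hx (k1 x).symm)
  have main : ∀ (Θ : V4 ≃ₜ V4) (T : E4 ≃ₜ E4), Extends T Θ →
      (Θ * τ * Θ⁻¹ = τ ∨ Θ * τ * Θ⁻¹ = τ⁻¹) →
      (∀ (x : V4) (t : ℝ), 0 < t → ((Θ x : V4) : E4) = t • e0 →
        IsLocalDiffeomorphAt (𝓡 4) (𝓡 4) ∞ Θ x) →
      T * tauL r = tauL r * T ∧ ∀ t : ℝ, 0 < t → Reg T ((T⁻¹ : E4 ≃ₜ E4) (t • e0)) := by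
    intro Θ T hT hΘ hg
    have hT0 : T 0 = 0 := hT.zero
    have hTG : Extends (T * tauL r * T⁻¹) (Θ * τ * Θ⁻¹) := (hT.mul hτ).mul hT.inv
    have hc2 : Contr (T * tauL r * T⁻¹) := hctau.conj hT0
    have e2 : T * tauL r * T⁻¹ = tauL r := by
      rcases hΘ with h | h
      · rw [h] at hTG
        exact hTG.unique hτ
      · exfalso
        rw [h] at hTG
        have e2 : T * tauL r * T⁻¹ = (tauL r)⁻¹ := hTG.unique hτ.inv
        rw [e2] at hc2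
        exact hctau.not_inv hc2
    refine ⟨?_, fun t ht => ?_⟩
    · calc T * tauL r = T * tauL r * T⁻¹ * T := by group
        _ = tauL r * T := by rw [e2]
    · have hne : t • e0 ≠ 0 := smul_ne_zero ht.ne' fx_e0
      have e3 : (T⁻¹ : E4 ≃ₜ E4) (t • e0) = (((Θ⁻¹ : V4 ≃ₜ V4) ⟨t • e0, hne⟩ : V4) : E4) :=
        hT.inv ⟨t • e0, hne⟩
      rw [e3]
      refine fx_reg hT (hg _ t ht ?_)
      have e4 : Θ ((Θ⁻¹ : V4 ≃ₜ V4) ⟨t • e0, hne⟩) = ⟨t • e0, hne⟩ := Θ.apply_symm_apply _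
      rw [e4]
  by_cases hex : ∃ T : E4 ≃ₜ E4, Extends T Ψ
  · obtain ⟨T, hT⟩ := hex
    obtain ⟨m1, m2⟩ := main Ψ T hT k2 hreg
    refine ⟨Ψ, 1, T, k1, ?_, Or.inl (by simp), fun y t ht hy => ⟨t, ht, hy⟩, ?_, m1, m2⟩
    · exact (Diffeomorph.refl (𝓡 4) V4 ∞).isLocalDiffeomorph
    · rw [one_mul]
      exact hT
  · obtain ⟨J, j1, j2, j3⟩ := inversion_data
    obtain ⟨T, hT⟩ := specSwapMul J Ψ j2 hex
    have h6 : ∀ x : V4, (τ x : E4) = (2⁻¹ : ℝ) • r (x : E4) := fun x => by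
      rw [← hτ x]
      exact tauL_apply _ _
    have hJτ : J * τ * J⁻¹ = τ⁻¹ := inversion_conj j3 hr.sq h6
    have hJτ' : J * τ⁻¹ * J⁻¹ = τ := by
      have e6 : J * τ⁻¹ * J⁻¹ = (J * τ * J⁻¹)⁻¹ := by group
      rw [e6, hJτ, inv_inv]
    have hinv : ∀ (y : V4) (t : ℝ), 0 < t → (y : E4) = t • e0 →
        ∃ s : ℝ, 0 < s ∧ ((J y : V4) : E4) = s • e0 := by
      intro y t ht hy
      have hn : 0 < ‖(y : E4)‖ ^ 2 := pow_pos (norm_pos_iff.2 (V4_ne y)) 2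
      refine ⟨(‖(y : E4)‖ ^ 2)⁻¹ * t, mul_pos (inv_pos.2 hn) ht, ?_⟩
      rw [j3, mul_smul, ← hy]
    have hinv' : ∀ (x : V4) (t : ℝ), 0 < t → ((J (Ψ x) : V4) : E4) = t • e0 →
        ∃ s : ℝ, 0 < s ∧ ((Ψ x : V4) : E4) = s • e0 := by
      intro x t ht h
      rw [j3] at h
      have hn : 0 < ‖((Ψ x : V4) : E4)‖ ^ 2 := pow_pos (norm_pos_iff.2 (V4_ne _)) 2
      refine ⟨‖((Ψ x : V4) : E4)‖ ^ 2 * t, mul_pos hn ht, ?_⟩
      rw [mul_smul, ← h, smul_smul, mul_inv_cancel₀ hn.ne', one_smul]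
    obtain ⟨m1, m2⟩ := main (J * Ψ) T hT (by
      have e5 : J * Ψ * τ * (J * Ψ)⁻¹ = J * (Ψ * τ * Ψ⁻¹) * J⁻¹ := by group
      rw [e5]
      rcases k2 with h | h
      · right
        rw [h, hJτ]
      · left
        rw [h, hJτ']) (by
      intro x t ht hx
      obtain ⟨s, hs, hs'⟩ := hinv' x t ht hx
      exact (hreg x s hs hs').comp (K := 𝓡 4) (hg := j1 (Ψ x)))
    refine ⟨Ψ, J, T, k1, j1, Or.inr ?_, hinv, hT, m1, m2⟩
    calc J⁻¹ * τ = J⁻¹ * (J * τ⁻¹ * J⁻¹) := by rw [hJτ']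
      _ = τ⁻¹ * J⁻¹ := by group

/-- a homeomorphism of `X` which is a local diffeomorphism over the circle agrees near the preimage of
the circle with a diffeomorphism -/
theorem fix_ray {r : E4 ≃ₗᵢ[ℝ] E4} (hr : Rf r) {X : Mfd4} {q : V4 → X.carrier}
    {τ : V4 ≃ₜ V4} (hτ : Extends (tauL r) τ) (hq : OrbitMap τ q) (F : X ≃ₜ X)
    (hF : ∀ (x : X) (y : V4) (t : ℝ), 0 < t → (y : E4) = t • e0 → F x = q y →
      LocalDiffeoAt F x) :
    ∃ D : X → X, IsDiffeo D ∧ ∃ W : Set X, IsOpen W ∧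
      (∀ (x : X) (y : V4) (t : ℝ), 0 < t → (y : E4) = t • e0 → F x = q y → x ∈ W) ∧
      EqOn D F W := by
  obtain ⟨Ψ, A, T, k1, hA, hAτ, hAr, hT, hTτ, hTr⟩ := fx_main hr hτ hq F hF
  -- the extension of the germ of the inverse
  have hinj : ∀ s t : ℝ, 0 < s → 0 < t → (T⁻¹ : E4 ≃ₜ E4) (s • e0) = (T⁻¹ : E4 ≃ₜ E4) (t • e0) →
      s = t := by
    intro s t _ _ h
    exact smul_left_injective ℝ fx_e0 ((T⁻¹ : E4 ≃ₜ E4).injective h)
  have hrr : RegRay (T⁻¹ : E4 ≃ₜ E4) := by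
    intro t ht
    have := Reg.symm (h := T) (hTr t ht)
    rwa [apply_inv_self'] at this
  have hcomm : (T⁻¹ : E4 ≃ₜ E4) * tauL r = tauL r * T⁻¹ := by
    calc T⁻¹ * tauL r = T⁻¹ * (tauL r * T) * T⁻¹ := by group
      _ = T⁻¹ * (T * tauL r) * T⁻¹ := by rw [hTτ]
      _ = tauL r * T⁻¹ := by group
  have heq : EqvR r (T⁻¹ : E4 ≃ₜ E4) := ⟨1, one_pos, fun x _ => DFunLike.congr_fun hcomm x⟩
  obtain ⟨ψ, hψ, δ, hδ, hψT⟩ := extend_germ_r hr _ hrr heq hinj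
  obtain ⟨k, hk, hkl⟩ := (hψ.inv).sm.restr
  have hkτ : k * τ = τ * k := by
    have h1 : Extends (ψ⁻¹ * tauL r) (k * τ) := hk.mul hτ
    have h2 : Extends (tauL r * ψ⁻¹) (τ * k) := hτ.mul hk
    rw [hψ.inv.comm] at h1
    exact h1.eq_of h2
  -- the diffeomorphism
  set Ξ : V4 ≃ₜ V4 := A⁻¹ * k with hΞ
  have hΞl : ∀ x, IsLocalDiffeomorphAt (𝓡 4) (𝓡 4) ∞ Ξ x := by
    intro x
    have h1 : ∀ z w : V4, A z = w → IsLocalDiffeomorphAt (𝓡 4) (𝓡 4) ∞ (A⁻¹ : V4 ≃ₜ V4) w := by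
      rintro z _ rfl
      exact ld_symm' (M := Punctured) (N := Punctured) A (x := z) (hA z)
    exact (hkl x).comp (K := 𝓡 4) (hg := h1 _ _ (A.apply_symm_apply (k x)))
  obtain ⟨D, hD, hDl⟩ : ∃ D : X ≃ₜ X, (∀ x, D (q x) = q (Ξ x)) ∧
      ∀ x, IsLocalDiffeomorphAt (𝓡 4) (𝓡 4) ∞ Ξ x → LocalDiffeoAt (M := X) (X := X) D (q x) := by
    rcases hAτ with h | h
    · exact descend τ τ X X q q hq hq Ξ (by
        rw [hΞ, mul_assoc, hkτ, ← mul_assoc, h, mul_assoc])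
    · have hq' : OrbitMap τ⁻¹ q := ⟨hq.surj, hq.loc, fun x y => by
        rw [hq.fib]
        constructor
        · rintro ⟨n, hn⟩
          exact ⟨-n, by rw [inv_zpow', neg_neg]; exact hn⟩
        · rintro ⟨n, hn⟩
          exact ⟨-n, by rw [inv_zpow'] at hn; exact hn⟩⟩
      exact descend τ τ⁻¹ X X q q hq hq' Ξ (by
        rw [hΞ, mul_assoc, hkτ, ← mul_assoc, h, mul_assoc])
  -- the open set
  set C : Set E4 := {x | ‖pr x‖ < δ * x 0} with hC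
  have hCo : IsOpen C := by
    refine isOpen_lt ?_ ?_
    · unfold pr
      fun_prop
    · fun_prop
  have hop : IsOpenMap q := hq.loc.isLocalHomeomorph.isOpenMap
  refine ⟨D, ⟨D.bijective, fun x => ?_⟩, q '' {y : V4 | T (y : E4) ∈ C}, ?_, ?_, ?_⟩
  · obtain ⟨y, rfl⟩ := hq.surj x
    exact hDl y (hΞl y)
  · exact hop _ (hCo.preimage (T.continuous.comp continuous_subtype_val))
  · intro x y t ht hy hx
    obtain ⟨z, rfl⟩ := hq.surj x
    rw [← k1 z] at hx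
    obtain ⟨n, hn⟩ := (hq.fib y (Ψ z)).1 hx.symm
    -- `Ψ z` is on the ray
    have h1 : ∃ s : ℝ, 0 < s ∧ ((Ψ z : V4) : E4) = s • e0 := by
      obtain ⟨s, hs, h⟩ := fx_zpow hr n t ht
      refine ⟨s, hs, ?_⟩
      rw [hn, ← hτ.zpow n y, hy]
      exact h
    obtain ⟨s, hs, hs'⟩ := h1
    obtain ⟨s', hs1, hs2⟩ := hAr (Ψ z) s hs hs'
    refine ⟨z, ?_, rfl⟩
    show T (z : E4) ∈ C
    rw [hT z]
    show ‖pr (((A * Ψ) z : V4) : E4)‖ < δ * ((((A * Ψ) z : V4) : E4)) 0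
    have h3 : (((A * Ψ) z : V4) : E4) = s' • e0 := hs2
    rw [h3, pr_smul, pr_e0, smul_zero, norm_zero, PiLp.smul_apply, e0_apply_zero, smul_eq_mul,
      mul_one]
    exact mul_pos hδ hs1
  · rintro _ ⟨y, hy, rfl⟩
    rw [hD]
    have h1 : T (y : E4) ∈ Cone δ :=
      (show ‖pr (T (y : E4))‖ < δ * T (y : E4) 0 from hy).le
    have h2 : ψ (T (y : E4)) = y := by
      rw [hψT _ h1]
      exact inv_apply_self' T _
    have h3 : (k y : E4) = T y := by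
      rw [← hk y]
      conv_lhs => rw [← h2]
      exact inv_apply_self' ψ _
    have h4 : k y = A (Ψ y) := Subtype.ext (h3.trans (hT y))
    have h5 : Ξ y = Ψ y := by
      show (A⁻¹ : V4 ≃ₜ V4) (k y) = Ψ y
      rw [h4]
      exact A.symm_apply_apply _
    rw [h5, k1]

end Pool.Agent.HopfTw
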