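import Pool.Agent.HopfSPC.Statement
import Pool.Agent.HopfTw.Statement

/-!
# The definitions used in the statement, twisted product and projective space
-/

set_option autoImplicit false

open scoped ContDiff Topology Manifold
open Set Filter Metric

namespace Pool.Agent.HopfCov.Smooth

/-- the antipodal map of `S⁴` -/
noncomputable def antipode (x : Sphere4) : Sphere4 := -(show sphere (0 : E5) 1 from x)

/-- `q : S⁴ → P` is a smooth covering with the fibres `{x, -x}`, that is, `P` is the real projective
space `RP⁴` -/
structure Projective (P : Mfd4) (q : Sphere4 → P) : Prop where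
  surj : Function.Surjective q
  loc : LocalDiffeo q
  fib : ∀ x y : Sphere4, q x = q y ↔ y = x ∨ y = antipode x

/-- (RP1) every smooth manifold with a homeomorphism to `RP⁴` which is a local diffeomorphism over
`RP²` is `RP⁴` -/
def ProjectiveUnique : Prop :=
  ∀ (P : Mfd4) (q : Sphere4 → P), Projective P q → ∀ (N : Mfd4) (f : N ≃ₜ P),
    SmoothOver f (q '' Sphere2) → Diffeomorphic N P

/-- (RP2) every homeomorphism `f` of `RP⁴` which is a local diffeomorphism over `RP²` agrees near
`f⁻¹(RP²)` with a diffeomorphism of `RP⁴` -/
def ProjectiveUnknotting : Prop :=
  ∀ (P : Mfd4) (q : Sphere4 → P), Projective P q → ∀ f : P ≃ₜ P,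
    SmoothOver f (q '' Sphere2) → ∃ g, Straightens f (q '' Sphere2) g

/-- uniqueness of the smooth structure in the class of the smooth manifolds with a homeomorphism to
the twisted product which is a local diffeomorphism over the section -/
def UniqueNearSection : Prop := ∀ M : Mfd4, NearSection M → TwistedProduct M

end Pool.Agent.HopfCov.Smooth
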