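import Pool.Agent.HopfSPC.FixRay
import Pool.Agent.HopfSPC.Statement2

/-!
# Homeomorphisms of the twisted product which are smooth over the section
-/

set_option autoImplicit false
set_option linter.unusedSectionVars false

open scoped ContDiff Topology Manifold
open Set Filter Metric

namespace Pool.Agent.HopfCov.Smooth

open Pool.Agent.HopfCov hiding pr
open Pool.Agent.HopfFin
open Pool.Agent.HopfTw

/-- the section of the twisted product -/
def sectionSet {X : Mfd4} (p : Punctured → X) : Set X := p '' {y | OnRay (val y)}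

theorem onRay_iff (y : E4) : OnRay y ↔ ∃ t : ℝ, 0 < t ∧ y = t • e1 := by
  constructor
  · rintro ⟨h0, h1, h2, h3⟩
    refine ⟨y 1, h1, ?_⟩
    ext i
    fin_cases i <;> simp [e1, h0, h2, h3]
  · rintro ⟨t, ht, rfl⟩
    simp [OnRay, e1, ht]

theorem fix_section {X : Mfd4} {p : Punctured → X} (h : Orbit X p rho) (F : X ≃ₜ X)
    (hF : SmoothOver F (sectionSet p)) : ∃ D, Straightens F (sectionSet p) D := by
  have hq1 := orbit_eq.1 h
  rw [rho_eq] at hq1
  obtain ⟨b1, b2, -, -, hctau, τ, h5, hq2⟩ := hq1.data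
  obtain ⟨L, hL, hLc⟩ := exists_perm
  obtain ⟨l, hl, hll⟩ := (Sm_linH L).restr
  have hll' : ∀ x : V4, IsLocalDiffeomorphAt (𝓡 4) (𝓡 4) ∞ (l⁻¹ : V4 ≃ₜ V4) x := by
    intro x
    have h1 : ∀ z w : V4, l z = w → IsLocalDiffeomorphAt (𝓡 4) (𝓡 4) ∞ (l⁻¹ : V4 ≃ₜ V4) w := by
      rintro z _ rfl
      exact ld_symm' (M := Punctured) (N := Punctured) l (x := z) (hll z)
    exact h1 _ _ (l.apply_symm_apply x)
  have hτ' : Extends (tauL r3) (l * τ * l⁻¹) := by
    have h1 : Extends (linH L * TT * (linH L)⁻¹) (l * τ * l⁻¹) := (hl.mul h5).mul hl.inv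
    rw [hLc] at h1
    have h2 : tauL r3 * linH L * (linH L)⁻¹ = tauL r3 := by group
    rwa [h2] at h1
  set q : V4 → X.carrier := fun x => p ((l⁻¹ : V4 ≃ₜ V4) x) with hq
  have hp : OrbitMap (l * τ * l⁻¹) q := by
    refine ⟨hq2.surj.comp (l⁻¹ : V4 ≃ₜ V4).surjective, fun x => ?_, fun x y => ?_⟩
    · exact (hll' x).comp (K := 𝓡 4) (hg := hq2.loc _)
    · show p ((l⁻¹ : V4 ≃ₜ V4) x) = p ((l⁻¹ : V4 ≃ₜ V4) y) ↔ _
      rw [hq2.fib]
      constructor
      · rintro ⟨n, hn⟩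
        refine ⟨n, ?_⟩
        rw [conj_zpow]
        show y = l ((τ ^ n) ((l⁻¹ : V4 ≃ₜ V4) x))
        rw [← hn]
        exact (l.apply_symm_apply y).symm
      · rintro ⟨n, hn⟩
        refine ⟨n, ?_⟩
        rw [conj_zpow] at hn
        rw [hn]
        exact l.symm_apply_apply _
  -- the two descriptions of the circle
  have key1 : ∀ (y : V4) (t : ℝ), 0 < t → (y : E4) = t • e0 → q y ∈ sectionSet p := by
    intro y t ht hy
    refine ⟨(l⁻¹ : V4 ≃ₜ V4) y, ?_, rfl⟩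
    show OnRay (((l⁻¹ : V4 ≃ₜ V4) y : V4) : E4)
    rw [onRay_iff]
    refine ⟨t, ht, ?_⟩
    apply (linH L).injective
    rw [hl]
    have h1 : l ((l⁻¹ : V4 ≃ₜ V4) y) = y := l.apply_symm_apply y
    rw [h1, hy, linH_apply, L.map_smul, hL]
  have key2 : ∀ x ∈ sectionSet p, ∃ (y : V4) (t : ℝ), 0 < t ∧ (y : E4) = t • e0 ∧ x = q y := by
    rintro _ ⟨z, hz, rfl⟩
    obtain ⟨t, ht, hzt⟩ := (onRay_iff _).1 hz
    refine ⟨l z, t, ht, ?_, ?_⟩
    · rw [← hl z]
      have h1 : (linH L) (val z) = t • e0 := by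
        rw [hzt, linH_apply, L.map_smul, hL]
      exact h1
    · show p z = p ((l⁻¹ : V4 ≃ₜ V4) (l z))
      have h1 : (l⁻¹ : V4 ≃ₜ V4) (l z) = z := l.symm_apply_apply z
      rw [h1]
  obtain ⟨D, hD, W, hW, h1, h2⟩ := fix_ray Rf_r3 hτ' hp F (fun x y t ht hy hx =>
    hF x (by rw [hx]; exact key1 y t ht hy))
  refine ⟨D, hD, W, hW, fun x hx => ?_, h2⟩
  obtain ⟨y, t, ht, hy, hxy⟩ := key2 (F x) hx
  exact h1 x y t ht hy hxy

end Pool.Agent.HopfCov.Smooth
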