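import Pool.Agent.HopfSPC.Statement
import Pool.Agent.SPC.GlueStr

/-!
# SPC-1a: a smooth structure glued from pieces; calculus of local diffeomorphisms
-/

set_option autoImplicit false
set_option linter.unusedSectionVars false

open scoped ContDiff Topology Manifold
open Set Filter Metric

namespace Pool.Agent.HopfCov.Smooth

theorem glue {Y : Type} [TopologicalSpace Y] {ι : Type} (N : ι → Mfd4)
    (e : ∀ i, OpenPartialHomeomorph Y (N i)) (hcov : ∀ y, ∃ i, y ∈ (e i).source)
    (hc : ∀ i j y, y ∈ (e i).source → y ∈ (e j).source →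
      LocalDiffeoAt (M := N i) (X := N j) (fun z => e j ((e i).symm z)) (e i y)) :
    ∃ (M : Mfd4) (h : M ≃ₜ Y), ∀ i (x : M), h x ∈ (e i).source →
      LocalDiffeoAt (M := M) (X := N i) (fun z => e i (h z)) x := by
  have P : SPC.Pieces N e := ⟨hcov, fun i j x hi hj => (hc i j x hi hj).contMDiffAt⟩
  exact ⟨P.mfd, Homeomorph.refl Y, fun i x hx => P.local_diffeo i hx⟩

variable {M N P : Mfd4}

/-- the points at which a map is a local diffeomorphism form an open set -/
theorem isOpen_ld (f : M → N) : IsOpen {x | LocalDiffeoAt f x} := by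
  rw [isOpen_iff_mem_nhds]
  rintro x ⟨Φ, hx, he⟩
  filter_upwards [Φ.open_source.mem_nhds hx] with y hy
  exact ⟨Φ, hy, he⟩

theorem LocalDiffeoAt.congr' {f g : M → N} {x : M} (hf : LocalDiffeoAt f x)
    (h : ∀ᶠ y in 𝓝 x, g y = f y) : LocalDiffeoAt g x := by
  obtain ⟨Φ, hx, he⟩ := hf
  obtain ⟨U, hU, hUo, hxU⟩ := mem_nhds_iff.1 h
  have hi : Φ.source ∩ U ⊆ Φ.source := inter_subset_left
  refine ⟨{ toPartialEquiv := Φ.toPartialEquiv.restr U
            open_source := ?_
            open_target := ?_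
            contMDiffOn_toFun := ?_
            contMDiffOn_invFun := ?_ }, ⟨hx, hxU⟩, ?_⟩
  · exact Φ.open_source.inter hUo
  · exact (Φ.toOpenPartialHomeomorph.restrOpen U hUo).open_target
  · exact Φ.contMDiffOn_toFun.mono hi
  · exact Φ.contMDiffOn_invFun.mono inter_subset_left
  · intro y hy
    exact (hU hy.2).trans (he hy.1)

theorem LocalDiffeoAt.comp' {f : M → N} {g : N → P} {x : M} (hg : LocalDiffeoAt g (f x))
    (hf : LocalDiffeoAt f x) : LocalDiffeoAt (M := M) (X := P) (fun y => g (f y)) x :=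
  IsLocalDiffeomorphAt.comp (K := 𝓡 4) (P := P) hf hg

theorem ld_id (x : M) : LocalDiffeoAt (M := M) (X := M) (fun y => y) x :=
  ⟨(Diffeomorph.refl (𝓡 4) M ∞).toPartialDiffeomorph, mem_univ _, fun _ _ => rfl⟩

/-- the inverse of a partial homeomorphism which is a local diffeomorphism -/
theorem ld_symm (e : OpenPartialHomeomorph M N) {x : M} (hx : x ∈ e.source)
    (h : LocalDiffeoAt e x) : LocalDiffeoAt e.symm (e x) := by
  obtain ⟨Φ, hΦ, he⟩ := h
  have h1 : LocalDiffeoAt (M := N) (X := M) Φ.symm (e x) := by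
    refine ⟨Φ.symm, ?_, fun _ _ => rfl⟩
    rw [he hΦ]
    exact Φ.map_source' hΦ
  refine h1.congr' ?_
  have hV : IsOpen (e '' (e.source ∩ Φ.source)) :=
    e.isOpen_image_of_subset_source (e.open_source.inter Φ.open_source) inter_subset_left
  filter_upwards [hV.mem_nhds ⟨x, ⟨hx, hΦ⟩, rfl⟩]
  rintro _ ⟨w, ⟨hw, hw'⟩, rfl⟩
  rw [e.left_inv hw, he hw']
  exact (Φ.left_inv' hw').symm

/-- the inverse of a homeomorphism which is a local diffeomorphism at a point -/
theorem ld_symm' (e : M ≃ₜ N) {x : M} (h : LocalDiffeoAt e x) : LocalDiffeoAt e.symm (e x) :=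
  ld_symm e.toOpenPartialHomeomorph (mem_univ x) h

end Pool.Agent.HopfCov.Smooth
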