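import Pool.Agent.HopfSPC.Statement
import Pool.Agent.HopfFin.Defs

/-!
# The complement of `S²` in `S⁴` and the complement of `S¹ × e0` in `S¹ × S³`
-/

set_option autoImplicit false

open scoped ContDiff Topology Manifold
open Set Filter Metric

namespace Pool.Agent.HopfSPC

open Pool.Agent.HopfCov Pool.Agent.HopfCov.Smooth

section Normalise

variable {E : Type} [NormedAddCommGroup E] [InnerProductSpace ℝ E]

open Classical in
/-- normalisation -/
noncomputable def nrmz (v : sphere (0 : E) 1) (y : E) : sphere (0 : E) 1 :=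
  if h : y = 0 then v else ⟨‖y‖⁻¹ • y, by
    rw [mem_sphere_zero_iff_norm, norm_smul, norm_inv, norm_norm]
    exact inv_mul_cancel₀ (norm_ne_zero_iff.2 h)⟩

theorem nrmz_val (v : sphere (0 : E) 1) {y : E} (hy : y ≠ 0) :
    (nrmz v y : E) = ‖y‖⁻¹ • y := by
  unfold nrmz
  rw [dif_neg hy]

theorem nrmz_one (v : sphere (0 : E) 1) {y : E} (hy : ‖y‖ = 1) : (nrmz v y : E) = y := by
  rw [nrmz_val v (by rintro rfl; simp at hy), hy, inv_one, one_smul]

theorem nrmz_contMDiffAt {n : ℕ} [Fact (Module.finrank ℝ E = n + 1)] (v : sphere (0 : E) 1) {y : E}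
    (hy : y ≠ 0) : ContMDiffAt 𝓘(ℝ, E) (𝓡 n) ∞ (nrmz v) y := by
  let U : TopologicalSpace.Opens E := ⟨{0}ᶜ, isOpen_compl_singleton⟩
  have hU : ∀ x : U, (x : E) ≠ 0 := fun x => x.2
  have h1 : ContMDiff 𝓘(ℝ, E) 𝓘(ℝ, E) ∞ (fun x : U => ‖(x : E)‖⁻¹ • (x : E)) := by
    intro x
    have h2 : ContDiffAt ℝ ∞ (fun y : E => ‖y‖⁻¹ • y) (x : E) :=
      ((contDiffAt_norm ℝ (hU x)).inv (norm_ne_zero_iff.2 (hU x))).smul contDiffAt_id
    exact ContMDiffAt.comp (g := fun y : E => ‖y‖⁻¹ • y) (f := fun x : U => (x : E)) x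
      h2.contMDiffAt (contMDiff_subtype_val x)
  have h2 : ContMDiff 𝓘(ℝ, E) (𝓡 n) ∞ (fun x : U => nrmz v (x : E)) := by
    have h0 : ∀ x : U, ‖(x : E)‖⁻¹ • (x : E) ∈ sphere (0 : E) 1 := fun x => by
      rw [mem_sphere_zero_iff_norm, norm_smul, norm_inv, norm_norm]
      exact inv_mul_cancel₀ (norm_ne_zero_iff.2 (hU x))
    have h3 := ContMDiff.codRestrict_sphere (n := n) h1 h0
    have h4 : (fun x : U => nrmz v (x : E)) =
        Set.codRestrict (fun x : U => ‖(x : E)‖⁻¹ • (x : E)) (sphere (0 : E) 1) h0 := by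
      funext x
      apply Subtype.ext
      rw [nrmz_val v (hU x)]
      rfl
    rw [h4]
    exact h3
  exact (contMDiffAt_subtype_iff (U := U) (f := nrmz v) (x := ⟨y, hy⟩)).1 (h2 ⟨y, hy⟩)

end Normalise

/-- the vector of `ℝ⁵` given by a complex number and a vector of `ℝ⁴` -/
noncomputable def vec5 (z : ℂ) (s : E4) : E5 :=
  WithLp.toLp 2 ![√((1 - s 0) / 2) * z.re, √((1 - s 0) / 2) * z.im,
    s 1 / (2 * √((1 - s 0) / 2)), s 2 / (2 * √((1 - s 0) / 2)), s 3 / (2 * √((1 - s 0) / 2))]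

/-- the length of the first two coordinates -/
noncomputable def rh (x : E5) : ℝ := √(x 0 ^ 2 + x 1 ^ 2)

/-- the direction of the first two coordinates -/
noncomputable def vecC (x : E5) : ℂ := ⟨x 0 / rh x, x 1 / rh x⟩

/-- the vector of `ℝ⁴` given by a vector of `ℝ⁵` -/
noncomputable def vec4 (x : E5) : E4 :=
  WithLp.toLp 2 ![1 - 2 * rh x ^ 2, 2 * rh x * x 2, 2 * rh x * x 3, 2 * rh x * x 4]

theorem norm_sq4 (s : E4) : ‖s‖ ^ 2 = s 0 ^ 2 + s 1 ^ 2 + s 2 ^ 2 + s 3 ^ 2 := by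
  rw [EuclideanSpace.real_norm_sq_eq, Fin.sum_univ_four]

theorem norm_sq5 (x : E5) : ‖x‖ ^ 2 = x 0 ^ 2 + x 1 ^ 2 + x 2 ^ 2 + x 3 ^ 2 + x 4 ^ 2 := by
  rw [EuclideanSpace.real_norm_sq_eq, Fin.sum_univ_five]

theorem norm_eq_one_of_sq {E : Type} [NormedAddCommGroup E] {x : E} (h : ‖x‖ ^ 2 = 1) :
    ‖x‖ = 1 := by
  have := norm_nonneg x
  nlinarith

theorem rh_nonneg (x : E5) : 0 ≤ rh x := Real.sqrt_nonneg _

theorem rh_sq (x : E5) : rh x ^ 2 = x 0 ^ 2 + x 1 ^ 2 := Real.sq_sqrt (by positivity)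

theorem rh_pos {x : E5} (h : ¬ (x 0 = 0 ∧ x 1 = 0)) : 0 < rh x := by
  refine Real.sqrt_pos.2 ?_
  by_contra h1
  refine h ⟨?_, ?_⟩ <;> nlinarith [sq_nonneg (x 0), sq_nonneg (x 1)]

theorem lt_one_of {s : E4} (hs : ‖s‖ = 1) (h : s ≠ HopfFin.e0) : s 0 < 1 := by
  by_contra h1
  have h2 := norm_sq4 s
  rw [hs] at h2
  apply h
  have h3 : s 0 ^ 2 ≥ 1 := by nlinarith
  have e1 : s 1 = 0 := by nlinarith [sq_nonneg (s 1), sq_nonneg (s 2), sq_nonneg (s 3)]
  have e2 : s 2 = 0 := by nlinarith [sq_nonneg (s 1), sq_nonneg (s 2), sq_nonneg (s 3)]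
  have e3 : s 3 = 0 := by nlinarith [sq_nonneg (s 1), sq_nonneg (s 2), sq_nonneg (s 3)]
  have e0 : s 0 = 1 := by
    rw [e1, e2, e3] at h2
    nlinarith
  ext i
  fin_cases i
  · simpa [HopfFin.e0] using e0
  · simpa [HopfFin.e0] using e1
  · simpa [HopfFin.e0] using e2
  · simpa [HopfFin.e0] using e3

theorem e0_zero : (HopfFin.e0 : E4) 0 = 1 := by simp [HopfFin.e0]

theorem norm_vec5 {z : ℂ} {s : E4} (hz : z.re ^ 2 + z.im ^ 2 = 1) (hs : ‖s‖ = 1)
    (h : s 0 < 1) : ‖vec5 z s‖ = 1 := by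
  apply norm_eq_one_of_sq
  have h2 := norm_sq4 s
  rw [hs] at h2
  have hr : 0 < √((1 - s 0) / 2) := Real.sqrt_pos.2 (by linarith)
  have hr2 : √((1 - s 0) / 2) ^ 2 = (1 - s 0) / 2 := Real.sq_sqrt (by linarith)
  rw [norm_sq5]
  simp only [vec5]
  set r := √((1 - s 0) / 2) with hrr
  have e1 : s 0 = 1 - 2 * r ^ 2 := by linarith
  simp only [Fin.isValue, Matrix.cons_val_zero, Matrix.cons_val_one, Matrix.cons_val]
  field_simp
  rw [e1] at h2
  nlinarith

theorem rh_vec5 {z : ℂ} {s : E4} (hz : z.re ^ 2 + z.im ^ 2 = 1) :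
    rh (vec5 z s) = √((1 - s 0) / 2) := by
  unfold rh
  simp only [vec5, Fin.isValue, Matrix.cons_val_zero, Matrix.cons_val_one]
  rw [mul_pow, mul_pow, ← mul_add, hz, mul_one, Real.sqrt_sq (Real.sqrt_nonneg _)]

theorem vecC_vec5 {z : ℂ} {s : E4} (hz : z.re ^ 2 + z.im ^ 2 = 1) (h : s 0 < 1) :
    vecC (vec5 z s) = z := by
  have hr : 0 < √((1 - s 0) / 2) := Real.sqrt_pos.2 (by linarith)
  unfold vecC
  rw [rh_vec5 hz]
  apply Complex.ext
  · simp only [vec5, Fin.isValue, Matrix.cons_val_zero]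
    field_simp
  · simp only [vec5, Fin.isValue, Matrix.cons_val_one, Matrix.cons_val_zero]
    field_simp

theorem vec4_vec5 {z : ℂ} {s : E4} (hz : z.re ^ 2 + z.im ^ 2 = 1) (h : s 0 < 1) :
    vec4 (vec5 z s) = s := by
  have hr : 0 < √((1 - s 0) / 2) := Real.sqrt_pos.2 (by linarith)
  have hr2 : √((1 - s 0) / 2) ^ 2 = (1 - s 0) / 2 := Real.sq_sqrt (by linarith)
  unfold vec4
  rw [rh_vec5 hz]
  unfold vec5
  generalize √((1 - s 0) / 2) = r at hr hr2 ⊢
  ext i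
  fin_cases i
  · simp [hr2]
    ring
  · simp
    field_simp
  · simp
    field_simp
  · simp
    field_simp

theorem norm_vec4 {x : E5} (hx : ‖x‖ = 1) : ‖vec4 x‖ = 1 := by
  apply norm_eq_one_of_sq
  have h2 := norm_sq5 x
  rw [hx] at h2
  have h3 := rh_sq x
  rw [norm_sq4]
  simp only [vec4, Fin.isValue, Matrix.cons_val_zero, Matrix.cons_val_one, Matrix.cons_val]
  nlinarith

theorem norm_vecC {x : E5} (h : ¬ (x 0 = 0 ∧ x 1 = 0)) :
    (vecC x).re ^ 2 + (vecC x).im ^ 2 = 1 := by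
  have hr := rh_pos h
  have h3 := rh_sq x
  simp only [vecC]
  field_simp
  linarith

theorem vec4_zero (x : E5) : vec4 x 0 = 1 - 2 * rh x ^ 2 := by
  simp [vec4]

theorem vec5_vecC {x : E5} (h : ¬ (x 0 = 0 ∧ x 1 = 0)) : vec5 (vecC x) (vec4 x) = x := by
  have hr := rh_pos h
  have h1 : √((1 - vec4 x 0) / 2) = rh x := by
    rw [vec4_zero, show (1 - (1 - 2 * rh x ^ 2)) / 2 = rh x ^ 2 by ring, Real.sqrt_sq hr.le]
  unfold vec5
  rw [h1]
  ext i
  fin_cases i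
  · simp [vecC]
    field_simp
  · simp [vecC]
    field_simp
  · simp [vec4]
    field_simp
  · simp [vec4]
    field_simp
  · simp [vec4]
    field_simp

/-! ### smoothness -/

theorem vec5_contDiffAt {z : ℂ} {s : E4} (h : s 0 < 1) :
    ContDiffAt ℝ ∞ (fun p : ℂ × E4 => vec5 p.1 p.2) (z, s) := by
  have hs : ∀ i : Fin 4, ContDiffAt ℝ ∞ (fun p : ℂ × E4 => p.2 i) (z, s) := fun i =>
    ((EuclideanSpace.proj i : E4 →L[ℝ] ℝ).contDiff.contDiffAt).comp (z, s) contDiffAt_snd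
  have hre : ContDiffAt ℝ ∞ (fun p : ℂ × E4 => p.1.re) (z, s) :=
    (Complex.reCLM.contDiff.contDiffAt).comp (z, s) contDiffAt_fst
  have him : ContDiffAt ℝ ∞ (fun p : ℂ × E4 => p.1.im) (z, s) :=
    (Complex.imCLM.contDiff.contDiffAt).comp (z, s) contDiffAt_fst
  have hr : ContDiffAt ℝ ∞ (fun p : ℂ × E4 => √((1 - p.2 0) / 2)) (z, s) := by
    refine ContDiffAt.sqrt ((contDiffAt_const.sub (hs 0)).div_const 2) ?_
    show (1 - s 0) / 2 ≠ 0
    linarith
  have hr0 : 2 * √((1 - s 0) / 2) ≠ 0 := by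
    have : 0 < √((1 - s 0) / 2) := Real.sqrt_pos.2 (by linarith)
    positivity
  have hr2 : ContDiffAt ℝ ∞ (fun p : ℂ × E4 => 2 * √((1 - p.2 0) / 2)) (z, s) :=
    contDiffAt_const.mul hr
  rw [contDiffAt_euclidean]
  intro i
  fin_cases i
  · exact hr.mul hre
  · exact hr.mul him
  · exact (hs 1).div hr2 hr0
  · exact (hs 2).div hr2 hr0
  · exact (hs 3).div hr2 hr0

theorem co_contDiffAt (x : E5) (i : Fin 5) : ContDiffAt ℝ ∞ (fun p : E5 => p i) x :=
  (EuclideanSpace.proj i : E5 →L[ℝ] ℝ).contDiff.contDiffAt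

theorem rh_contDiffAt {x : E5} (h : ¬ (x 0 = 0 ∧ x 1 = 0)) : ContDiffAt ℝ ∞ rh x := by
  refine ContDiffAt.sqrt (((co_contDiffAt x 0).pow 2).add ((co_contDiffAt x 1).pow 2)) ?_
  have h1 := rh_pos h
  have h2 := rh_sq x
  show x 0 ^ 2 + x 1 ^ 2 ≠ 0
  rw [← h2]
  positivity

theorem vec4_contDiffAt {x : E5} (h : ¬ (x 0 = 0 ∧ x 1 = 0)) : ContDiffAt ℝ ∞ vec4 x := by
  have hr := rh_contDiffAt h
  have hr2 : ContDiffAt ℝ ∞ (fun p : E5 => 2 * rh p) x := contDiffAt_const.mul hr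
  rw [contDiffAt_euclidean]
  intro i
  fin_cases i
  · exact contDiffAt_const.sub (contDiffAt_const.mul (hr.pow 2))
  · exact hr2.mul (co_contDiffAt x 2)
  · exact hr2.mul (co_contDiffAt x 3)
  · exact hr2.mul (co_contDiffAt x 4)

theorem vecC_contDiffAt {x : E5} (h : ¬ (x 0 = 0 ∧ x 1 = 0)) : ContDiffAt ℝ ∞ vecC x := by
  have hr := rh_contDiffAt h
  have h1 := (rh_pos h).ne'
  have h2 : vecC = fun x => (Complex.ofRealCLM (x 0 / rh x)) +
      Complex.ofRealCLM (x 1 / rh x) * Complex.I := by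
    funext x
    apply Complex.ext <;> simp [vecC]
  rw [h2]
  exact (Complex.ofRealCLM.contDiff.contDiffAt.comp x ((co_contDiffAt x 0).div hr h1)).add
    ((Complex.ofRealCLM.contDiff.contDiffAt.comp x ((co_contDiffAt x 1).div hr h1)).mul
      contDiffAt_const)

/-! ### the partial diffeomorphism -/

section Circ

attribute [local instance] finrank_real_complex_fact'

/-- normalisation of complex numbers -/
noncomputable def ncirc (z : ℂ) : Circle :=
  (nrmz (⟨1, by simp⟩ : sphere (0 : ℂ) 1) z : sphere (0 : ℂ) 1)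

theorem ncirc_contMDiffAt {z : ℂ} (hz : z ≠ 0) : ContMDiffAt 𝓘(ℝ, ℂ) (𝓡 1) ∞ ncirc z :=
  nrmz_contMDiffAt (E := ℂ) (n := 1) _ hz

theorem ncirc_one {z : ℂ} (hz : ‖z‖ = 1) : (ncirc z : ℂ) = z := nrmz_one (E := ℂ) _ hz

theorem circ_coe : ContMDiff (𝓡 1) 𝓘(ℝ, ℂ) ∞ (fun z : Circle => (z : ℂ)) :=
  contMDiff_coe_sphere (E := ℂ)

end Circ

theorem circ_sq (z : Circle) : (z : ℂ).re ^ 2 + (z : ℂ).im ^ 2 = 1 := by
  have h := Circle.normSq_coe z
  rw [Complex.normSq_apply] at h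
  nlinarith

/-- `S¹ × S³` -/
abbrev CS3 : Type := Circle × sphere (0 : E4) 1

/-- `S⁴` -/
abbrev SS : Type := sphere (0 : E5) 1

theorem norm_sph {E : Type} [NormedAddCommGroup E] (s : sphere (0 : E) 1) : ‖(s : E)‖ = 1 := by
  have h := s.2
  rwa [mem_sphere_zero_iff_norm] at h

theorem norm_e0 : ‖(HopfFin.e0 : E4)‖ = 1 := by simp [HopfFin.e0]

/-- the base point `e0` of `S³` -/
noncomputable def b3 : sphere (0 : E4) 1 := ⟨HopfFin.e0, by simp [HopfFin.e0]⟩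

/-- a base point of `S⁴` -/
noncomputable def b4 : SS := ⟨EuclideanSpace.single 0 1, by simp⟩

theorem ne_b3 {s : sphere (0 : E4) 1} (h : s ≠ b3) : (s : E4) 0 < 1 :=
  lt_one_of (norm_sph s) fun h1 => h (Subtype.ext h1)

/-- the map `S¹ × (S³ - e0) → S⁴ - S²` -/
noncomputable def toS (p : CS3) : SS := nrmz b4 (vec5 (p.1 : ℂ) (p.2 : E4))

/-- its inverse -/
noncomputable def toP (x : SS) : CS3 := (ncirc (vecC (x : E5)), nrmz b3 (vec4 (x : E5)))

/-- the 2-sphere -/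
def InS2 (x : SS) : Prop := (x : E5) 0 = 0 ∧ (x : E5) 1 = 0

theorem toS_val {p : CS3} (h : p.2 ≠ b3) : (toS p : E5) = vec5 (p.1 : ℂ) (p.2 : E4) :=
  nrmz_one _ (norm_vec5 (circ_sq p.1) (norm_sph p.2) (ne_b3 h))

theorem toP_fst {x : SS} (h : ¬ InS2 x) : ((toP x).1 : ℂ) = vecC (x : E5) := by
  refine ncirc_one ?_
  have h1 := norm_vecC h
  rw [← Complex.sq_norm_sub_sq_re] at h1
  have h2 := norm_nonneg (vecC (x : E5))
  nlinarith

theorem toP_snd (x : SS) : ((toP x).2 : E4) = vec4 (x : E5) :=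
  nrmz_one _ (norm_vec4 (norm_sph x))

theorem toS_not {p : CS3} (h : p.2 ≠ b3) : ¬ InS2 (toS p) := by
  rintro ⟨h1, h2⟩
  have h3 := rh_vec5 (z := (p.1 : ℂ)) (s := (p.2 : E4)) (circ_sq p.1)
  have h4 := rh_sq (vec5 (p.1 : ℂ) (p.2 : E4))
  rw [← toS_val h, h1, h2] at h4
  rw [← toS_val h] at h3
  have h5 : 0 < √((1 - (p.2 : E4) 0) / 2) := Real.sqrt_pos.2 (by linarith [ne_b3 h])
  rw [h3] at h4
  nlinarith

theorem toP_ne {x : SS} (h : ¬ InS2 x) : (toP x).2 ≠ b3 := by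
  intro h1
  have h2 := toP_snd x
  rw [h1] at h2
  have h3 := congrArg (fun v : E4 => v 0) h2
  have h4 := vec4_zero (x : E5)
  have h5 := rh_pos h
  have h6 : (b3 : E4) 0 = 1 := e0_zero
  simp only [h6, h4] at h3
  nlinarith

theorem toP_toS {p : CS3} (h : p.2 ≠ b3) : toP (toS p) = p := by
  refine Prod.ext (Circle.ext ?_) (Subtype.ext ?_)
  · rw [toP_fst (toS_not h), toS_val h, vecC_vec5 (circ_sq p.1) (ne_b3 h)]
  · rw [toP_snd, toS_val h, vec4_vec5 (circ_sq p.1) (ne_b3 h)]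

theorem toS_toP {x : SS} (h : ¬ InS2 x) : toS (toP x) = x := by
  apply Subtype.ext
  rw [toS_val (toP_ne h), toP_fst h, toP_snd, vec5_vecC h]

theorem toS_contMDiffAt {p : CS3} (h : p.2 ≠ b3) :
    ContMDiffAt ((𝓡 1).prod (𝓡 3)) (𝓡 4) ∞ toS p := by
  have := Fact.mk (@finrank_euclideanSpace_fin ℝ _ (3 + 1))
  have := Fact.mk (@finrank_euclideanSpace_fin ℝ _ (4 + 1))
  have h1 : ContMDiffAt ((𝓡 1).prod (𝓡 3)) 𝓘(ℝ, ℂ × E4) ∞
      (fun p : CS3 => ((p.1 : ℂ), (p.2 : E4))) p :=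
    (ContMDiffAt.comp (g := fun z : Circle => (z : ℂ)) (f := fun w : CS3 => w.1) p
      (circ_coe p.1) contMDiffAt_fst).prodMk_space
      (ContMDiffAt.comp (g := fun z : sphere (0 : E4) 1 => (z : E4)) (f := fun w : CS3 => w.2) p
        (contMDiff_coe_sphere (E := E4) (n := 3) p.2) contMDiffAt_snd)
  have h2 : ContMDiffAt ((𝓡 1).prod (𝓡 3)) 𝓘(ℝ, E5) ∞
      (fun p : CS3 => vec5 (p.1 : ℂ) (p.2 : E4)) p :=
    ContMDiffAt.comp (g := fun q : ℂ × E4 => vec5 q.1 q.2)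
      (f := fun p : CS3 => ((p.1 : ℂ), (p.2 : E4))) p
      (vec5_contDiffAt (ne_b3 h)).contMDiffAt h1
  have h3 : vec5 (p.1 : ℂ) (p.2 : E4) ≠ 0 := by
    intro h4
    have h5 := norm_vec5 (circ_sq p.1) (norm_sph p.2) (ne_b3 h)
    rw [h4, norm_zero] at h5
    exact zero_ne_one h5
  exact ContMDiffAt.comp (g := nrmz b4) (f := fun p : CS3 => vec5 (p.1 : ℂ) (p.2 : E4)) p
    (nrmz_contMDiffAt (n := 4) b4 h3) h2

theorem toP_contMDiffAt {x : SS} (h : ¬ InS2 x) :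
    ContMDiffAt (𝓡 4) ((𝓡 1).prod (𝓡 3)) ∞ toP x := by
  have := Fact.mk (@finrank_euclideanSpace_fin ℝ _ (3 + 1))
  have := Fact.mk (@finrank_euclideanSpace_fin ℝ _ (4 + 1))
  have h0 : ContMDiffAt (𝓡 4) 𝓘(ℝ, E5) ∞ (fun x : SS => (x : E5)) x :=
    contMDiff_coe_sphere (E := E5) (n := 4) x
  have h1 : ContMDiffAt (𝓡 4) 𝓘(ℝ, ℂ) ∞ (fun x : SS => vecC (x : E5)) x :=
    ContMDiffAt.comp (g := vecC) (f := fun x : SS => (x : E5)) x
      (vecC_contDiffAt h).contMDiffAt h0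
  have h2 : ContMDiffAt (𝓡 4) 𝓘(ℝ, E4) ∞ (fun x : SS => vec4 (x : E5)) x :=
    ContMDiffAt.comp (g := vec4) (f := fun x : SS => (x : E5)) x
      (vec4_contDiffAt h).contMDiffAt h0
  have h3 : vecC (x : E5) ≠ 0 := by
    intro h4
    have h5 := norm_vecC h
    rw [h4] at h5
    simp at h5
  have h4 : vec4 (x : E5) ≠ 0 := by
    intro h4
    have h5 := norm_vec4 (norm_sph x)
    rw [h4, norm_zero] at h5
    exact zero_ne_one h5
  exact (ContMDiffAt.comp (g := ncirc) (f := fun x : SS => vecC (x : E5)) x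
    (ncirc_contMDiffAt h3) h1).prodMk
    (ContMDiffAt.comp (g := nrmz b3) (f := fun x : SS => vec4 (x : E5)) x
    (nrmz_contMDiffAt (n := 3) b3 h4) h2)

theorem isOpen_src : IsOpen {p : CS3 | p.2 ≠ b3} :=
  isOpen_ne.preimage continuous_snd

theorem isOpen_tgt : IsOpen {x : SS | ¬ InS2 x} := by
  have h0 : ∀ i : Fin 5, Continuous fun x : SS => (x : E5) i := fun i =>
    (EuclideanSpace.proj i : E5 →L[ℝ] ℝ).continuous.comp continuous_subtype_val
  have h1 : IsClosed {x : SS | InS2 x} :=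
    (isClosed_eq (h0 0) continuous_const).inter (isClosed_eq (h0 1) continuous_const)
  exact h1.isOpen_compl

/-- the partial diffeomorphism `S¹ × (S³ - e0) → S⁴ - S²` -/
noncomputable def pd : PartialDiffeomorph ((𝓡 1).prod (𝓡 3)) (𝓡 4) CS3 SS ∞ where
  toFun := toS
  invFun := toP
  source := {p | p.2 ≠ b3}
  target := {x | ¬ InS2 x}
  map_source' := fun _ hp => toS_not hp
  map_target' := fun _ hx => toP_ne hx
  left_inv' := fun _ hp => toP_toS hp
  right_inv' := fun _ hx => toS_toP hx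
  open_source := isOpen_src
  open_target := isOpen_tgt
  contMDiffOn_toFun := fun _ hp => (toS_contMDiffAt hp).contMDiffWithinAt
  contMDiffOn_invFun := fun _ hx => (toP_contMDiffAt hx).contMDiffWithinAt

/-- the same map as a partial homeomorphism -/
noncomputable def kk : OpenPartialHomeomorph CS3 SS := pd.toOpenPartialHomeomorph

theorem kk_lda {p : CS3} (hp : p ∈ kk.source) :
    IsLocalDiffeomorphAt ((𝓡 1).prod (𝓡 3)) (𝓡 4) ∞ kk p :=
  ⟨pd, hp, fun _ _ => rfl⟩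

/-- neighbourhoods of the complement of the source correspond to neighbourhoods of the complement of
the target -/
theorem nhds_compl {A B : Type} [TopologicalSpace A] [TopologicalSpace B] [CompactSpace A]
    [T2Space B] (k : OpenPartialHomeomorph A B) (W : Set A) (hW : IsOpen W)
    (hk : k.sourceᶜ ⊆ W) : IsOpen (k.targetᶜ ∪ k '' (W ∩ k.source)) := by
  have h1 : k.targetᶜ ∪ k '' (W ∩ k.source) = (k '' Wᶜ)ᶜ := by
    ext y
    constructor
    · rintro (hy | ⟨x, ⟨hx1, hx2⟩, rfl⟩) ⟨z, hz, hzy⟩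
      · have hz1 : z ∈ k.source := by
          by_contra h
          exact hz (hk h)
        rw [← hzy] at hy
        exact hy (k.map_source hz1)
      · have hz1 : z ∈ k.source := by
          by_contra h
          exact hz (hk h)
        rw [k.injOn hz1 hx2 hzy] at hz
        exact hz hx1
    · intro hy
      by_cases hyt : y ∈ k.target
      · right
        refine ⟨k.symm y, ⟨?_, k.map_target hyt⟩, k.right_inv hyt⟩
        by_contra h
        exact hy ⟨k.symm y, h, k.right_inv hyt⟩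
      · exact Or.inl hyt
  have h2 : Wᶜ ⊆ k.source := fun x hx => by
    by_contra h
    exact hx (hk h)
  have h3 : IsCompact (k '' Wᶜ) :=
    hW.isClosed_compl.isCompact.image_of_continuousOn (k.continuousOn.mono h2)
  rw [h1]
  exact h3.isClosed.isOpen_compl

end Pool.Agent.HopfSPC
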