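import Pool.Agent.HopfSPC.Proj
import Pool.Agent.HopfSPC.FixT

/-!
# The complement of the section in the twisted product is the complement of `RP²` in `RP⁴`
-/

set_option autoImplicit false
set_option linter.unusedSectionVars false

open scoped ContDiff Topology Manifold
open Set Filter Metric

namespace Pool.Agent.HopfCov.Smooth

open Pool.Agent.HopfCov hiding pr
open Pool.Agent.HopfFin

variable {M N P V X : Mfd4}

/-! ### smooth maps into the sphere -/

/-- `ℝ⁵ ∖ 0` -/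
private def V5 : TopologicalSpace.Opens E5 := ⟨{0}ᶜ, isOpen_compl_singleton⟩

private noncomputable def dir5 (x : V5) : sphere (0 : E5) 1 :=
  ⟨‖(x : E5)‖⁻¹ • (x : E5), by
    rw [mem_sphere_zero_iff_norm, norm_smul, norm_inv, norm_norm]
    exact inv_mul_cancel₀ (norm_ne_zero_iff.2 x.2)⟩

private theorem contMDiff_dir5 : ContMDiff 𝓘(ℝ, E5) (𝓡 4) ∞ dir5 := by
  have h1 : ContMDiff 𝓘(ℝ, E5) 𝓘(ℝ, E5) ∞ (fun x : V5 => ‖(x : E5)‖⁻¹ • (x : E5)) := by
    intro x
    have hx : (x : E5) ≠ 0 := x.2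
    have h2 : ContDiffAt ℝ ∞ (fun y : E5 => ‖y‖⁻¹ • y) (x : E5) :=
      ((contDiffAt_norm ℝ hx).inv (norm_ne_zero_iff.2 hx)).smul contDiffAt_id
    exact ContMDiffAt.comp (g := fun y : E5 => ‖y‖⁻¹ • y) (f := fun x : V5 => (x : E5)) x
      h2.contMDiffAt (contMDiff_subtype_val x)
  have := Fact.mk (@finrank_euclideanSpace_fin ℝ _ (4 + 1))
  exact ContMDiff.codRestrict_sphere (n := 4) h1 _

theorem contMDiffAt_sphere4 {f : M → Sphere4} {x : M}
    (h : ContMDiffAt (𝓡 4) 𝓘(ℝ, E5) ∞ (fun z => ((show sphere (0 : E5) 1 from f z) : E5)) x) :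
    ContMDiffAt (𝓡 4) (𝓡 4) ∞ f x := by
  have hn : ∀ z, ‖((show sphere (0 : E5) 1 from f z) : E5)‖ = 1 := fun z =>
    norm_eq_of_mem_sphere _
  have hne : ∀ z, ((show sphere (0 : E5) 1 from f z) : E5) ≠ 0 := by
    intro z h0
    have := hn z
    rw [h0, norm_zero] at this
    exact zero_ne_one this
  set F : M → V5 := fun z => ⟨((show sphere (0 : E5) 1 from f z) : E5), hne z⟩ with hF
  have h1 : ContMDiffAt (𝓡 4) 𝓘(ℝ, E5) ∞ F x := by
    rw [← ContMDiffAt.subtypeVal_comp_iff]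
    exact h
  have h2 : ContMDiffAt (𝓡 4) (𝓡 4) ∞ (fun z => dir5 (F z)) x :=
    (contMDiff_dir5 _).comp x h1
  have h3 : (fun z => dir5 (F z)) = fun z => (show sphere (0 : E5) 1 from f z) := by
    funext z
    apply Subtype.ext
    show ‖((show sphere (0 : E5) 1 from f z) : E5)‖⁻¹ • _ = _
    rw [hn z, inv_one, one_smul]
  rw [h3] at h2
  exact h2

/-- the coordinates of the sphere are smooth -/
theorem contMDiff_val5 : ContMDiff (𝓡 4) 𝓘(ℝ, E5) ∞
    (fun z : Sphere4 => ((show sphere (0 : E5) 1 from z) : E5)) := by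
  have := Fact.mk (@finrank_euclideanSpace_fin ℝ _ (4 + 1))
  exact contMDiff_coe_sphere (n := 4)

/-- a map with a smooth local inverse is a local diffeomorphism -/
theorem ld_of_inverse {f : M → N} {g : N → M} {x : M}
    (hf : ∀ᶠ y in 𝓝 x, ContMDiffAt (𝓡 4) (𝓡 4) ∞ f y)
    (hg : ∀ᶠ z in 𝓝 (f x), ContMDiffAt (𝓡 4) (𝓡 4) ∞ g z)
    (h1 : ∀ᶠ y in 𝓝 x, g (f y) = y) (h2 : ∀ᶠ z in 𝓝 (f x), f (g z) = z) :
    LocalDiffeoAt f x := by
  obtain ⟨O, hO, hOo, hxO⟩ := mem_nhds_iff.1 (hf.and h1)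
  obtain ⟨O', hO', hOo', hxO'⟩ := mem_nhds_iff.1 (hg.and h2)
  have hfc : ContinuousOn f O := fun y hy => (hO hy).1.continuousAt.continuousWithinAt
  have hgc : ContinuousOn g O' := fun y hy => (hO' hy).1.continuousAt.continuousWithinAt
  refine ⟨{ toFun := f
            invFun := g
            source := O ∩ f ⁻¹' O'
            target := O' ∩ g ⁻¹' O
            map_source' := ?_
            map_target' := ?_
            left_inv' := ?_
            right_inv' := ?_
            open_source := hfc.isOpen_inter_preimage hOo hOo'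
            open_target := hgc.isOpen_inter_preimage hOo' hOo
            contMDiffOn_toFun := fun y hy => (hO hy.1).1.contMDiffWithinAt
            contMDiffOn_invFun := fun y hy => (hO' hy.1).1.contMDiffWithinAt }, ?_, ?_⟩
  · rintro y ⟨hy, hy'⟩
    refine ⟨hy', ?_⟩
    show g (f y) ∈ O
    rwa [(hO hy).2]
  · rintro z ⟨hz, hz'⟩
    refine ⟨hz', ?_⟩
    show f (g z) ∈ O'
    rwa [(hO' hz).2]
  · rintro y ⟨hy, -⟩
    exact (hO hy).2
  · rintro z ⟨hz, -⟩
    exact (hO' hz).2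
  · exact ⟨hxO, hxO'⟩
  · intro y _
    rfl

end Pool.Agent.HopfCov.Smooth
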