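import Pool.Agent.HopfSPC.Model2

/-!
# The covering `ℝ⁴ ∖ (closed ray) → S⁴ ∖ S²`
-/

set_option autoImplicit false
set_option linter.unusedSectionVars false

open scoped ContDiff Topology Manifold
open Set Filter Metric

namespace Pool.Agent.HopfCov.Smooth

open Pool.Agent.HopfCov hiding pr
open Pool.Agent.HopfFin

/-- the angle -/
noncomputable def thx (x : E4) : ℝ := -(Real.pi * Real.log ‖x‖ / Real.log 2)

/-- the vector in the direction of the image -/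
noncomputable def vv (x : E4) : E5 :=
  WithLp.toLp 2 ![(‖x‖ - x 1) * Real.cos (thx x), (‖x‖ - x 1) * Real.sin (thx x), x 0,
    Real.cos (thx x) * x 2 - Real.sin (thx x) * x 3,
    Real.sin (thx x) * x 2 + Real.cos (thx x) * x 3]

theorem normsq4 (x : E4) : ‖x‖ ^ 2 = x 0 ^ 2 + x 1 ^ 2 + x 2 ^ 2 + x 3 ^ 2 := by
  rw [EuclideanSpace.norm_sq_eq]
  simp [Fin.sum_univ_four, sq_abs]

theorem normsq5 (x : E5) : ‖x‖ ^ 2 = x 0 ^ 2 + x 1 ^ 2 + x 2 ^ 2 + x 3 ^ 2 + x 4 ^ 2 := by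
  rw [EuclideanSpace.norm_sq_eq]
  simp [Fin.sum_univ_five, sq_abs]

theorem norm_vv (x : E4) : ‖vv x‖ ^ 2 = 2 * ‖x‖ * (‖x‖ - x 1) := by
  rw [normsq5]
  simp only [vv, PiLp.toLp_apply, Matrix.cons_val]
  have h1 := normsq4 x
  have h2 := Real.cos_sq_add_sin_sq (thx x)
  have h3 : (Real.cos (thx x) * x 2 - Real.sin (thx x) * x 3) ^ 2 +
      (Real.sin (thx x) * x 2 + Real.cos (thx x) * x 3) ^ 2 = x 2 ^ 2 + x 3 ^ 2 := by
    linear_combination (x 2 ^ 2 + x 3 ^ 2) * h2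
  have h4 : ((‖x‖ - x 1) * Real.cos (thx x)) ^ 2 + ((‖x‖ - x 1) * Real.sin (thx x)) ^ 2 =
      (‖x‖ - x 1) ^ 2 := by
    linear_combination (‖x‖ - x 1) ^ 2 * h2
  linear_combination h3 + h4 - h1

theorem ne_zero_pos {x : E4} (hx : x ≠ 0) : 0 < ‖x‖ := norm_pos_iff.2 hx

/-- off the closed ray -/
theorem off_ray {x : E4} (hx : x ≠ 0) (hr : ¬ OnRay x) : 0 < ‖x‖ - x 1 := by
  by_contra hcon
  apply hr
  have h0 := ne_zero_pos hx
  have h1 := normsq4 x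
  have h2 : ‖x‖ ≤ x 1 := by linarith
  have h3 : ‖x‖ ^ 2 ≤ x 1 ^ 2 := by gcongr
  have h4 : x 0 ^ 2 + x 2 ^ 2 + x 3 ^ 2 ≤ 0 := by linarith
  have h5 : x 0 = 0 := by nlinarith [sq_nonneg (x 0), sq_nonneg (x 2), sq_nonneg (x 3)]
  have h6 : x 2 = 0 := by nlinarith [sq_nonneg (x 0), sq_nonneg (x 2), sq_nonneg (x 3)]
  have h7 : x 3 = 0 := by nlinarith [sq_nonneg (x 0), sq_nonneg (x 2), sq_nonneg (x 3)]
  exact ⟨h5, lt_of_lt_of_le h0 h2, h6, h7⟩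

theorem vv_ne {x : E4} (hx : x ≠ 0) (hr : ¬ OnRay x) : vv x ≠ 0 := by
  intro h
  have h1 := norm_vv x
  rw [h, norm_zero] at h1
  have h2 := off_ray hx hr
  have h3 := ne_zero_pos hx
  nlinarith [mul_pos h3 h2]

/-- the norm of `vv x` -/
theorem norm_vv_pos {x : E4} (hx : x ≠ 0) (hr : ¬ OnRay x) : 0 < ‖vv x‖ :=
  norm_pos_iff.2 (vv_ne hx hr)

private theorem cs4 (i : Fin 4) {x : E4} : ContDiffAt ℝ ∞ (fun y : E4 => y i) x :=
  ((EuclideanSpace.proj (𝕜 := ℝ) i : E4 →L[ℝ] ℝ).contDiff).contDiffAt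

theorem contDiffAt_thx {x : E4} (hx : x ≠ 0) : ContDiffAt ℝ ∞ thx x := by
  have h1 : ContDiffAt ℝ ∞ (fun y : E4 => Real.log ‖y‖) x :=
    (contDiffAt_norm ℝ hx).log (norm_ne_zero_iff.2 hx)
  exact ((contDiffAt_const.mul h1).div_const _).neg

theorem contDiffAt_vv {x : E4} (hx : x ≠ 0) : ContDiffAt ℝ ∞ vv x := by
  have hn : ContDiffAt ℝ ∞ (fun y : E4 => ‖y‖) x := contDiffAt_norm ℝ hx
  have hc : ContDiffAt ℝ ∞ (fun y : E4 => Real.cos (thx y)) x := (contDiffAt_thx hx).cos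
  have hs : ContDiffAt ℝ ∞ (fun y : E4 => Real.sin (thx y)) x := (contDiffAt_thx hx).sin
  rw [contDiffAt_euclidean]
  intro i
  fin_cases i
  · exact (hn.sub (cs4 1)).mul hc
  · exact (hn.sub (cs4 1)).mul hs
  · exact cs4 0
  · exact (hc.mul (cs4 2)).sub (hs.mul (cs4 3))
  · exact (hs.mul (cs4 2)).add (hc.mul (cs4 3))

open Classical in
/-- the direction of a vector -/
noncomputable def unit5 (v : E5) : sphere (0 : E5) 1 :=
  if h : v ≠ 0 then ⟨‖v‖⁻¹ • v, by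
    rw [mem_sphere_zero_iff_norm, norm_smul, norm_inv, norm_norm]
    exact inv_mul_cancel₀ (norm_ne_zero_iff.2 h)⟩ else ⟨EuclideanSpace.single 0 1, by simp⟩

theorem unit5_val {v : E5} (h : v ≠ 0) : ((unit5 v : sphere (0 : E5) 1) : E5) = ‖v‖⁻¹ • v := by
  unfold unit5
  rw [dif_pos h]

/-- the map `ℝ⁴ ∖ (closed ray) → S⁴ ∖ S²` -/
noncomputable def psi (x : E4) : Sphere4 := unit5 (vv x)

theorem psi_val {x : E4} (hx : x ≠ 0) (hr : ¬ OnRay x) :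
    ((show sphere (0 : E5) 1 from psi x) : E5) = ‖vv x‖⁻¹ • vv x :=
  unit5_val (vv_ne hx hr)

theorem coord_psi {x : E4} (hx : x ≠ 0) (hr : ¬ OnRay x) (i : Fin 5) :
    coord (psi x) i = ‖vv x‖⁻¹ * vv x i := by
  show ((show sphere (0 : E5) 1 from psi x) : E5) i = _
  rw [psi_val hx hr]
  rfl

/-! ### the inverse -/

/-- the angle near `θ₀` -/
noncomputable def ang5 (θ₀ : ℝ) (s : E5) : ℝ :=
  θ₀ + Complex.arg (((s 0 : ℝ) + (s 1 : ℝ) * Complex.I) * Complex.exp (-(θ₀ : ℂ) * Complex.I))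

/-- the distance to `S²` -/
noncomputable def rr5 (s : E5) : ℝ := Real.sqrt (s 0 ^ 2 + s 1 ^ 2)

/-- the direction of the preimage -/
noncomputable def hh (s : E5) : E4 :=
  WithLp.toLp 2 ![2 * rr5 s * s 2, 1 - 2 * (s 0 ^ 2 + s 1 ^ 2), 2 * (s 0 * s 3 + s 1 * s 4),
    2 * (s 0 * s 4 - s 1 * s 3)]

/-- the local inverse -/
noncomputable def gg (θ₀ : ℝ) (s : E5) : E4 :=
  Real.exp (-(ang5 θ₀ s * Real.log 2 / Real.pi)) • hh s

theorem norm_hh {s : E5} (hs : ‖s‖ = 1) : ‖hh s‖ = 1 := by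
  have h1 := normsq5 s
  rw [hs] at h1
  have h2 := normsq4 (hh s)
  simp only [hh, PiLp.toLp_apply, Matrix.cons_val] at h2
  have h3 : rr5 s ^ 2 = s 0 ^ 2 + s 1 ^ 2 := Real.sq_sqrt (by positivity)
  have h4 : ‖hh s‖ ^ 2 = 1 := by
    unfold hh
    rw [h2]
    linear_combination 4 * s 2 ^ 2 * h3 - 4 * (s 0 ^ 2 + s 1 ^ 2) * h1
  have h5 := norm_nonneg (hh s)
  nlinarith

theorem norm_gg (θ₀ : ℝ) {s : E5} (hs : ‖s‖ = 1) :
    ‖gg θ₀ s‖ = Real.exp (-(ang5 θ₀ s * Real.log 2 / Real.pi)) := by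
  rw [gg, norm_smul, norm_hh hs, mul_one, Real.norm_eq_abs, abs_of_pos (Real.exp_pos _)]

theorem thx_gg (θ₀ : ℝ) {s : E5} (hs : ‖s‖ = 1) : thx (gg θ₀ s) = ang5 θ₀ s := by
  have h1 := Real.pi_ne_zero
  have h2 : Real.log 2 ≠ 0 := (Real.log_pos (by norm_num)).ne'
  rw [thx, norm_gg θ₀ hs, Real.log_exp]
  field_simp

theorem polar (θ₀ : ℝ) (s : E5) : s 0 = rr5 s * Real.cos (ang5 θ₀ s) ∧
    s 1 = rr5 s * Real.sin (ang5 θ₀ s) := by
  set z : ℂ := ((s 0 : ℝ) + (s 1 : ℝ) * Complex.I) * Complex.exp (-(θ₀ : ℂ) * Complex.I) with hz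
  have h1 : ‖z‖ = rr5 s := by
    rw [hz, norm_mul]
    have h2 : ‖Complex.exp (-(θ₀ : ℂ) * Complex.I)‖ = 1 := by
      have : (-(θ₀ : ℂ) * Complex.I) = ((-θ₀ : ℝ) : ℂ) * Complex.I := by push_cast; ring
      rw [this, Complex.norm_exp_ofReal_mul_I]
    rw [h2, mul_one, Complex.norm_add_mul_I]
    rfl
  have h3 : (‖z‖ : ℂ) * Complex.exp (Complex.arg z * Complex.I) = z :=
    Complex.norm_mul_exp_arg_mul_I z
  have h4 : ((s 0 : ℝ) : ℂ) + (s 1 : ℝ) * Complex.I =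
      (rr5 s : ℂ) * Complex.exp ((ang5 θ₀ s : ℝ) * Complex.I) := by
    have h5 : ((s 0 : ℝ) : ℂ) + (s 1 : ℝ) * Complex.I = z * Complex.exp ((θ₀ : ℂ) * Complex.I) := by
      rw [hz, mul_assoc, ← Complex.exp_add]
      ring_nf
      simp
    rw [h5, ← h3, h1, mul_assoc, ← Complex.exp_add]
    congr 2
    unfold ang5
    push_cast
    ring
  have h6 := congrArg Complex.re h4
  have h7 := congrArg Complex.im h4
  rw [Complex.exp_mul_I] at h6 h7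
  constructor
  · simpa [← Complex.ofReal_cos, ← Complex.ofReal_sin] using h6
  · simpa [← Complex.ofReal_cos, ← Complex.ofReal_sin] using h7

end Pool.Agent.HopfCov.Smooth
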