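import Pool.Agent.HopfSPC.Model3

/-!
# The covering is a local diffeomorphism
-/

set_option autoImplicit false
set_option linter.unusedSectionVars false

open scoped ContDiff Topology Manifold
open Set Filter Metric

namespace Pool.Agent.HopfCov.Smooth

open Pool.Agent.HopfCov hiding pr
open Pool.Agent.HopfFin

/-- the vector of a point of the sphere -/
noncomputable def vec (z : Sphere4) : E5 := (show sphere (0 : E5) 1 from z).1

theorem norm_vec (z : Sphere4) : ‖vec z‖ = 1 :=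
  norm_eq_of_mem_sphere (show sphere (0 : E5) 1 from z)

theorem vec_coord (z : Sphere4) (i : Fin 5) : vec z i = coord z i := rfl

theorem vec_psi {x : E4} (hx : x ≠ 0) (hr : ¬ OnRay x) : vec (psi x) = ‖vv x‖⁻¹ • vv x :=
  psi_val hx hr

theorem vec_inj {z w : Sphere4} (h : vec z = vec w) : z = w := by
  refine ext_coord fun i => ?_
  rw [← vec_coord, ← vec_coord, h]

theorem rr5_sq (s : E5) : rr5 s ^ 2 = s 0 ^ 2 + s 1 ^ 2 := Real.sq_sqrt (by positivity)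

theorem rr5_nonneg (s : E5) : 0 ≤ rr5 s := Real.sqrt_nonneg _

theorem gg_apply (θ₀ : ℝ) {s : E5} (hs : ‖s‖ = 1) (i : Fin 4) :
    gg θ₀ s i = ‖gg θ₀ s‖ * hh s i := by
  rw [norm_gg θ₀ hs]
  rfl

theorem vv_gg (θ₀ : ℝ) {s : E5} (hs : ‖s‖ = 1) : vv (gg θ₀ s) = (2 * ‖gg θ₀ s‖ * rr5 s) • s := by
  have h0 := gg_apply θ₀ hs 0
  have h1 := gg_apply θ₀ hs 1
  have h2 := gg_apply θ₀ hs 2
  have h3 := gg_apply θ₀ hs 3
  obtain ⟨p0, p1⟩ := polar θ₀ s
  have hr := rr5_sq s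
  have hcs := Real.cos_sq_add_sin_sq (ang5 θ₀ s)
  simp only [hh, PiLp.toLp_apply, Matrix.cons_val] at h0 h1 h2 h3
  set t := ‖gg θ₀ s‖ with ht
  have hm : t - gg θ₀ s 1 = 2 * t * rr5 s ^ 2 := by
    rw [h1, hr]; ring
  set r := rr5 s with hrdef
  set c := Real.cos (ang5 θ₀ s) with hc
  set d := Real.sin (ang5 θ₀ s) with hd
  ext i
  unfold vv
  rw [thx_gg θ₀ hs, ← ht, ← hc, ← hd]
  have e3 : c * gg θ₀ s 2 - d * gg θ₀ s 3 = 2 * t * r * s 3 := by
    rw [h2, h3, p0, p1]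
    linear_combination 2 * t * r * s 3 * hcs
  have e4 : d * gg θ₀ s 2 + c * gg θ₀ s 3 = 2 * t * r * s 4 := by
    rw [h2, h3, p0, p1]
    linear_combination 2 * t * r * s 4 * hcs
  fin_cases i
  · show (t - gg θ₀ s 1) * c = 2 * t * r * s 0
    rw [hm, p0]; ring
  · show (t - gg θ₀ s 1) * d = 2 * t * r * s 1
    rw [hm, p1]; ring
  · show gg θ₀ s 0 = 2 * t * r * s 2
    rw [h0]; ring
  · exact e3
  · exact e4

theorem norm_gg_pos (θ₀ : ℝ) {s : E5} (hs : ‖s‖ = 1) : 0 < ‖gg θ₀ s‖ := by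
  rw [norm_gg θ₀ hs]
  exact Real.exp_pos _

theorem gg_ne (θ₀ : ℝ) {s : E5} (hs : ‖s‖ = 1) : gg θ₀ s ≠ 0 :=
  norm_pos_iff.1 (norm_gg_pos θ₀ hs)

theorem onRay_norm {x : E4} (h : OnRay x) : ‖x‖ = x 1 := by
  obtain ⟨h0, h1, h2, h3⟩ := h
  have := normsq4 x
  rw [h0, h2, h3] at this
  have h4 := norm_nonneg x
  nlinarith

theorem off_ray_iff {x : E4} (hx : x ≠ 0) : ¬ OnRay x ↔ 0 < ‖x‖ - x 1 := by
  refine ⟨off_ray hx, fun h hr => ?_⟩
  rw [onRay_norm hr] at h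
  linarith

theorem gg_off (θ₀ : ℝ) {s : E5} (hs : ‖s‖ = 1) (hr : rr5 s ≠ 0) : ¬ OnRay (gg θ₀ s) := by
  rw [off_ray_iff (gg_ne θ₀ hs)]
  have h1 := gg_apply θ₀ hs 1
  simp only [hh, PiLp.toLp_apply, Matrix.cons_val] at h1
  have h2 := rr5_sq s
  have h3 : ‖gg θ₀ s‖ - gg θ₀ s 1 = 2 * ‖gg θ₀ s‖ * rr5 s ^ 2 := by
    rw [h2]
    linear_combination - h1
  rw [h3]
  have h4 := norm_gg_pos θ₀ hs
  positivity

/-- `psi` is a left inverse -/
theorem psi_gg (θ₀ : ℝ) (z : Sphere4) (hr : rr5 (vec z) ≠ 0) : psi (gg θ₀ (vec z)) = z := by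
  have hs := norm_vec z
  apply vec_inj
  rw [vec_psi (gg_ne θ₀ hs) (gg_off θ₀ hs hr), vv_gg θ₀ hs, norm_smul, hs, mul_one]
  have h1 := norm_gg_pos θ₀ hs
  have h2 : 0 < rr5 (vec z) := lt_of_le_of_ne (rr5_nonneg _) hr.symm
  have h3 : 0 < 2 * ‖gg θ₀ (vec z)‖ * rr5 (vec z) := by positivity
  rw [Real.norm_eq_abs, abs_of_pos h3, smul_smul, inv_mul_cancel₀ h3.ne', one_smul]

/-- the coordinates of the image -/
theorem psi_data {x : E4} (hx : x ≠ 0) (hr : ¬ OnRay x) :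
    rr5 (vec (psi x)) = (‖x‖ - x 1) * ‖vv x‖⁻¹ ∧ hh (vec (psi x)) = ‖x‖⁻¹ • x ∧
      vec (psi x) 0 = rr5 (vec (psi x)) * Real.cos (thx x) ∧
      vec (psi x) 1 = rr5 (vec (psi x)) * Real.sin (thx x) := by
  have h0 := off_ray hx hr
  have hn := ne_zero_pos hx
  have hv := norm_vv_pos hx hr
  have hv2 := norm_vv x
  set s := vec (psi x) with hs
  have hse : s = ‖vv x‖⁻¹ • vv x := vec_psi hx hr
  set m := ‖x‖ - x 1 with hm
  set w := ‖vv x‖⁻¹ with hw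
  have hw2 : w ^ 2 * (2 * ‖x‖ * m) = 1 := by
    rw [← hv2, hw, inv_pow]
    exact inv_mul_cancel₀ (by positivity)
  have hwp : 0 < w := inv_pos.2 hv
  set c := Real.cos (thx x) with hc
  set d := Real.sin (thx x) with hd
  have hcs : c ^ 2 + d ^ 2 = 1 := Real.cos_sq_add_sin_sq (thx x)
  have s0 : s 0 = w * (m * c) := by rw [hse]; rfl
  have s1 : s 1 = w * (m * d) := by rw [hse]; rfl
  have s2 : s 2 = w * x 0 := by rw [hse]; rfl
  have s3 : s 3 = w * (c * x 2 - d * x 3) := by rw [hse]; rfl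
  have s4 : s 4 = w * (d * x 2 + c * x 3) := by rw [hse]; rfl
  have hrr : rr5 s = m * w := by
    have h1 : rr5 s ^ 2 = (m * w) ^ 2 := by
      rw [rr5_sq, s0, s1]
      linear_combination m ^ 2 * w ^ 2 * hcs
    have h2 := rr5_nonneg s
    have h3 : 0 < m * w := by positivity
    exact (pow_left_inj₀ h2 h3.le two_ne_zero).1 h1
  have hxm : x 1 = ‖x‖ - m := by rw [hm]; ring
  refine ⟨hrr, ?_, by rw [hrr, s0]; ring, by rw [hrr, s1]; ring⟩
  have hn' : ‖x‖ * ‖x‖⁻¹ = 1 := mul_inv_cancel₀ hn.ne'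
  have key : 2 * m * w ^ 2 = ‖x‖⁻¹ := by
    have : ‖x‖ * (2 * m * w ^ 2) = ‖x‖ * ‖x‖⁻¹ := by
      rw [hn']; linear_combination hw2
    exact mul_left_cancel₀ hn.ne' this
  ext i
  unfold hh
  fin_cases i
  · show 2 * rr5 s * s 2 = ‖x‖⁻¹ * x 0
    rw [hrr, s2, ← key]; ring
  · show 1 - 2 * (s 0 ^ 2 + s 1 ^ 2) = ‖x‖⁻¹ * x 1
    rw [s0, s1, hxm]
    linear_combination (- 2 * m ^ 2 * w ^ 2) * hcs - hn' - m * key
  · show 2 * (s 0 * s 3 + s 1 * s 4) = ‖x‖⁻¹ * x 2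
    rw [s0, s1, s3, s4, ← key]
    linear_combination (2 * m * w ^ 2 * x 2) * hcs
  · show 2 * (s 0 * s 4 - s 1 * s 3) = ‖x‖⁻¹ * x 3
    rw [s0, s1, s3, s4, ← key]
    linear_combination (2 * m * w ^ 2 * x 3) * hcs

theorem rr5_psi_pos {x : E4} (hx : x ≠ 0) (hr : ¬ OnRay x) : 0 < rr5 (vec (psi x)) := by
  rw [(psi_data hx hr).1]
  have h0 := off_ray hx hr
  have hv := norm_vv_pos hx hr
  positivity

/-- the complex number whose argument is used -/
noncomputable def zz (θ₀ : ℝ) (s : E5) : ℂ :=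
  ((s 0 : ℝ) + (s 1 : ℝ) * Complex.I) * Complex.exp (-(θ₀ : ℂ) * Complex.I)

theorem ang5_eq (θ₀ : ℝ) (s : E5) : ang5 θ₀ s = θ₀ + Complex.arg (zz θ₀ s) := rfl

theorem zz_psi (θ₀ : ℝ) {x : E4} (hx : x ≠ 0) (hr : ¬ OnRay x) :
    zz θ₀ (vec (psi x)) = (rr5 (vec (psi x)) : ℝ) *
      (Complex.cos ((thx x - θ₀ : ℝ) : ℂ) + Complex.sin ((thx x - θ₀ : ℝ) : ℂ) * Complex.I) := by
  obtain ⟨-, -, h1, h2⟩ := psi_data hx hr
  rw [zz, ← Complex.exp_mul_I]
  have h3 : ((vec (psi x) 0 : ℝ) : ℂ) + (vec (psi x) 1 : ℝ) * Complex.I =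
      (rr5 (vec (psi x)) : ℝ) * Complex.exp (((thx x : ℝ) : ℂ) * Complex.I) := by
    rw [h1, h2, Complex.exp_mul_I]
    push_cast
    ring
  rw [h3, mul_assoc, ← Complex.exp_add]
  congr 2
  push_cast
  ring

theorem ang5_psi (θ₀ : ℝ) {x : E4} (hx : x ≠ 0) (hr : ¬ OnRay x) (h : |thx x - θ₀| < Real.pi) :
    ang5 θ₀ (vec (psi x)) = thx x := by
  rw [ang5_eq, zz_psi θ₀ hx hr, Complex.arg_mul_cos_add_sin_mul_I (rr5_psi_pos hx hr)
    ⟨(abs_lt.1 h).1, (abs_lt.1 h).2.le⟩]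
  ring

theorem exp_thx {x : E4} (hx : x ≠ 0) :
    Real.exp (-(thx x * Real.log 2 / Real.pi)) = ‖x‖ := by
  have h1 := Real.pi_ne_zero
  have h2 : Real.log 2 ≠ 0 := (Real.log_pos (by norm_num)).ne'
  have h3 : -(thx x * Real.log 2 / Real.pi) = Real.log ‖x‖ := by
    unfold thx
    field_simp
  rw [h3, Real.exp_log (ne_zero_pos hx)]

theorem gg_psi (θ₀ : ℝ) {x : E4} (hx : x ≠ 0) (hr : ¬ OnRay x) (h : |thx x - θ₀| < Real.pi) :
    gg θ₀ (vec (psi x)) = x := by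
  rw [gg, ang5_psi θ₀ hx hr h, exp_thx hx, (psi_data hx hr).2.1, smul_smul,
    mul_inv_cancel₀ (ne_zero_pos hx).ne', one_smul]

/-! ### smoothness -/

private theorem cs5 (i : Fin 5) {x : E5} : ContDiffAt ℝ ∞ (fun y : E5 => y i) x :=
  ((EuclideanSpace.proj (𝕜 := ℝ) i : E5 →L[ℝ] ℝ).contDiff).contDiffAt

theorem contDiffAt_zz (θ₀ : ℝ) {s : E5} : ContDiffAt ℝ ∞ (zz θ₀) s := by
  have h1 : ∀ i, ContDiffAt ℝ ∞ (fun y : E5 => ((y i : ℝ) : ℂ)) s := fun i =>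
    Complex.ofRealCLM.contDiff.contDiffAt.comp s (cs5 i)
  exact ((h1 0).add ((h1 1).mul contDiffAt_const)).mul contDiffAt_const

theorem contDiffAt_arg {z : ℂ} (hz : z ∈ Complex.slitPlane) : ContDiffAt ℝ ∞ Complex.arg z := by
  have h4 : ContDiffAt ℝ ∞ Complex.log z :=
    (Complex.contDiffAt_log hz).restrict_scalars ℝ
  have h5 : Complex.arg = fun z : ℂ => (Complex.imCLM : ℂ →L[ℝ] ℝ) (Complex.log z) := by
    funext z
    simp [Complex.log_im]
  rw [h5]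
  exact Complex.imCLM.contDiff.contDiffAt.comp _ h4

theorem contDiffAt_gg (θ₀ : ℝ) {s : E5} (hz : zz θ₀ s ∈ Complex.slitPlane) (hr : rr5 s ≠ 0) :
    ContDiffAt ℝ ∞ (gg θ₀) s := by
  have h1 : ContDiffAt ℝ ∞ (ang5 θ₀) s :=
    contDiffAt_const.add ((contDiffAt_arg hz).comp s (contDiffAt_zz θ₀))
  have h2 : ContDiffAt ℝ ∞ (fun y : E5 => Real.exp (-(ang5 θ₀ y * Real.log 2 / Real.pi))) s :=
    (((h1.mul contDiffAt_const).div_const _).neg).exp
  have h3 : ContDiffAt ℝ ∞ (fun y : E5 => y 0 ^ 2 + y 1 ^ 2) s := ((cs5 0).pow 2).add ((cs5 1).pow 2)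
  have h4 : ContDiffAt ℝ ∞ rr5 s := by
    refine h3.sqrt ?_
    rw [← rr5_sq]
    exact pow_ne_zero 2 hr
  have h5 : ContDiffAt ℝ ∞ hh s := by
    rw [contDiffAt_euclidean]
    intro i
    fin_cases i
    · exact (contDiffAt_const.mul h4).mul (cs5 2)
    · exact contDiffAt_const.sub (contDiffAt_const.mul h3)
    · exact contDiffAt_const.mul (((cs5 0).mul (cs5 3)).add ((cs5 1).mul (cs5 4)))
    · exact contDiffAt_const.mul (((cs5 0).mul (cs5 4)).sub ((cs5 1).mul (cs5 3)))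
  exact h2.smul h5

theorem contMDiff_val4 : ContMDiff (𝓡 4) 𝓘(ℝ, E4) ∞ (fun x : Punctured => val x) :=
  contMDiff_subtype_val (I := 𝓡 4) (M := E4) (U := (⟨{0}ᶜ, isOpen_compl_singleton⟩ :
    TopologicalSpace.Opens E4))

theorem val_ne (x : Punctured) : val x ≠ 0 := x.2

theorem continuous_val4 : Continuous fun x : Punctured => val x := contMDiff_val4.continuous

theorem isOpen_off : IsOpen {y : Punctured | ¬ OnRay (val y)} := by
  have h1 : {y : Punctured | ¬ OnRay (val y)} = {y : Punctured | 0 < ‖val y‖ - val y 1} := by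
    ext y
    exact off_ray_iff (val_ne y)
  rw [h1]
  refine isOpen_lt continuous_const (continuous_val4.norm.sub ?_)
  exact (EuclideanSpace.proj (𝕜 := ℝ) (1 : Fin 4) : E4 →L[ℝ] ℝ).continuous.comp continuous_val4

/-- the covering `ℝ⁴ ∖ (closed ray) → S⁴ ∖ S²` -/
noncomputable def psi' (y : Punctured) : Sphere4 := psi (val y)

theorem contMDiffAt_psi' {y : Punctured} (hy : ¬ OnRay (val y)) :
    ContMDiffAt (𝓡 4) (𝓡 4) ∞ psi' y := by
  refine contMDiffAt_sphere4 (M := Punctured) ?_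
  have h1 : ContDiffAt ℝ ∞ (fun x : E4 => ‖vv x‖⁻¹ • vv x) (val y) := by
    have h2 := contDiffAt_vv (val_ne y)
    have h3 := vv_ne (val_ne y) hy
    exact (((contDiffAt_norm ℝ h3).comp (val y) h2).inv (norm_ne_zero_iff.2 h3)).smul h2
  have h4 : ContMDiffAt (𝓡 4) 𝓘(ℝ, E5) ∞ (fun x : Punctured => ‖vv (val x)‖⁻¹ • vv (val x)) y :=
    ContMDiffAt.comp (g := fun x : E4 => ‖vv x‖⁻¹ • vv x) (f := fun x : Punctured => val x) y
      h1.contMDiffAt (contMDiff_val4 y)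
  refine h4.congr_of_eventuallyEq ?_
  filter_upwards [isOpen_off.mem_nhds hy] with x hx
  exact psi_val (val_ne x) hx

/-- the local inverse as a map into `ℝ⁴ ∖ 0` -/
noncomputable def gg' (θ₀ : ℝ) (z : Sphere4) : Punctured :=
  (⟨gg θ₀ (vec z), gg_ne θ₀ (norm_vec z)⟩ : V4)

theorem val_gg' (θ₀ : ℝ) (z : Sphere4) : val (gg' θ₀ z) = gg θ₀ (vec z) := rfl

theorem continuous_vec : Continuous vec := contMDiff_val5.continuous

theorem contMDiffAt_gg' (θ₀ : ℝ) {z : Sphere4} (hz : zz θ₀ (vec z) ∈ Complex.slitPlane)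
    (hr : rr5 (vec z) ≠ 0) : ContMDiffAt (𝓡 4) (𝓡 4) ∞ (gg' θ₀) z := by
  have h0 : ContMDiffAt (𝓡 4) 𝓘(ℝ, E4) ∞ (fun z : Sphere4 => gg θ₀ (vec z)) z :=
    ContMDiffAt.comp (g := gg θ₀) (f := vec) z
      (contDiffAt_gg θ₀ hz hr).contMDiffAt (contMDiff_val5 z)
  have h1 : ContMDiffAt (𝓡 4) (𝓡 4) ∞ (fun z : Sphere4 => (show V4 from gg' θ₀ z)) z := by
    rw [← ContMDiffAt.subtypeVal_comp_iff]
    exact h0
  exact h1

theorem ld_psi' {y : Punctured} (hy : ¬ OnRay (val y)) : LocalDiffeoAt psi' y := by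
  set θ₀ := thx (val y) with hθ
  have hcont : ContinuousAt psi' y := (contMDiffAt_psi' hy).continuousAt
  have hz0 : zz θ₀ (vec (psi' y)) ∈ Complex.slitPlane := by
    show zz θ₀ (vec (psi (val y))) ∈ _
    rw [zz_psi θ₀ (val_ne y) hy, hθ, sub_self]
    simp only [Complex.ofReal_zero, Complex.cos_zero, Complex.sin_zero, zero_mul, add_zero, mul_one]
    exact Complex.ofReal_mem_slitPlane.2 (rr5_psi_pos (val_ne y) hy)
  have hr0 : rr5 (vec (psi' y)) ≠ 0 := (rr5_psi_pos (val_ne y) hy).ne'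
  have hzc : Continuous fun z : Sphere4 => zz θ₀ (vec z) := by
    have : Continuous (zz θ₀) := by
      rw [continuous_iff_continuousAt]
      intro s
      exact (contDiffAt_zz θ₀).continuousAt
    exact this.comp continuous_vec
  have hrc : Continuous fun z : Sphere4 => rr5 (vec z) := by
    have : Continuous rr5 := by
      unfold rr5
      fun_prop
    exact this.comp continuous_vec
  have e1 : ∀ᶠ z in 𝓝 (psi' y), zz θ₀ (vec z) ∈ Complex.slitPlane :=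
    hzc.continuousAt.eventually (Complex.isOpen_slitPlane.mem_nhds hz0)
  have e2 : ∀ᶠ z in 𝓝 (psi' y), rr5 (vec z) ≠ 0 :=
    hrc.continuousAt.eventually (isOpen_compl_singleton.mem_nhds hr0)
  have e3 : ∀ᶠ x in 𝓝 y, ¬ OnRay (val x) := isOpen_off.mem_nhds hy
  have e4 : ∀ᶠ x in 𝓝 y, |thx (val x) - θ₀| < Real.pi := by
    have h1 : ContinuousAt (fun x : Punctured => |thx (val x) - θ₀|) y := by
      have h2 : ContinuousAt (fun x : Punctured => thx (val x)) y :=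
        ContinuousAt.comp (g := thx) (contDiffAt_thx (val_ne y)).continuousAt
          continuous_val4.continuousAt
      exact (h2.sub continuousAt_const).abs
    refine h1.eventually (Iio_mem_nhds ?_)
    show |thx (val y) - θ₀| < Real.pi
    rw [hθ, sub_self, abs_zero]
    exact Real.pi_pos
  refine ld_of_inverse (M := Punctured) (N := Sphere4) (g := gg' θ₀) ?_ ?_ ?_ ?_
  · filter_upwards [e3] with x hx
    exact contMDiffAt_psi' hx
  · filter_upwards [e1, e2] with z hz hz'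
    exact contMDiffAt_gg' θ₀ hz hz'
  · filter_upwards [e3, e4] with x hx hx'
    apply Subtype.ext
    exact gg_psi θ₀ (val_ne x) hx hx'
  · filter_upwards [e2] with z hz
    exact psi_gg θ₀ z hz

end Pool.Agent.HopfCov.Smooth
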