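import Pool.Agent.HopfSPC.Model4

/-!
# The complement of the section in the twisted product is the complement of `RP²` in `RP⁴`
-/

set_option autoImplicit false
set_option linter.unusedSectionVars false

open scoped ContDiff Topology Manifold
open Set Filter Metric

namespace Pool.Agent.HopfCov.Smooth

open Pool.Agent.HopfCov hiding pr
open Pool.Agent.HopfFin

theorem fn_mul (a b : Homeo4) (x : E4) : (a * b).fn x = a.fn (b.fn x) := rfl

theorem fn_one (x : E4) : (1 : Homeo4).fn x = x := rfl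

theorem fn_inv_fn (a : Homeo4) (x : E4) : a⁻¹.fn (a.fn x) = x :=
  (show E4 ≃ₜ E4 from a).symm_apply_apply x

theorem fn_fn_inv (a : Homeo4) (x : E4) : a.fn (a⁻¹.fn x) = x :=
  (show E4 ≃ₜ E4 from a).apply_symm_apply x

theorem half_coords (x : E4) : halfReflection x 0 = -(x 0 / 2) ∧ halfReflection x 1 = x 1 / 2 ∧
    halfReflection x 2 = x 2 / 2 ∧ halfReflection x 3 = x 3 / 2 := ⟨rfl, rfl, rfl, rfl⟩

theorem norm_half (x : E4) : ‖halfReflection x‖ = ‖x‖ / 2 := by
  obtain ⟨h0, h1, h2, h3⟩ := half_coords x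
  have h4 := normsq4 (halfReflection x)
  have h5 := normsq4 x
  rw [h0, h1, h2, h3] at h4
  have h6 : ‖halfReflection x‖ ^ 2 = (‖x‖ / 2) ^ 2 := by
    rw [h4]
    linear_combination - (1 / 4) * h5
  exact (pow_left_inj₀ (norm_nonneg _) (by positivity) two_ne_zero).1 h6

theorem half_ne {x : E4} (hx : x ≠ 0) : halfReflection x ≠ 0 := by
  rw [← norm_pos_iff, norm_half]
  have := ne_zero_pos hx
  positivity

theorem onRay_half (x : E4) : OnRay (halfReflection x) ↔ OnRay x := by
  obtain ⟨h0, h1, h2, h3⟩ := half_coords x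
  unfold OnRay
  rw [h0, h1, h2, h3]
  constructor
  · rintro ⟨a, b, c, d⟩
    exact ⟨by linarith, by linarith, by linarith, by linarith⟩
  · rintro ⟨a, b, c, d⟩
    exact ⟨by linarith, by linarith, by linarith, by linarith⟩

theorem thx_half {x : E4} (hx : x ≠ 0) : thx (halfReflection x) = thx x + Real.pi := by
  have h1 : Real.log 2 ≠ 0 := (Real.log_pos (by norm_num)).ne'
  unfold thx
  rw [norm_half, Real.log_div (ne_zero_pos hx).ne' two_ne_zero]
  field_simp
  ring

theorem vv_half {x : E4} (hx : x ≠ 0) : vv (halfReflection x) = (-(1 / 2) : ℝ) • vv x := by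
  obtain ⟨h0, h1, h2, h3⟩ := half_coords x
  ext i
  unfold vv
  rw [thx_half hx, Real.cos_add_pi, Real.sin_add_pi, norm_half, h0, h1, h2, h3]
  fin_cases i
  · show (‖x‖ / 2 - x 1 / 2) * -Real.cos (thx x) = -(1 / 2) * ((‖x‖ - x 1) * Real.cos (thx x))
    ring
  · show (‖x‖ / 2 - x 1 / 2) * -Real.sin (thx x) = -(1 / 2) * ((‖x‖ - x 1) * Real.sin (thx x))
    ring
  · show -(x 0 / 2) = -(1 / 2) * x 0
    ring
  · show -Real.cos (thx x) * (x 2 / 2) - -Real.sin (thx x) * (x 3 / 2) =
      -(1 / 2) * (Real.cos (thx x) * x 2 - Real.sin (thx x) * x 3)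
    ring
  · show -Real.sin (thx x) * (x 2 / 2) + -Real.cos (thx x) * (x 3 / 2) =
      -(1 / 2) * (Real.sin (thx x) * x 2 + Real.cos (thx x) * x 3)
    ring

theorem psi_half {x : E4} (hx : x ≠ 0) (hr : ¬ OnRay x) :
    psi (halfReflection x) = antipode (psi x) := by
  refine ext_coord fun i => ?_
  rw [coord_antipode, coord_psi hx hr,
    coord_psi (half_ne hx) (fun h => hr ((onRay_half x).1 h)), vv_half hx, norm_smul]
  have hv := norm_vv_pos hx hr
  have h1 : ‖(-(1 / 2) : ℝ)‖ = 1 / 2 := by norm_num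
  have h2 : ((-(1 / 2) : ℝ) • vv x) i = -(1 / 2) * vv x i := rfl
  rw [h1, h2, mul_inv]
  ring

theorem rho_zpow_spec (n : ℤ) : ∀ x : E4, x ≠ 0 → ¬ OnRay x →
    psi ((rho ^ n).fn x) = psi x ∨ psi ((rho ^ n).fn x) = antipode (psi x) := by
  induction n using Int.induction_on with
  | zero =>
    intro x _ _
    left
    rw [zpow_zero, fn_one]
  | succ n ih =>
    intro x hx hr
    rw [zpow_add_one, fn_mul]
    have h1 : rho.fn x = halfReflection x := rfl
    rw [h1]
    have h2 := ih (halfReflection x) (half_ne hx) (fun h => hr ((onRay_half x).1 h))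
    rw [psi_half hx hr, antipode_antipode] at h2
    exact h2.symm
  | pred n ih =>
    intro x hx hr
    rw [zpow_sub_one, fn_mul]
    set x' := rho⁻¹.fn x with hx'
    have h1 : halfReflection x' = x := fn_fn_inv rho x
    have hx0 : x' ≠ 0 := by
      intro h
      apply hx
      rw [← h1, h]
      ext i
      fin_cases i <;> simp [halfReflection]
    have hr0 : ¬ OnRay x' := fun h => hr (by rw [← h1]; exact (onRay_half x').2 h)
    have h2 := ih x' hx0 hr0
    have h3 : psi x = antipode (psi x') := by rw [← h1]; exact psi_half hx0 hr0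
    rw [h3, antipode_antipode]
    exact h2.symm

theorem onRay_zpow (n : ℤ) : ∀ x : E4, OnRay ((rho ^ n).fn x) ↔ OnRay x := by
  induction n using Int.induction_on with
  | zero =>
    intro x
    rw [zpow_zero, fn_one]
  | succ n ih =>
    intro x
    rw [zpow_add_one, fn_mul, ih]
    exact onRay_half x
  | pred n ih =>
    intro x
    rw [zpow_sub_one, fn_mul, ih, ← onRay_half]
    have h1 : halfReflection (rho⁻¹.fn x) = x := fn_fn_inv rho x
    rw [h1]

theorem rho_two (x : E4) : (rho ^ (2 : ℤ)).fn x = (4⁻¹ : ℝ) • x := by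
  have h1 : (rho ^ (2 : ℤ)).fn x = halfReflection (halfReflection x) := by
    rw [zpow_two, fn_mul]
    rfl
  rw [h1]
  ext i
  fin_cases i
  · show -(-(x 0 / 2) / 2) = 4⁻¹ * x 0
    ring
  · show x 1 / 2 / 2 = 4⁻¹ * x 1
    ring
  · show x 2 / 2 / 2 = 4⁻¹ * x 2
    ring
  · show x 3 / 2 / 2 = 4⁻¹ * x 3
    ring

theorem rho_two_inv (x : E4) : ((rho ^ (2 : ℤ))⁻¹).fn x = (4 : ℝ) • x := by
  have h1 : (rho ^ (2 : ℤ)).fn ((4 : ℝ) • x) = x := by
    rw [rho_two, smul_smul]
    norm_num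
  have h2 := fn_inv_fn (rho ^ (2 : ℤ)) ((4 : ℝ) • x)
  rwa [h1] at h2

theorem rho_even (m : ℤ) : ∀ x : E4, (rho ^ (2 * m)).fn x = ((4⁻¹ : ℝ) ^ m) • x := by
  induction m using Int.induction_on with
  | zero =>
    intro x
    rw [mul_zero, zpow_zero, fn_one, zpow_zero, one_smul]
  | succ m ih =>
    intro x
    rw [mul_add, mul_one, zpow_add, fn_mul, rho_two, ih, smul_smul, zpow_add_one₀ (by norm_num)]
  | pred m ih =>
    intro x
    rw [mul_sub, mul_one, zpow_sub, fn_mul, rho_two_inv, ih, smul_smul,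
      zpow_sub_one₀ (by norm_num), inv_inv]

/-- points with the same image -/
theorem psi_eq {x y : E4} (hx : x ≠ 0) (hrx : ¬ OnRay x) (hy : y ≠ 0) (hry : ¬ OnRay y)
    (h : psi x = psi y) : ∃ m : ℤ, y = ((4⁻¹ : ℝ) ^ m) • x := by
  obtain ⟨a1, a2, a3, a4⟩ := psi_data hx hrx
  obtain ⟨b1, b2, b3, b4⟩ := psi_data hy hry
  have hr := rr5_psi_pos hx hrx
  rw [← h] at b1 b2 b3 b4
  have hc : Real.cos (thx y) = Real.cos (thx x) :=
    mul_left_cancel₀ hr.ne' (b3.symm.trans a3)
  have hs : Real.sin (thx y) = Real.sin (thx x) :=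
    mul_left_cancel₀ hr.ne' (b4.symm.trans a4)
  have h1 : Real.cos (thx y - thx x) = 1 := by
    rw [Real.cos_sub, hc, hs]
    nlinarith [Real.cos_sq_add_sin_sq (thx x)]
  obtain ⟨m, hm⟩ := (Real.cos_eq_one_iff _).1 h1
  refine ⟨m, ?_⟩
  have hlog : Real.log (4⁻¹ : ℝ) = -(2 * Real.log 2) := by
    rw [Real.log_inv]
    have : (4 : ℝ) = 2 ^ 2 := by norm_num
    rw [this, Real.log_pow]
    norm_num
  have h2 : ‖y‖ = ‖x‖ * (4⁻¹ : ℝ) ^ m := by
    rw [← exp_thx hx, ← exp_thx hy]
    have h3 : (4⁻¹ : ℝ) ^ m = Real.exp (m * Real.log (4⁻¹ : ℝ)) := by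
      rw [← Real.rpow_intCast, Real.rpow_def_of_pos (by norm_num), mul_comm]
    rw [h3, ← Real.exp_add, hlog]
    congr 1
    have h4 : thx y = thx x + m * (2 * Real.pi) := by rw [hm]; ring
    rw [h4]
    have := Real.pi_ne_zero
    field_simp
    ring
  have hnx := (ne_zero_pos hx).ne'
  have hny := (ne_zero_pos hy).ne'
  have h5 : ‖y‖⁻¹ • y = ‖x‖⁻¹ • x := by rw [← b2, ← a2]
  calc y = ‖y‖ • (‖y‖⁻¹ • y) := by rw [smul_smul, mul_inv_cancel₀ hny, one_smul]
    _ = (‖x‖ * (4⁻¹ : ℝ) ^ m) • (‖x‖⁻¹ • x) := by rw [h5, h2]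
    _ = ((4⁻¹ : ℝ) ^ m) • x := by
      rw [smul_smul]
      congr 1
      field_simp

theorem Sphere2_antipode (z : Sphere4) : antipode z ∈ Sphere2 ↔ z ∈ Sphere2 := by
  unfold Sphere2
  rw [Set.mem_ofPred_eq, Set.mem_ofPred_eq, coord_antipode, coord_antipode, neg_eq_zero, neg_eq_zero]

theorem rr5_zero_iff (z : Sphere4) : rr5 (vec z) = 0 ↔ z ∈ Sphere2 := by
  have h := rr5_sq (vec z)
  rw [vec_coord, vec_coord] at h
  constructor
  · intro h0
    rw [h0] at h
    exact ⟨by nlinarith [sq_nonneg (coord z 0), sq_nonneg (coord z 1)],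
      by nlinarith [sq_nonneg (coord z 0), sq_nonneg (coord z 1)]⟩
  · rintro ⟨h0, h1⟩
    rw [h0, h1] at h
    have : rr5 (vec z) ^ 2 = 0 := by rw [h]; ring
    exact pow_eq_zero_iff two_ne_zero |>.1 this

/-- the complement of the section in the twisted product is diffeomorphic to the complement of `RP²`
in `RP⁴` -/
theorem exists_modelT {X P : Mfd4} {p : Punctured → X} {q : Sphere4 → P} (hX : Orbit X p rho)
    (hP : Projective P q) : ∃ k : OpenPartialHomeomorph X P, k.sourceᶜ = sectionSet p ∧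
      k.targetᶜ = q '' Sphere2 ∧ (∀ x ∈ k.source, LocalDiffeoAt k x) ∧
      (∀ W : Set X, IsOpen W → k.sourceᶜ ⊆ W → IsOpen (k.targetᶜ ∪ k '' (W ∩ k.source))) ∧
      (∀ W : Set P, IsOpen W → k.targetᶜ ⊆ W →
        IsOpen (k.sourceᶜ ∪ k.symm '' (W ∩ k.target))) := by
  obtain ⟨k, hs, ht, hk1, hk2⟩ := desc p (fun y => q (psi' y)) {y | ¬ OnRay (val y)} isOpen_off
    (by
      have h1 : gg' 0 (show Sphere4 from (⟨EuclideanSpace.single 0 1, by simp⟩ :
          sphere (0 : E5) 1)) ∈ {y : Punctured | ¬ OnRay (val y)} := by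
        refine gg_off 0 (norm_vec _) ?_
        rw [Ne, rr5_zero_iff]
        rintro ⟨h0, -⟩
        have : coord (show Sphere4 from (⟨EuclideanSpace.single 0 1, by simp⟩ :
          sphere (0 : E5) 1)) 0 = 1 := by
          show (EuclideanSpace.single (0 : Fin 5) (1 : ℝ) : E5) 0 = 1
          simp
        rw [this] at h0
        exact one_ne_zero h0
      exact ⟨_, h1⟩)
    (fun x _ => hX.loc x)
    (fun x hx => LocalDiffeoAt.comp' (M := Punctured) (N := Sphere4) (P := P) (hP.loc _)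
      (ld_psi' hx))
    (by
      intro x hx y hy
      rw [hX.fib, hP.fib]
      constructor
      · rintro ⟨n, hn⟩
        show psi (val y) = psi (val x) ∨ psi (val y) = antipode (psi (val x))
        rw [hn]
        exact rho_zpow_spec n _ (val_ne x) hx
      · rintro (h | h)
        · obtain ⟨m, hm⟩ := psi_eq (val_ne x) hx (val_ne y) hy h.symm
          exact ⟨2 * m, by rw [rho_even, hm]⟩
        · have h1 : psi (halfReflection (val x)) = psi (val y) :=
            (psi_half (val_ne x) hx).trans h.symm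
          obtain ⟨m, hm⟩ := psi_eq (half_ne (val_ne x)) (fun h => hx ((onRay_half _).1 h))
            (val_ne y) hy h1
          refine ⟨2 * m + 1, ?_⟩
          rw [zpow_add_one, fn_mul, rho_even, hm]
          rfl)
  have hcomp := hX.compact
  have ht2 := hX.hausdorff
  have hcompP := hP.compact
  have ht2P := hP.t2
  have hs' : k.sourceᶜ = sectionSet p := by
    rw [hs]
    ext x
    constructor
    · intro hx
      obtain ⟨y, rfl⟩ := hX.surj x
      by_cases hy : OnRay (val y)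
      · exact ⟨y, hy, rfl⟩
      · exact absurd ⟨y, hy, rfl⟩ hx
    · rintro ⟨y, hy, rfl⟩ ⟨z, hz, hzy⟩
      obtain ⟨n, hn⟩ := (hX.fib z y).1 hzy
      have hy' : OnRay (val y) := hy
      rw [hn, onRay_zpow] at hy'
      exact hz hy'
  have ht' : k.targetᶜ = q '' Sphere2 := by
    rw [ht]
    ext w
    constructor
    · intro hw
      obtain ⟨z, rfl⟩ := hP.surj w
      by_cases hz : z ∈ Sphere2
      · exact ⟨z, hz, rfl⟩
      · have hr : rr5 (vec z) ≠ 0 := fun h => hz ((rr5_zero_iff z).1 h)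
        refine absurd ⟨gg' 0 z, gg_off 0 (norm_vec z) hr, ?_⟩ hw
        show q (psi (gg 0 (vec z))) = q z
        rw [psi_gg 0 z hr]
    · rintro ⟨z, hz, rfl⟩ ⟨y, hy, hyz⟩
      have hy' : ¬ OnRay (val y) := hy
      have h1 : rr5 (vec (psi (val y))) ≠ 0 := (rr5_psi_pos (val_ne y) hy').ne'
      apply h1
      rw [rr5_zero_iff]
      rcases (hP.fib _ _).1 hyz with h | h
      · have h2 : z = psi (val y) := h
        rwa [← h2]
      · have h2 : z = antipode (psi (val y)) := h
        rw [← Sphere2_antipode, ← h2]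
        exact hz
  refine ⟨k, hs', ht', hk2, fun W hW h => nbh_of_compact k W hW h, fun W hW h => ?_⟩
  exact nbh_of_compact k.symm W hW h

end Pool.Agent.HopfCov.Smooth
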