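import Pool.Agent.HopfSPC.SphTwo
import Pool.Agent.HopfSPC.Desc
import Pool.Agent.HopfSPC.Replace
import Pool.Agent.HopfSPC.AssembleT

/-!
# The complement of the fibre `S³` in the orbit space and the complement of two points in `S⁴`
-/

set_option autoImplicit false
set_option linter.unusedSectionVars false

open scoped ContDiff Topology Manifold
open Set Filter Metric Topology

namespace Pool.Agent.HopfCov.Smooth

open Pool.Agent.HopfCov Pool.Agent.HopfSPC

/-- `ℝ⁴` -/
noncomputable def Eu : Mfd4 := ⟨E4, inferInstance, inferInstance, inferInstance⟩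

/-- stretching of the shell `1/2 < |x| < 1` -/
noncomputable def shellOut (x : E4) : E4 := ((2 * ‖x‖ - 1) / ((1 - ‖x‖) * ‖x‖)) • x

/-- its inverse -/
noncomputable def shellIn (w : E4) : E4 := ((‖w‖ + 1) / ((‖w‖ + 2) * ‖w‖)) • w

theorem norm_shellOut {x : E4} (h1 : 1 / 2 < ‖x‖) (h2 : ‖x‖ < 1) :
    ‖shellOut x‖ = (2 * ‖x‖ - 1) / (1 - ‖x‖) := by
  have h3 : 0 < 1 - ‖x‖ := by linarith
  have h4 : 0 < 2 * ‖x‖ - 1 := by linarith
  have h5 : 0 < ‖x‖ := by linarith
  unfold shellOut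
  rw [norm_smul, Real.norm_eq_abs, abs_of_pos (by positivity)]
  field_simp

theorem norm_shellIn {w : E4} (h : w ≠ 0) : ‖shellIn w‖ = (‖w‖ + 1) / (‖w‖ + 2) := by
  have h5 : 0 < ‖w‖ := norm_pos_iff.2 h
  unfold shellIn
  rw [norm_smul, Real.norm_eq_abs, abs_of_pos (by positivity)]
  field_simp

theorem shellIn_mem {w : E4} (h : w ≠ 0) : 1 / 2 < ‖shellIn w‖ ∧ ‖shellIn w‖ < 1 := by
  have h5 : 0 < ‖w‖ := norm_pos_iff.2 h
  rw [norm_shellIn h]
  constructor
  · rw [lt_div_iff₀ (by linarith)]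
    linarith
  · rw [div_lt_one (by linarith)]
    linarith

theorem shellOut_ne {x : E4} (h1 : 1 / 2 < ‖x‖) (h2 : ‖x‖ < 1) : shellOut x ≠ 0 := by
  rw [← norm_pos_iff, norm_shellOut h1 h2]
  exact div_pos (by linarith) (by linarith)

theorem shellIn_shellOut {x : E4} (h1 : 1 / 2 < ‖x‖) (h2 : ‖x‖ < 1) :
    shellIn (shellOut x) = x := by
  have h3 : 0 < 1 - ‖x‖ := by linarith
  have h4 : 0 < 2 * ‖x‖ - 1 := by linarith
  have h5 : 0 < ‖x‖ := by linarith
  have h6 := norm_shellOut h1 h2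
  unfold shellIn
  rw [h6]
  unfold shellOut
  rw [smul_smul]
  generalize ‖x‖ = s at *
  have h7 : ((2 * s - 1) / (1 - s) + 1) / (((2 * s - 1) / (1 - s) + 2) * ((2 * s - 1) / (1 - s))) *
      ((2 * s - 1) / ((1 - s) * s)) = 1 := by
    have e1 : (2 * s - 1) / (1 - s) + 1 = s / (1 - s) := by
      field_simp
      ring
    have e2 : (2 * s - 1) / (1 - s) + 2 = 1 / (1 - s) := by
      field_simp
      ring
    rw [e1, e2]
    have h8 := h4.ne'
    generalize 2 * s - 1 = u at h8 ⊢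
    field_simp
  rw [h7, one_smul]

theorem shellOut_shellIn {w : E4} (h : w ≠ 0) : shellOut (shellIn w) = w := by
  have h5 : 0 < ‖w‖ := norm_pos_iff.2 h
  have h6 := norm_shellIn h
  unfold shellOut
  rw [h6]
  unfold shellIn
  rw [smul_smul]
  generalize ‖w‖ = t at *
  have h7 : (2 * ((t + 1) / (t + 2)) - 1) / ((1 - (t + 1) / (t + 2)) * ((t + 1) / (t + 2))) *
      ((t + 1) / ((t + 2) * t)) = 1 := by
    have e1 : 2 * ((t + 1) / (t + 2)) - 1 = t / (t + 2) := by
      field_simp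
      ring
    have e2 : 1 - (t + 1) / (t + 2) = 1 / (t + 2) := by
      field_simp
      ring
    rw [e1, e2]
    field_simp
  rw [h7, one_smul]

theorem contDiffAt_shellOut {x : E4} (h1 : 1 / 2 < ‖x‖) (h2 : ‖x‖ < 1) :
    ContDiffAt ℝ ∞ shellOut x := by
  have h0 : x ≠ 0 := norm_pos_iff.1 (by linarith)
  have hn : ContDiffAt ℝ ∞ (fun y : E4 => ‖y‖) x := contDiffAt_norm ℝ h0
  refine ContDiffAt.smul (ContDiffAt.div ((contDiffAt_const.mul hn).sub contDiffAt_const)
    ((contDiffAt_const.sub hn).mul hn) ?_) contDiffAt_id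
  have h3 : 0 < 1 - ‖x‖ := by linarith
  have h5 : 0 < ‖x‖ := by linarith
  positivity

theorem contDiffAt_shellIn {w : E4} (h : w ≠ 0) : ContDiffAt ℝ ∞ shellIn w := by
  have hn : ContDiffAt ℝ ∞ (fun y : E4 => ‖y‖) w := contDiffAt_norm ℝ h
  refine ContDiffAt.smul (ContDiffAt.div (hn.add contDiffAt_const)
    ((hn.add contDiffAt_const).mul hn) ?_) contDiffAt_id
  have h5 : 0 < ‖w‖ := norm_pos_iff.2 h
  positivity

theorem lda_shellOut {x : E4} (h1 : 1 / 2 < ‖x‖) (h2 : ‖x‖ < 1) : LDA shellOut x := by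
  have ho : IsOpen {y : E4 | 1 / 2 < ‖y‖ ∧ ‖y‖ < 1} :=
    (isOpen_lt continuous_const continuous_norm).inter (isOpen_lt continuous_norm continuous_const)
  have h3 : ∀ᶠ y in 𝓝 x, 1 / 2 < ‖y‖ ∧ ‖y‖ < 1 := ho.mem_nhds ⟨h1, h2⟩
  have h4 : ∀ᶠ w in 𝓝 (shellOut x), w ≠ 0 := isOpen_ne.mem_nhds (shellOut_ne h1 h2)
  refine ld_of_inverse (M := Eu) (N := Eu) (f := shellOut) (g := shellIn) ?_ ?_ ?_ ?_
  · filter_upwards [h3] with y hy
    exact (contDiffAt_shellOut hy.1 hy.2).contMDiffAt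
  · filter_upwards [h4] with w hw
    exact (contDiffAt_shellIn hw).contMDiffAt
  · filter_upwards [h3] with y hy
    exact shellIn_shellOut hy.1 hy.2
  · filter_upwards [h4] with w hw
    exact shellOut_shellIn hw

/-- the image of the unit sphere -/
def fibreSet {X : Mfd4} (p : Punctured → X) : Set X := {z | ∃ x : Punctured, nrm (val x) = 1 ∧ p x = z}

/-- `p` is a surjective local diffeomorphism for which the shell `1/2 < |x| ≤ 1` is a fundamental
domain -/
structure Shell {X : Mfd4} (p : Punctured → X) : Prop where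
  loc : ∀ x, LocalDiffeoAt p x
  dom : ∀ z : X, ∃ x : Punctured, p x = z ∧ 1 / 2 < nrm (val x) ∧ nrm (val x) ≤ 1
  inj : ∀ x y : Punctured, 1 / 2 < nrm (val x) → nrm (val x) ≤ 1 → 1 / 2 < nrm (val y) →
    nrm (val y) ≤ 1 → p x = p y → x = y

/-- the complement of the image of the unit sphere is the complement of two points of `S⁴` -/
theorem exists_modelF {X : Mfd4} {p : Punctured → X} (hp : Shell p) :
    ∃ (a : Sphere4.carrier) (k : OpenPartialHomeomorph X Sphere4), coord a 0 = -1 ∧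
      k.sourceᶜ = fibreSet p ∧ k.targetᶜ = {a, (show Sphere4.carrier from b4)} ∧
      ∀ z ∈ k.source, LocalDiffeoAt k z := by
  obtain ⟨κ, k1, k2, k3, -⟩ := exists_ster_refl
  set U : Set Punctured := {x | 1 / 2 < ‖val x‖ ∧ ‖val x‖ < 1} with hU
  have hUo : IsOpen U := by
    have h1 : Continuous fun x : Punctured => ‖val x‖ := continuous_norm.comp continuous_val4
    exact (isOpen_lt continuous_const h1).inter (isOpen_lt h1 continuous_const)
  have hv : ∀ {v : E4}, v ≠ 0 → ∃ x : Punctured, val x = v := fun {v} hv =>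
    ⟨(⟨v, hv⟩ : V4), rfl⟩
  have hval : ∀ x y : Punctured, val x = val y → x = y := fun x y h => Subtype.ext h
  obtain ⟨w₁, hw₁⟩ := exists_ne (0 : E4)
  obtain ⟨x₁, hx₁⟩ := hv (show shellIn w₁ ≠ 0 from norm_pos_iff.1 (by
    have := (shellIn_mem hw₁).1
    linarith))
  have hne : U.Nonempty := ⟨x₁, by
    show 1 / 2 < ‖val x₁‖ ∧ ‖val x₁‖ < 1
    rw [hx₁]
    exact shellIn_mem hw₁⟩
  let Q : Punctured → Sphere4 := fun x => κ (shellOut (val x))
  have hQ : ∀ x ∈ U, LocalDiffeoAt Q x := by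
    intro x hx
    have e1 : LDA (fun y : V4 => (y : E4)) x := LDA_val x
    have e2 : LDA (fun y : V4 => shellOut (y : E4)) x :=
      LDA.comp' (f := fun y : V4 => (y : E4)) (g := shellOut) (lda_shellOut hx.1 hx.2) e1
    exact LDA.comp' (f := fun y : V4 => shellOut (y : E4)) (g := κ) (k1.loc _) e2
  obtain ⟨k, hks, hkt, -, hkl⟩ := desc p Q U hUo hne (fun x _ => hp.loc x) hQ (by
    intro x hx y hy
    constructor
    · intro h
      rw [hp.inj x y hx.1 hx.2.le hy.1 hy.2.le h]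
    · intro h
      have e1 := k1.emb.injective h
      have e2 := congrArg shellIn e1
      rw [shellIn_shellOut hx.1 hx.2, shellIn_shellOut hy.1 hy.2] at e2
      rw [hval x y e2])
  refine ⟨κ 0, k, ?_, ?_, ?_, hkl⟩
  · rw [k3]
    norm_num
  · rw [hks]
    ext z
    constructor
    · intro hz
      obtain ⟨x, e1, e2, e3⟩ := hp.dom z
      rcases lt_or_eq_of_le e3 with h | h
      · exact absurd ⟨x, ⟨e2, h⟩, e1⟩ hz
      · exact ⟨x, h, e1⟩
    · rintro ⟨y, hy, rfl⟩ ⟨x, hx, hxy⟩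
      have e1 : x = y := hp.inj x y hx.1 hx.2.le (by rw [hy]; norm_num) hy.le hxy
      have e2 : nrm (val x) < 1 := hx.2
      rw [e1, hy] at e2
      exact lt_irrefl _ e2
  · rw [hkt]
    ext z
    constructor
    · intro hz
      by_contra hc
      have hc1 : z ≠ κ 0 := fun h => hc (Or.inl h)
      have hc2 : z ≠ b4 := fun h => hc (Or.inr h)
      have e1 : z ∈ range κ := by
        rw [k2]
        exact hc2
      obtain ⟨w, rfl⟩ := e1
      have hw : w ≠ 0 := fun h => hc1 (by rw [h])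
      obtain ⟨x, hx⟩ := hv (show shellIn w ≠ 0 from norm_pos_iff.1 (by
        have := (shellIn_mem hw).1
        linarith))
      refine hz ⟨x, ?_, ?_⟩
      · show 1 / 2 < ‖val x‖ ∧ ‖val x‖ < 1
        rw [hx]
        exact shellIn_mem hw
      · show κ (shellOut (val x)) = κ w
        rw [hx, shellOut_shellIn hw]
    · rintro hz ⟨x, hx, hxz⟩
      rcases hz with h | h
      · have e1 : κ (shellOut (val x)) = κ 0 := hxz.trans h
        exact shellOut_ne hx.1 hx.2 (k1.emb.injective e1)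
      · have e1 : κ (shellOut (val x)) = b4 := hxz.trans h
        have e2 : κ (shellOut (val x)) ∈ range κ := ⟨_, rfl⟩
        rw [k2] at e2
        exact e2 e1

/-- straightening near the fibre -/
theorem straight_fibre (horient : SpecOrient) (hSP : SmoothPoincare) {X M : Mfd4}
    (hc : CompactSpace X) (ht : T2Space X) {p : Punctured → X} (hp : Shell p) (F : M ≃ₜ X)
    (hF : SmoothOver F (fibreSet p)) : ∃ D, Straightens F (fibreSet p) D := by
  have hc4 : CompactSpace Sphere4.carrier := compact_sphere4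
  have ht4 : T2Space Sphere4.carrier := inferInstanceAs (T2Space (sphere (0 : E5) 1))
  obtain ⟨a, k, ha, hks, hkt, hkl⟩ := exists_modelF hp
  obtain ⟨N, f, hf, hN⟩ := replace (A := X) (B := Sphere4) k hkl
    (fun W hW hk => nbh_of_compact k W hW hk) (fun W hW hk => nbh_of_compact k.symm W hW hk) F
    (by
      rw [hks]
      exact hF)
  rw [hks, hkt] at hN
  rw [hkt] at hf
  refine hN ?_
  obtain ⟨φ, hφ⟩ := hSP N ⟨f⟩
  obtain ⟨Φ, hΦ⟩ := homeo_of_isDiffeo hφ
  have hΦl : ∀ x, LocalDiffeoAt Φ x := fun x => by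
    have h1 : (Φ : N → Sphere4) = φ := funext hΦ
    rw [h1]
    exact hφ.2 x
  have hfs : ∀ z ∈ ({a, (show Sphere4.carrier from b4)} : Set Sphere4),
      LocalDiffeoAt (M := Sphere4) (X := Sphere4) (f.symm.trans Φ) z := by
    intro z hz
    have h1 : LocalDiffeoAt f.symm z := by
      have := ld_symm' f (hf (f.symm z) (by rwa [f.apply_symm_apply]))
      rwa [f.apply_symm_apply] at this
    exact LocalDiffeoAt.comp' (M := Sphere4) (N := N) (P := Sphere4) (f := f.symm) (hΦl _) h1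
  obtain ⟨χ, c1, c2, c3⟩ := sphere_two horient (Ψ := f.symm.trans Φ) ha
    (hfs _ (Or.inr rfl)) (hfs _ (Or.inl rfl))
  obtain ⟨W₁, w1, w2, w3⟩ := _root_.eventually_nhds_iff.1 c2
  obtain ⟨W₂, v1, v2, v3⟩ := _root_.eventually_nhds_iff.1 c3
  refine ⟨fun x => χ (Φ x), ⟨χ.bijective.comp Φ.bijective, fun x =>
    LocalDiffeoAt.comp' (M := N) (N := Sphere4) (P := Sphere4) (f := Φ) (c1 _) (hΦl x)⟩,
    f ⁻¹' (W₁ ∪ W₂), (w2.union v2).preimage f.continuous, ?_, ?_⟩
  · rintro x (hx | hx)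
    · right
      show f x ∈ W₂
      rw [hx]
      exact v3
    · left
      show f x ∈ W₁
      rw [hx]
      exact w3
  · rintro x (hx | hx)
    · have e1 := w1 _ hx
      show χ (Φ x) = f x
      have e2 : χ (Φ (f.symm (f x))) = f x := e1
      rwa [f.symm_apply_apply] at e2
    · have e1 := v1 _ hx
      show χ (Φ x) = f x
      have e2 : χ (Φ (f.symm (f x))) = f x := e1
      rwa [f.symm_apply_apply] at e2

end Pool.Agent.HopfCov.Smooth
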