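import Pool.Agent.HopfRem.Defs

/-!
# The integral of the Jacobian determinant depends only on the boundary values
-/

set_option autoImplicit false
set_option linter.unusedSectionVars false

open scoped ContDiff Topology NNReal
open Set Filter Metric MeasureTheory

namespace Pool.Agent.HopfSPC

open Pool.Agent.HopfCov

/-- the determinant of `A` is a fixed linear combination of determinants of `v i + A` -/
theorem det_interp (v : Fin 5 → ℝ) (hv : Function.Injective v) :
    ∃ w : Fin 5 → ℝ, ∀ A : E4 →L[ℝ] E4,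
      A.det = ∑ i, w i * (v i • ContinuousLinearMap.id ℝ E4 + A).det := by
  refine ⟨fun i => (Lagrange.basis Finset.univ v i).eval 0, fun A => ?_⟩
  have h1 : ∀ t : ℝ, (LinearMap.charpoly (-(A : E4 →ₗ[ℝ] E4))).eval t =
      (t • ContinuousLinearMap.id ℝ E4 + A).det := by
    intro t
    rw [LinearMap.eval_charpoly]
    show _ = LinearMap.det _
    congr 1
    ext x : 1
    simp [Module.algebraMap_end_apply]
  have h2 : (LinearMap.charpoly (-(A : E4 →ₗ[ℝ] E4))).degree < (Finset.univ : Finset (Fin 5)).card := by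
    refine lt_of_le_of_lt Polynomial.degree_le_natDegree ?_
    rw [LinearMap.charpoly_natDegree, finrank_euclideanSpace_fin, Finset.card_univ, Fintype.card_fin]
    exact_mod_cast (by norm_num : (4 : ℕ) < 5)
  have h3 := Lagrange.eq_interpolate (s := Finset.univ) (v := v) (hv.injOn) h2
  have h4 := congrArg (Polynomial.eval 0) h3
  rw [h1, Lagrange.interpolate_apply, Polynomial.eval_finsetSum] at h4
  have h5 : (0 : ℝ) • ContinuousLinearMap.id ℝ E4 + A = A := by
    ext x : 1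
    simp
  rw [h5] at h4
  rw [h4]
  refine Finset.sum_congr rfl fun i _ => ?_
  rw [Polynomial.eval_mul, Polynomial.eval_C, h1]
  ring

theorem det_ne_zero_of_lt {A : E4 →L[ℝ] E4} {t : ℝ} (h : ‖A‖ < t) :
    (t • ContinuousLinearMap.id ℝ E4 + A).det ≠ 0 := by
  intro h0
  have h1 : LinearMap.det ((t • ContinuousLinearMap.id ℝ E4 + A : E4 →L[ℝ] E4) : E4 →ₗ[ℝ] E4) = 0 :=
    h0
  have h2 := LinearMap.bot_lt_ker_of_det_eq_zero h1
  obtain ⟨x, hx, hx0⟩ := (Submodule.ne_bot_iff _).1 h2.ne'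
  have h3 : t • x + A x = 0 := by
    have := LinearMap.mem_ker.1 hx
    simpa using this
  have h4 : ‖t • x‖ = ‖A x‖ := by
    rw [eq_neg_of_add_eq_zero_left h3, norm_neg]
  rw [norm_smul, Real.norm_eq_abs, abs_of_pos (lt_of_le_of_lt (norm_nonneg _) h)] at h4
  have h5 := A.le_opNorm x
  have h6 : 0 < ‖x‖ := norm_pos_iff.2 hx0
  nlinarith

theorem det_pos_of_lt {A : E4 →L[ℝ] E4} {t : ℝ} (h : ‖A‖ < t) :
    0 < (t • ContinuousLinearMap.id ℝ E4 + A).det := by
  by_contra hcon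
  have ht : 0 < t := lt_of_le_of_lt (norm_nonneg _) h
  have hc : ContinuousOn (fun s : ℝ => (t • ContinuousLinearMap.id ℝ E4 + s • A).det) (Icc 0 1) := by
    have h1 : Continuous fun s : ℝ => (t • ContinuousLinearMap.id ℝ E4 + s • A) := by fun_prop
    exact (ContinuousLinearMap.continuous_det.comp h1).continuousOn
  have h0 : 0 < (t • ContinuousLinearMap.id ℝ E4 + (0 : ℝ) • A).det := by
    have h5 : t • ContinuousLinearMap.id ℝ E4 + (0 : ℝ) • A = t • ContinuousLinearMap.id ℝ E4 := by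
      ext x : 1
      simp
    rw [h5]
    show 0 < LinearMap.det _
    have : ((t • ContinuousLinearMap.id ℝ E4 : E4 →L[ℝ] E4) : E4 →ₗ[ℝ] E4) =
      t • (LinearMap.id : E4 →ₗ[ℝ] E4) := rfl
    rw [this, LinearMap.det_smul, LinearMap.det_id, mul_one]
    positivity
  have h2 := intermediate_value_Icc' (zero_le_one' ℝ) hc
  rw [one_smul] at h2
  obtain ⟨s, hs, hs0⟩ := h2 ⟨not_lt.1 hcon, h0.le⟩
  refine det_ne_zero_of_lt (A := s • A) (t := t) ?_ hs0
  rw [norm_smul, Real.norm_eq_abs, abs_of_nonneg hs.1]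
  refine lt_of_le_of_lt ?_ h
  have := norm_nonneg A
  nlinarith [hs.2]

/-- a Lipschitz map plus a large multiple of the identity is bijective -/
theorem bij_add {g : E4 → E4} {K t : ℝ} (hK : ∀ x y, ‖g x - g y‖ ≤ K * ‖x - y‖) (hK0 : 0 ≤ K)
    (ht : K < t) : Function.Bijective fun x => t • x + g x := by
  have ht0 : 0 < t := lt_of_le_of_lt hK0 ht
  have hinj : Function.Injective fun x => t • x + g x := by
    intro x y hxy
    have h1 : t • (x - y) = -(g x - g y) := by
      have h2 : t • x + g x = t • y + g y := hxy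
      rw [smul_sub, neg_sub, sub_eq_sub_iff_add_eq_add, h2, add_comm]
    have h3 : t * ‖x - y‖ ≤ K * ‖x - y‖ := by
      have h4 := congrArg norm h1
      rw [norm_smul, norm_neg, Real.norm_eq_abs, abs_of_pos ht0] at h4
      rw [h4]
      exact hK x y
    by_contra hne
    have h5 : 0 < ‖x - y‖ := norm_pos_iff.2 (sub_ne_zero.2 hne)
    nlinarith
  refine ⟨hinj, ?_⟩
  have hc : 0 ≤ K / t := div_nonneg hK0 ht0.le
  obtain ⟨c, hcc⟩ : ∃ c : ℝ≥0, (c : ℝ) = K / t := ⟨⟨K / t, hc⟩, rfl⟩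
  have happ : ApproximatesLinearOn (fun x => x + t⁻¹ • g x)
      ((ContinuousLinearEquiv.refl ℝ E4 : E4 ≃L[ℝ] E4) : E4 →L[ℝ] E4) univ c := by
    intro x _ y _
    have h1 : (x + t⁻¹ • g x) - (y + t⁻¹ • g y) -
        ((ContinuousLinearEquiv.refl ℝ E4 : E4 ≃L[ℝ] E4) : E4 →L[ℝ] E4) (x - y) =
        t⁻¹ • (g x - g y) := by
      show (x + t⁻¹ • g x) - (y + t⁻¹ • g y) - (x - y) = _
      rw [smul_sub]
      abel
    rw [h1, norm_smul, norm_inv, Real.norm_eq_abs, abs_of_pos ht0]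
    rw [hcc]
    have := hK x y
    rw [div_mul_eq_mul_div, inv_mul_eq_div]
    gcongr
  have hs := happ.surjective (Or.inr (by
    have hN : ‖(((ContinuousLinearEquiv.refl ℝ E4 : E4 ≃L[ℝ] E4).symm : E4 ≃L[ℝ] E4) :
        E4 →L[ℝ] E4)‖₊ ≤ 1 := ContinuousLinearMap.norm_id_le
    have hN0 : 0 < ‖(((ContinuousLinearEquiv.refl ℝ E4 : E4 ≃L[ℝ] E4).symm : E4 ≃L[ℝ] E4) :
        E4 →L[ℝ] E4)‖₊ := by
      rw [pos_iff_ne_zero, Ne, nnnorm_eq_zero]
      intro h0
      have h1 := congrArg (fun f : E4 →L[ℝ] E4 => f (EuclideanSpace.single 0 1)) h0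
      have h2 : (EuclideanSpace.single 0 1 : E4) = 0 := h1
      simp at h2
    have h1 : (1 : ℝ≥0) ≤ (‖(((ContinuousLinearEquiv.refl ℝ E4 : E4 ≃L[ℝ] E4).symm :
        E4 ≃L[ℝ] E4) : E4 →L[ℝ] E4)‖₊)⁻¹ := (one_le_inv₀ hN0).2 hN
    refine lt_of_lt_of_le ?_ h1
    rw [← NNReal.coe_lt_coe, hcc, NNReal.coe_one]
    rwa [div_lt_one ht0]))
  intro y
  obtain ⟨x, hx⟩ := hs (t⁻¹ • y)
  refine ⟨x, ?_⟩
  have h1 : x + t⁻¹ • g x = t⁻¹ • y := hx
  have h2 := congrArg (fun z => t • z) h1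
  simp only [smul_add, smul_smul, mul_inv_cancel₀ ht0.ne', one_smul] at h2
  exact h2

theorem lip_of_fderiv {g : E4 → E4} (hg : ContDiff ℝ 1 g) {K : ℝ} (b : ∀ x, ‖fderiv ℝ g x‖ ≤ K)
    (x y : E4) : ‖g x - g y‖ ≤ K * ‖x - y‖ :=
  Convex.norm_image_sub_le_of_norm_hasFDerivWithin_le (s := univ) (f' := fderiv ℝ g)
    (fun z _ => ((hg.differentiable (by simp)) z).hasFDerivAt.hasFDerivWithinAt) (fun z _ => b z)
    convex_univ (mem_univ y) (mem_univ x)

/-- **The integral of the Jacobian determinant depends only on the boundary values.** -/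
theorem null_lagrangian {g₀ g₁ : E4 → E4} {R K : ℝ} (hg₀ : ContDiff ℝ 1 g₀) (hg₁ : ContDiff ℝ 1 g₁)
    (b₀ : ∀ x, ‖fderiv ℝ g₀ x‖ ≤ K) (b₁ : ∀ x, ‖fderiv ℝ g₁ x‖ ≤ K)
    (he : ∀ x, R < ‖x‖ → g₀ x = g₁ x) :
    ∫ x in closedBall (0 : E4) R, (fderiv ℝ g₀ x).det =
      ∫ x in closedBall (0 : E4) R, (fderiv ℝ g₁ x).det := by
  have hK0 : 0 ≤ K := (norm_nonneg _).trans (b₀ 0)
  obtain ⟨w, hw⟩ := det_interp (fun i => K + 1 + (i : ℕ)) (by
    intro i j hij
    have : ((i : ℕ) : ℝ) = ((j : ℕ) : ℝ) := by linarith [show K + 1 + ((i : ℕ) : ℝ) =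
      K + 1 + ((j : ℕ) : ℝ) from hij]
    exact Fin.ext (by exact_mod_cast this))
  have hcont : ∀ (t : ℝ) (g : E4 → E4), ContDiff ℝ 1 g →
      Continuous fun x => (t • ContinuousLinearMap.id ℝ E4 + fderiv ℝ g x).det := by
    intro t g hg
    have h1 : Continuous fun x => (t • ContinuousLinearMap.id ℝ E4 + fderiv ℝ g x) :=
      continuous_const.add (hg.continuous_fderiv (by simp))
    exact ContinuousLinearMap.continuous_det.comp h1
  -- the volume of the image
  have hvol : ∀ (t : ℝ) (g : E4 → E4), ContDiff ℝ 1 g → (∀ x, ‖fderiv ℝ g x‖ ≤ K) → K < t →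
      ∫ x in closedBall (0 : E4) R, (t • ContinuousLinearMap.id ℝ E4 + fderiv ℝ g x).det =
        ∫ _ in (fun x => t • x + g x) '' closedBall (0 : E4) R, (1 : ℝ) := by
    intro t g hg hb ht
    have hbij := bij_add (lip_of_fderiv hg hb) hK0 ht
    rw [integral_image_eq_integral_abs_det_fderiv_smul volume
      (f' := fun x => t • ContinuousLinearMap.id ℝ E4 + fderiv ℝ g x) isClosed_closedBall.measurableSet
      (fun x _ => by
        have h1 : HasFDerivAt (fun x : E4 => t • x) (t • ContinuousLinearMap.id ℝ E4) x :=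
          (hasFDerivAt_id x).const_smul t
        exact (h1.add ((hg.differentiable (by simp)) x).hasFDerivAt).hasFDerivWithinAt)
      hbij.1.injOn]
    refine integral_congr_ae (Eventually.of_forall fun x => ?_)
    show _ = |(t • ContinuousLinearMap.id ℝ E4 + fderiv ℝ g x).det| • (1 : ℝ)
    rw [abs_of_pos (det_pos_of_lt (lt_of_le_of_lt (hb x) ht)), smul_eq_mul, mul_one]
  have himg : ∀ t : ℝ, K < t → (fun x => t • x + g₀ x) '' closedBall (0 : E4) R =
      (fun x => t • x + g₁ x) '' closedBall (0 : E4) R := by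
    intro t ht
    have h0 := bij_add (lip_of_fderiv hg₀ b₀) hK0 ht
    have h1 := bij_add (lip_of_fderiv hg₁ b₁) hK0 ht
    have h2 : (fun x => t • x + g₀ x) '' (closedBall (0 : E4) R)ᶜ =
        (fun x => t • x + g₁ x) '' (closedBall (0 : E4) R)ᶜ := by
      refine image_congr fun x hx => ?_
      have hx' : R < ‖x‖ := by
        rw [mem_compl_iff, mem_closedBall_zero_iff, not_le] at hx
        exact hx
      show t • x + g₀ x = t • x + g₁ x
      rw [he x hx']
    rw [image_compl_eq h0, image_compl_eq h1] at h2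
    exact compl_injective h2
  have hint : ∀ (t : ℝ) (g : E4 → E4), ContDiff ℝ 1 g →
      IntegrableOn (fun x => (t • ContinuousLinearMap.id ℝ E4 + fderiv ℝ g x).det)
        (closedBall (0 : E4) R) := fun t g hg =>
    (hcont t g hg).continuousOn.integrableOn_compact (isCompact_closedBall _ _)
  have key : ∀ g : E4 → E4, ContDiff ℝ 1 g →
      ∫ x in closedBall (0 : E4) R, (fderiv ℝ g x).det =
        ∑ i : Fin 5, w i * ∫ x in closedBall (0 : E4) R,
          ((K + 1 + (i : ℕ) : ℝ) • ContinuousLinearMap.id ℝ E4 + fderiv ℝ g x).det := by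
    intro g hg
    calc _ = ∫ x in closedBall (0 : E4) R, ∑ i : Fin 5, w i *
          ((K + 1 + (i : ℕ) : ℝ) • ContinuousLinearMap.id ℝ E4 + fderiv ℝ g x).det :=
          integral_congr_ae (Eventually.of_forall fun x => hw _)
      _ = _ := by
        rw [integral_finsetSum _ fun i _ => (hint _ g hg).const_mul (w i)]
        refine Finset.sum_congr rfl fun i _ => ?_
        rw [integral_const_mul]
  rw [key g₀ hg₀, key g₁ hg₁]
  refine Finset.sum_congr rfl fun i _ => ?_
  have hi : K < K + 1 + ((i : ℕ) : ℝ) := by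
    have : (0 : ℝ) ≤ ((i : ℕ) : ℝ) := Nat.cast_nonneg _
    linarith
  rw [hvol _ g₀ hg₀ b₀ hi, hvol _ g₁ hg₁ b₁ hi, himg _ hi]

end Pool.Agent.HopfSPC
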