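import Pool.Agent.HopfSPC.Desc

/-!
# The quotient of a smooth manifold by a free involution
-/

set_option autoImplicit false
set_option linter.unusedSectionVars false

open scoped ContDiff Topology Manifold
open Set Filter Metric

namespace Pool.Agent.HopfCov.Smooth

variable {M N P V X : Mfd4}

/-- if `g ∘ f` is a local diffeomorphism at `x` and `g` is one at `f x`, then `f` is one at `x` -/
theorem LocalDiffeoAt.of_comp_left {f : M → N} {g : N → P} {x : M} (hc : ContinuousAt f x)
    (hg : LocalDiffeoAt g (f x)) {F : M → P} (hF : LocalDiffeoAt F x)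
    (h : ∀ᶠ y in 𝓝 x, g (f y) = F y) : LocalDiffeoAt f x := by
  obtain ⟨Φ, hx, he⟩ := hg
  have h0 : F x = Φ (f x) := by rw [← h.self_of_nhds, he hx]
  have h1 : LocalDiffeoAt (M := P) (X := N) Φ.symm (F x) := by
    refine ⟨Φ.symm, ?_, fun _ _ => rfl⟩
    rw [h0]
    exact Φ.map_source' hx
  have h2 : LocalDiffeoAt (M := M) (X := N) (fun z => Φ.symm (F z)) x :=
    LocalDiffeoAt.comp' (M := M) (N := P) (P := N) h1 hF
  refine h2.congr' ?_
  filter_upwards [h, hc.eventually (Φ.open_source.mem_nhds hx)] with y hy hy'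
  rw [← hy, he hy']
  exact (Φ.left_inv' hy').symm

private theorem quot_aux {V : Mfd4} {Y : Type} [TopologicalSpace Y] (A : V → V)
    (hA : ∀ x, LocalDiffeoAt A x) (π : V → Y) (hs : Function.Surjective π) (hc : Continuous π)
    (ho : IsOpenMap π) (hπ : ∀ x y, π x = π y ↔ y = x ∨ y = A x)
    (hfree : ∀ x, ∃ U : Set V, IsOpen U ∧ x ∈ U ∧ ∀ y ∈ U, A y ∉ U) :
    ∃ (P : Mfd4) (q : V → P), Function.Surjective q ∧ LocalDiffeo q ∧
      ∀ x y, q x = q y ↔ y = x ∨ y = A x := by
  classical
  by_cases hV : Nonempty V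
  swap
  · rw [not_nonempty_iff] at hV
    exact ⟨V, id, Function.surjective_id, fun x => (hV.false x).elim, fun x => (hV.false x).elim⟩
  choose U hUo hxU hU using hfree
  have hinj : ∀ i, InjOn π (U i) := by
    intro i x hx y hy hxy
    rcases (hπ x y).1 hxy with h | h
    · exact h.symm
    · rw [h] at hy
      exact absurd hy (hU i x hx)
  let e : ∀ i : V, OpenPartialHomeomorph Y V := fun i =>
    (OpenPartialHomeomorph.ofContinuousOpen ((hinj i).toPartialEquiv π (U i)) hc.continuousOn ho
      (hUo i)).symm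
  have hes : ∀ i, (e i).source = π '' U i := fun i => rfl
  have hee : ∀ i x, x ∈ U i → e i (π x) = x := fun i x hx =>
    ((hinj i).toPartialEquiv π (U i)).left_inv hx
  have hesy : ∀ i x, (e i).symm x = π x := fun i x => rfl
  obtain ⟨P, h, hP⟩ := glue (Y := Y) (fun _ : V => V) e
    (by
      intro y
      obtain ⟨x, rfl⟩ := hs y
      exact ⟨x, x, hxU x, rfl⟩)
    (by
      rintro i j y ⟨u, hu, rfl⟩ ⟨u', hu', huu⟩
      rw [hee i u hu]
      rcases (hπ u u').1 huu.symm with h | h
      · rw [h] at hu'
        refine (ld_id (M := V) u).congr' ?_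
        filter_upwards [(hUo j).mem_nhds hu'] with z hz
        rw [hesy, hee j z hz]
      · rw [h] at hu'
        refine (hA u).congr' ?_
        filter_upwards [(hA u).cont.eventually ((hUo j).mem_nhds hu')] with z hz
        have h1 : π z = π (A z) := (hπ z (A z)).2 (Or.inr rfl)
        rw [hesy, h1, hee j _ hz])
  refine ⟨P, fun x => h.symm (π x), ?_, ?_, ?_⟩
  · exact h.symm.surjective.comp hs
  · intro x
    have h1 := hP x (h.symm (π x)) (by
      rw [h.apply_symm_apply]
      exact ⟨x, hxU x, rfl⟩)
    refine LocalDiffeoAt.of_comp_left (M := V) (N := P) (P := V)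
      (h.symm.continuous.comp hc).continuousAt h1 (ld_id (M := V) x) ?_
    filter_upwards [(hUo x).mem_nhds (hxU x)] with y hy
    rw [h.apply_symm_apply, hee x y hy]
  · intro x y
    rw [← hπ x y]
    exact h.symm.injective.eq_iff

/-- the quotient of a manifold by a free involution -/
theorem exists_quot {V : Mfd4} (A : V → V) (hA : ∀ x, LocalDiffeoAt A x)
    (hAA : ∀ x, A (A x) = x) (hfree : ∀ x, ∃ U : Set V, IsOpen U ∧ x ∈ U ∧ ∀ y ∈ U, A y ∉ U) :
    ∃ (P : Mfd4) (q : V → P), Function.Surjective q ∧ LocalDiffeo q ∧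
      ∀ x y, q x = q y ↔ y = x ∨ y = A x := by
  let s : Setoid V :=
    { r := fun x y => y = x ∨ y = A x
      iseqv := by
        refine ⟨fun x => Or.inl rfl, ?_, ?_⟩
        · rintro x y (h | h)
          · exact Or.inl h.symm
          · right
            rw [h, hAA]
        · rintro x y z (h | h) (h' | h')
          · exact Or.inl (h'.trans h)
          · right
            rw [h', h]
          · right
            rw [h', h]
          · left
            rw [h', h, hAA] }
  have hAc : Continuous A := continuous_iff_continuousAt.2 fun x => (hA x).cont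
  refine quot_aux (Y := Quotient s) A hA (Quotient.mk s) Quotient.mk_surjective
    continuous_quotient_mk' ?_ (fun x y => Quotient.eq) hfree
  intro W hW
  show IsOpen (Quotient.mk s ⁻¹' (Quotient.mk s '' W))
  have h1 : Quotient.mk s ⁻¹' (Quotient.mk s '' W) = W ∪ A ⁻¹' W := by
    ext x
    constructor
    · rintro ⟨y, hy, hyx⟩
      rcases (Quotient.eq.1 hyx : x = y ∨ x = A y) with h | h
      · left
        rwa [h]
      · right
        show A x ∈ W
        rwa [h, hAA]
    · rintro (h | h)
      · exact ⟨x, h, rfl⟩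
      · exact ⟨A x, h, (Quotient.sound (Or.inr rfl : s.r x (A x))).symm⟩
  rw [h1]
  exact hW.union (hW.preimage hAc)

end Pool.Agent.HopfCov.Smooth
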