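import Pool.Agent.HopfSPC.Statement2
import Pool.Agent.HopfSPC.Quot

/-!
# The real projective space of dimension four
-/

set_option autoImplicit false
set_option linter.unusedSectionVars false

open scoped ContDiff Topology Manifold
open Set Filter Metric

namespace Pool.Agent.HopfCov.Smooth

theorem antipode_antipode (x : Sphere4) : antipode (antipode x) = x :=
  neg_neg (show sphere (0 : E5) 1 from x)

theorem coord_antipode (x : Sphere4) (i : Fin 5) : coord (antipode x) i = - coord x i := by
  show ((-(show sphere (0 : E5) 1 from x) : sphere (0 : E5) 1) : E5) i = _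
  rw [coe_neg_sphere]
  rfl

theorem contMDiff_antipode : ContMDiff (𝓡 4) (𝓡 4) ∞ antipode := by
  haveI : Fact (Module.finrank ℝ E5 = 4 + 1) := ⟨finrank_euclideanSpace_fin⟩
  exact contMDiff_neg_sphere (E := E5) (n := 4)

theorem ld_antipode (x : Sphere4) : LocalDiffeoAt antipode x := by
  let d : Diffeomorph (𝓡 4) (𝓡 4) Sphere4 Sphere4 ∞ :=
    { toFun := antipode
      invFun := antipode
      left_inv := antipode_antipode
      right_inv := antipode_antipode
      contMDiff_toFun := contMDiff_antipode
      contMDiff_invFun := contMDiff_antipode }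
  exact ⟨d.toPartialDiffeomorph, mem_univ _, fun _ _ => rfl⟩

theorem continuous_coord (i : Fin 5) : Continuous fun x : Sphere4 => coord x i := by
  have h1 : Continuous fun x : sphere (0 : E5) 1 => (x : E5) i := by fun_prop
  exact h1

theorem ext_coord {x y : Sphere4} (h : ∀ i, coord x i = coord y i) : x = y := by
  have h1 : (show sphere (0 : E5) 1 from x) = (show sphere (0 : E5) 1 from y) := by
    apply Subtype.ext
    ext i
    exact h i
  exact h1

theorem sum_coord (x : Sphere4) : ∑ i, coord x i ^ 2 = 1 := by
  have h1 : ‖((show sphere (0 : E5) 1 from x) : E5)‖ = 1 := norm_eq_of_mem_sphere _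
  have h2 := EuclideanSpace.norm_sq_eq ((show sphere (0 : E5) 1 from x) : E5)
  rw [h1] at h2
  have h3 : ∑ i, coord x i ^ 2 = ∑ i, ‖((show sphere (0 : E5) 1 from x) : E5) i‖ ^ 2 := by
    refine Finset.sum_congr rfl fun i _ => ?_
    rw [Real.norm_eq_abs, sq_abs]
    rfl
  rw [h3, ← h2]
  norm_num

theorem exists_projective : ∃ (P : Mfd4) (q : Sphere4 → P), Projective P q := by
  obtain ⟨P, q, h1, h2, h3⟩ := exists_quot antipode ld_antipode antipode_antipode (by
    intro x
    refine ⟨{y | 0 < ∑ i, coord x i * coord y i}, ?_, ?_, ?_⟩
    · refine isOpen_lt continuous_const ?_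
      exact continuous_finsetSum _ fun i _ => continuous_const.mul (continuous_coord i)
    · show 0 < ∑ i, coord x i * coord x i
      have := sum_coord x
      simp only [sq] at this
      rw [this]
      exact one_pos
    · intro y hy hy'
      have h1 : ∑ i, coord x i * coord (antipode y) i = - ∑ i, coord x i * coord y i := by
        rw [← Finset.sum_neg_distrib]
        refine Finset.sum_congr rfl fun i _ => ?_
        rw [coord_antipode]
        ring
      have h2 : 0 < ∑ i, coord x i * coord (antipode y) i := hy'
      have h3 : 0 < ∑ i, coord x i * coord y i := hy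
      linarith)
  exact ⟨P, q, h1, h2, h3⟩

theorem compact_sphere4 : CompactSpace Sphere4 :=
  inferInstanceAs (CompactSpace (sphere (0 : E5) 1))

theorem Projective.compact {P : Mfd4} {q : Sphere4 → P} (h : Projective P q) : CompactSpace P := by
  have := compact_sphere4
  have hc : Continuous q := continuous_iff_continuousAt.2 fun x =>
    (show LocalDiffeoAt q x from h.loc x).cont
  exact ⟨by
    rw [← image_univ_of_surjective h.surj]
    exact isCompact_univ.image hc⟩

theorem Projective.t2 {P : Mfd4} {q : Sphere4 → P} (h : Projective P q) : T2Space P := by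
  have hc : Continuous q := continuous_iff_continuousAt.2 fun x =>
    (show LocalDiffeoAt q x from h.loc x).cont
  have ho : IsOpenMap q := fun U hU => isOpen_image hU fun x _ => h.loc x
  -- the products of the coordinates
  obtain ⟨F, hF⟩ : ∃ F : P → Fin 5 → Fin 5 → ℝ,
      ∀ x, F (q x) = fun i j => coord x i * coord x j := by
    refine ⟨fun z i j => coord (h.surj z).choose i * coord (h.surj z).choose j, fun x => ?_⟩
    funext i j
    rcases (h.fib _ _).1 (h.surj (q x)).choose_spec with h1 | h1
    · show coord (h.surj (q x)).choose i * coord (h.surj (q x)).choose j = _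
      rw [← h1]
    · show coord (h.surj (q x)).choose i * coord (h.surj (q x)).choose j = _
      have h2 : (h.surj (q x)).choose = antipode x :=
        (antipode_antipode _).symm.trans (congrArg antipode h1.symm)
      rw [h2, coord_antipode, coord_antipode]
      ring
  have hq : Topology.IsQuotientMap q := ho.isQuotientMap hc h.surj
  have hFc : Continuous F := by
    rw [hq.continuous_iff]
    have h1 : F ∘ q = fun x => fun i j => coord x i * coord x j := funext hF
    rw [h1]
    exact continuous_pi fun i => continuous_pi fun j =>
      (continuous_coord i).mul (continuous_coord j)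
  refine T2Space.of_injective_continuous (f := F) ?_ hFc
  intro z w hzw
  obtain ⟨x, rfl⟩ := h.surj z
  obtain ⟨y, rfl⟩ := h.surj w
  rw [hF, hF] at hzw
  have h1 : ∀ i j, coord x i * coord x j = coord y i * coord y j := fun i j =>
    congrFun (congrFun hzw i) j
  rw [h.fib]
  -- some coordinate is not zero
  obtain ⟨i, hi⟩ : ∃ i, coord x i ≠ 0 := by
    by_contra hcon
    push Not at hcon
    have := sum_coord x
    simp [hcon] at this
  have h2 : coord x i ^ 2 = coord y i ^ 2 := by rw [sq, sq]; exact h1 i i
  rcases sq_eq_sq_iff_eq_or_eq_neg.1 h2 with h3 | h3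
  · left
    refine ext_coord fun j => ?_
    have := h1 i j
    rw [h3] at this
    exact (mul_left_cancel₀ (h3 ▸ hi) this).symm
  · right
    refine ext_coord fun j => ?_
    rw [coord_antipode]
    have := h1 i j
    have hy : coord y i ≠ 0 := fun h => hi (by rw [h3, h, neg_zero])
    rw [h3] at this
    have h4 : coord y i * coord y j = coord y i * (- coord x j) := by linarith
    exact mul_left_cancel₀ hy h4

end Pool.Agent.HopfCov.Smooth
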