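import Pool.Agent.HopfSPC.Assemble
import Pool.Agent.HopfSPC.Boost
import Pool.Agent.HopfEnd.Statement
import Pool.Agent.HopfRem.Outer
import Pool.Agent.HopfRem.ParRG
import Pool.Agent.HopfRem.InBall
import Pool.Agent.HopfRem.Final
import Pool.Agent.HopfTw.Statement

/-!
# Uniqueness for the twisted product implies that punctured homotopy spheres are standard
-/

set_option autoImplicit false

open scoped ContDiff Topology Manifold
open Set Filter Metric Topology

namespace Pool.Agent.HopfSPC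

open Pool.Agent.HopfCov Pool.Agent.HopfCov.Smooth

/-- the inverse stereographic projection from `(1, 0, 0, 0, 0)` -/
theorem exists_ster : ∃ κ : E4 → Sphere4, IsOpenEmbedding κ ∧ range κ = {b4}ᶜ ∧
    (∀ w, LocalDiffeoAt (M := Euclid) (X := Sphere4) κ w) ∧
    ∀ w, coord (κ w) 0 = (‖w‖ ^ 2 - 4) / (‖w‖ ^ 2 + 4) := by
  have hF := Fact.mk (@finrank_euclideanSpace_fin ℝ _ (4 + 1))
  let s : OpenPartialHomeomorph SS E4 := stereographic' 4 b4
  have hs1 : s.source = {b4}ᶜ := stereographic'_source b4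
  have hs2 : s.target = univ := stereographic'_target b4
  have hmem : s ∈ IsManifold.maximalAtlas (𝓡 4) ∞ SS :=
    IsManifold.subset_maximalAtlas ⟨b4, rfl⟩
  have hemb : IsOpenEmbedding s.symm := by
    have h1 : s.symm.source = univ := hs2
    exact s.symm.isOpenEmbedding h1
  have hran : range s.symm = {b4}ᶜ := by
    rw [← hs1, ← image_univ]
    have h1 := s.symm.image_source_eq_target
    rw [s.symm_source, hs2, s.symm_target] at h1
    exact h1
  refine ⟨s.symm, hemb, hran, fun w => ?_, fun w => ?_⟩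
  · refine ⟨{ toPartialEquiv := s.symm.toPartialEquiv
              open_source := s.symm.open_source
              open_target := s.symm.open_target
              contMDiffOn_toFun := contMDiffOn_symm_of_mem_maximalAtlas hmem
              contMDiffOn_invFun := contMDiffOn_of_mem_maximalAtlas hmem }, ?_, fun _ _ => rfl⟩
    show w ∈ s.target
    rw [hs2]
    exact mem_univ _
  · show ((s.symm w : SS) : E5) 0 = _
    have h1 := stereographic'_symm_apply (n := 4) b4 w
    rw [show ((s.symm w : SS) : E5) = _ from h1]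
    have hb : (b4 : E5) 0 = 1 := by simp [b4]
    set U : (ℝ ∙ (b4 : E5))ᗮ ≃ₗᵢ[ℝ] E4 :=
      (OrthonormalBasis.fromOrthogonalSpanSingleton 4 (ne_zero_of_mem_unit_sphere b4)).repr with hU
    have h2 : ‖((U.symm w : (ℝ ∙ (b4 : E5))ᗮ) : E5)‖ = ‖w‖ := by
      exact U.symm.norm_map w
    have h3 : ((U.symm w : (ℝ ∙ (b4 : E5))ᗮ) : E5) 0 = 0 := by
      have h4 := Submodule.mem_orthogonal_singleton_iff_inner_right.1 (U.symm w).2
      have h5 : (inner ℝ (b4 : E5) ((U.symm w : (ℝ ∙ (b4 : E5))ᗮ) : E5) : ℝ) =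
          ((U.symm w : (ℝ ∙ (b4 : E5))ᗮ) : E5) 0 := by
        show inner ℝ (EuclideanSpace.single 0 (1 : ℝ)) _ = _
        rw [EuclideanSpace.inner_single_left]
        simp
      rw [← h5]
      exact h4
    simp only [h2, PiLp.add_apply, PiLp.smul_apply, smul_eq_mul, h3, hb, mul_zero, zero_add,
      mul_one]
    rw [div_eq_inv_mul]

/-- the complement of a point of a homotopy sphere is parametrised by `ℝ⁴`, smoothly near
infinity -/
theorem exists_nu {S : Mfd4} (f : S ≃ₜ Sphere4)
    (hf : SmoothOver f {x | -(1 / 2) ≤ coord x 0}) :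
    ∃ (ν : E4 → S.carrier) (y : S.carrier), IsOpenEmbedding ν ∧ range ν = {y}ᶜ ∧
      ∀ w : E4, 2 ≤ ‖w‖ → LDA ν w := by
  obtain ⟨κ, k1, k2, k3, k4⟩ := exists_ster
  refine ⟨fun w => f.symm (κ w), f.symm b4, f.symm.isOpenEmbedding.comp k1, ?_, fun w hw => ?_⟩
  · ext z
    constructor
    · rintro ⟨w, rfl⟩ hz
      have h1 : κ w ∈ range κ := ⟨w, rfl⟩
      rw [k2] at h1
      exact h1 (f.symm.injective hz)
    · intro hz
      have h1 : f z ∈ range κ := by
        rw [k2]
        intro h2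
        apply hz
        show z = f.symm b4
        rw [← show f z = b4 from h2]
        exact (f.symm_apply_apply z).symm
      obtain ⟨w, hw⟩ := h1
      exact ⟨w, by
        show f.symm (κ w) = z
        rw [hw]
        exact f.symm_apply_apply z⟩
  · have h1 : LocalDiffeoAt f (f.symm (κ w)) := by
      refine hf _ ?_
      show -(1 / 2) ≤ coord (f (f.symm (κ w))) 0
      rw [show f (f.symm (κ w)) = κ w from f.apply_symm_apply _]
      have h5 := k4 w
      rw [h5, le_div_iff₀ (by positivity)]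
      nlinarith
    have h2 := ld_symm' f h1
    rw [show f (f.symm (κ w)) = κ w from f.apply_symm_apply _] at h2
    exact LDA.comp' (X := E4) (Y := Sphere4.carrier) (Z := S.carrier) (f := κ) (g := f.symm) h2 (k3 w)

/-- the core of the argument: a homeomorphic punctured homotopy sphere which embeds in `ℝ⁴` is
`ℝ⁴` -/
theorem core {S : Mfd4} {ν : E4 → S.carrier} {y : S.carrier} (hν : IsOpenEmbedding ν)
    (hr : range ν = {y}ᶜ) (hl : ∀ w : E4, 2 ≤ ‖w‖ → LDA ν w) {e : E4 → E4}
    (he : IsOpenEmbedding e) (her : ∀ w : E4, 2 < ‖w‖ → RG e w) {Q : E4 → S.carrier}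
    (hQ : ∀ w : E4, ‖w‖ < 3 → LDA Q (e w) ∧ Q (e w) = ν w) :
    PointComplement Euclid S := by
  obtain ⟨G, hG1, hG2⟩ := outer hdim4 he (isCompact_closedBall (0 : E4) 2)
    (isCompact_closedBall (0 : E4) 3) (fun x hx => her x (by
      rw [mem_closedBall_zero_iff, not_le] at hx
      exact hx))
  refine ⟨fun u => ν (G.symm u), y, fun u => ?_, hν.injective.comp G.symm.injective, ?_⟩
  · have key : ∀ w : E4, LDA (fun u => ν (G.symm u)) (G w) := by
      intro w
      by_cases hw : ‖w‖ < 3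
      · have h1 : LDA Q (G w) := by
          rw [hG1 w (mem_closedBall_zero_iff.2 hw.le)]
          exact (hQ w hw).1
        refine LDA.congr' h1 ?_
        have h2 : {u : E4 | ‖G.symm u‖ < 3} ∈ 𝓝 (G w) := by
          refine (isOpen_lt (continuous_norm.comp G.symm.continuous) continuous_const).mem_nhds ?_
          show ‖G.symm (G w)‖ < 3
          rw [G.symm_apply_apply]
          exact hw
        filter_upwards [h2] with u hu
        rw [← (hQ _ hu).2, ← hG1 _ (mem_closedBall_zero_iff.2 hu.le), G.apply_symm_apply]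
      · have hw' : 2 < ‖w‖ := by linarith [not_lt.1 hw]
        have h1 : LDA G w := by
          rw [ldAt_iff]
          have h3 : {z : E4 | 2 < ‖z‖} ∈ 𝓝 w :=
            (isOpen_lt continuous_const continuous_norm).mem_nhds hw'
          filter_upwards [h3] with z hz
          exact hG2 z (by
            rw [mem_closedBall_zero_iff]
            exact not_le.2 hz)
        refine LDA.comp' (f := G.symm) (g := ν) ?_ (LDA.symm' h1)
        rw [G.symm_apply_apply]
        exact hl w hw'.le
    obtain ⟨w, rfl⟩ : ∃ w : E4, G w = u := G.surjective u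
    exact key w
  · have h1 : range (fun u => ν (G.symm u)) = range ν := G.symm.surjective.range_comp ν
    rw [← hr]
    exact h1

/-- the pieces of the sum -/
private noncomputable def smE {X S : Mfd4} (k : OpenPartialHomeomorph X.carrier S.carrier)
    (W₀ : Set X.carrier) (hW : IsOpen W₀) :
    ∀ i : Bool, OpenPartialHomeomorph X.carrier (cond i X S : Mfd4)
  | true => OpenPartialHomeomorph.ofSet W₀ hW
  | false => k

/-- the sum of `X` and a homotopy sphere `S`: a closed ball of `X` is replaced -/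
theorem exists_sum {X S : Mfd4} [T2Space X.carrier] {P : E4 → X.carrier} (hP : Par P)
    {ν : E4 → S.carrier} (hν : IsOpenEmbedding ν) (hl : ∀ w : E4, 2 ≤ ‖w‖ → LDA ν w) :
    ∃ (M : Mfd4) (h : M.carrier ≃ₜ X.carrier),
      (∀ x, h x ∉ P '' closedBall 0 2 → LDA h x) ∧
      ∃ R : M.carrier → S.carrier, ∀ (x : M.carrier) (w : E4), h x = P w → LDA R x ∧ R x = ν w := by
  let a : OpenPartialHomeomorph E4 X.carrier := hP.emb.toOpenPartialHomeomorph P
  let b : OpenPartialHomeomorph E4 S.carrier := hν.toOpenPartialHomeomorph ν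
  let k : OpenPartialHomeomorph X.carrier S.carrier := a.symm.trans b
  have ha : ∀ w, a.symm (P w) = w := fun w => a.left_inv (mem_univ w)
  have hk : ∀ w, k (P w) = ν w := fun w => by
    show ν (a.symm (P w)) = ν w
    rw [ha]
  have hks : ∀ x, x ∈ k.source ↔ x ∈ range P := by
    intro x
    constructor
    · rintro ⟨h1, -⟩
      have h2 : x ∈ a.target := h1
      exact ⟨a.symm x, a.right_inv h2⟩
    · rintro ⟨w, rfl⟩
      exact ⟨a.map_source (mem_univ w), mem_univ _⟩
  have hkl : ∀ w : E4, 2 ≤ ‖w‖ → LDA k (P w) := by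
    intro w hw
    refine LDA.of_comp_right (f := P) (g := k) (hP.loc w) ?_
    exact (hl w hw).congr' (Eventually.of_forall fun z => (hk z).symm)
  have hcl : IsClosed (P '' closedBall 0 2) :=
    ((isCompact_closedBall (0 : E4) 2).image hP.emb.continuous).isClosed
  obtain ⟨M, h, hM⟩ := glue (Y := X.carrier) (fun i : Bool => (cond i X S : Mfd4))
    (smE k (P '' closedBall 0 2)ᶜ hcl.isOpen_compl) (fun x => by
      by_cases hx : x ∈ P '' closedBall 0 2
      · refine ⟨false, ?_⟩
        obtain ⟨w, -, rfl⟩ := hx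
        exact (hks _).2 ⟨w, rfl⟩
      · exact ⟨true, hx⟩) (by
      rintro (_ | _) (_ | _) x h1 h2
      · -- false false
        have h1' : x ∈ k.source := h1
        show LDA (fun z => k (k.symm z)) (k x)
        refine (LDA_id (k x)).congr' ?_
        filter_upwards [k.open_target.mem_nhds (k.map_source h1')] with z hz
        exact (k.right_inv hz).symm
      · -- false true
        have h1' : x ∈ k.source := h1
        obtain ⟨w, rfl⟩ := (hks x).1 h1'
        have hw : 2 ≤ ‖w‖ := by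
          by_contra hcon
          exact h2 ⟨w, mem_closedBall_zero_iff.2 (not_le.1 hcon).le, rfl⟩
        show LDA (fun z => k.symm z) (k (P w))
        exact lda_symm' k h1' (hkl w hw)
      · -- true false
        have h2' : x ∈ k.source := h2
        obtain ⟨w, rfl⟩ := (hks x).1 h2'
        have hw : 2 ≤ ‖w‖ := by
          by_contra hcon
          exact h1 ⟨w, mem_closedBall_zero_iff.2 (not_le.1 hcon).le, rfl⟩
        exact hkl w hw
      · exact LDA_id x)
  refine ⟨M, h, fun x hx => hM true x hx, fun x => k (h x), fun x w hxw => ⟨?_, ?_⟩⟩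
  · exact hM false x ((hks _).2 ⟨w, hxw.symm⟩)
  · show k (h x) = ν w
    rw [hxw, hk]

/-- if the sum is covered by `ℝ⁴ ∖ 0` then the punctured homotopy sphere is `ℝ⁴` -/
theorem punct_of_cover {X S M : Mfd4} {P : E4 → X.carrier} (hP : Par P) {ν : E4 → S.carrier}
    {y : S.carrier} (hν : IsOpenEmbedding ν) (hr : range ν = {y}ᶜ)
    (hl : ∀ w : E4, 2 ≤ ‖w‖ → LDA ν w) (h : M.carrier ≃ₜ X.carrier)
    (hh : ∀ x, h x ∉ P '' closedBall 0 2 → LDA h x) {R : M.carrier → S.carrier}
    (hR : ∀ (x : M.carrier) (w : E4), h x = P w → LDA R x ∧ R x = ν w)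
    {q : V4 → M.carrier} (hq : IsCoveringMap q) (hql : ∀ x, LDA q x)
    (hqs : Function.Surjective q) : PointComplement Euclid S := by
  set f : E4 → M.carrier := fun w => h.symm (P w) with hf
  have hfe : IsOpenEmbedding f := h.symm.isOpenEmbedding.comp hP.emb
  have hsc : SimplyConnectedSpace E4 := inferInstance
  obtain ⟨v₀, hv₀⟩ := hqs (f 0)
  obtain ⟨e₀, ⟨he0, he⟩, -⟩ := hq.existsUnique_continuousMap_lifts
    (⟨f, hfe.continuous⟩ : C(E4, M.carrier)) 0 v₀ hv₀
  have hef : ∀ y, q (e₀ y) = f y := fun y => congrFun he y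
  let e₁ : E4 → V4 := fun y => e₀ y
  have he₁ : Continuous e₁ := e₀.continuous
  have hemb : IsOpenEmbedding e₁ := by
    refine IsLocalHomeomorph.isOpenEmbedding_of_comp hq.isLocalHomeomorph ?_ he₁
    have h0 : (fun y => q (e₁ y)) = f := funext hef
    have h1 : IsOpenEmbedding (fun y => q (e₁ y)) := by
      rw [h0]
      exact hfe
    exact h1
  have hee : IsOpenEmbedding (fun y => ((e₁ y : V4) : E4)) :=
    V4.isOpen.isOpenEmbedding_subtypeVal.comp hemb
  have hfL : ∀ w : E4, 2 < ‖w‖ → LDA f w := by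
    intro w hw
    have h1 : LDA h (h.symm (P w)) := by
      refine hh _ ?_
      rw [h.apply_symm_apply]
      rintro ⟨z, hz, hzw⟩
      rw [hP.emb.injective hzw, mem_closedBall_zero_iff] at hz
      linarith
    have h2 := LDA.symm' h1
    rw [h.apply_symm_apply] at h2
    exact LDA.comp' (f := P) (g := h.symm) h2 (hP.loc w)
  have heL : ∀ w : E4, 2 < ‖w‖ → LDA (fun y => ((e₁ y : V4) : E4)) w := by
    intro w hw
    have h1 : LDA e₁ w := LDA.of_comp (f := e₁) (g := q) he₁.continuousAt (hql (e₁ w))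
      ((hfL w hw).congr' (Eventually.of_forall fun z => (hef z).symm))
    exact LDA.comp' (f := e₁) (g := fun z : V4 => (z : E4)) (LDA_val (e₁ w)) h1
  -- the left inverse of the inclusion
  obtain ⟨c, hc⟩ : ∃ c : E4 → V4, ∀ v : V4, c (v : E4) = v := by
    classical
    obtain ⟨v0⟩ : Nonempty V4 := inferInstance
    have h1 : ∀ u : E4, u ≠ 0 → u ∈ V4 := fun u hu => hu
    refine ⟨fun u => if hu : u = 0 then v0 else ⟨u, h1 u hu⟩, fun v => ?_⟩
    have h2 : (v : E4) ≠ 0 := V4_ne v
    show (if hu : (v : E4) = 0 then v0 else ⟨(v : E4), h1 _ hu⟩) = v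
    rw [dif_neg h2]
  refine core hν hr hl hee (fun w hw => ?_) (Q := fun u => R (q (c u))) (fun w _ => ⟨?_, ?_⟩)
  · exact (ldAt_iff.1 (heL w hw)).self_of_nhds
  · have h1 : h (q (e₁ w)) = P w := by
      rw [show q (e₁ w) = f w from hef w]
      exact h.apply_symm_apply _
    have h2 : LDA R (q (e₁ w)) := (hR _ w h1).1
    refine LDA.of_comp_right (f := fun z : V4 => (z : E4)) (g := fun u => R (q (c u)))
      (LDA_val (e₁ w)) ?_
    refine (LDA.comp' (f := q) (g := R) h2 (hql (e₁ w))).congr' (Eventually.of_forall fun v => ?_)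
    show R (q v) = R (q (c (v : E4)))
    rw [hc]
  · show R (q (c ((e₁ w : V4) : E4))) = ν w
    rw [hc]
    have h1 : h (q (e₁ w)) = P w := by
      rw [show q (e₁ w) = f w from hef w]
      exact h.apply_symm_apply _
    exact (hR _ w h1).2

theorem norm_halfReflection (x : E4) : ‖halfReflection x‖ = 2⁻¹ * ‖x‖ := by
  have h1 : ‖halfReflection x‖ ^ 2 = (2⁻¹ * ‖x‖) ^ 2 := by
    rw [mul_pow, norm_sq4, norm_sq4]
    simp only [halfReflection, Fin.isValue, Matrix.cons_val_zero, Matrix.cons_val_one,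
      Matrix.cons_val]
    ring
  exact (pow_left_inj₀ (norm_nonneg _) (by positivity) two_ne_zero).1 h1

/-- the powers of `rho` act on the norm and on the third coordinate as those of `x ↦ x / 2` -/
theorem rho_pow (n : ℤ) (x : E4) : ‖((show E4 ≃ₜ E4 from rho) ^ n) x‖ = (2 : ℝ) ^ (-n) * ‖x‖ ∧
    (((show E4 ≃ₜ E4 from rho) ^ n) x) 2 = (2 : ℝ) ^ (-n) * x 2 := by
  obtain ⟨H, hH⟩ : ∃ H : E4 ≃ₜ E4, H = (show E4 ≃ₜ E4 from rho) := ⟨_, rfl⟩
  rw [← hH]
  have h1 : ∀ x, ‖H x‖ = 2⁻¹ * ‖x‖ := fun x => by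
    rw [hH]
    exact norm_halfReflection x
  have h2 : ∀ x, (H x) 2 = 2⁻¹ * x 2 := fun x => by
    rw [hH]
    show (halfReflection x) 2 = _
    simp [halfReflection]
    ring
  have h3 : ∀ x, ‖(H⁻¹ : E4 ≃ₜ E4) x‖ = 2 * ‖x‖ := fun x => by
    have := h1 ((H⁻¹ : E4 ≃ₜ E4) x)
    rw [apply_inv_self'] at this
    linarith
  have h4 : ∀ x, ((H⁻¹ : E4 ≃ₜ E4) x) 2 = 2 * x 2 := fun x => by
    have := h2 ((H⁻¹ : E4 ≃ₜ E4) x)
    rw [apply_inv_self'] at this
    linarith
  clear hH
  induction n using Int.induction_on generalizing x with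
  | zero => simp
  | succ n ih =>
    obtain ⟨i1, i2⟩ := ih (H x)
    have e : (H ^ ((n : ℤ) + 1)) x = (H ^ (n : ℤ)) (H x) := by rw [zpow_add_one]; rfl
    rw [e, i1, i2, h1, h2, neg_add, zpow_add₀ two_ne_zero]
    constructor <;> norm_num <;> ring
  | pred n ih =>
    obtain ⟨i1, i2⟩ := ih ((H⁻¹ : E4 ≃ₜ E4) x)
    have e : (H ^ (-(n : ℤ) - 1)) x = (H ^ (-(n : ℤ))) ((H⁻¹ : E4 ≃ₜ E4) x) := by
      rw [zpow_sub_one]; rfl
    rw [e, i1, i2, h3, h4, neg_sub, sub_neg_eq_add, neg_neg, zpow_add₀ two_ne_zero]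
    constructor <;> norm_num <;> ring

/-- **Uniqueness for the twisted product implies that every punctured homotopy 4-sphere is
`ℝ⁴`.** -/
theorem euclid_of_section (hU : ∀ M : Mfd4, NearSection M → TwistedProduct M) {S : Mfd4}
    (hS : Nonempty (S ≃ₜ Sphere4)) : PointComplement Euclid S := by
  obtain ⟨f0⟩ := hS
  obtain ⟨f, hf⟩ := exists_smoothOver_cap f0
  obtain ⟨ν, y, n1, n2, n3⟩ := exists_nu f hf
  obtain ⟨X, hX⟩ := exists_twisted
  obtain ⟨p, hp⟩ := twistedProduct_iff.2 hX
  have ht : T2Space X.carrier := hp.hausdorff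
  have hq : IsCoveringMap (p : V4 → X.carrier) := (orbit_eq.1 hp).cov
  -- a ball in the covering
  obtain ⟨a, ha0, ha1, ha2⟩ : ∃ a : E4, a 2 = 3 / 4 ∧ ‖a‖ = 3 / 4 ∧ a ≠ 0 := by
    refine ⟨EuclideanSpace.single 2 (3 / 4), by simp, ?_, ?_⟩
    · rw [PiLp.norm_single]
      norm_num
    · intro h
      have h1 := congrArg (fun v : E4 => v 2) h
      norm_num at h1
  obtain ⟨s, s1, s2, -, s4⟩ := exists_shrink a (show (0 : ℝ) < 1 / 16 by norm_num)
    (show (1 / 16 : ℝ) < 1 / 8 by norm_num)
  have hs : ∀ w, ‖s w - a‖ < 1 / 8 := by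
    intro w
    have h1 : s w ∈ ball a (1 / 8) := by
      rw [← s4]
      exact mem_range_self w
    rwa [mem_ball_iff_norm] at h1
  have hsn : ∀ w, 5 / 8 < ‖s w‖ ∧ ‖s w‖ < 7 / 8 := by
    intro w
    have h1 := hs w
    have h2 := norm_sub_norm_le (s w) a
    have h3 := norm_sub_norm_le a (s w)
    rw [norm_sub_rev] at h3
    rw [ha1] at h2 h3
    constructor <;> linarith
  have hs2 : ∀ w, 0 < s w 2 := by
    intro w
    have h1 := hs w
    have h2 : |(s w - a) 2| ≤ ‖s w - a‖ := by
      have := PiLp.norm_apply_le (s w - a) 2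
      rwa [Real.norm_eq_abs] at this
    rw [PiLp.sub_apply, ha0] at h2
    have h3 := (abs_le.1 (h2.trans h1.le)).1
    linarith
  have hs0 : ∀ w, s w ≠ 0 := fun w h => by
    have h1 := (hsn w).1
    rw [h, norm_zero] at h1
    linarith
  let c : E4 → V4 := fun w => ⟨s w, hs0 w⟩
  have hcs : IsOpenEmbedding c :=
    IsOpenEmbedding.of_comp c V4.isOpen.isOpenEmbedding_subtypeVal s1
  have hcl : ∀ w, LDA c w := by
    intro w
    refine LDA.of_comp (f := c) (g := fun z : V4 => (z : E4)) hcs.continuous.continuousAt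
      (LDA_val (c w)) ?_
    show LDA s w
    rw [ldAt_iff]
    exact Eventually.of_forall s2
  have hfib : ∀ x z : V4, p x = p z ↔ ∃ n : ℤ, (z : E4) = ((show E4 ≃ₜ E4 from rho) ^ n) x :=
    (orbit_eq.1 hp).fib
  have hinj : Function.Injective fun w => p (c w) := by
    intro w z hwz
    obtain ⟨n, hn⟩ := (hfib (c w) (c z)).1 hwz
    have hn' : s z = ((show E4 ≃ₜ E4 from rho) ^ n) (s w) := hn
    have h1 := (rho_pow n (s w)).1
    rw [← hn'] at h1
    have h2 := hsn w
    have h3 := hsn z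
    have h4 : n = 0 := by
      rcases lt_trichotomy n 0 with h | h | h
      · exfalso
        have h5 : (2 : ℝ) ^ (1 : ℤ) ≤ (2 : ℝ) ^ (-n) :=
          zpow_le_zpow_right₀ one_le_two (by omega)
        rw [zpow_one] at h5
        nlinarith [h2.1, h3.2]
      · exact h
      · exfalso
        have h5 : (2 : ℝ) ^ (-n) ≤ (2 : ℝ) ^ (-1 : ℤ) :=
          zpow_le_zpow_right₀ one_le_two (by omega)
        rw [zpow_neg_one] at h5
        nlinarith [h2.2, h3.1]
    rw [h4, zpow_zero] at hn'
    exact s1.injective hn'.symm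
  have hP : Par fun w => p (c w) := by
    refine ⟨?_, fun w => ?_⟩
    · have h1 : IsLocalHomeomorph fun w => p (c w) :=
        hq.isLocalHomeomorph.comp hcs.isLocalHomeomorph
      exact h1.isOpenEmbedding_of_injective hinj
    · exact LDA.comp' (f := c) (g := (p : V4 → X.carrier)) (hp.loc (c w)) (hcl w)
  obtain ⟨M, h, hh, R, hR⟩ := exists_sum (S := S) hP n1 n3
  have hM : NearSection M := by
    refine ⟨X, p, h, hp, fun x z hxz hz => hh x ?_⟩
    rintro ⟨w, -, hw⟩
    obtain ⟨n, hn⟩ := (hfib (c w) z).1 (by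
      show p (c w) = p z
      rw [← hxz]
      exact hw)
    have h1 := (rho_pow n (s w)).2
    have h2 : val z = ((show E4 ≃ₜ E4 from rho) ^ n) (s w) := hn
    rw [← h2] at h1
    have h3 : (val z) 2 = 0 := hz.2.2.1
    rw [h3] at h1
    have h4 := hs2 w
    have h5 : (0 : ℝ) < (2 : ℝ) ^ (-n) := by positivity
    have h6 := mul_pos h5 h4
    linarith
  obtain ⟨q, hq'⟩ := hU M hM
  exact punct_of_cover hP n1 n2 n3 h hh hR (orbit_eq.1 hq').cov (fun x => hq'.loc x) hq'.surj

end Pool.Agent.HopfSPC
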