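import Pool.Agent.HopfSPC.Corr

/-!
# Surgery on the circle
-/

set_option autoImplicit false

open scoped ContDiff Topology Manifold
open Set Filter Metric

namespace Pool.Agent.HopfSPC

open Pool.Agent.HopfCov Pool.Agent.HopfCov.Smooth Pool.Agent.HopfFin

/-- the pair `(S, f)` is obtained from `(M, h)` by surgery on the circle `h⁻¹ (S¹ × e₀)` -/
structure Surgery {M S : Mfd4} (h : M.carrier ≃ₜ CS3) (f : S ≃ₜ Sphere4) : Prop where
  circle : ∀ x, (h x).2 = b3 → IsLocalDiffeomorphAt (𝓡 4) ((𝓡 1).prod (𝓡 3)) ∞ h x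
  sphere : SmoothOver f Sphere2
  compl : ∀ x, (h x).2 ≠ b3 →
    IsLocalDiffeomorphAt (𝓡 4) (𝓡 4) ∞ (fun z => f.symm (toS (h z))) x

variable {X : Mfd4} {τ : V4 ≃ₜ V4} {p : V4 → X.carrier} {i : X.carrier ≃ₜ CS3}

theorem surg_over (hX : Mod X τ p i) {M : Mfd4} (h : M.carrier ≃ₜ CS3) :
    SmoothOver (M := M) (N := X) (h.trans i.symm) (circ i) ↔
      ∀ x, (h x).2 = b3 → IsLocalDiffeomorphAt (𝓡 4) ((𝓡 1).prod (𝓡 3)) ∞ h x := by
  have e7 : ∀ z, IsLocalDiffeomorphAt ((𝓡 1).prod (𝓡 3)) (𝓡 4) ∞ i.symm z := by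
    intro z
    have h3 := lda_symm i (hX.loc (i.symm z))
    rwa [i.apply_symm_apply] at h3
  have hmem : ∀ x, (h.trans i.symm) x ∈ circ i ↔ (h x).2 = b3 := by
    intro x
    show (i (i.symm (h x))).2 = b3 ↔ _
    rw [i.apply_symm_apply]
  constructor
  · intro h1 x hx
    have h2 : IsLocalDiffeomorphAt (𝓡 4) (𝓡 4) ∞ (h.trans i.symm) x := h1 x ((hmem x).2 hx)
    have h3 := h2.comp (K := (𝓡 1).prod (𝓡 3)) (hg := hX.loc ((h.trans i.symm) x))
    refine lda_congr h3 (Eventually.of_forall fun z => ?_)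
    exact (i.apply_symm_apply (h z)).symm
  · intro h1 x hx
    exact (h1 x ((hmem x).1 hx)).comp (K := 𝓡 4) (hg := e7 (h x))

theorem surgery_iff (hX : Mod X τ p i) {M S : Mfd4} (h : M.carrier ≃ₜ CS3) (f : S ≃ₜ Sphere4) :
    Surgery h f ↔ SmoothOver (M := M) (N := X) (h.trans i.symm) (circ i) ∧ SmoothOver f Sphere2 ∧
      Compl (kX i) (M := M) (N := S) (h.trans i.symm) f := by
  have key : Compl (kX i) (M := M) (N := S) (h.trans i.symm) f ↔
      ∀ x, (h x).2 ≠ b3 → IsLocalDiffeomorphAt (𝓡 4) (𝓡 4) ∞ (fun z => f.symm (toS (h z))) x := by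
    have e1 : (fun z : M.carrier => f.symm (kX i ((h.trans i.symm) z))) =
        fun z => f.symm (toS (h z)) := by
      funext z
      show f.symm (toS (i (i.symm (h z)))) = f.symm (toS (h z))
      rw [i.apply_symm_apply]
    have e2 : ∀ x, (h.trans i.symm) x ∈ (kX i).source ↔ (h x).2 ≠ b3 := by
      intro x
      have h1 : (h.trans i.symm) x ∈ (kX i).source ↔ (i (i.symm (h x))).2 ≠ b3 :=
        ⟨fun hx => hx.2, fun hx => ⟨mem_univ _, hx⟩⟩
      rw [h1, i.apply_symm_apply]
    unfold Smooth.Compl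
    constructor
    · intro h1 x hx
      have h2 := h1 x ((e2 x).2 hx)
      rw [e1] at h2
      exact h2
    · intro h1 x hx
      rw [e1]
      exact h1 x ((e2 x).1 hx)
  rw [key, surg_over hX]
  exact ⟨fun ⟨a, b, c⟩ => ⟨a, b, c⟩, fun ⟨a, b, c⟩ => ⟨a, b, c⟩⟩

/-- every manifold of the class is obtained from a homotopy sphere, every homotopy sphere occurs,
and the manifold is standard if and only if the homotopy sphere is (rel the 2-sphere) -/
theorem surgery_thm :
    (∀ (M : Mfd4) (h : M.carrier ≃ₜ CS3),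
      (∀ x, (h x).2 = b3 → IsLocalDiffeomorphAt (𝓡 4) ((𝓡 1).prod (𝓡 3)) ∞ h x) →
        ∃ (S : Mfd4) (f : S ≃ₜ Sphere4), Surgery h f) ∧
    (∀ (S : Mfd4) (f : S ≃ₜ Sphere4), SmoothOver f Sphere2 →
      ∃ (M : Mfd4) (h : M.carrier ≃ₜ CS3), Surgery h f) ∧
    ∀ (M S : Mfd4) (h : M.carrier ≃ₜ CS3) (f : S ≃ₜ Sphere4), Surgery h f →
      (DiffeoS1S3 M ↔ ∃ g, Straightens f Sphere2 g) := by
  obtain ⟨X, τ, p, i, a1, a2, a3, a4, a5⟩ := exists_X
  have hX : Mod X τ p i := ⟨a1, a2, a3, a4, a5⟩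
  have hc : CompactSpace X.carrier := hX.compact
  have ht : T2Space X.carrier := hX.t2
  have hc4 : CompactSpace Sphere4.carrier := inferInstanceAs (CompactSpace (sphere (0 : E5) 1))
  have ht4 : T2Space Sphere4.carrier := inferInstanceAs (T2Space (sphere (0 : E5) 1))
  have hks : ∀ x ∈ (kX i).symm.source, LocalDiffeoAt (M := Sphere4) (X := X) (kX i).symm x := by
    intro x hx
    have h2 : (kX i).symm x ∈ (kX i).source := (kX i).map_target hx
    have h3 := lda_symm' (kX i) h2 (kX_lda hX _ h2)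
    rwa [(kX i).right_inv hx] at h3
  refine ⟨fun M h hh => ?_, fun S f hf => ?_, fun M S h f hs => ?_⟩
  · obtain ⟨S, f, hf, hcm⟩ := exists_compl (A := X) (B := Sphere4) (kX i) (kX_lda hX)
      (fun W hW hk => nhds_compl (kX i) W hW hk) (M := M) (h.trans i.symm)
      (by
        rw [kX_source]
        exact (surg_over hX h).2 hh)
    rw [kX_target] at hf
    exact ⟨S, f, (surgery_iff hX h f).2 ⟨(surg_over hX h).2 hh, hf, hcm⟩⟩
  · obtain ⟨M, h, hh, hcm⟩ := exists_compl (A := Sphere4) (B := X) (kX i).symm hks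
      (fun W hW hk => nhds_compl (kX i).symm W hW hk) f
      (by
        show SmoothOver f (kX i).targetᶜ
        rw [kX_target]
        exact hf)
    have hh' : SmoothOver h (circ i) := by
      rw [← kX_source]
      exact hh
    have e1 : (h.trans i).trans i.symm = h := by
      ext1 x
      exact i.symm_apply_apply (h x)
    refine ⟨M, h.trans i, (surgery_iff hX (h.trans i) f).2 ⟨?_, hf, ?_⟩⟩
    · rw [e1]
      exact hh'
    · rw [e1]
      exact Compl.symm hcm
  · obtain ⟨s1, s2, s3⟩ := (surgery_iff hX h f).1 hs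
    constructor
    · intro hM
      obtain ⟨D, hD⟩ := fix_std hX hM (h.trans i.symm) s1
      have h1 := (Compl.symm s3).straight hks
        (fun W hW hk => nhds_compl (kX i) W hW hk) (by
          show SmoothOver f (kX i).targetᶜ
          rw [kX_target]
          exact s2) ⟨D, by
          show Straightens (h.trans i.symm) (kX i).sourceᶜ D
          rw [kX_source]
          exact hD⟩
      obtain ⟨g, hg⟩ := h1
      refine ⟨g, ?_⟩
      rw [← kX_target i]
      exact hg
    · rintro ⟨g, hg⟩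
      obtain ⟨D, hD, -⟩ := s3.straight (kX_lda hX)
        (fun W hW hk => nhds_compl (kX i).symm W hW hk) (by
          rw [kX_source]
          exact s1) ⟨g, by
          rw [kX_target]
          exact hg⟩
      have hDi : IsLocalDiffeomorph (𝓡 4) ((𝓡 1).prod (𝓡 3)) ∞ (fun x : M.carrier => i (D x)) :=
        fun x => (hD.2 x).comp (K := (𝓡 1).prod (𝓡 3)) (hg := hX.loc (D x))
      exact ⟨IsLocalDiffeomorph.diffeomorphOfBijective hDi (i.bijective.comp hD.1)⟩

end Pool.Agent.HopfSPC
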