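import Pool.Agent.HopfSPC.Statement3
import Pool.Agent.HopfSPC.Surg
import Pool.Agent.HopfSPC.Punct
import Pool.Agent.HopfSPC.AssembleT
import Pool.Agent.HopfEnd.Classes

/-!
# The parts of the result
-/

set_option autoImplicit false

open scoped ContDiff Topology Manifold
open Set Filter Metric

namespace Pool.Agent.HopfCov.Smooth

open Pool.Agent.HopfSPC

theorem DiffeoS1S3.homeo {X : Mfd4} (h : DiffeoS1S3 X) : HomeoS1S3 X := by
  obtain ⟨e⟩ := h
  exact ⟨e.toHomeomorph⟩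

theorem DiffeoS1S3.of_diffeo {M X : Mfd4} (h : DiffeoS1S3 X) {D : M → X} (hD : IsDiffeo D) :
    DiffeoS1S3 M := by
  obtain ⟨e⟩ := h
  have hDi : IsLocalDiffeomorph (𝓡 4) model13 ∞ (fun x : M.carrier => e (D x)) :=
    fun x => (hD.2 x).comp (K := model13) (hg := e.isLocalDiffeomorph (D x))
  exact ⟨IsLocalDiffeomorph.diffeomorphOfBijective hDi (e.bijective.comp hD.1)⟩

theorem nearCircle_of_unique (h : UniqueProduct) : UniqueNearCircle := by
  intro M hM
  obtain ⟨X, hX⟩ := exists_S1S3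
  obtain ⟨D, hD⟩ := h M X (HopfEnd.homeoS1S3_of_nearCircle hM) hX.homeo
  exact hX.of_diffeo hD

theorem nearSection_of_unique (h : UniqueTwisted) : UniqueNearSection := by
  intro M hM
  obtain ⟨X, p, F, hp, hF⟩ := id hM
  have hq1 := orbit_eq.1 hp
  rw [rho_eq] at hq1
  have hX : HomeoTwisted X := hq1.homeoTwisted PD_TT
  obtain ⟨D, hD⟩ := h M X (HopfEnd.homeoTwisted_of_nearSection hM) hX
  exact hp.of_diffeo hD

theorem surgery_eq {M S : Mfd4} (h : M ≃ₜ Circle × S3) (f : S ≃ₜ Sphere4) :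
    Smooth.Surgery h f ↔ HopfSPC.Surgery h f :=
  ⟨fun ⟨a, b, c⟩ => ⟨a, b, c⟩, fun ⟨a, b, c⟩ => ⟨a, b, c⟩⟩

end Pool.Agent.HopfCov.Smooth
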