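import Pool.Agent.HopfSPC.Model4
import Pool.Agent.HopfSPC.Punct

/-!
# Isometries of `S⁴`
-/

set_option autoImplicit false

open scoped ContDiff Topology Manifold
open Set Filter Metric Topology

namespace Pool.Agent.HopfCov.Smooth

/-- an isometry of `ℝ⁵` restricts to a diffeomorphism of `S⁴` -/
theorem exists_sphIso (L : E5 ≃ₗᵢ[ℝ] E5) : ∃ T : Sphere4.carrier ≃ₜ Sphere4.carrier,
    (∀ z, LocalDiffeoAt (M := Sphere4) (X := Sphere4) T z) ∧ ∀ z, vec (T z) = L (vec z) := by
  have key : ∀ L : E5 ≃ₗᵢ[ℝ] E5, ∀ z : sphere (0 : E5) 1, L (z : E5) ∈ sphere (0 : E5) 1 := by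
    intro L z
    rw [mem_sphere_zero_iff_norm, L.norm_map]
    exact norm_eq_of_mem_sphere z
  have hc : ∀ L : E5 ≃ₗᵢ[ℝ] E5, Continuous fun z : sphere (0 : E5) 1 =>
      (⟨L (z : E5), key L z⟩ : sphere (0 : E5) 1) := fun L =>
    (L.continuous.comp continuous_subtype_val).subtype_mk _
  let T : sphere (0 : E5) 1 ≃ₜ sphere (0 : E5) 1 :=
    { toFun := fun z => ⟨L (z : E5), key L z⟩
      invFun := fun z => ⟨L.symm (z : E5), key L.symm z⟩
      left_inv := fun z => Subtype.ext (L.symm_apply_apply _)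
      right_inv := fun z => Subtype.ext (L.apply_symm_apply _)
      continuous_toFun := hc L
      continuous_invFun := hc L.symm }
  have hs : ∀ L : E5 ≃ₗᵢ[ℝ] E5, ∀ z : Sphere4, ContMDiffAt (𝓡 4) (𝓡 4) ∞
      (fun z : Sphere4 => (⟨L (vec z), key L z⟩ : Sphere4.carrier)) z := by
    intro L z
    refine contMDiffAt_sphere4 ?_
    exact (L.contDiff.contMDiff.comp contMDiff_val5).contMDiffAt
  refine ⟨T, fun z => ?_, fun z => rfl⟩
  refine ld_of_inverse (g := T.symm) ?_ ?_ ?_ ?_
  · exact Eventually.of_forall fun y => hs L y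
  · exact Eventually.of_forall fun y => hs L.symm y
  · exact Eventually.of_forall fun y => T.symm_apply_apply y
  · exact Eventually.of_forall fun y => T.apply_symm_apply y

end Pool.Agent.HopfCov.Smooth
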