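import Pool.Agent.HopfSPC.SterX

/-!
# A homeomorphism of `S⁴` which is smooth at the two poles agrees there with a diffeomorphism
-/

set_option autoImplicit false
set_option linter.unusedSectionVars false

open scoped ContDiff Topology Manifold
open Set Filter Metric Topology

namespace Pool.Agent.HopfCov.Smooth

open Pool.Agent.HopfCov Pool.Agent.HopfSPC

/-- the orientation lemma -/
def SpecOrient : Prop :=
  ∀ (h : E4 ≃ₜ E4) (R : ℝ), (∀ x, R ≤ ‖x‖ → h x = x) → ∀ x₀, RG h x₀ → LD 1 h x₀

theorem coord_one {z : Sphere4} (h : coord z 0 = 1) : z = (show Sphere4.carrier from b4) := by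
  have h1 := sum_coord z
  rw [Fin.sum_univ_five] at h1
  have hb : ∀ i, coord (show Sphere4.carrier from b4) i = (EuclideanSpace.single 0 (1 : ℝ) : E5) i :=
    fun i => rfl
  refine ext_coord fun i => ?_
  rw [hb]
  have e1 : coord z 1 = 0 := by
    have q : coord z 1 ^ 2 = 0 := by
      have q1 := sq_nonneg (coord z 1)
      have q2 := sq_nonneg (coord z 2)
      have q3 := sq_nonneg (coord z 3)
      have q4 := sq_nonneg (coord z 4)
      rw [h, one_pow] at h1
      linarith
    exact pow_eq_zero_iff two_ne_zero |>.1 q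
  have e2 : coord z 2 = 0 := by
    have q : coord z 2 ^ 2 = 0 := by
      have q1 := sq_nonneg (coord z 1)
      have q2 := sq_nonneg (coord z 2)
      have q3 := sq_nonneg (coord z 3)
      have q4 := sq_nonneg (coord z 4)
      rw [h, one_pow] at h1
      linarith
    exact pow_eq_zero_iff two_ne_zero |>.1 q
  have e3 : coord z 3 = 0 := by
    have q : coord z 3 ^ 2 = 0 := by
      have q1 := sq_nonneg (coord z 1)
      have q2 := sq_nonneg (coord z 2)
      have q3 := sq_nonneg (coord z 3)
      have q4 := sq_nonneg (coord z 4)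
      rw [h, one_pow] at h1
      linarith
    exact pow_eq_zero_iff two_ne_zero |>.1 q
  have e4 : coord z 4 = 0 := by
    have q : coord z 4 ^ 2 = 0 := by
      have q1 := sq_nonneg (coord z 1)
      have q2 := sq_nonneg (coord z 2)
      have q3 := sq_nonneg (coord z 3)
      have q4 := sq_nonneg (coord z 4)
      rw [h, one_pow] at h1
      linarith
    exact pow_eq_zero_iff two_ne_zero |>.1 q
  fin_cases i
  · simpa using h
  · simpa using e1
  · simpa using e2
  · simpa using e3
  · simpa using e4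

theorem sphere_two (horient : SpecOrient) {Ψ : Sphere4.carrier ≃ₜ Sphere4.carrier}
    {a : Sphere4.carrier} (ha : coord a 0 = -1)
    (h1 : LocalDiffeoAt (M := Sphere4) (X := Sphere4) Ψ b4)
    (h2 : LocalDiffeoAt (M := Sphere4) (X := Sphere4) Ψ a) :
    ∃ χ : Sphere4.carrier ≃ₜ Sphere4.carrier,
      (∀ z, LocalDiffeoAt (M := Sphere4) (X := Sphere4) χ z) ∧
      (∀ᶠ z in 𝓝 (show Sphere4.carrier from b4), χ (Ψ z) = z) ∧ ∀ᶠ z in 𝓝 a, χ (Ψ z) = z := by
  have hcpt : CompactSpace Sphere4.carrier := compact_sphere4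
  have ht2 : T2Space Sphere4.carrier := inferInstanceAs (T2Space (sphere (0 : E5) 1))
  obtain ⟨κ, k1, k2, k3, k4⟩ := exists_ster_refl
  obtain ⟨J, j1, j2, j3⟩ := exists_swapPole
  -- rotate the image of `b4` to `b4`
  obtain ⟨T₀, r1, r2⟩ := exists_sphIso
    ((ℝ ∙ (vec (Ψ b4) - (b4 : E5)))ᗮ.reflection)
  have r3 : T₀ (Ψ b4) = b4 := by
    refine vec_inj ?_
    rw [r2, Submodule.reflection_sub]
    · rfl
    · rw [norm_vec]
      exact (norm_eq_of_mem_sphere b4).symm
  obtain ⟨v, hv⟩ := exists_ne (0 : E4)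
  obtain ⟨T, t1, t2, t3⟩ := k4 v
  have hdet : (((ℝ ∙ v)ᗮ.reflection.toContinuousLinearEquiv : E4 →L[ℝ] E4)).det = -1 := by
    have h2 := (ℝ ∙ v)ᗮ.det_reflection
    rw [Submodule.orthogonal_orthogonal, finrank_span_singleton hv, pow_one] at h2
    exact h2
  have hJb : J b4 = a := by
    have e1 : coord (J a) 0 = 1 := by rw [j3, ha, neg_neg]
    have e2 := coord_one e1
    rw [← j2 a, e2]
  have hJa : J a = b4 := by rw [← hJb, j2]
  -- `T` fixes `a`
  have hκ0 : κ 0 = a := by
    have e1 : coord (J (κ 0)) 0 = 1 := by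
      rw [j3, k3]
      norm_num
    have e2 := coord_one e1
    rw [← j2 (κ 0), e2]
    exact hJb
  have hTa : T a = a := by
    rw [← hκ0, t3, map_zero]
  obtain ⟨χ, c1, c2, c3⟩ := straight_two (Y := Sphere4.carrier) (a := a) (b := b4) (κ := κ)
    (κ' := fun w => J (κ w)) (T := (J.trans T).trans J)
    (L := fun x => (ℝ ∙ v)ᗮ.reflection x) (Ψ := Ψ.trans T₀) k1
    ⟨J.isOpenEmbedding.comp k1.emb, fun x => LDA.comp' (j1 (κ x)) (k1.loc x)⟩ k2 (by
      show range (fun w => J (κ w)) = {a}ᶜ
      ext z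
      constructor
      · rintro ⟨w, rfl⟩ hz
        have e1 : κ w ∈ range κ := ⟨w, rfl⟩
        rw [k2] at e1
        exact e1 (by
          show κ w = b4
          rw [← j2 (κ w), show J (κ w) = a from hz, hJa])
      · intro hz
        have e1 : J z ∈ range κ := by
          rw [k2]
          intro e2
          exact hz (by
            show z = a
            rw [← j2 z, show J z = b4 from e2, hJb])
        obtain ⟨w, hw⟩ := e1
        exact ⟨w, by
          show J (κ w) = z
          rw [hw, j2]⟩) (by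
      intro hab
      have e1 : coord a 0 = 1 := by
        rw [hab]
        show (b4 : E5) 0 = 1
        simp [b4]
      rw [ha] at e1
      norm_num at e1)
    (fun z => LDA.comp' (f := fun z => T (J z)) (g := J) (j1 _)
      (LDA.comp' (f := J) (g := T) (t1 _) (j1 z))) (by
      show J (T (J b4)) = b4
      rw [hJb, hTa, hJa]) (by
      intro x
      have e1 : (fun x : E4 => (ℝ ∙ v)ᗮ.reflection x) =
          ((ℝ ∙ v)ᗮ.reflection.toContinuousLinearEquiv : E4 →L[ℝ] E4) := rfl
      rw [e1]
      refine LD_clm _ ?_ x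
      rw [hdet]
      norm_num) (fun w => by
      show J (T (J (J (κ w)))) = J (κ _)
      rw [j2, t3]) horient r3 (LDA.comp' (f := Ψ) (g := T₀) (r1 _) h1)
    (LDA.comp' (f := Ψ) (g := T₀) (r1 _) h2)
  exact ⟨T₀.trans χ, fun z => LDA.comp' (f := T₀) (g := χ) (c1 _) (r1 z), c2, c3⟩

end Pool.Agent.HopfCov.Smooth
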