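import Pool.Agent.HopfFin.Statement

/-!
# The definitions used in the statement

The four-dimensional sphere, the smooth Poincaré conjecture and smooth unknotting of 2-spheres.
-/

set_option autoImplicit false

open scoped ContDiff Topology Manifold
open Set Filter Metric

namespace Pool.Agent.HopfCov.Smooth

/-- `ℝ⁵` -/
abbrev E5 : Type := EuclideanSpace ℝ (Fin 5)

/-- the standard smooth structure of the unit sphere of `ℝ⁵` -/
noncomputable def chartS4 : ChartedSpace (EuclideanSpace ℝ (Fin 4)) (sphere (0 : E5) 1) :=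
  inferInstance

theorem smoothS4 : @IsManifold ℝ _ E4 _ _ E4 _ (𝓡 4) ∞ (sphere (0 : E5) 1) _ chartS4 :=
  inferInstanceAs (IsManifold (𝓡 4) ∞ (sphere (0 : E5) 1))

/-- the sphere `S⁴` with its standard smooth structure -/
noncomputable def Sphere4 : Mfd4 := ⟨sphere (0 : E5) 1, inferInstance, chartS4, smoothS4⟩

/-- the `i`-th coordinate of a point of `S⁴` -/
noncomputable def coord (x : Sphere4) (i : Fin 5) : ℝ := (show sphere (0 : E5) 1 from x).1 i

/-- the standard 2-sphere `x₀ = x₁ = 0` in `S⁴` -/
def Sphere2 : Set Sphere4 := {x | coord x 0 = 0 ∧ coord x 1 = 0}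

/-- the smooth Poincaré conjecture in dimension four -/
def SmoothPoincare : Prop := ∀ M : Mfd4, Nonempty (M ≃ₜ Sphere4) → Diffeomorphic M Sphere4

/-- `g` is a diffeomorphism `M → N` which agrees with `f` at all points near the preimage of `A` -/
def Straightens {M N : Mfd4} (f : M ≃ₜ N) (A : Set N) (g : M → N) : Prop :=
  IsDiffeo g ∧ ∃ W : Set M, IsOpen W ∧ f ⁻¹' A ⊆ W ∧ EqOn g f W

/-- the homeomorphism `f` is a local diffeomorphism at all points over `A` -/
def SmoothOver {M N : Mfd4} (f : M ≃ₜ N) (A : Set N) : Prop := ∀ x, f x ∈ A → LocalDiffeoAt f x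

/-- smooth unknotting: every homeomorphism `f` of `S⁴` which is a local diffeomorphism at the
points of `f⁻¹(S²)` agrees near `f⁻¹(S²)` with a diffeomorphism of `S⁴` -/
def SmoothUnknotting : Prop :=
  ∀ f : Sphere4 ≃ₜ Sphere4, SmoothOver f Sphere2 → ∃ g, Straightens f Sphere2 g

/-- uniqueness of the smooth structure in the class of the smooth manifolds with a homeomorphism to
`S¹ × S³` which is a local diffeomorphism at the points of a circle `S¹ × v` -/
def UniqueNearCircle : Prop := ∀ M : Mfd4, NearCircle M → DiffeoS1S3 M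

end Pool.Agent.HopfCov.Smooth
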