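import Pool.Agent.HopfSPC.Statement2
import Pool.Agent.HopfSPC.Model
import Pool.Agent.HopfEnd.Statement

/-!
# The definitions used in the statement, third part
-/

set_option autoImplicit false

open scoped ContDiff Topology Manifold
open Set Filter Metric

namespace Pool.Agent.HopfCov.Smooth

/-- `S¹ × S³` has a unique smooth structure (first half of the question) -/
def UniqueProduct : Prop := ∀ M N : Mfd4, HomeoS1S3 M → HomeoS1S3 N → Diffeomorphic M N

/-- the twisted product has a unique smooth structure (second half of the question) -/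
def UniqueTwisted : Prop := ∀ M N : Mfd4, HomeoTwisted M → HomeoTwisted N → Diffeomorphic M N

/-- every smooth manifold homeomorphic to `S⁴` is diffeomorphic to `ℝ⁴` after removal of a point -/
def PuncturedStandard : Prop :=
  ∀ S : Mfd4, Nonempty (S ≃ₜ Sphere4) → PointComplement Euclid S

/-- the point `e₀` of `S³` -/
noncomputable def pole : S3 := HopfSPC.b3

/-- The diffeomorphism `S¹ × (S³ ∖ e₀) → S⁴ ∖ S²`, `(z, s) ↦ (r z, s₁ / 2r, s₂ / 2r, s₃ / 2r)` with
`r = √((1 - s₀) / 2)`. -/
noncomputable def exchange (x : Circle × S3) : Sphere4 := HopfSPC.toS x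

/-- The homotopy sphere `S` with the homeomorphism `f : S → S⁴` is obtained from the manifold `M`
with the homeomorphism `h : M → S¹ × S³` by surgery on the circle `h⁻¹ (S¹ × e₀)`: `h` is a
local diffeomorphism over `S¹ × e₀`, `f` is a local diffeomorphism over `S²`, and `f⁻¹ ∘ exchange ∘ h`
is a diffeomorphism of the complements. -/
structure Surgery {M S : Mfd4} (h : M ≃ₜ Circle × S3) (f : S ≃ₜ Sphere4) : Prop where
  circle : ∀ x, (h x).2 = pole → IsLocalDiffeomorphAt (𝓡 4) model13 ∞ h x
  sphere : SmoothOver f Sphere2
  compl : ∀ x, (h x).2 ≠ pole →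
    LocalDiffeoAt (M := M) (X := S) (fun z => f.symm (exchange (h z))) x

end Pool.Agent.HopfCov.Smooth
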