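import Pool.Agent.HopfSPC.Fibre2

/-!
# The definitions used in the statement, fourth part
-/

set_option autoImplicit false

open scoped ContDiff Topology Manifold
open Set Filter Metric

namespace Pool.Agent.HopfCov.Smooth

/-- the homeomorphism `h : M → S¹ × S³` is a local diffeomorphism at all points over `B` -/
def SmoothOver13 {M : Mfd4} (h : M ≃ₜ Circle × S3) (B : Set (Circle × S3)) : Prop :=
  ∀ x, h x ∈ B → IsLocalDiffeomorphAt (𝓡 4) model13 ∞ h x

end Pool.Agent.HopfCov.Smooth
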