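import Pool.Agent.HopfSPC.TwoPoints

/-!
# Two stereographic projections and a reflection
-/

set_option autoImplicit false
set_option linter.unusedSectionVars false

open scoped ContDiff Topology Manifold
open Set Filter Metric Topology

namespace Pool.Agent.HopfCov.Smooth

open Pool.Agent.HopfCov Pool.Agent.HopfSPC

/-- the inverse stereographic projection from `b4` and the reflections of the sphere which
correspond to the reflections of `ℝ⁴` -/
theorem exists_ster_refl : ∃ κ : E4 → Sphere4.carrier, Par κ ∧ range κ = {b4}ᶜ ∧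
    (∀ w, coord (κ w) 0 = (‖w‖ ^ 2 - 4) / (‖w‖ ^ 2 + 4)) ∧
    ∀ n : E4, ∃ T : Sphere4.carrier ≃ₜ Sphere4.carrier,
      (∀ z, LocalDiffeoAt (M := Sphere4) (X := Sphere4) T z) ∧ T b4 = b4 ∧
      ∀ w, T (κ w) = κ ((ℝ ∙ n)ᗮ.reflection w) := by
  have hF := Fact.mk (@finrank_euclideanSpace_fin ℝ _ (4 + 1))
  let s : OpenPartialHomeomorph SS E4 := stereographic' 4 b4
  have hs1 : s.source = {b4}ᶜ := stereographic'_source b4
  have hs2 : s.target = univ := stereographic'_target b4
  have hmem : s ∈ IsManifold.maximalAtlas (𝓡 4) ∞ SS :=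
    IsManifold.subset_maximalAtlas ⟨b4, rfl⟩
  have hemb : IsOpenEmbedding s.symm := by
    have h1 : s.symm.source = univ := hs2
    exact s.symm.isOpenEmbedding h1
  have hran : range s.symm = {b4}ᶜ := by
    rw [← hs1, ← image_univ]
    have h1 := s.symm.image_source_eq_target
    rw [s.symm_source, hs2, s.symm_target] at h1
    exact h1
  set U : (ℝ ∙ (b4 : E5))ᗮ ≃ₗᵢ[ℝ] E4 :=
    (OrthonormalBasis.fromOrthogonalSpanSingleton 4 (ne_zero_of_mem_unit_sphere b4)).repr with hU
  have hn2 : ∀ w : E4, ‖((U.symm w : (ℝ ∙ (b4 : E5))ᗮ) : E5)‖ = ‖w‖ := fun w => U.symm.norm_map w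
  have hform : ∀ w : E4, ((s.symm w : SS) : E5) =
      (‖w‖ ^ 2 + 4)⁻¹ • (4 : ℝ) • ((U.symm w : (ℝ ∙ (b4 : E5))ᗮ) : E5) +
        (‖w‖ ^ 2 + 4)⁻¹ • (‖w‖ ^ 2 - 4) • (b4 : E5) := by
    intro w
    have h1 := stereographic'_symm_apply (n := 4) b4 w
    rw [show ((s.symm w : SS) : E5) = _ from h1]
    simp only [← hU, hn2]
  have horth : ∀ w : E4, inner ℝ (b4 : E5) ((U.symm w : (ℝ ∙ (b4 : E5))ᗮ) : E5) = 0 := fun w =>
    Submodule.mem_orthogonal_singleton_iff_inner_right.1 (U.symm w).2
  refine ⟨s.symm, ⟨hemb, fun w => ?_⟩, hran, fun w => ?_, fun n => ?_⟩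
  · refine ⟨{ toPartialEquiv := s.symm.toPartialEquiv
              open_source := s.symm.open_source
              open_target := s.symm.open_target
              contMDiffOn_toFun := contMDiffOn_symm_of_mem_maximalAtlas hmem
              contMDiffOn_invFun := contMDiffOn_of_mem_maximalAtlas hmem }, ?_, fun _ _ => rfl⟩
    show w ∈ s.target
    rw [hs2]
    exact mem_univ _
  · show ((s.symm w : SS) : E5) 0 = _
    rw [hform]
    have hb : (b4 : E5) 0 = 1 := by simp [b4]
    have h3 : ((U.symm w : (ℝ ∙ (b4 : E5))ᗮ) : E5) 0 = 0 := by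
      rw [← horth w]
      show _ = inner ℝ (EuclideanSpace.single 0 (1 : ℝ)) _
      rw [EuclideanSpace.inner_single_left]
      simp
    simp only [PiLp.add_apply, PiLp.smul_apply, smul_eq_mul, h3, hb, mul_zero, zero_add,
      mul_one]
    rw [div_eq_inv_mul]
  · set N : E5 := ((U.symm n : (ℝ ∙ (b4 : E5))ᗮ) : E5) with hN
    obtain ⟨T, hT1, hT2⟩ := exists_sphIso ((ℝ ∙ N)ᗮ.reflection)
    have hin : ∀ w : E4, inner ℝ N ((U.symm w : (ℝ ∙ (b4 : E5))ᗮ) : E5) = inner ℝ n w := by
      intro w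
      rw [hN]
      have h1 := U.symm.inner_map_map n w
      exact h1
    have hR : ∀ v : E5, (ℝ ∙ N)ᗮ.reflection v = v - (2 * (inner ℝ N v / ‖N‖ ^ 2)) • N := by
      intro v
      rw [Submodule.reflection_orthogonal_apply, Submodule.reflection_singleton_apply, neg_sub]
      congr 1
      rw [two_smul, ← add_smul, ← two_mul]
      rfl
    have hR' : ∀ v : E4, (ℝ ∙ n)ᗮ.reflection v = v - (2 * (inner ℝ n v / ‖n‖ ^ 2)) • n := by
      intro v
      rw [Submodule.reflection_orthogonal_apply, Submodule.reflection_singleton_apply, neg_sub]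
      congr 1
      rw [two_smul, ← add_smul, ← two_mul]
      rfl
    have hNb : (ℝ ∙ N)ᗮ.reflection (b4 : E5) = b4 := by
      rw [hR]
      have h1 : inner ℝ N (b4 : E5) = 0 := by
        rw [real_inner_comm]
        exact horth n
      rw [h1, zero_div, mul_zero, zero_smul, sub_zero]
    refine ⟨T, hT1, ?_, fun w => ?_⟩
    · refine vec_inj ?_
      rw [hT2]
      exact hNb
    · refine vec_inj ?_
      rw [hT2]
      show (ℝ ∙ N)ᗮ.reflection ((s.symm w : SS) : E5) =
        ((s.symm ((ℝ ∙ n)ᗮ.reflection w) : SS) : E5)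
      rw [hform, hform, LinearIsometryEquiv.norm_map, map_add, map_smul, map_smul, map_smul,
        map_smul, hNb]
      congr 3
      rw [hR, hR', map_sub, map_smul, hin, hN, hn2]
      rfl

/-- the reflection which exchanges the two poles -/
theorem exists_swapPole : ∃ (J : Sphere4.carrier ≃ₜ Sphere4.carrier),
    (∀ z, LocalDiffeoAt (M := Sphere4) (X := Sphere4) J z) ∧ (∀ z, J (J z) = z) ∧
      ∀ z, coord (J z) 0 = - coord z 0 := by
  obtain ⟨J, h1, h2⟩ := exists_sphIso ((ℝ ∙ (b4 : E5))ᗮ.reflection)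
  refine ⟨J, h1, fun z => vec_inj ?_, fun z => ?_⟩
  · rw [h2, h2, Submodule.reflection_reflection]
  · rw [← vec_coord, h2, Submodule.reflection_orthogonal_apply,
      Submodule.reflection_singleton_apply, ← vec_coord]
    have hb : (b4 : E5) 0 = 1 := by simp [b4]
    have hi : inner ℝ (b4 : E5) (vec z) = vec z 0 := by
      show inner ℝ (EuclideanSpace.single 0 (1 : ℝ)) _ = _
      rw [EuclideanSpace.inner_single_left]
      simp
    have hnb : ‖(b4 : E5)‖ = 1 := norm_eq_of_mem_sphere b4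
    rw [hi, hnb]
    simp only [PiLp.neg_apply, PiLp.sub_apply, PiLp.smul_apply, smul_eq_mul, hb]
    norm_num
    ring

end Pool.Agent.HopfCov.Smooth
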