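import Pool.Agent.HopfSPC.Result

/-!
# Surgery: the relation between the two pairs in plain terms
-/

set_option autoImplicit false

open scoped ContDiff Topology Manifold
open Set Filter Metric

namespace Pool.Agent.HopfSPC

open Pool.Agent.HopfCov Pool.Agent.HopfCov.Smooth Pool.Agent.HopfFin

theorem sph_smooth (L : E4 ≃ₗᵢ[ℝ] E4) :
    ContMDiff (𝓡 3) (𝓡 3) ∞ (fun s : sphere (0 : E4) 1 =>
      (⟨L s, by simp⟩ : sphere (0 : E4) 1)) := by
  have := Fact.mk (@finrank_euclideanSpace_fin ℝ _ (3 + 1))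
  exact ContMDiff.codRestrict_sphere (n := 3) (f := fun s : sphere (0 : E4) 1 => L s)
    (L.toContinuousLinearEquiv.contDiff.contMDiff.comp (contMDiff_coe_sphere (n := 3))) _

/-- a linear isometry on the sphere -/
noncomputable def sphD (L : E4 ≃ₗᵢ[ℝ] E4) :
    Diffeomorph (𝓡 3) (𝓡 3) (sphere (0 : E4) 1) (sphere (0 : E4) 1) ∞ where
  toFun s := ⟨L s, by simp⟩
  invFun s := ⟨L.symm s, by simp⟩
  left_inv s := by simp
  right_inv s := by simp
  contMDiff_toFun := sph_smooth L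
  contMDiff_invFun := sph_smooth L.symm

theorem exists_rotS (v : sphere (0 : E4) 1) :
    ∃ R : Diffeomorph ((𝓡 1).prod (𝓡 3)) ((𝓡 1).prod (𝓡 3)) CS3 CS3 ∞,
      ∀ x, (R x).2 = b3 ↔ x.2 = v := by
  obtain ⟨L, hL⟩ := exists_isom (v : E4) (norm_sph v)
  refine ⟨(Diffeomorph.refl (𝓡 1) Circle ∞).prodCongr (sphD L), fun x => ?_⟩
  have h1 : (((Diffeomorph.refl (𝓡 1) Circle ∞).prodCongr (sphD L)) x).2 = sphD L x.2 := rfl
  have h2 : sphD L v = b3 := Subtype.ext hL
  rw [h1, ← h2]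
  exact (sphD L).injective.eq_iff

end Pool.Agent.HopfSPC

namespace Pool.Agent.HopfCov.Smooth

open Pool.Agent.HopfSPC Pool.Agent.HopfFin

/-- `M ∖ C` and `N ∖ A` are diffeomorphic -/
def SameComplement {M N : Mfd4} (C : Set M) (A : Set N) : Prop :=
  ∃ φ : M → N, BijOn φ Cᶜ Aᶜ ∧ ∀ x ∉ C, LocalDiffeoAt φ x

/-- the map `φ = f⁻¹ k h` between the complements -/
theorem Compl.same {A B M N : Mfd4} {k : OpenPartialHomeomorph A B} {h : M ≃ₜ A} {f : N ≃ₜ B}
    (hc : Compl k h f) : SameComplement (h ⁻¹' k.sourceᶜ) (f ⁻¹' k.targetᶜ) := by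
  refine ⟨fun z => f.symm (k (h z)), ⟨fun x hx => ?_, fun x hx y hy hxy => ?_, fun y hy => ?_⟩,
    fun x hx => hc x (not_not.1 hx)⟩
  · have hx' : h x ∈ k.source := not_not.1 hx
    show ¬ f (f.symm (k (h x))) ∈ k.targetᶜ
    rw [f.apply_symm_apply]
    exact not_not.2 (k.map_source hx')
  · exact h.injective (k.injOn (not_not.1 hx) (not_not.1 hy) (f.symm.injective hxy))
  · have hy' : f y ∈ k.target := not_not.1 hy
    refine ⟨h.symm (k.symm (f y)), ?_, ?_⟩
    · show ¬ h (h.symm (k.symm (f y))) ∈ k.sourceᶜ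
      rw [h.apply_symm_apply]
      exact not_not.2 (k.map_target hy')
    · show f.symm (k (h (h.symm (k.symm (f y))))) = y
      rw [h.apply_symm_apply, k.right_inv hy', f.symm_apply_apply]

theorem diffeoS1S3_straight {M S : Mfd4} {h : M ≃ₜ Circle × S3} {f : S ≃ₜ Sphere4}
    (hs : HopfSPC.Surgery h f) : SmoothOver f Sphere2 ∧
      SameComplement {x | (h x).2 = pole} (f ⁻¹' Sphere2) ∧
      (DiffeoS1S3 M ↔ ∃ g, Straightens f Sphere2 g) := by
  obtain ⟨X, τ, p, i, a1, a2, a3, a4, a5⟩ := exists_X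
  have hX : Mod X τ p i := ⟨a1, a2, a3, a4, a5⟩
  obtain ⟨s1, s2, s3⟩ := (surgery_iff hX h f).1 hs
  refine ⟨hs.sphere, ?_, surgery_thm.2.2 M S h f hs⟩
  have h1 := s3.same
  rw [kX_target, kX_source] at h1
  have h2 : (h.trans i.symm) ⁻¹' (circ i) = {x : M | (h x).2 = pole} := by
    ext x
    show (i (i.symm (h x))).2 = b3 ↔ _
    rw [i.apply_symm_apply]
    rfl
  have h3 : SameComplement (M := M) (N := S) ((h.trans i.symm) ⁻¹' (circ i)) (f ⁻¹' Sphere2) := h1
  rwa [h2] at h3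

/-- surgery on the circle, product -/
theorem surg_product :
    (∀ (M : Mfd4) (h : M ≃ₜ Circle × S3) (v : S3),
      (∀ x, (h x).2 = v → IsLocalDiffeomorphAt (𝓡 4) model13 ∞ h x) →
        ∃ (N : Mfd4) (f : N ≃ₜ Sphere4), SmoothOver f Sphere2 ∧
          SameComplement {x | (h x).2 = v} (f ⁻¹' Sphere2) ∧
          (DiffeoS1S3 M ↔ ∃ g, Straightens f Sphere2 g)) ∧
    (∀ (N : Mfd4) (f : N ≃ₜ Sphere4), SmoothOver f Sphere2 →
      ∃ (M : Mfd4) (h : M ≃ₜ Circle × S3) (v : S3),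
        (∀ x, (h x).2 = v → IsLocalDiffeomorphAt (𝓡 4) model13 ∞ h x) ∧
        SameComplement {x | (h x).2 = v} (f ⁻¹' Sphere2) ∧
        (DiffeoS1S3 M ↔ ∃ g, Straightens f Sphere2 g)) := by
  constructor
  · intro M h v hv
    obtain ⟨R, hR⟩ := exists_rotS v
    let h0 : M.carrier ≃ₜ CS3 := h
    have hv0 : ∀ x, (h0 x).2 = v →
      IsLocalDiffeomorphAt (𝓡 4) ((𝓡 1).prod (𝓡 3)) ∞ h0 x := hv
    let h' : M.carrier ≃ₜ CS3 := h0.trans R.toHomeomorph
    have e1 : ∀ x, (h' x).2 = b3 ↔ (h0 x).2 = v := fun x => hR (h0 x)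
    have hh' : ∀ x, (h' x).2 = b3 → IsLocalDiffeomorphAt (𝓡 4) ((𝓡 1).prod (𝓡 3)) ∞ h' x := by
      intro x hx
      exact (hv0 x ((e1 x).1 hx)).comp (K := (𝓡 1).prod (𝓡 3))
        (hg := R.isLocalDiffeomorph (h0 x))
    obtain ⟨N, f, hs⟩ := surgery_thm.1 M h' hh'
    obtain ⟨s1, s2, s3⟩ := diffeoS1S3_straight hs
    refine ⟨N, f, s1, ?_, s3⟩
    obtain ⟨φ, hφ, hφ2⟩ := s2
    have e2 : {x : M.carrier | (h' x).2 = b3} = {x : M.carrier | (h0 x).2 = v} := by
      ext x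
      exact e1 x
    have hφ' : BijOn φ {x : M.carrier | (h' x).2 = b3}ᶜ (f ⁻¹' Sphere2)ᶜ := hφ
    rw [e2] at hφ'
    exact ⟨φ, hφ', fun x hx => hφ2 x fun hx' => hx ((e1 x).1 hx')⟩
  · intro N f hf
    obtain ⟨M, h, hs⟩ := surgery_thm.2.1 N f hf
    obtain ⟨-, s2, s3⟩ := diffeoS1S3_straight hs
    exact ⟨M, h, pole, hs.circle, s2, s3⟩

/-- surgery on the section, twisted product -/
theorem surg_twisted {X P : Mfd4} {p : Punctured → X} {q : Sphere4 → P} (hX : Orbit X p rho)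
    (hP : Projective P q) :
    (∀ (M : Mfd4) (h : M ≃ₜ X), SmoothOver h (p '' {y | OnRay (val y)}) →
        ∃ (N : Mfd4) (f : N ≃ₜ P), SmoothOver f (q '' Sphere2) ∧
          SameComplement (h ⁻¹' (p '' {y | OnRay (val y)})) (f ⁻¹' (q '' Sphere2)) ∧
          (TwistedProduct M ↔ ∃ g, Straightens f (q '' Sphere2) g)) ∧
    (∀ (N : Mfd4) (f : N ≃ₜ P), SmoothOver f (q '' Sphere2) →
      ∃ (M : Mfd4) (h : M ≃ₜ X), SmoothOver h (p '' {y | OnRay (val y)}) ∧
        SameComplement (h ⁻¹' (p '' {y | OnRay (val y)})) (f ⁻¹' (q '' Sphere2)) ∧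
        (TwistedProduct M ↔ ∃ g, Straightens f (q '' Sphere2) g)) := by
  obtain ⟨k, hks, hkt, hkl, hk1, hk2⟩ := exists_modelT hX hP
  have hksl : ∀ y ∈ k.target, LocalDiffeoAt (M := P) (X := X) k.symm y := by
    intro y hy
    have := ld_symm k (k.map_target hy) (hkl _ (k.map_target hy))
    rwa [k.right_inv hy] at this
  have key : ∀ (M N : Mfd4) (h : M ≃ₜ X) (f : N ≃ₜ P), SmoothOver h (sectionSet p) →
      SmoothOver f (q '' Sphere2) → Compl k h f →
      SameComplement (h ⁻¹' (sectionSet p)) (f ⁻¹' (q '' Sphere2)) ∧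
        (TwistedProduct M ↔ ∃ g, Straightens f (q '' Sphere2) g) := by
    intro M N h f hh hf hc
    have h1 := hc.same
    rw [hks, hkt] at h1
    refine ⟨h1, ?_, ?_⟩
    · rintro ⟨p', hp'⟩
      obtain ⟨e, he⟩ := orbit_unique hp' hX
      obtain ⟨E, hE⟩ := homeo_of_isDiffeo he
      have hEl : ∀ x, LocalDiffeoAt E x := fun x => by
        have h3 : (E : M → X) = e := funext hE
        rw [h3]
        exact he.2 x
      have hEs : ∀ y, LocalDiffeoAt E.symm y := fun y => by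
        have := ld_symm' E (hEl (E.symm y))
        rwa [E.apply_symm_apply] at this
      obtain ⟨D, hD⟩ := fix_section hX (E.symm.trans h) (smoothOver_trans E.symm hEs h hh)
      have h4 := straightens_comp h E hEl hD
      obtain ⟨g, hg⟩ := (Compl.symm hc).straight hksl hk1
        (by
          show SmoothOver f k.targetᶜ
          rw [hkt]
          exact hf)
        ⟨_, by
          show Straightens h k.sourceᶜ _
          rw [hks]
          exact h4⟩
      refine ⟨g, ?_⟩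
      have h5 : Straightens f k.targetᶜ g := hg
      rwa [hkt] at h5
    · rintro ⟨g, hg⟩
      obtain ⟨D, hD, -⟩ := hc.straight hkl hk2
        (by
          rw [hks]
          exact hh)
        ⟨g, by
          rw [hkt]
          exact hg⟩
      exact hX.of_diffeo hD
  constructor
  · intro M h hh
    obtain ⟨N, f, hf, hc⟩ := exists_compl k hkl hk1 h (by
      rw [hks]
      exact hh)
    have hf' : SmoothOver f (q '' Sphere2) := by
      rw [← hkt]
      exact hf
    obtain ⟨s1, s2⟩ := key M N h f hh hf' hc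
    exact ⟨N, f, hf', s1, s2⟩
  · intro N f hf
    obtain ⟨M, h, hh, hc⟩ := exists_compl k.symm hksl hk2 f (by
      show SmoothOver f k.targetᶜ
      rw [hkt]
      exact hf)
    have hh' : SmoothOver h (sectionSet p) := by
      rw [← hks]
      exact hh
    obtain ⟨s1, s2⟩ := key M N h f hh' hf (Compl.symm hc)
    exact ⟨M, h, hh', s1, s2⟩

end Pool.Agent.HopfCov.Smooth
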