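import Pool.Agent.HopfSPC.SphIso

/-!
# Straightening a homeomorphism of the sphere near two points
-/

set_option autoImplicit false
set_option linter.unusedSectionVars false

open scoped ContDiff Topology Manifold
open Set Filter Metric Topology

namespace Pool.Agent.HopfCov.Smooth

open Pool.Agent.HopfCov

/-- a homeomorphism of `Y` which preserves the range of an embedding restricts -/
theorem conj_emb {X Y : Type} [TopologicalSpace X] [TopologicalSpace Y] {κ : X → Y}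
    (hκ : IsEmbedding κ) (Ψ : Y ≃ₜ Y) (hr : ∀ y, y ∈ range κ ↔ Ψ y ∈ range κ) :
    ∃ h : X ≃ₜ X, ∀ x, κ (h x) = Ψ (κ x) := by
  let e : X ≃ₜ range κ := hκ.toHomeomorph
  let P : {y // y ∈ range κ} ≃ₜ {y // y ∈ range κ} := Ψ.subtype hr
  refine ⟨(e.trans P).trans e.symm, fun x => ?_⟩
  show κ (e.symm (P (e x))) = Ψ (κ x)
  have h1 : ∀ y : range κ, κ (e.symm y) = y := fun y => by
    have h2 : (e (e.symm y) : Y) = y := by rw [e.apply_symm_apply]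
    exact h2
  rw [h1]
  rfl

/-- transport of a compactly supported diffeomorphism of `ℝ⁴` by a chart -/
theorem transport_LDA {Y : Type} [TopologicalSpace Y] [T2Space Y] [ChartedSpace E4 Y]
    [IsManifold (𝓡 4) ∞ Y] {κ : E4 → Y} (hκ : Par κ) {s : E4 ≃ₜ E4} (hs : ∀ x, LDA s x)
    {R : ℝ} {c : E4} (hR : ∀ x, x ∉ closedBall c R → s x = x) :
    ∃ θ : Y ≃ₜ Y, (∀ z, LDA θ z) ∧ (∀ x, θ (κ x) = κ (s x)) ∧
      ∀ y, y ∉ κ '' closedBall c R → θ y = y := by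
  obtain ⟨θ, h1, h2⟩ := exists_transport hκ.emb s (isCompact_closedBall c R) hR
  refine ⟨θ, fun z => ?_, h1, h2⟩
  by_cases hz : z ∈ range κ
  · obtain ⟨x, rfl⟩ := hz
    refine LDA.of_comp_right (hκ.loc x) ?_
    have h3 : (fun y => θ (κ y)) = fun y => κ (s y) := funext h1
    rw [h3]
    exact LDA.comp' (hκ.loc (s x)) (hs x)
  · have hcl : IsClosed (κ '' closedBall c R) :=
      ((isCompact_closedBall c R).image hκ.emb.continuous).isClosed
    refine (LDA_id z).congr' ?_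
    have hz' : z ∈ (κ '' closedBall c R)ᶜ := by
      rintro ⟨x, -, rfl⟩
      exact hz ⟨x, rfl⟩
    filter_upwards [hcl.isOpen_compl.mem_nhds hz'] with y hy
    exact (h2 y hy).symm

theorem LD.lda {s : ℝ} {f : E4 → E4} (h : ∀ x, LD s f x) (x : E4) : LDA f x :=
  ldAt_iff.2 (Eventually.of_forall fun y => (h y).rg)

/-- the sign of a germ -/
theorem germ_sign {f : E4 → E4} {x : E4} (h : LDA f x) :
    ∃ s : ℝ, (s = 1 ∨ s = -1) ∧ ∀ᶠ y in 𝓝 x, LD s f y := by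
  obtain ⟨ε, hε, hb⟩ := Metric.eventually_nhds_iff_ball.1 (ldAt_iff.1 h)
  obtain ⟨s, hs, h1⟩ := sign_const (f := f) isOpen_ball (convex_ball x ε).isPreconnected hb
  exact ⟨s, hs, eventually_of_mem (ball_mem_nhds x hε) h1⟩

/-- the local inverse of a parametrisation -/
theorem par_inv {Y : Type} [TopologicalSpace Y] [ChartedSpace E4 Y] [IsManifold (𝓡 4) ∞ Y]
    {κ : E4 → Y} (hκ : Par κ) : ∃ j : Y → E4, (∀ w, j (κ w) = w) ∧ ∀ w, LDA j (κ w) := by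
  refine ⟨(hκ.emb.toOpenPartialHomeomorph κ).symm, fun w => ?_, fun w => ?_⟩
  · exact (hκ.emb.toOpenPartialHomeomorph κ).left_inv (mem_univ w)
  · have hj : ∀ w, (hκ.emb.toOpenPartialHomeomorph κ).symm (κ w) = w := fun w =>
      (hκ.emb.toOpenPartialHomeomorph κ).left_inv (mem_univ w)
    refine LDA.of_comp_right (hκ.loc w) ?_
    exact (LDA_id w).congr' (Eventually.of_forall fun y => (hj y).symm)

theorem straight_two {Y : Type} [TopologicalSpace Y] [T2Space Y] [CompactSpace Y]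
    [ChartedSpace E4 Y] [IsManifold (𝓡 4) ∞ Y] {a b : Y} {κ κ' : E4 → Y} (hκ : Par κ)
    (hκ' : Par κ') (hr : range κ = {b}ᶜ) (hr' : range κ' = {a}ᶜ) (hab : a ≠ b) {T : Y ≃ₜ Y}
    (hT : ∀ z, LDA T z) (hTb : T b = b) {L : E4 → E4} (hL : ∀ x, LD (-1) L x)
    (hTL : ∀ w, T (κ' w) = κ' (L w))
    (orient : ∀ (h : E4 ≃ₜ E4) (R : ℝ), (∀ x, R ≤ ‖x‖ → h x = x) → ∀ x₀, RG h x₀ → LD 1 h x₀)
    {Ψ : Y ≃ₜ Y} (hb : Ψ b = b) (h1 : LDA Ψ b) (h2 : LDA Ψ a) :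
    ∃ χ : Y ≃ₜ Y, (∀ z, LDA χ z) ∧ (∀ᶠ z in 𝓝 b, χ (Ψ z) = z) ∧
      ∀ᶠ z in 𝓝 a, χ (Ψ z) = z := by
  obtain ⟨w₀, hw₀⟩ : b ∈ range κ' := by
    rw [hr']
    exact hab.symm
  obtain ⟨v₀, hv₀⟩ : a ∈ range κ := by
    rw [hr]
    exact hab
  obtain ⟨j, hj1, hj2⟩ := par_inv hκ'
  have hjb : j b = w₀ := by rw [← hw₀, hj1]
  have hjb' : LDA j b := by
    rw [← hw₀]
    exact hj2 w₀
  -- the germ at `b` of a homeomorphism fixing `b`
  have germ : ∀ Θ : Y ≃ₜ Y, Θ b = b → LDA Θ b → LDA (fun w => j (Θ (κ' w))) w₀ := by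
    intro Θ hΘ hΘ'
    have e1 : LDA (fun w => Θ (κ' w)) w₀ := LDA.comp' (by rw [hw₀]; exact hΘ') (hκ'.loc w₀)
    exact LDA.comp' (f := fun w => Θ (κ' w)) (g := j) (by
      show LDA j (Θ (κ' w₀))
      rw [hw₀, hΘ]
      exact hjb') e1
  -- points near `w₀` are mapped to points of the chart
  have near : ∀ Θ : Y ≃ₜ Y, Θ b = b → ∀ᶠ w in 𝓝 w₀, Θ (κ' w) ∈ range κ' := by
    intro Θ hΘ
    have e1 : ContinuousAt (fun w => Θ (κ' w)) w₀ :=
      (Θ.continuous.comp hκ'.emb.continuous).continuousAt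
    refine e1.eventually (hκ'.emb.isOpen_range.mem_nhds ?_)
    show Θ (κ' w₀) ∈ range κ'
    rw [hw₀, hΘ]
    exact ⟨w₀, hw₀⟩
  -- first correction: orientation at `b`
  obtain ⟨T₁, t1, t2, t3⟩ : ∃ T₁ : Y ≃ₜ Y, (∀ z, LDA T₁ z) ∧ T₁ b = b ∧
      ∀ᶠ w in 𝓝 w₀, LD 1 (fun w => j (T₁ (Ψ (κ' w)))) w := by
    obtain ⟨s, hs, hs1⟩ := germ_sign (germ Ψ hb h1)
    rcases hs with rfl | rfl
    · exact ⟨Homeomorph.refl Y, fun z => LDA_id z, rfl, hs1⟩
    · refine ⟨T, hT, hTb, ?_⟩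
      have e1 : ∀ᶠ w in 𝓝 w₀, j (T (Ψ (κ' w))) = L (j (Ψ (κ' w))) := by
        filter_upwards [near Ψ hb] with w hw
        obtain ⟨u, hu⟩ := hw
        rw [← hu, hTL, hj1, hj1]
      filter_upwards [hs1, e1.eventually_nhds] with w hw hw'
      have e2 := (hL (j (Ψ (κ' w)))).comp hw
      rw [show (-1 : ℝ) * -1 = 1 by norm_num] at e2
      refine e2.congr ?_
      filter_upwards [hw'] with u hu
      exact hu.symm
  set Ψ₁ : Y ≃ₜ Y := Ψ.trans T₁ with hΨ₁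
  have b1 : Ψ₁ b = b := by
    show T₁ (Ψ b) = b
    rw [hb, t2]
  -- second correction: the germ at `b`
  obtain ⟨H, g1, g2, g3⟩ := hGerm E4 (fun w => j (Ψ₁ (κ' w))) w₀ t3 (by
    show j (Ψ₁ (κ' w₀)) = w₀
    rw [hw₀, b1, hjb]) (ball w₀ 1) (ball_mem_nhds w₀ one_pos)
  have g4 : ∀ x, x ∉ closedBall w₀ 1 → H.symm x = x := by
    intro x hx
    rw [Homeomorph.symm_apply_eq]
    exact (g3 x fun h => hx (ball_subset_closedBall h)).symm
  have g5 : ∀ x, LDA H.symm x := by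
    intro x
    have e1 := (LD.lda g1 (H.symm x)).symm'
    rwa [H.apply_symm_apply] at e1
  obtain ⟨θ, θ1, θ2, θ3⟩ := transport_LDA hκ' g5 g4
  set Ψ₂ : Y ≃ₜ Y := Ψ₁.trans θ with hΨ₂
  have n2 : ∀ᶠ w in 𝓝 w₀, Ψ₂ (κ' w) = κ' w := by
    filter_upwards [near Ψ₁ b1, g2] with w hw hw'
    obtain ⟨u, hu⟩ := hw
    show θ (Ψ₁ (κ' w)) = κ' w
    have e1 : H w = u := by
      rw [hw']
      show j (Ψ₁ (κ' w)) = u
      rw [← hu, hj1]
    rw [← hu, θ2, ← e1, H.symm_apply_apply]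
  have n2' : ∀ᶠ z in 𝓝 b, Ψ₂ z = z := by
    rw [← hw₀, ← hκ'.emb.map_nhds_eq]
    exact n2
  have b2 : Ψ₂ b = b := n2'.self_of_nhds
  have a2 : LDA Ψ₂ a := by
    have e1 : LDA (fun z => T₁ (Ψ z)) a := LDA.comp' (t1 (Ψ a)) h2
    exact LDA.comp' (f := fun z => T₁ (Ψ z)) (g := θ) (θ1 _) e1
  -- the homeomorphism of the complement of `b`
  obtain ⟨h, hh⟩ := conj_emb hκ.emb.isEmbedding Ψ₂ (fun y => by
    rw [hr]
    show y ≠ b ↔ Ψ₂ y ≠ b
    rw [not_iff_not]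
    constructor
    · rintro rfl
      exact b2
    · intro hy
      rw [← b2] at hy
      exact Ψ₂.injective hy)
  obtain ⟨R, hR⟩ : ∃ R : ℝ, ∀ x, R ≤ ‖x‖ → h x = x := by
    obtain ⟨W, hW, hWo, hbW⟩ := mem_nhds_iff.1 n2'
    have e1 : Wᶜ ⊆ range κ := by
      rw [hr]
      intro z hz hzb
      exact hz (by
        rw [show z = b from hzb]
        exact hbW)
    have e2 : IsCompact (κ ⁻¹' Wᶜ) :=
      (hκ.emb.isInducing.isCompact_preimage_iff e1).2 hWo.isClosed_compl.isCompact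
    obtain ⟨R, hR⟩ := e2.isBounded.subset_ball (0 : E4)
    refine ⟨R, fun x hx => ?_⟩
    have e3 : κ x ∈ W := by
      by_contra hc
      have e4 := hR (show x ∈ κ ⁻¹' Wᶜ from hc)
      rw [mem_ball_zero_iff] at e4
      exact absurd hx (not_le.2 e4)
    apply hκ.emb.injective
    rw [hh]
    exact hW e3
  have c1 : LDA h v₀ := by
    refine LDA.of_comp h.continuous.continuousAt (hκ.loc (h v₀)) ?_
    have e1 : (fun w => κ (h w)) = fun w => Ψ₂ (κ w) := funext hh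
    rw [e1]
    exact LDA.comp' (by rw [hv₀]; exact a2) (hκ.loc v₀)
  have c2 : ∀ᶠ x in 𝓝 v₀, LD 1 h x := (ldAt_iff.1 c1).mono fun x hx => orient h R hR x hx
  obtain ⟨H₂, k1, k2, k3⟩ := germ_move hGerm hSwap hdim4 h v₀ c2
  obtain ⟨R₂, -, hR₂⟩ := exists_radius k3
  have k4 : ∀ x, x ∉ closedBall (0 : E4) R₂ → H₂.symm x = x := by
    intro x hx
    rw [mem_closedBall_zero_iff, not_le] at hx
    rw [Homeomorph.symm_apply_eq]
    exact (hR₂ x hx.le).symm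
  have k5 : ∀ x, LDA H₂.symm x := by
    intro x
    have e1 := (LD.lda k1 (H₂.symm x)).symm'
    rwa [H₂.apply_symm_apply] at e1
  obtain ⟨η, η1, η2, η3⟩ := transport_LDA hκ k5 k4
  refine ⟨(T₁.trans θ).trans η, fun z => ?_, ?_, ?_⟩
  · exact LDA.comp' (f := fun z => θ (T₁ z)) (g := η) (η1 _) (LDA.comp' (θ1 (T₁ z)) (t1 z))
  · have hcl : IsClosed (κ '' closedBall (0 : E4) R₂) :=
      ((isCompact_closedBall (0 : E4) R₂).image hκ.emb.continuous).isClosed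
    have hb' : b ∈ (κ '' closedBall (0 : E4) R₂)ᶜ := by
      rintro ⟨x, -, hx⟩
      have e1 : b ∈ range κ := ⟨x, hx⟩
      rw [hr] at e1
      exact e1 rfl
    filter_upwards [n2', hcl.isOpen_compl.mem_nhds hb'] with z hz hz'
    show η (Ψ₂ z) = z
    rw [hz, η3 z hz']
  · rw [← hv₀, ← hκ.emb.map_nhds_eq]
    show ∀ᶠ w in 𝓝 v₀, η (Ψ₂ (κ w)) = κ w
    filter_upwards [k2] with w hw
    rw [← hh, η2, ← hw, H₂.symm_apply_apply]

end Pool.Agent.HopfCov.Smooth
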